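import Pool.Agent.R490.Single
import Pool.Agent.Y781.JR.Dens
import Pool.Agent.TH464.PW.Quad

set_option autoImplicit false

/-! The spacing laws of the integers `n` such that `n ^ 2 - 2` has no small prime factor. -/

namespace Pool.Agent.T2H62.SpM2

open Polynomial Finset Filter Topology
open Pool.Agent.R490.Sg (Ro De D1 Dk gapS Good)
open Pool.Agent.Y781.JR (RR GG RR_conv dens_eq)

/-- the polynomial -/
def f2 : ℤ → ℤ := fun x => x ^ 2 - 2

lemma sq_ne (r k : ℤ) (h1 : r * r = k) (h2 : k = 2 ∨ k = 8) : False := by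
  have h3 : |r| < 3 := by
    by_contra hcon
    push Not at hcon
    have := mul_le_mul hcon hcon (by norm_num) (abs_nonneg r)
    rw [← abs_mul, h1] at this
    rcases h2 with rfl | rfl <;> norm_num at this
  rw [abs_lt] at h3
  have : r = -2 ∨ r = -1 ∨ r = 0 ∨ r = 1 ∨ r = 2 := by omega
  rcases this with rfl | rfl | rfl | rfl | rfl <;> norm_num at h1 <;> omega

lemma ns2 : ¬ IsSquare (-(-2 : ℤ)) := by
  rintro ⟨r, hr⟩
  exact sq_ne r 2 (by rw [← hr]; norm_num) (Or.inl rfl)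

lemma good2 (X : ℕ) (hX : 2 ≤ X) : Good 2 ((X : ℤ) ^ 1) (Pool.Agent.TH464.PW.quad 1 0 (-2)) f2 where
  ev := fun x => by
    rw [Pool.Agent.TH464.PW.quad_eval]
    unfold f2
    ring
  irr := by
    apply Pool.Agent.TH464.PW.quad_irr 1 0 (-2) one_ne_zero
    · rintro p hp ⟨h1, -, -⟩
      exact hp.one_lt.ne' (Nat.dvd_one.1 (by exact_mod_cast h1))
    · rintro ⟨r, hr⟩
      exact sq_ne r 8 (by rw [← hr]; norm_num) (Or.inr rfl)
  deg := by rw [Pool.Agent.TH464.PW.quad_deg 1 0 (-2) one_ne_zero]; norm_num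
  degD := by rw [Pool.Agent.TH464.PW.quad_deg 1 0 (-2) one_ne_zero]
  hgt := fun n => by
    have hX2 : (2 : ℤ) ≤ (X : ℤ) ^ 1 := by rw [pow_one]; exact_mod_cast hX
    have : |(Pool.Agent.TH464.PW.quad 1 0 (-2)).coeff n| ≤ 2 := by
      unfold Pool.Agent.TH464.PW.quad
      simp only [coeff_add, coeff_C_mul, coeff_X_pow, coeff_C, C_0, zero_mul, coeff_zero]
      rcases n with _ | _ | _ | n <;> simp
    linarith
  adm := fun p hp => by
    by_cases h2 : p = 2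
    · refine ⟨1, fun h => ?_⟩
      subst h2
      unfold f2 at h
      norm_num at h
    · refine ⟨0, fun h => ?_⟩
      unfold f2 at h
      norm_num at h
      have h5 : p ∣ 2 := by exact_mod_cast h
      exact h2 ((Nat.prime_dvd_prime_iff_eq hp Nat.prime_two).1 h5)

lemma D1_GG (y : ℕ) : D1 y = GG (y + 1) := rfl

lemma De_dens (y : ℕ) : De f2 y = Pool.Agent.Y882.JR.dens (-2) ((y + 1 : ℕ) : ℝ) := by
  classical
  unfold De Pool.Agent.Y882.JR.dens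
  rw [Nat.ceil_natCast]
  apply Finset.prod_congr rfl
  intro p _
  congr 3

lemma De_eq (y : ℕ) : De f2 y = D1 y * RR (-2) (y + 1) := by
  rw [De_dens, dens_eq, Nat.ceil_natCast, D1_GG]

/-- the density -/
theorem dens_lim : ∃ L : ℝ, 0 < L ∧ Tendsto (RR (-2)) atTop (𝓝 L) ∧
    Tendsto (fun y : ℕ => De f2 y * Real.log y) atTop (𝓝 (L * Real.exp (-Real.eulerMascheroniConstant))) := by
  obtain ⟨C, hC, hR⟩ := RR_conv (-2) ns2
  refine ⟨C, hC, hR, ?_⟩
  have h1 := (hR.comp (tendsto_add_atTop_nat 1)).mul Pool.Agent.Y781.JR.GG_mertens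
  refine h1.congr (fun y => ?_)
  simp only [Function.comp]
  rw [De_eq, D1_GG]
  ring

theorem law (θ : ℝ) (hθ : 0 < θ) (k0 : ℕ) (x0 ε : ℝ) (hε : 0 < ε) :
    ∃ r0 : ℕ, ∀ r : ℕ, r0 ≤ r → ∀ᶠ X : ℕ in atTop, ∀ y : ℕ, y = ⌊(X : ℝ) ^ (1 / (r : ℝ))⌋₊ →
      ∀ u Y : ℕ, (X : ℝ) ^ θ ≤ Y → ∀ k T : ℕ, (k ≤ k0 ∨ T * De f2 y ≤ x0) →
        |(Dk f2 y k T u Y : ℝ) - Y * De f2 y *
          ∑ j ∈ range k, Real.exp (-(T * De f2 y)) * (T * De f2 y) ^ j / j.factorial| ≤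
          ε * (Y * De f2 y) := by
  obtain ⟨r0, h0⟩ := gapS 2 1 θ hθ k0 x0 ε hε
  obtain ⟨C, hC, hR⟩ := RR_conv (-2) ns2
  -- a bound for RR
  obtain ⟨B, hB⟩ : ∃ B : ℝ, ∀ N : ℕ, RR (-2) N ≤ B := by
    obtain ⟨B, hB⟩ := hR.bddAbove_range
    exact ⟨B, fun N => hB (Set.mem_range_self N)⟩
  refine ⟨r0, fun r hr => ?_⟩
  filter_upwards [h0 r hr B, eventually_ge_atTop 2] with X h1 h2
  intro y hy u Y hY k T hT
  refine h1 _ f2 (good2 X h2) y hy ?_ u Y hY k T hT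
  rw [De_eq, mul_comm]
  exact mul_le_mul_of_nonneg_right (hB _) (by rw [D1_GG]; exact (Pool.Agent.Y781.JR.GG_pos _).le)

end Pool.Agent.T2H62.SpM2
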