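import Mathlib

/-!
The recursion `a n = |a (n - 1) - gcd (a (n - 1), n (n + 2 m))|` from an arbitrary initial value.
-/

set_option autoImplicit false

namespace Pool.Agent.T2H62.RZ

/-- the recursion of the question, without the initial value -/
def Recursion (m : ℕ) (a : ℕ → ℕ) : Prop :=
  ∀ n : ℕ, 2 ≤ n → (a n : ℤ) = |(a (n - 1) : ℤ) - (Nat.gcd (a (n - 1)) (n * (n + 2 * m)) : ℤ)|

/-- `n` is the first zero of `a` -/
def FirstZero (a : ℕ → ℕ) (n : ℕ) : Prop := 1 ≤ n ∧ a n = 0 ∧ ∀ k : ℕ, 1 ≤ k → k < n → a k ≠ 0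

variable {m : ℕ} {a : ℕ → ℕ}

theorem step (ha : Recursion m a) {n : ℕ} (hn : 2 ≤ n) (h0 : a (n - 1) ≠ 0) :
    a n + Nat.gcd (a (n - 1)) (n * (n + 2 * m)) = a (n - 1) ∧ 1 ≤ Nat.gcd (a (n - 1)) (n * (n + 2 * m)) := by
  have h1 : Nat.gcd (a (n - 1)) (n * (n + 2 * m)) ≤ a (n - 1) := Nat.gcd_le_left _ (Nat.pos_of_ne_zero h0)
  have h2 : 1 ≤ Nat.gcd (a (n - 1)) (n * (n + 2 * m)) := Nat.gcd_pos_of_pos_left _ (Nat.pos_of_ne_zero h0)
  have h3 := ha n hn
  rw [abs_of_nonneg (by
    have : (Nat.gcd (a (n - 1)) (n * (n + 2 * m)) : ℤ) ≤ (a (n - 1) : ℤ) := by exact_mod_cast h1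
    linarith)] at h3
  refine ⟨?_, h2⟩
  have h4 : ((a n + Nat.gcd (a (n - 1)) (n * (n + 2 * m)) : ℕ) : ℤ) = ((a (n - 1) : ℕ) : ℤ) := by
    push_cast
    linarith
  exact_mod_cast h4

theorem upper (ha : Recursion m a) : ∀ n : ℕ, 1 ≤ n → (∀ k : ℕ, 1 ≤ k → k < n → a k ≠ 0) → a n + (n - 1) ≤ a 1 := by
  intro n hn
  induction n, hn using Nat.le_induction with
  | base => intro _; simp
  | succ n hn ih =>
    intro h
    have h1 := ih (fun k hk1 hk2 => h k hk1 (by omega))
    have h2 := step ha (n := n + 1) (by omega) (by rw [Nat.add_sub_cancel]; exact h n hn (by omega))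
    rw [Nat.add_sub_cancel] at h2
    omega

/-- the first zero exists and is at most `a 1 + 1` -/
theorem exists_zero (ha : Recursion m a) : ∃ n : ℕ, FirstZero a n ∧ n ≤ a 1 + 1 := by
  classical
  by_cases h : ∀ k : ℕ, 1 ≤ k → k < a 1 + 1 → a k ≠ 0
  · have h1 := upper ha (a 1 + 1) (by omega) h
    exact ⟨a 1 + 1, ⟨by omega, by omega, h⟩, le_rfl⟩
  · push Not at h
    obtain ⟨k, hk1, hk2, hk3⟩ := h
    have hex : ∃ n, 1 ≤ n ∧ a n = 0 := ⟨k, hk1, hk3⟩
    refine ⟨Nat.find hex, ⟨(Nat.find_spec hex).1, (Nat.find_spec hex).2, fun j hj1 hj2 hj3 =>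
      Nat.find_min hex hj2 ⟨hj1, hj3⟩⟩, ?_⟩
    exact (Nat.find_min' hex ⟨hk1, hk3⟩).trans hk2.le

theorem zero_unique {n n' : ℕ} (h : FirstZero a n) (h' : FirstZero a n') : n = n' := by
  rcases lt_trichotomy n n' with h1 | h1 | h1
  · exact absurd h.2.1 (h'.2.2 n h.1 h1)
  · exact h1
  · exact absurd h'.2.1 (h.2.2 n' h'.1 h1)

theorem run_down (hm : 1 ≤ m) (ha : Recursion m a) {A : ℕ} (h1 : a 1 = A) (hp : (A + 2).Prime)
    (hq : (A + 2 * m + 2).Prime) : ∀ n : ℕ, 1 ≤ n → n < A + 2 → a n = A + 1 - n := by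
  intro n hn
  induction n, hn using Nat.le_induction with
  | base => intro _; rw [h1]; omega
  | succ n hn ih =>
    intro hlt
    have h2 := ih (by omega)
    have h3 := step ha (n := n + 1) (by omega) (by rw [Nat.add_sub_cancel, h2]; omega)
    rw [Nat.add_sub_cancel, h2] at h3
    have h4 : Nat.gcd (A + 1 - n) ((n + 1) * (n + 1 + 2 * m)) = 1 := by
      by_contra hg
      obtain ⟨q, hq', hqd⟩ := Nat.exists_prime_and_dvd hg
      have h5 : q ∣ A + 1 - n := hqd.trans (Nat.gcd_dvd_left _ _)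
      have h6 : q ∣ (n + 1) * (n + 1 + 2 * m) := hqd.trans (Nat.gcd_dvd_right _ _)
      have h7 : q ≤ A + 1 - n := Nat.le_of_dvd (by omega) h5
      rcases (Nat.Prime.dvd_mul hq').1 h6 with h8 | h8
      · have h9 : q ∣ A + 2 := by
          have := dvd_add h5 h8
          rwa [show A + 1 - n + (n + 1) = A + 2 by omega] at this
        have h10 := (Nat.prime_dvd_prime_iff_eq hq' hp).1 h9
        omega
      · have h9 : q ∣ A + 2 * m + 2 := by
          have := dvd_add h5 h8
          rwa [show A + 1 - n + (n + 1 + 2 * m) = A + 2 * m + 2 by omega] at this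
        have h10 := (Nat.prime_dvd_prime_iff_eq hq' hq).1 h9
        omega
    omega

/-- a jump free descent ends at a pair of primes -/
theorem zero_iff (hm : 1 ≤ m) (ha : Recursion m a) {A : ℕ} (h1 : a 1 = A) (hA : 2 * m + 2 ≤ A) :
    FirstZero a (A + 1) ↔ (A + 2).Prime ∧ (A + 2 * m + 2).Prime := by
  constructor
  · rintro ⟨-, hz, hne⟩
    -- the values
    have hval : ∀ k : ℕ, 1 ≤ k → k ≤ A + 1 → a k = A + 1 - k := by
      intro k hk1 hk2
      have hup := upper ha k hk1 (fun j hj1 hj2 => hne j hj1 (by omega))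
      -- downward
      have hdown : ∀ j : ℕ, k + j ≤ A + 1 → a (k + j) + j ≤ a k := by
        intro j
        induction j with
        | zero => intro _; simp
        | succ j ih =>
          intro hj
          have h2 := ih (by omega)
          have h3 := step ha (n := k + (j + 1)) (by omega) (by
            rw [show k + (j + 1) - 1 = k + j by omega]
            exact hne _ (by omega) (by omega))
          rw [show k + (j + 1) - 1 = k + j by omega] at h3
          omega
      have h4 := hdown (A + 1 - k) (by omega)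
      rw [show k + (A + 1 - k) = A + 1 by omega, hz] at h4
      omega
    have hgcd : ∀ k : ℕ, 2 ≤ k → k ≤ A + 1 → Nat.gcd (A + 2 - k) (k * (k + 2 * m)) = 1 := by
      intro k hk1 hk2
      have h2 := step ha hk1 (hne (k - 1) (by omega) (by omega))
      rw [hval (k - 1) (by omega) (by omega), hval k (by omega) hk2, show A + 1 - (k - 1) = A + 2 - k by omega] at h2
      omega
    constructor
    · by_contra hc
      have hq := Nat.minFac_prime (show A + 2 ≠ 1 by omega)
      have h2 := Nat.minFac_sq_le_self (show 0 < A + 2 by omega) hc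
      have h3 := Nat.minFac_dvd (A + 2)
      obtain ⟨q, hqd⟩ : ∃ q, q = Nat.minFac (A + 2) := ⟨_, rfl⟩
      rw [← hqd] at hq h2 h3
      have hq2 := hq.two_le
      have hqA : q ≤ A := by nlinarith
      have h4 := hgcd q hq2 (by omega)
      have h5 : q ∣ A + 2 - q := Nat.dvd_sub h3 (dvd_refl q)
      have h6 : q ∣ q * (q + 2 * m) := Dvd.intro _ rfl
      have h7 := Nat.dvd_gcd h5 h6
      rw [h4] at h7
      exact hq.one_lt.ne' (Nat.dvd_one.1 h7)
    · by_contra hc
      have hq := Nat.minFac_prime (show A + 2 * m + 2 ≠ 1 by omega)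
      have h2 := Nat.minFac_sq_le_self (show 0 < A + 2 * m + 2 by omega) hc
      have h3 := Nat.minFac_dvd (A + 2 * m + 2)
      obtain ⟨q, hqd⟩ : ∃ q, q = Nat.minFac (A + 2 * m + 2) := ⟨_, rfl⟩
      rw [← hqd] at hq h2 h3
      have hq2 := hq.two_le
      have hqA : q ≤ A := by
        by_contra hcon
        push Not at hcon
        nlinarith
      -- a multiple of `q` among `2 m + 2, ..., 2 m + 1 + q`
      obtain ⟨k, hk1, hk2, hk3⟩ : ∃ k : ℕ, 2 ≤ k ∧ k ≤ q + 1 ∧ q ∣ k + 2 * m := by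
        have h4 := Nat.div_add_mod (2 * m + 1) q
        have h5 := Nat.mod_lt (2 * m + 1) hq.pos
        refine ⟨1 + (q - (2 * m + 1) % q), by omega, by omega, ?_⟩
        refine ⟨(2 * m + 1) / q + 1, ?_⟩
        have h6 : q * ((2 * m + 1) / q + 1) = q * ((2 * m + 1) / q) + q := by ring
        rw [h6]
        omega
      have h4 := hgcd k hk1 (by omega)
      have h5 : q ∣ A + 2 - k := by
        have h6 := Nat.dvd_sub h3 hk3
        rwa [show A + 2 * m + 2 - (k + 2 * m) = A + 2 - k by omega] at h6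
      have h6 : q ∣ k * (k + 2 * m) := hk3.mul_left k
      have h7 := Nat.dvd_gcd h5 h6
      rw [h4] at h7
      exact hq.one_lt.ne' (Nat.dvd_one.1 h7)
  · rintro ⟨hp, hq⟩
    have h2 := run_down hm ha h1 hp hq
    refine ⟨by omega, ?_, fun k hk1 hk2 => ?_⟩
    · rw [h2 (A + 1) (by omega) (by omega)]
      omega
    · rw [h2 k hk1 (by omega)]
      omega

end Pool.Agent.T2H62.RZ
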