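import Pool.Agent.X32.Uni.Short3
import Pool.Agent.X32.Uni.Gold

/-!
Patterns in the orbits of `n ↦ 2 n + u`, `u = 1` or `u = -1`: Chen's theorem with exact patterns.
-/

set_option autoImplicit false

namespace Pool.Agent.T2H62.ChX

open Finset Filter
open Polynomial (C X aeval)
open scoped Polynomial
open Pool.Agent.X32.Uni

/-- the covering of almost all of a set of arguments with rough values by progressions -/
theorem cover (D t : ℕ) (ht : 1 ≤ t) (s r : ℕ) (hs : 1 ≤ s) (ε δ : ℝ) (hε : 0 < ε) (hδ : 0 < δ) :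
    ∃ b X₀ : ℕ, ∀ X : ℕ, X₀ ≤ X → ∀ (m : ℕ) (f : Fin m → ℤ[X]), (∑ l, (f l).natDegree) ≤ D → Loc f →
      ∀ A B : ℕ, B ≤ X → (X : ℝ) ^ ε ≤ (B : ℝ) - A → ∀ G : Finset ℕ, G ⊆ Ioc A B →
      (∀ x ∈ G, ∀ l, ∀ q : ℕ, q.Prime → (q : ℤ) ∣ (f l).eval (x : ℤ) → (X : ℝ) ^ (1 / (t : ℝ)) < q) →
      0 < V f X →
      ∀ χ : ℕ → Fin r, ∃ P : Finset (ℕ × ℕ),
        (∀ z ∈ P, 1 ≤ z.2 ∧ (z.2 : ℝ) ≤ Real.log X ^ b ∧
          ∀ l < s, z.1 + l * z.2 ∈ G ∧ χ (z.1 + l * z.2) = χ z.1) ∧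
        (P : Set (ℕ × ℕ)).PairwiseDisjoint (apSet s) ∧
        (((G \ P.biUnion (apSet s)).card : ℕ) : ℝ) ≤ δ * ((B : ℝ) - A) * V f X := by
  classical
  obtain ⟨b, X₂, h2⟩ := prog_short D t ht s ε (δ / (r + 1)) hε (by positivity)
  refine ⟨b, max X₂ 1, fun X hX m f hD hloc A B hB hAB G hG hq hV χ => ?_⟩
  have hX1 : (1 : ℝ) ≤ X := by exact_mod_cast (le_max_right _ _).trans hX
  have hAB0 : 0 < (B : ℝ) - A := lt_of_lt_of_le (Real.rpow_pos_of_pos (by linarith) _) hAB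
  obtain ⟨P, p1, p2, p3⟩ := part_col s r hs (Real.log X ^ b) (δ / (r + 1) * ((B : ℝ) - A) * V f X)
    (by positivity) G (by
      intro T hT hTc
      refine h2 X ((le_max_left _ _).trans hX) m f hD hloc A B hB hAB T (hT.trans hG) ?_ hTc
      intro x hx
      exact hq x (hT hx)) χ
  refine ⟨P, p1, p2, p3.le.trans ?_⟩
  have h6 : (r : ℝ) * (δ / (r + 1) * ((B : ℝ) - A) * V f X) =
      (r / (r + 1)) * (δ * ((B : ℝ) - A) * V f X) := by
    field_simp
  rw [h6]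
  have h7 : (r : ℝ) / (r + 1) ≤ 1 := by
    rw [div_le_one (by positivity)]
    linarith
  exact mul_le_of_le_one_left (by positivity) h7

/-- the `h`-th iterate of `n ↦ 2 n + u` at `n` -/
def cz (u : ℤ) (h : ℕ) (n : ℤ) : ℤ := 2 ^ h * (n + u) - u

/-- the `h`-th iterate as a polynomial -/
noncomputable def fc (u : ℤ) (h : ℕ) : ℤ[X] := C ((2 : ℤ) ^ h) * X + C ((2 : ℤ) ^ h * u - u)

theorem fc_eval (u : ℤ) (h : ℕ) (n : ℤ) : (fc u h).eval n = cz u h n := by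
  unfold fc cz
  simp
  ring

theorem fc_deg (u : ℤ) (h : ℕ) : (fc u h).natDegree = 1 := by
  unfold fc
  exact Polynomial.natDegree_linear (pow_ne_zero _ two_ne_zero)

theorem fc_coeff (u : ℤ) (h : ℕ) : (fc u h).coeff 1 = 2 ^ h := by
  unfold fc
  rw [Polynomial.coeff_add, Polynomial.coeff_C_mul, Polynomial.coeff_X_one, Polynomial.coeff_C_succ]
  ring

theorem fc_ne {u : ℤ} {h h' : ℕ} (hne : h ≠ h') : fc u h ≠ fc u h' := by
  intro he
  have h1 := congrArg (fun q : ℤ[X] => q.coeff 1) he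
  simp only [fc_coeff] at h1
  exact hne (Nat.pow_right_injective le_rfl (by exact_mod_cast h1))

theorem fc_ne' {u : ℤ} {h h' : ℕ} : fc u h ≠ - fc u h' := by
  intro he
  have h1 := congrArg (fun q : ℤ[X] => q.coeff 1) he
  simp only [fc_coeff, Polynomial.coeff_neg] at h1
  have h2 : (0 : ℤ) < 2 ^ h := by positivity
  have h3 : (0 : ℤ) < 2 ^ h' := by positivity
  omega

/-- the zero of the `h`-th iterate -/
noncomputable def rt (u : ℤ) (h : ℕ) : ℂ := (u : ℂ) / 2 ^ h - u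

theorem fc_aeval (u : ℤ) (h : ℕ) (z : ℂ) : aeval z (fc u h) = 2 ^ h * (z + u) - u := by
  unfold fc
  rw [map_add, map_mul, Polynomial.aeval_C, Polynomial.aeval_C, Polynomial.aeval_X]
  simp only [eq_intCast]
  push_cast
  ring

theorem fc_rt (u : ℤ) (h : ℕ) : aeval (rt u h) (fc u h) = 0 := by
  rw [fc_aeval]
  unfold rt
  have : (2 : ℂ) ^ h ≠ 0 := pow_ne_zero _ two_ne_zero
  field_simp
  ring

theorem fc_rt' {u : ℤ} (hu : u ≠ 0) {h h' : ℕ} (hne : h ≠ h') : aeval (rt u h) (fc u h') ≠ 0 := by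
  rw [fc_aeval]
  unfold rt
  intro h1
  have h2 : (2 : ℂ) ^ h ≠ 0 := pow_ne_zero _ two_ne_zero
  have h3 : (u : ℂ) ≠ 0 := by exact_mod_cast hu
  have h4 : (2 : ℂ) ^ h' * ((u : ℂ) / 2 ^ h - u + u) - u = u * (2 ^ h' - 2 ^ h) / 2 ^ h := by
    field_simp
    ring
  rw [h4, div_eq_zero_iff, mul_eq_zero] at h1
  rcases h1 with (h1 | h1) | h1
  · exact h3 h1
  · have h5 : (2 : ℂ) ^ h' = 2 ^ h := by linear_combination h1
    exact hne (Nat.pow_right_injective le_rfl (by exact_mod_cast h5.symm))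
  · exact h2 h1

theorem fc_ne0 (u : ℤ) (h : ℕ) : fc u h ≠ 0 := by
  intro h1
  have h2 := fc_deg u h
  rw [h1] at h2
  simp at h2

variable {k : ℕ}

/-- the forms at the given places -/
noncomputable def sy (u : ℤ) (pos : Fin k → ℕ) (l : Fin k) : ℤ[X] := fc u (pos l)

theorem sy_loc {u : ℤ} (hu : u = 1 ∨ u = -1) (pos : Fin k → ℕ) : Loc (sy u pos) := by
  intro p hp
  refine ⟨-u, ?_⟩
  intro hd
  obtain ⟨l, _, hl⟩ := (Nat.prime_iff_prime_int.1 hp).exists_mem_finset_dvd hd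
  unfold sy at hl
  rw [fc_eval] at hl
  unfold cz at hl
  have h1 : (p : ℤ) ∣ u := by
    have h2 : (2 : ℤ) ^ pos l * (-u + u) - u = -u := by ring
    rw [h2] at hl
    exact (dvd_neg).1 hl
  have h2 : (p : ℤ) ∣ 1 := by
    rcases hu with rfl | rfl
    · exact h1
    · exact (dvd_neg).1 h1
  have h3 := Int.eq_one_of_dvd_one (by positivity) h2
  have := hp.one_lt
  omega

theorem sy_sum (u : ℤ) (pos : Fin k → ℕ) : ∑ l, (sy u pos l).natDegree = k := by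
  have : ∀ l, (sy u pos l).natDegree = 1 := fun l => fc_deg u _
  simp only [this]
  simp

/-- `v > 1` is a product of at most `r` primes, all of them larger than `y` -/
def AlmostN (r : ℕ) (y : ℝ) (v : ℕ) : Prop :=
  1 < v ∧ v.primeFactorsList.length ≤ r ∧ ∀ q : ℕ, q.Prime → q ∣ v → y < q

/-- the number of the `x` modulo `p` for which `p` divides one of the `c (pos l) x` -/
def omC (c : ℕ → ℕ → ℕ) (pos : Fin k → ℕ) (p : ℕ) : ℕ :=
  ((Icc 1 p).filter (fun x : ℕ => p ∣ ∏ l, c (pos l) x)).card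

/-- the product of `1 - ω(p) / p` over the primes `p ≤ X` -/
noncomputable def VC (c : ℕ → ℕ → ℕ) (pos : Fin k → ℕ) (X : ℕ) : ℝ :=
  ∏ p ∈ (Icc 1 X).filter Nat.Prime, (1 - (omC c pos p : ℝ) / p)

theorem prod_cast {u : ℤ} {c : ℕ → ℕ → ℕ} (hc : ∀ h n : ℕ, 1 ≤ n → (c h n : ℤ) = cz u h n)
    (pos : Fin k → ℕ) {n : ℕ} (hn : 1 ≤ n) :
    ((∏ l, c (pos l) n : ℕ) : ℤ) = ∏ l, (sy u pos l).eval (n : ℤ) := by
  push_cast
  refine prod_congr rfl fun l _ => ?_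
  unfold sy
  rw [fc_eval, hc _ _ hn]

theorem om_eq {u : ℤ} {c : ℕ → ℕ → ℕ} (hc : ∀ h n : ℕ, 1 ≤ n → (c h n : ℤ) = cz u h n)
    (pos : Fin k → ℕ) {p : ℕ} (hp : p.Prime) : om (sy u pos) p = omC c pos p := by
  classical
  unfold om omC
  apply card_bij' (i := fun x _ => if x = 0 then p else x) (j := fun x _ => x % p)
  · intro x hx
    rw [mem_filter, mem_range] at hx
    rw [mem_filter, mem_Icc]
    by_cases h0 : x = 0
    · simp only [h0, if_true]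
      refine ⟨⟨hp.one_lt.le, le_rfl⟩, ?_⟩
      rw [← Int.natCast_dvd_natCast, prod_cast hc pos hp.one_lt.le]
      rw [h0] at hx
      have h1 := hx.2
      have h2 : ((p : ℕ) : ℤ) ≡ ((0 : ℕ) : ℤ) [ZMOD p] := by
        push_cast
        exact (Int.modEq_zero_iff_dvd.2 (dvd_refl _))
      rwa [← dvd_iff h2] at h1
    · simp only [h0, if_false]
      refine ⟨⟨Nat.one_le_iff_ne_zero.2 h0, hx.1.le⟩, ?_⟩
      rw [← Int.natCast_dvd_natCast, prod_cast hc pos (Nat.one_le_iff_ne_zero.2 h0)]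
      exact hx.2
  · intro x hx
    rw [mem_filter, mem_Icc] at hx
    rw [mem_filter, mem_range]
    refine ⟨Nat.mod_lt _ hp.pos, ?_⟩
    have h2 : ((x % p : ℕ) : ℤ) ≡ x [ZMOD p] := by
      push_cast
      exact Int.mod_modEq _ _
    rw [dvd_iff h2, ← prod_cast hc pos hx.1.1, Int.natCast_dvd_natCast]
    exact hx.2
  · intro x hx
    rw [mem_filter, mem_range] at hx
    by_cases h0 : x = 0
    · simp [h0]
    · simp only [h0, if_false]
      exact Nat.mod_eq_of_lt hx.1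
  · intro x hx
    rw [mem_filter, mem_Icc] at hx
    rcases Nat.lt_or_ge x p with h | h
    · simp only [Nat.mod_eq_of_lt h]
      have : x ≠ 0 := by omega
      simp [this]
    · have : x = p := le_antisymm hx.1.2 h
      simp [this]

theorem V_eq {u : ℤ} {c : ℕ → ℕ → ℕ} (hc : ∀ h n : ℕ, 1 ≤ n → (c h n : ℤ) = cz u h n)
    (pos : Fin k → ℕ) (X : ℕ) : V (sy u pos) X = VC c pos X := by
  unfold V VC
  refine prod_congr rfl fun p hp => ?_
  rw [om_eq hc pos (mem_filter.1 hp).2]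

theorem almost_iff {u : ℤ} {c : ℕ → ℕ → ℕ} (hc : ∀ h n : ℕ, 1 ≤ n → (c h n : ℤ) = cz u h n)
    (r : ℕ) (y : ℝ) (h : ℕ) {n : ℕ} (hn : 1 ≤ n) :
    Almost r y ((fc u h).eval (n : ℤ)) ↔ AlmostN r y (c h n) := by
  rw [fc_eval, ← hc h n hn]
  exact Pool.Agent.X32.Uni.almostN_iff r y (c h n)

end Pool.Agent.T2H62.ChX
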