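import Pool.Agent.T2H62.PLaw3
import Pool.Agent.T2H62.ChX

/-!
The Poisson law after primes for the orbits of `n ↦ 2 n + u`, `u = 1` or `u = -1`.
-/

set_option autoImplicit false

namespace Pool.Agent.T2H62.ChP

open Finset Filter
open Pool.Agent.T2H62.ChX (cz)
open Pool.Agent.T2H62.PL
open Pool.Agent.R490.LZ (Ro De Wr)

theorem card_shift {p : ℕ} (hp : 0 < p) (P : ℤ → Prop) [DecidablePred P]
    (hP : ∀ x y : ℤ, x ≡ y [ZMOD p] → (P x ↔ P y)) :
    ((range p).filter (fun x : ℕ => P x)).card = ((Icc 1 p).filter (fun x : ℕ => P x)).card := by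
  apply card_bij' (i := fun x _ => if x = 0 then p else x) (j := fun x _ => x % p)
  · intro x hx
    rw [mem_filter, mem_range] at hx
    rw [mem_filter, mem_Icc]
    by_cases h0 : x = 0
    · simp only [h0, if_true]
      refine ⟨⟨hp, le_rfl⟩, ?_⟩
      rw [h0] at hx
      refine (hP _ _ ?_).1 hx.2
      push_cast
      exact (Int.modEq_zero_iff_dvd.2 (dvd_refl _)).symm
    · simp only [h0, if_false]
      exact ⟨⟨Nat.one_le_iff_ne_zero.2 h0, hx.1.le⟩, hx.2⟩
  · intro x hx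
    rw [mem_filter, mem_Icc] at hx
    rw [mem_filter, mem_range]
    refine ⟨Nat.mod_lt _ hp, ?_⟩
    refine (hP _ _ ?_).2 hx.2
    push_cast
    exact Int.mod_modEq _ _
  · intro x hx
    rw [mem_filter, mem_range] at hx
    by_cases h0 : x = 0
    · simp [h0]
    · simp only [h0, if_false]
      exact Nat.mod_eq_of_lt hx.1
  · intro x hx
    rw [mem_filter, mem_Icc] at hx
    rcases Nat.lt_or_ge x p with h | h
    · simp only [Nat.mod_eq_of_lt h]
      have : x ≠ 0 := by omega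
      simp [this]
    · have : x = p := le_antisymm hx.1.2 h
      simp [this]

/-- no `c h n`, `h ∈ J`, has a prime factor `≤ y`, and no other `c h n` with `h ≤ H` is prime -/
def Chain (c : ℕ → ℕ → ℕ) (J : Finset ℕ) (H y n : ℕ) : Prop :=
  (∀ h ∈ J, ∀ p : ℕ, p.Prime → p ≤ y → ¬ p ∣ c h n) ∧ ∀ h : ℕ, h ≤ H → h ∉ J → ¬ (c h n).Prime

/-- the number of the residue classes `x` modulo `p` with `p ∣ c h x` for some `h ∈ J` -/
noncomputable def omega (c : ℕ → ℕ → ℕ) (J : Finset ℕ) (p : ℕ) : ℕ :=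
  ((Icc 1 p).filter (fun x : ℕ => ∃ h ∈ J, p ∣ c h x)).card

/-- the product of `1 - ω(p) / p` -/
noncomputable def D (c : ℕ → ℕ → ℕ) (J : Finset ℕ) (y : ℕ) : ℝ :=
  ∏ p ∈ (range (y + 1)).filter Nat.Prime, (1 - (omega c J p : ℝ) / p)

/-- the product of `(1 - ω(p) / p) / (1 - 1 / p)` -/
noncomputable def W (c : ℕ → ℕ → ℕ) (J : Finset ℕ) (y : ℕ) : ℝ :=
  ∏ p ∈ (range (y + 1)).filter Nat.Prime, (1 - (omega c J p : ℝ) / p) / (1 - 1 / (p : ℝ))

open Classical in
/-- the primes of `(u, u + Y]` with the pattern -/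
noncomputable def Starts (c : ℕ → ℕ → ℕ) (J : Finset ℕ) (H y u Y : ℕ) : Finset ℕ :=
  (Ioc u (u + Y)).filter (fun n => n.Prime ∧ Chain c J H y n)

open Classical in
/-- the number of the integers in `(n, n + T]` with the pattern -/
noncomputable def Next (c : ℕ → ℕ → ℕ) (J : Finset ℕ) (H y T n : ℕ) : ℕ :=
  ((Ioc n (n + T)).filter (fun m => Chain c J H y m)).card

/-- the forms -/
def fm (u : ℤ) (h : ℕ) : ℤ × ℤ := (2 ^ h, 2 ^ h * u - u)

theorem fm_inj (u : ℤ) : Function.Injective (fm u) := by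
  intro h h' he
  have h1 := congrArg Prod.fst he
  unfold fm at h1
  simp only at h1
  exact Nat.pow_right_injective le_rfl (by exact_mod_cast h1)

theorem fm_eval (u : ℤ) (h : ℕ) (n : ℤ) : (fm u h).1 * n + (fm u h).2 = cz u h n := by
  unfold fm cz
  ring

variable {u : ℤ} {c : ℕ → ℕ → ℕ} {J : Finset ℕ}

theorem adm_fm (hu : u = 1 ∨ u = -1) (J : Finset ℕ) : Adm (J.image (fm u)) where
  one := by
    intro l hl
    rw [mem_image] at hl
    obtain ⟨h, _, rfl⟩ := hl
    exact one_le_pow₀ (by norm_num)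
  adm := by
    intro p hp
    -- `m ≡ -u`
    have hp1 := hp.one_lt
    refine ⟨if u = 1 then p - 1 else 1, fun l hl hd => ?_⟩
    rw [mem_image] at hl
    obtain ⟨h, _, rfl⟩ := hl
    rw [fm_eval] at hd
    unfold cz at hd
    have h2 : (p : ℤ) ∣ 1 := by
      rcases hu with rfl | rfl
      · simp only [if_true] at hd
        rw [Nat.cast_sub hp.one_lt.le] at hd
        push_cast at hd
        have e : (2 : ℤ) ^ h * ((p : ℤ) - 1 + 1) - 1 = p * 2 ^ h - 1 := by ring
        rw [e] at hd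
        exact (dvd_sub_right (dvd_mul_right _ _)).1 hd
      · have e1 : ((-1 : ℤ) = 1) = False := by simp
        simp only [e1, if_false] at hd
        push_cast at hd
        have e : (2 : ℤ) ^ h * 0 - -1 = 1 := by ring
        rwa [e] at hd
    have h3 := Int.eq_one_of_dvd_one (by positivity) h2
    omega
  nt := by
    intro l hl l' hl' t ht h1 h2
    rw [mem_image] at hl hl'
    obtain ⟨h, _, rfl⟩ := hl
    obtain ⟨h', _, rfl⟩ := hl'
    have h3 : h = h' := by
      unfold fm at h1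
      simp only at h1
      exact Nat.pow_right_injective le_rfl (by exact_mod_cast h1)
    subst h3
    have h4 : (0 : ℤ) < (fm u h).1 * t := by
      have h5 : (0 : ℤ) < (fm u h).1 := by
        unfold fm
        positivity
      have h6 : (0 : ℤ) < t := by exact_mod_cast ht
      exact mul_pos h5 h6
    linarith

theorem pat_iff (hc : ∀ h n : ℕ, 1 ≤ n → (c h n : ℤ) = cz u h n) (H y : ℕ) {n : ℕ} (hn : 1 ≤ n) :
    Pat (J.image (fm u)) ((range (H + 1) \ J).image (fm u)) y n ↔ Chain c J H y n := by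
  unfold Pat Chain Ro
  constructor
  · rintro ⟨h1, h2⟩
    refine ⟨fun h hh p hp hpy hd => ?_, fun h hh hJ hp => ?_⟩
    · refine h1 p hp hpy (fm u h) (mem_image_of_mem _ hh) ?_
      rw [fm_eval, ← hc h n hn]
      exact Int.natCast_dvd_natCast.2 hd
    · refine h2 (fm u h) (mem_image_of_mem _ (Finset.mem_sdiff.2 ⟨mem_range.2 (by omega), hJ⟩)) ?_
      rw [fm_eval, ← hc h n hn, Int.natAbs_natCast]
      exact hp
  · rintro ⟨h1, h2⟩
    refine ⟨fun p hp hpy l hl hd => ?_, fun κ hκ hp => ?_⟩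
    · rw [mem_image] at hl
      obtain ⟨h, hh, rfl⟩ := hl
      rw [fm_eval, ← hc h n hn] at hd
      exact h1 h hh p hp hpy (Int.natCast_dvd_natCast.1 hd)
    · rw [mem_image] at hκ
      obtain ⟨h, hh, rfl⟩ := hκ
      rw [Finset.mem_sdiff, mem_range] at hh
      rw [fm_eval, ← hc h n hn, Int.natAbs_natCast] at hp
      exact h2 h (by omega) hh.2 hp

theorem om_eq (hc : ∀ h n : ℕ, 1 ≤ n → (c h n : ℤ) = cz u h n) {p : ℕ} (hp : 0 < p) :
    ((range p).filter (fun m : ℕ => ∃ l ∈ J.image (fm u), (p : ℤ) ∣ l.1 * m + l.2)).card = omega c J p := by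
  classical
  have h1 := card_shift hp (fun z : ℤ => ∃ l ∈ J.image (fm u), (p : ℤ) ∣ l.1 * z + l.2) (by
    intro x y hxy
    have key : ∀ l : ℤ × ℤ, (p : ℤ) ∣ l.1 * x + l.2 ↔ (p : ℤ) ∣ l.1 * y + l.2 := by
      intro l
      have h2 : l.1 * x + l.2 ≡ l.1 * y + l.2 [ZMOD p] := (hxy.mul_left _).add_right _
      exact ⟨fun h => (Int.modEq_zero_iff_dvd.1 (h2.symm.trans (Int.modEq_zero_iff_dvd.2 h))),
        fun h => (Int.modEq_zero_iff_dvd.1 (h2.trans (Int.modEq_zero_iff_dvd.2 h)))⟩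
    simp only [key])
  rw [h1]
  unfold omega
  congr 1
  ext x
  rw [mem_filter, mem_filter, mem_Icc]
  refine and_congr_right fun hx => ?_
  constructor
  · rintro ⟨l, hl, hd⟩
    rw [mem_image] at hl
    obtain ⟨h, hh, rfl⟩ := hl
    rw [fm_eval, ← hc h x hx.1] at hd
    exact ⟨h, hh, Int.natCast_dvd_natCast.1 hd⟩
  · rintro ⟨h, hh, hd⟩
    refine ⟨fm u h, mem_image_of_mem _ hh, ?_⟩
    rw [fm_eval, ← hc h x hx.1]
    exact Int.natCast_dvd_natCast.2 hd

theorem De_eq (hc : ∀ h n : ℕ, 1 ≤ n → (c h n : ℤ) = cz u h n) (y : ℕ) : De (J.image (fm u)) y = D c J y := by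
  classical
  unfold De D
  refine prod_congr rfl fun p hp => ?_
  rw [← om_eq hc (mem_filter.1 hp).2.pos]

theorem Wr_eq (hc : ∀ h n : ℕ, 1 ≤ n → (c h n : ℤ) = cz u h n) (y : ℕ) : Wr (J.image (fm u)) y = W c J y := by
  classical
  unfold Wr W
  refine prod_congr rfl fun p hp => ?_
  rw [← om_eq hc (mem_filter.1 hp).2.pos]

theorem starts_eq (hc : ∀ h n : ℕ, 1 ≤ n → (c h n : ℤ) = cz u h n) (H y v Y : ℕ) :
    PrE (J.image (fm u)) ((range (H + 1) \ J).image (fm u)) y v Y = Starts c J H y v Y := by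
  classical
  unfold PrE Starts
  apply filter_congr
  intro n hn
  rw [mem_Ioc] at hn
  rw [pat_iff hc H y (by omega)]

theorem next_eq (hc : ∀ h n : ℕ, 1 ≤ n → (c h n : ℤ) = cz u h n) (H y T n : ℕ) :
    NxE (J.image (fm u)) ((range (H + 1) \ J).image (fm u)) y T n = Next c J H y T n := by
  classical
  unfold NxE Next
  congr 1
  apply filter_congr
  intro m hm
  rw [mem_Ioc] at hm
  rw [pat_iff hc H y (by omega)]

theorem chainLaw (hu : u = 1 ∨ u = -1) (hc : ∀ h n : ℕ, 1 ≤ n → (c h n : ℤ) = cz u h n)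
    (h0 : 0 ∈ J) (hJ : 2 ≤ J.card) (H : ℕ) (δ x0 ε : ℝ) (hδ : 0 < δ) (hδ1 : δ ≤ 1) (hx0 : 0 ≤ x0) (hε : 0 < ε)
    (hε1 : ε ≤ 1) :
    ∃ r0 : ℕ, 2 ≤ r0 ∧ ∀ r : ℕ, r0 ≤ r → ∀ᶠ X : ℕ in atTop, ∀ y : ℕ, y = ⌊(X : ℝ) ^ (1 / (r : ℝ))⌋₊ →
      0 < W c J y ∧ ∀ v Y : ℕ, δ * X ≤ Y → v + Y ≤ X →
      |((Starts c J H y v Y).card : ℝ) * Real.log X - Y * W c J y| ≤ ε * (Y * W c J y) ∧
      ∀ T : ℕ, T * D c J y ≤ x0 → ∀ M : Finset ℕ,
      |(((Starts c J H y v Y).filter (fun n => Next c J H y T n ∈ M)).card : ℝ) -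
          (Starts c J H y v Y).card * ∑ j ∈ M, Real.exp (-(T * D c J y)) * (T * D c J y) ^ j / j.factorial| ≤
        ε * (Starts c J H y v Y).card := by
  have hcard : (J.image (fm u)).card = J.card := card_image_of_injective _ (fm_inj u)
  obtain ⟨r0, hr0, h⟩ := law (L := J.image (fm u)) (K := (range (H + 1) \ J).image (fm u)) (adm_fm hu J)
    (by
      rw [mem_image]
      refine ⟨0, h0, ?_⟩
      unfold fm
      simp)
    (by rw [hcard]; exact hJ)
    (by
      intro κ hκ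
      rw [mem_image] at hκ
      obtain ⟨h, _, rfl⟩ := hκ
      exact one_le_pow₀ (by norm_num))
    (by
      intro κ hκ l hl he
      rw [mem_image] at hκ hl
      obtain ⟨h, hh, rfl⟩ := hκ
      obtain ⟨h', hh', rfl⟩ := hl
      rw [Finset.mem_sdiff] at hh
      unfold fm at he
      simp only at he
      have h5 : (u : ℤ) * (2 ^ h - 2 ^ h') = 0 := by linear_combination -he
      have hu0 : u ≠ 0 := by rcases hu with rfl | rfl <;> norm_num
      rcases mul_eq_zero.1 h5 with h6 | h6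
      · exact hu0 h6
      · have h7 : (2 : ℤ) ^ h = 2 ^ h' := by linarith
        have h8 : h = h' := Nat.pow_right_injective le_rfl (by exact_mod_cast h7)
        exact hh.2 (h8 ▸ hh')) δ x0 ε hδ hδ1 hx0 hε hε1
  refine ⟨r0, hr0, fun r hr => ?_⟩
  filter_upwards [h r hr] with X hX y hy
  have h1 := hX y hy
  simp only [De_eq hc, Wr_eq hc, starts_eq hc, next_eq hc] at h1
  exact h1

end Pool.Agent.T2H62.ChP
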