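import Pool.Agent.T2H62.ChX

/-!
Exact patterns of almost prime values in short intervals (after `Pool.Agent.X32.Uni.killS`).
-/

set_option autoImplicit false

namespace Pool.Agent.T2H62.ChX

open Finset Filter
open Polynomial (C X aeval)
open scoped Polynomial
open Pool.Agent.X32.Uni

variable {m : ℕ}

/-- exact patterns in short intervals: the bounds, and the coverings of all subsets -/
theorem killS2 (f : Fin m → ℤ[X]) (hm : 0 < m) (hdeg : ∀ l, 1 ≤ (f l).natDegree) (hloc : Loc f)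
    (G : Finset ℤ[X]) (hG : ∀ g ∈ G, g ≠ 0 ∧ ∃ α : ℂ, aeval α g = 0 ∧ ∀ l, aeval α (f l) ≠ 0)
    (ε : ℝ) (hε : 0 < ε) :
    ∃ C t : ℕ, 1 ≤ t ∧ ∃ κ KU : ℝ, 0 < κ ∧ 0 < KU ∧
      (∃ X₀ : ℕ, ∀ X : ℕ, X₀ ≤ X →
        κ / Real.log X ^ (∑ l, (f l).natDegree) ≤ V f X ∧ ∀ A B : ℕ, B ≤ X → (X : ℝ) ^ ε ≤ (B : ℝ) - A →
          κ * ((B : ℝ) - A) * V f X ≤ ((GS f G C t X A B).card : ℝ) ∧
          ((GoodB f t X A B).card : ℝ) ≤ KU * ((B : ℝ) - A) * V f X) ∧
      ∀ (s r : ℕ) (δ : ℝ), 1 ≤ s → 0 < δ → ∃ b X₀ : ℕ, ∀ X : ℕ, X₀ ≤ X →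
        ∀ A B : ℕ, B ≤ X → (X : ℝ) ^ ε ≤ (B : ℝ) - A → ∀ G' : Finset ℕ, G' ⊆ GoodB f t X A B →
        ∀ χ : ℕ → Fin r, ∃ P : Finset (ℕ × ℕ),
          (∀ z ∈ P, 1 ≤ z.2 ∧ (z.2 : ℝ) ≤ Real.log X ^ b ∧
            ∀ l < s, z.1 + l * z.2 ∈ G' ∧ χ (z.1 + l * z.2) = χ z.1) ∧
          (P : Set (ℕ × ℕ)).PairwiseDisjoint (apSet s) ∧
          (((G' \ P.biUnion (apSet s)).card : ℕ) : ℝ) ≤ δ * ((B : ℝ) - A) * V f X := by
  classical
  obtain ⟨W, r₀, hW1, hrW, hW2, hW3⟩ := kill_all (∏ l, f l) G (by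
    intro g hg
    obtain ⟨h1, α, h2, h3⟩ := hG g hg
    refine ⟨h1, α, h2, ?_⟩
    rw [map_prod]
    exact prod_ne_zero_iff.2 fun l _ => h3 l)
  have S := sbf_sbs f hW1 hW2
  have hlocM : ∀ p : ℕ, p.Prime → ¬ p ∣ W → ∃ x : ℤ, ¬ (p : ℤ) ∣ ∏ l, (f l).eval x := fun p hp _ => hloc p hp
  have hdegh : ∀ l, (sbf f W r₀ l).natDegree = (f l).natDegree := fun l => sbf_deg f hW1 r₀ l
  obtain ⟨K, hK⟩ := sysA_of (sbf f W r₀) (fun l => by rw [hdegh]; exact hdeg l) (S.loc hlocM)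
  obtain ⟨K', hK'⟩ := sysA_of f hdeg hloc
  obtain ⟨D, hD⟩ : ∃ D : ℕ, D = ∑ l, (f l).natDegree := ⟨_, rfl⟩
  have hDh : ∑ l, (sbf f W r₀ l).natDegree = D := by
    rw [hD]
    exact sum_congr rfl fun l _ => hdegh l
  rw [hDh] at hK
  rw [← hD] at hK' ⊢
  have hD1 : 1 ≤ D := by
    rw [hD]
    obtain ⟨l0, _⟩ : ∃ l0 : Fin m, l0 = ⟨0, hm⟩ := ⟨_, rfl⟩
    exact (hdeg l0).trans (single_le_sum (f := fun l => (f l).natDegree) (fun _ _ => Nat.zero_le _) (mem_univ l0))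
  obtain ⟨t, ht, κ, KU, hκ, hKU, HL⟩ := shortU D hD1 (ε / 2) (by positivity)
  have hW0 : (0 : ℝ) < W := by exact_mod_cast hW1
  refine ⟨W, t, ht, κ / (2 * W), KU, by positivity, hKU, ?_, fun s r δ hs hδ => ?_⟩
  swap
  · obtain ⟨b, X₀, hc⟩ := cover D t ht s r hs ε δ hε hδ
    obtain ⟨X₄, h4'⟩ := HL K'
    refine ⟨b, max (max X₀ X₄) 3, fun X hX A B hB hAB G' hG' χ => ?_⟩
    have hX3 : 3 ≤ X := (le_max_right _ _).trans hX
    have hlog : 0 < Real.log X := Real.log_pos (by exact_mod_cast (by omega : 1 < X))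
    have hV0 : 0 < V f X := lt_of_lt_of_le (by positivity)
      (h4' X ((le_max_right _ _).trans ((le_max_left _ _).trans hX)) m f (hK' X (by omega))).1
    refine hc X ((le_max_left _ _).trans ((le_max_left _ _).trans hX)) m f hD.ge hloc A B hB hAB G'
      (hG'.trans (filter_subset _ _)) ?_ hV0 χ
    intro x hx l q hq hd
    have h5 := hG' hx
    unfold GoodB at h5
    rw [mem_filter] at h5
    exact (h5.2 l).2.2 q hq hd
  obtain ⟨X₁, h1⟩ := HL K
  obtain ⟨X₄, h4'⟩ := HL K'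
  have hpow : ∀ M : ℝ, ∀ a : ℝ, 0 < a → ∀ᶠ n : ℕ in atTop, M < (n : ℝ) ^ a := fun M a ha =>
    ((tendsto_rpow_atTop ha).comp tendsto_natCast_atTop_atTop).eventually (eventually_gt_atTop M)
  obtain ⟨N₁, hN₁⟩ := eventually_atTop.1 (hpow (4 * W + 2 * r₀) (ε / 2) (by positivity))
  refine ⟨max (max X₁ (max N₁ 3)) X₄, fun X hX => ?_⟩
  have hX1 : X₁ ≤ X := (le_max_left _ _).trans ((le_max_left _ _).trans hX)
  have hXN : N₁ ≤ X := (le_max_left _ _).trans ((le_max_right _ _).trans ((le_max_left _ _).trans hX))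
  have hX3 : 3 ≤ X := (le_max_right _ _).trans ((le_max_right _ _).trans ((le_max_left _ _).trans hX))
  have hX4 : X₄ ≤ X := (le_max_right _ _).trans hX
  have hX0 : (0 : ℝ) < X := by exact_mod_cast (by omega : 0 < X)
  have hXr : (1 : ℝ) ≤ X := by exact_mod_cast (by omega : 1 ≤ X)
  have hlog : 0 < Real.log X := Real.log_pos (by exact_mod_cast (by omega : 1 < X))
  obtain ⟨hVf', hcnt'⟩ := h4' X hX4 m f (hK' X (by omega))
  have hVf : κ / (2 * W) / Real.log X ^ D ≤ V f X := by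
    refine le_trans ?_ hVf'
    apply div_le_div_of_nonneg_right _ (by positivity)
    rw [div_le_iff₀ (by positivity)]
    have : (1 : ℝ) ≤ W := by exact_mod_cast hW1
    nlinarith
  have hV0 : 0 < V f X := lt_of_lt_of_le (by positivity) hVf
  refine ⟨hVf, fun A B hB hAB => ?_⟩
  have hε2 : (X : ℝ) ^ (ε / 2) * (X : ℝ) ^ (ε / 2) = (X : ℝ) ^ ε := by
    rw [← Real.rpow_add hX0]
    congr 1
    ring
  have hsize : 4 * (W : ℝ) + 2 * r₀ ≤ (X : ℝ) ^ (ε / 2) := (hN₁ X hXN).le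
  have hBA0 : 0 < (B : ℝ) - A := lt_of_lt_of_le (by positivity) hAB
  have hrr : (0 : ℝ) ≤ r₀ := Nat.cast_nonneg _
  have hpos : (1 : ℝ) ≤ (X : ℝ) ^ (ε / 2) := Real.one_le_rpow hXr (by positivity)
  have hAB2 : (X : ℝ) ^ (ε / 2) ≤ (B : ℝ) - A := by
    refine le_trans ?_ hAB
    rw [← hε2]
    nlinarith
  constructor
  · obtain ⟨A', hA'⟩ : ∃ A' : ℕ, A' = (A - r₀) / W := ⟨_, rfl⟩
    obtain ⟨B', hB'⟩ : ∃ B' : ℕ, B' = (B - r₀) / W := ⟨_, rfl⟩
    have hBr : A + 2 * r₀ ≤ B := by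
      have h2 : (A : ℝ) + 2 * r₀ ≤ B := by
        have : (0 : ℝ) ≤ 4 * W := by positivity
        linarith
      exact_mod_cast h2
    have hB'X : B' ≤ X := by
      rw [hB']
      exact (Nat.div_le_self _ _).trans ((Nat.sub_le _ _).trans hB)
    have hB'lt : B - r₀ < W * (B' + 1) := by
      rw [hB']
      exact Nat.lt_mul_div_succ _ hW1
    have hA'lt : A - r₀ < W * (A' + 1) := by
      rw [hA']
      exact Nat.lt_mul_div_succ _ hW1
    have hlen : ((B : ℝ) - A) / (2 * W) ≤ (B' : ℝ) - A' := by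
      have h2 : (W : ℝ) * A' ≤ A := by
        have h3 : W * A' ≤ A := by
          rw [hA']
          exact (Nat.mul_div_le _ _).trans (Nat.sub_le _ _)
        exact_mod_cast h3
      have h3 : (B : ℝ) < W * (B' + 1) + r₀ := by
        have h4 : B < W * (B' + 1) + r₀ := by omega
        exact_mod_cast h4
      rw [div_le_iff₀ (by positivity)]
      nlinarith
    have hθ' : (X : ℝ) ^ (ε / 2) ≤ (B' : ℝ) - A' := by
      refine le_trans ?_ hlen
      rw [le_div_iff₀ (by positivity)]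
      calc (X : ℝ) ^ (ε / 2) * (2 * W) ≤ (X : ℝ) ^ (ε / 2) * (X : ℝ) ^ (ε / 2) := by
            apply mul_le_mul_of_nonneg_left _ (by positivity)
            linarith
        _ ≤ (B : ℝ) - A := by rw [hε2]; exact hAB
    have h4 := ((h1 X hX1 _ _ (hK X (by omega))).2 A' B' hB'X hθ').1
    have hcard : (GoodB (sbf f W r₀) t X A' B').card ≤ (GS f G W t X A B).card := by
      apply card_le_card_of_injOn (fun y => W * y + r₀)
      · intro y hy
        rw [mem_coe] at hy ⊢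
        unfold GoodB at hy
        rw [mem_filter, mem_Ioc] at hy
        obtain ⟨⟨y1, y2⟩, y5⟩ := hy
        have hcast : ∀ l, (sbf f W r₀ l).eval (y : ℤ) = (f l).eval ((W * y + r₀ : ℕ) : ℤ) := by
          intro l
          rw [sbf_eval]
          push_cast
          rfl
        simp only [hcast, hdegh] at y5
        unfold GS
        rw [mem_filter, mem_Ioc]
        refine ⟨⟨?_, ?_⟩, y5, ?_⟩
        · have h5 : W * (A' + 1) ≤ W * y := Nat.mul_le_mul_left _ y1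
          show A < W * y + r₀
          omega
        · have h4 : W * y ≤ W * B' := Nat.mul_le_mul_left _ y2
          have h5 : W * B' ≤ B - r₀ := by
            rw [hB']
            exact Nat.mul_div_le _ _
          show W * y + r₀ ≤ B
          omega
        · apply hW3 (W * y + r₀)
          unfold Nat.ModEq
          rw [add_comm, Nat.add_mul_mod_self_left]
      · intro y _ y' _ he
        simp only at he
        have h4 : W * y = W * y' := by omega
        exact Nat.eq_of_mul_eq_mul_left hW1 h4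
    have hcard' : ((GoodB (sbf f W r₀) t X A' B').card : ℝ) ≤ (GS f G W t X A B).card := by
      exact_mod_cast hcard
    have hVle := (V_le_VM hloc W X).trans (S.V_le hlocM X)
    refine le_trans ?_ (h4.trans hcard')
    calc κ / (2 * W) * ((B : ℝ) - A) * V f X = κ * (((B : ℝ) - A) / (2 * W)) * V f X := by
          field_simp
      _ ≤ κ * ((B' : ℝ) - A') * V (sbf f W r₀) X := by
          apply mul_le_mul _ hVle hV0.le
          · exact mul_nonneg hκ.le (le_trans (by positivity) hlen)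
          · exact mul_le_mul_of_nonneg_left hlen hκ.le
  · exact (hcnt' A B hB hAB2).2

end Pool.Agent.T2H62.ChX
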