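import Pool.Agent.T2H62.ChY
import Pool.Agent.T2H62.KS

/-!
Exact patterns of almost primes in the orbits of `n ↦ 2 n + u`, in short intervals.
-/

set_option autoImplicit false

namespace Pool.Agent.T2H62.ChX

open Finset Filter
open Polynomial (C X aeval)
open scoped Polynomial
open Pool.Agent.X32.Uni

variable {k : ℕ}

open Classical in
/-- the `n` in `(A, B]` such that all `c (pos l) n` are products of at most `t` primes `> X ^ (1/t)`, and the other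
`c h n`, `h ≤ L`, are not prime -/
noncomputable def Gs (c : ℕ → ℕ → ℕ) (pos : Fin k → ℕ) (L t X A B : ℕ) : Finset ℕ :=
  (Ioc A B).filter (fun n : ℕ => (∀ l, AlmostN t ((X : ℝ) ^ (1 / (t : ℝ))) (c (pos l) n)) ∧
    ∀ h : ℕ, h ≤ L → (∀ l, pos l ≠ h) → ¬ (c h n).Prime)

theorem Gs_rough {u : ℤ} {c : ℕ → ℕ → ℕ} (hc : ∀ h n : ℕ, 1 ≤ n → (c h n : ℤ) = cz u h n)
    (pos : Fin k → ℕ) (L t X A B : ℕ) :
    ∀ x ∈ Gs c pos L t X A B, ∀ l, ∀ q : ℕ, q.Prime → (q : ℤ) ∣ (sy u pos l).eval (x : ℤ) →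
      (X : ℝ) ^ (1 / (t : ℝ)) < q := by
  classical
  intro x hx l q hq hd
  unfold Gs at hx
  rw [mem_filter, mem_Ioc] at hx
  have hx1 : 1 ≤ x := by omega
  unfold sy at hd
  rw [fc_eval, ← hc _ _ hx1, Int.natCast_dvd_natCast] at hd
  exact (hx.2.1 l).2.2 q hq hd

theorem shortC {u : ℤ} (hu : u = 1 ∨ u = -1) {c : ℕ → ℕ → ℕ} (hc : ∀ h n : ℕ, 1 ≤ n → (c h n : ℤ) = cz u h n)
    (hk : 1 ≤ k) (pos : Fin k → ℕ) (L : ℕ) (ε : ℝ) (hε : 0 < ε) :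
    ∃ t : ℕ, 1 ≤ t ∧ ∃ κ KU : ℝ, 0 < κ ∧ 0 < KU ∧ ∀ (s r : ℕ) (δ : ℝ), 1 ≤ s → 0 < δ → ∃ b X₀ : ℕ,
      ∀ X : ℕ, X₀ ≤ X →
      κ / Real.log X ^ k ≤ VC c pos X ∧ ∀ A B : ℕ, B ≤ X → (X : ℝ) ^ ε ≤ (B : ℝ) - A →
        κ * ((B : ℝ) - A) * VC c pos X ≤ ((Gs c pos L t X A B).card : ℝ) ∧
        ((Gs c pos L t X A B).card : ℝ) ≤ KU * ((B : ℝ) - A) * VC c pos X ∧
        ∀ χ : ℕ → Fin r, ∃ P : Finset (ℕ × ℕ),
          (∀ z ∈ P, 1 ≤ z.2 ∧ (z.2 : ℝ) ≤ Real.log X ^ b ∧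
            ∀ l < s, z.1 + l * z.2 ∈ Gs c pos L t X A B ∧ χ (z.1 + l * z.2) = χ z.1) ∧
          (P : Set (ℕ × ℕ)).PairwiseDisjoint (apSet s) ∧
          (((Gs c pos L t X A B \ P.biUnion (apSet s)).card : ℕ) : ℝ) ≤ δ * ((B : ℝ) - A) * VC c pos X := by
  classical
  obtain ⟨C, t, ht, κ, KU, hκ, hKU, ⟨X₁, H1⟩, H2⟩ := killS2 (sy u pos) hk (fun l => (fc_deg u _).ge) (sy_loc hu pos)
    (bad u pos L) (bad_ok hu pos L) ε hε
  rw [sy_sum] at H1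
  simp only [V_eq hc pos] at H1 H2
  have ht0 : (0 : ℝ) < t := by exact_mod_cast ht
  have e1 : ∀ l, (sy u pos l).natDegree = 1 := fun l => fc_deg u _
  have hpow : ∀ M : ℝ, ∀ a : ℝ, 0 < a → ∀ᶠ n : ℕ in atTop, M < (n : ℝ) ^ a := fun M a ha =>
    ((tendsto_rpow_atTop ha).comp tendsto_natCast_atTop_atTop).eventually (eventually_gt_atTop M)
  obtain ⟨l0, _⟩ : ∃ l0 : Fin k, l0 = ⟨0, hk⟩ := ⟨_, rfl⟩
  obtain ⟨X₃, H3⟩ := eventually_atTop.1 (hpow ((2 : ℝ) ^ pos l0 * (C + 1)) (1 / (t : ℝ)) (by positivity))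
  have hup : ∀ X A B : ℕ, Gs c pos L t X A B ⊆ GoodB (sy u pos) t X A B := by
    intro X A B n hn
    unfold Gs at hn
    unfold GoodB
    rw [mem_filter, mem_Ioc] at hn ⊢
    have hn0 : 1 ≤ n := by omega
    refine ⟨hn.1, fun l => ?_⟩
    rw [e1 l, mul_one]
    exact (almost_iff hc _ _ _ hn0).2 (hn.2.1 l)
  refine ⟨t, ht, κ, KU, hκ, hKU, fun s r δ hs hδ => ?_⟩
  obtain ⟨b, X₂, H4⟩ := H2 s r δ hs hδ
  refine ⟨b, max X₁ (max X₂ X₃), fun X hX => ?_⟩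
  have hX1 : X₁ ≤ X := (le_max_left _ _).trans hX
  have hX2 : X₂ ≤ X := (le_max_left _ _).trans ((le_max_right _ _).trans hX)
  have hX3 : X₃ ≤ X := (le_max_right _ _).trans ((le_max_right _ _).trans hX)
  obtain ⟨h1, h2⟩ := H1 X hX1
  refine ⟨h1, fun A B hB hAB => ?_⟩
  obtain ⟨h3, h4⟩ := h2 A B hB hAB
  refine ⟨h3.trans ?_, le_trans ?_ h4, fun χ => H4 X hX2 A B hB hAB _ (hup X A B) χ⟩
  · have hsub : GS (sy u pos) (bad u pos L) C t X A B ⊆ Gs c pos L t X A B := by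
      intro n hn
      unfold GS at hn
      unfold Gs
      rw [mem_filter, mem_Ioc] at hn ⊢
      obtain ⟨hn1, hn4, hn5⟩ := hn
      have hn0 : 1 ≤ n := by omega
      have hn4' : ∀ l, AlmostN t ((X : ℝ) ^ (1 / (t : ℝ))) (c (pos l) n) := by
        intro l
        have := hn4 l
        rw [e1 l, mul_one] at this
        exact (almost_iff hc _ _ _ hn0).1 this
      refine ⟨hn1, hn4', ?_⟩
      refine comp_of hu hc pos l0 L C n hn0 _ (H3 X hX3).le ?_ hn5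
      have h5 := hn4' l0
      obtain ⟨q, q1, q2⟩ := Nat.exists_prime_and_dvd (n := c (pos l0) n) (by have := h5.1; omega)
      have h6 := h5.2.2 q q1 q2
      have h7 : q ≤ c (pos l0) n := Nat.le_of_dvd (by have := h5.1; omega) q2
      exact lt_of_lt_of_le h6 (by exact_mod_cast h7)
    exact_mod_cast card_le_card hsub
  · exact_mod_cast card_le_card (hup X A B)

end Pool.Agent.T2H62.ChX
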