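import Pool.Agent.T2H62.ChX
import Pool.Agent.X32.Uni.Kill2

/-!
Exact patterns in the orbits of `n ↦ 2 n + u`: a prime, a product of two primes, almost primes.
-/

set_option autoImplicit false

namespace Pool.Agent.T2H62.ChX

open Finset Filter
open Polynomial (C X aeval)
open scoped Polynomial
open Pool.Agent.X32.Uni

variable {k : ℕ}

/-- the iterates which are made composite -/
noncomputable def bad (u : ℤ) (pos : Fin k → ℕ) (L : ℕ) : Finset ℤ[X] := by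
  classical
  exact ((range (L + 1)).filter (fun h => ∀ l, pos l ≠ h)).image (fc u)

theorem bad_ok {u : ℤ} (hu : u = 1 ∨ u = -1) (pos : Fin k → ℕ) (L : ℕ) :
    ∀ g ∈ bad u pos L, g ≠ 0 ∧ ∃ α : ℂ, aeval α g = 0 ∧ ∀ l, aeval α (sy u pos l) ≠ 0 := by
  classical
  intro g hg
  unfold bad at hg
  rw [mem_image] at hg
  obtain ⟨h, hh, rfl⟩ := hg
  rw [mem_filter] at hh
  refine ⟨fc_ne0 u h, rt u h, fc_rt u h, fun l => ?_⟩
  have hu0 : u ≠ 0 := by rcases hu with rfl | rfl <;> norm_num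
  exact fc_rt' hu0 (fun he => hh.2 l he.symm)

theorem c_ge {u : ℤ} (hu : u = 1 ∨ u = -1) {c : ℕ → ℕ → ℕ} (hc : ∀ h n : ℕ, 1 ≤ n → (c h n : ℤ) = cz u h n)
    (h : ℕ) {n : ℕ} (hn : 1 ≤ n) : n ≤ c h n := by
  have h1 := hc h n hn
  have h2 : (1 : ℤ) ≤ 2 ^ h := one_le_pow₀ (by norm_num)
  have h3 : (1 : ℤ) ≤ n := by exact_mod_cast hn
  unfold cz at h1
  zify
  rw [h1]
  rcases hu with rfl | rfl
  · nlinarith
  · nlinarith

theorem c_le {u : ℤ} (hu : u = 1 ∨ u = -1) {c : ℕ → ℕ → ℕ} (hc : ∀ h n : ℕ, 1 ≤ n → (c h n : ℤ) = cz u h n)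
    (h : ℕ) {n : ℕ} (hn : 1 ≤ n) : c h n ≤ 2 ^ h * (n + 1) := by
  have h1 := hc h n hn
  have h2 : (1 : ℤ) ≤ 2 ^ h := one_le_pow₀ (by norm_num)
  unfold cz at h1
  zify
  rw [h1]
  rcases hu with rfl | rfl
  · nlinarith
  · nlinarith

/-- a bounded prime factor makes an iterate composite -/
theorem comp_of {u : ℤ} (hu : u = 1 ∨ u = -1) {c : ℕ → ℕ → ℕ}
    (hc : ∀ h n : ℕ, 1 ≤ n → (c h n : ℤ) = cz u h n) (pos : Fin k → ℕ) (l : Fin k) (L C n : ℕ) (hn : 1 ≤ n)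
    (y : ℝ) (hy : (2 : ℝ) ^ pos l * (C + 1) ≤ y) (hl : y < (c (pos l) n : ℝ))
    (hG : ∀ g ∈ bad u pos L, ∃ q : ℕ, q.Prime ∧ q ≤ C ∧ (q : ℤ) ∣ g.eval (n : ℤ)) :
    ∀ h : ℕ, h ≤ L → (∀ l, pos l ≠ h) → ¬ (c h n).Prime := by
  classical
  intro h hh hp hpr
  obtain ⟨q, q1, q2, q3⟩ := hG (fc u h) (by
    unfold bad
    rw [mem_image]
    exact ⟨h, mem_filter.2 ⟨mem_range.2 (by omega), hp⟩, rfl⟩)
  rw [fc_eval, ← hc h n hn, Int.natCast_dvd_natCast, Nat.prime_dvd_prime_iff_eq q1 hpr] at q3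
  have h1 := c_ge hu hc h hn
  have h2 := c_le hu hc (pos l) hn
  have h3 : ((c (pos l) n : ℕ) : ℝ) ≤ 2 ^ pos l * ((n : ℝ) + 1) := by exact_mod_cast h2
  have h4 : (2 : ℝ) ^ pos l * (C + 1) < 2 ^ pos l * ((n : ℝ) + 1) := lt_of_le_of_lt hy (lt_of_lt_of_le hl h3)
  have h5 : (C : ℝ) + 1 < (n : ℝ) + 1 := lt_of_mul_lt_mul_left h4 (by positivity)
  have h6 : C < n := by
    have : (C : ℝ) < n := by linarith
    exact_mod_cast this
  omega

open Classical in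
/-- the `n` in `(A, B]` such that `c (pos i) n` is a prime, `c (pos j) n` is a product of at most two primes
`> X ^ (1/9)`, all `c (pos l) n` are products of at most `t` primes `> X ^ (1/t)`, and the other `c h n`, `h ≤ L`,
are not prime -/
noncomputable def Gd (c : ℕ → ℕ → ℕ) (pos : Fin k → ℕ) (i j : Fin k) (L t X A B : ℕ) : Finset ℕ :=
  (Ioc A B).filter (fun n : ℕ => (c (pos i) n).Prime ∧ AlmostN 2 ((X : ℝ) ^ (1 / 9 : ℝ)) (c (pos j) n) ∧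
    (∀ l, AlmostN t ((X : ℝ) ^ (1 / (t : ℝ))) (c (pos l) n)) ∧
    ∀ h : ℕ, h ≤ L → (∀ l, pos l ≠ h) → ¬ (c h n).Prime)

theorem Gd_rough {u : ℤ} {c : ℕ → ℕ → ℕ} (hc : ∀ h n : ℕ, 1 ≤ n → (c h n : ℤ) = cz u h n)
    (pos : Fin k → ℕ) (i j : Fin k) (L t X A B : ℕ) :
    ∀ x ∈ Gd c pos i j L t X A B, ∀ l, ∀ q : ℕ, q.Prime → (q : ℤ) ∣ (sy u pos l).eval (x : ℤ) →
      (X : ℝ) ^ (1 / (t : ℝ)) < q := by
  classical
  intro x hx l q hq hd
  unfold Gd at hx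
  rw [mem_filter, mem_Ioc] at hx
  have hx1 : 1 ≤ x := by omega
  unfold sy at hd
  rw [fc_eval, ← hc _ _ hx1, Int.natCast_dvd_natCast] at hd
  exact (hx.2.2.2.1 l).2.2 q hq hd

theorem chenC {u : ℤ} (hu : u = 1 ∨ u = -1) {c : ℕ → ℕ → ℕ} (hc : ∀ h n : ℕ, 1 ≤ n → (c h n : ℤ) = cz u h n)
    (pos : Fin k → ℕ) (hpos : Function.Injective pos) (i j : Fin k) (hij : i ≠ j) (L : ℕ) :
    ∃ t : ℕ, 1 ≤ t ∧ ∃ κ : ℝ, 0 < κ ∧ ∀ (s r : ℕ) (θ δ : ℝ), 1 ≤ s → 0 < θ → 0 < δ → ∃ b X₀ : ℕ, ∀ X : ℕ, X₀ ≤ X →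
      κ / Real.log X ^ k ≤ VC c pos X ∧ ∀ A B : ℕ, B ≤ X → θ * X ≤ (B : ℝ) - A →
        κ * ((B : ℝ) - A) * VC c pos X ≤ ((Gd c pos i j L t X A B).card : ℝ) ∧
        ∀ χ : ℕ → Fin r, ∃ P : Finset (ℕ × ℕ),
          (∀ z ∈ P, 1 ≤ z.2 ∧ (z.2 : ℝ) ≤ Real.log X ^ b ∧
            ∀ l < s, z.1 + l * z.2 ∈ Gd c pos i j L t X A B ∧ χ (z.1 + l * z.2) = χ z.1) ∧
          (P : Set (ℕ × ℕ)).PairwiseDisjoint (apSet s) ∧
          (((Gd c pos i j L t X A B \ P.biUnion (apSet s)).card : ℕ) : ℝ) ≤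
            δ * ((B : ℝ) - A) * VC c pos X := by
  classical
  obtain ⟨C, t, ht, κ, hκ, H⟩ := killP (sy u pos) (fun l => (fc_deg u _).ge) (sy_loc hu pos) i j
    (fc_deg u _) (fc_deg u _) (fc_ne (fun h => hij (hpos h).symm)) fc_ne' (bad u pos L) (bad_ok hu pos L)
  rw [sy_sum] at H
  simp only [V_eq hc pos] at H
  refine ⟨t, ht, κ, hκ, fun s r θ δ hs hθ hδ => ?_⟩
  obtain ⟨_, X₁, H1⟩ := H s r θ δ hs hθ hδ
  obtain ⟨b, X₂, H2⟩ := cover k t ht s r hs (1 / 2) δ (by norm_num) hδ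
  have ht0 : (0 : ℝ) < t := by exact_mod_cast ht
  have hpow : ∀ M : ℝ, ∀ a : ℝ, 0 < a → ∀ᶠ n : ℕ in atTop, M < (n : ℝ) ^ a := fun M a ha =>
    ((tendsto_rpow_atTop ha).comp tendsto_natCast_atTop_atTop).eventually (eventually_gt_atTop M)
  obtain ⟨X₃, H3⟩ := eventually_atTop.1 (hpow ((2 : ℝ) ^ pos i * (C + 1)) (1 / (t : ℝ)) (by positivity))
  obtain ⟨X₄, H4⟩ := eventually_atTop.1 (hpow (1 / θ) (1 / 2) (by positivity))
  refine ⟨b, max (max X₁ X₂) (max X₃ (max X₄ 3)), fun X hX => ?_⟩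
  have hX1 : X₁ ≤ X := (le_max_left _ _).trans ((le_max_left _ _).trans hX)
  have hX2 : X₂ ≤ X := (le_max_right _ _).trans ((le_max_left _ _).trans hX)
  have hX3 : X₃ ≤ X := (le_max_left _ _).trans ((le_max_right _ _).trans hX)
  have hX4 : X₄ ≤ X := (le_max_left _ _).trans ((le_max_right _ _).trans ((le_max_right _ _).trans hX))
  have hX5 : 3 ≤ X := (le_max_right _ _).trans ((le_max_right _ _).trans ((le_max_right _ _).trans hX))
  obtain ⟨h1, h2⟩ := H1 X hX1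
  refine ⟨h1, fun A B hB hAB => ⟨?_, fun χ => ?_⟩⟩
  · refine (h2 A B hB hAB).1.trans ?_
    have hsub : GK (sy u pos) (bad u pos L) i j C t X A B ⊆ Gd c pos i j L t X A B := by
      intro n hn
      unfold GK at hn
      unfold Gd
      rw [mem_filter, mem_Ioc] at hn ⊢
      obtain ⟨hn1, hn2, hn3, hn4, hn5⟩ := hn
      have hn0 : 1 ≤ n := by omega
      have e1 : ∀ l, (sy u pos l).natDegree = 1 := fun l => fc_deg u _
      have hn4' : ∀ l, AlmostN t ((X : ℝ) ^ (1 / (t : ℝ))) (c (pos l) n) := by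
        intro l
        have := hn4 l
        rw [e1 l, mul_one] at this
        exact (almost_iff hc _ _ _ hn0).1 this
      refine ⟨hn1, ?_, (almost_iff hc _ _ _ hn0).1 hn3, hn4', ?_⟩
      · have h5 : ((sy u pos i).eval (n : ℤ)).natAbs = c (pos i) n := by
          unfold sy
          rw [fc_eval, ← hc _ _ hn0, Int.natAbs_natCast]
        rwa [h5] at hn2
      · refine comp_of hu hc pos i L C n hn0 _ (H3 X hX3).le ?_ hn5
        have h5 := hn4' i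
        obtain ⟨q, q1, q2⟩ := Nat.exists_prime_and_dvd (n := c (pos i) n) (by have := h5.1; omega)
        have h6 := h5.2.2 q q1 q2
        have h7 : q ≤ c (pos i) n := Nat.le_of_dvd (by have := h5.1; omega) q2
        exact lt_of_lt_of_le h6 (by exact_mod_cast h7)
    exact_mod_cast card_le_card hsub
  · have hV : 0 < V (sy u pos) X := by
      rw [V_eq hc pos]
      refine lt_of_lt_of_le ?_ h1
      have : 0 < Real.log X := Real.log_pos (by exact_mod_cast (by omega : 1 < X))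
      positivity
    have hX0 : (0 : ℝ) < X := by exact_mod_cast (by omega : 0 < X)
    have h5 : (X : ℝ) ^ (1 / 2 : ℝ) ≤ (B : ℝ) - A := by
      refine le_trans ?_ hAB
      have h6 := H4 X hX4
      have h7 : (X : ℝ) = (X : ℝ) ^ (1 / 2 : ℝ) * (X : ℝ) ^ (1 / 2 : ℝ) := by
        rw [← Real.rpow_add hX0]
        norm_num
      have h8 : 0 < (X : ℝ) ^ (1 / 2 : ℝ) := Real.rpow_pos_of_pos hX0 _
      rw [div_lt_iff₀ hθ] at h6
      calc (X : ℝ) ^ (1 / 2 : ℝ) = 1 * (X : ℝ) ^ (1 / 2 : ℝ) := (one_mul _).symm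
        _ ≤ ((X : ℝ) ^ (1 / 2 : ℝ) * θ) * (X : ℝ) ^ (1 / 2 : ℝ) := by
            apply mul_le_mul_of_nonneg_right h6.le h8.le
        _ = θ * X := by
            conv_rhs => rw [h7]
            ring
    have h6 := H2 X hX2 k (sy u pos) (sy_sum u pos).le (sy_loc hu pos) A B hB h5 (Gd c pos i j L t X A B)
      (filter_subset _ _) (Gd_rough hc pos i j L t X A B) hV χ
    rw [V_eq hc pos] at h6
    exact h6

end Pool.Agent.T2H62.ChX
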