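import Pool.Agent.Y882.MG.Quad2
import Pool.Agent.Y677.RSZ.Fin
import Pool.Agent.TH464.PW.Quad
import Pool.Agent.TH977.PW.Input

set_option autoImplicit false

/-! Narrow progressions of `m` with `m ^ 2 + a` almost prime, `m` restricted to a set, in almost all short intervals
(after `Pool.Agent.R498.ShortAP`). -/

namespace Pool.Agent.T2H62.Comp

open Finset Filter Polynomial
open Pool.Agent.Y882.SI (gset)
open Pool.Agent.Y677.RSZ (InProg Outside)
open Pool.Agent.TH977.PW (N)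
open Pool.Agent.W123.RP Pool.Agent.H373R2.T7 Pool.Agent.W123.RU
open Pool.Agent.TH464.PW Pool.Agent.W182.PW

open Classical in
/-- the almost prime arguments in `P` -/
noncomputable def gP (P : ℕ → Prop) (a : ℤ) (r : ℕ) (w : ℝ) (M H : ℕ) : Finset ℕ := (gset a r w M H).filter P

open Classical in
/-- those that are terms of a narrow progression of such arguments -/
noncomputable def cnt (P : ℕ → Prop) (a : ℤ) (r : ℕ) (w : ℝ) (l : ℕ) (D : ℝ) (M H : ℕ) : ℕ :=
  ((gP P a r w M H).filter (fun n => InProg (gP P a r w M H : Set ℕ) l D M (M + H) n)).card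

open Classical in
theorem main (P : ℕ → Prop) (a : ℤ) (hsys : Poly.Sys (fun _ : Fin 1 => quad 1 0 a)) (r : ℕ) (t z : ℝ)
    (hz0 : 0 < z) (ht0 : 1 / 2 ≤ t) (ht : t < 1) (h ε : ℝ) (hh : 0 < h) (hht : h ≤ t)
    (hε : 0 < ε) (l : ℕ) (hl : 2 ≤ l) (δ₀ : ℝ) (hδ₀ : 0 < δ₀) (X0 : ℕ)
    (HF : ∀ X : ℕ, X0 ≤ X →
      (((Icc 1 X).filter (fun M => ((gP P a r ((X : ℝ) ^ z) M ⌊(X : ℝ) ^ h⌋₊).card : ℝ) <
        δ₀ * (X : ℝ) ^ h / Real.log X)).card : ℝ) ≤ (X : ℝ) ^ (2 * t - h + ε / 2)) :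
    ∃ δ : ℝ, 0 < δ ∧ ∃ B : ℕ, ∀ᶠ X : ℕ in atTop,
      (((Icc 1 X).filter (fun M =>
        (cnt P a r ((X : ℝ) ^ z) l (Real.log X ^ B) M ⌊(X : ℝ) ^ h⌋₊ : ℝ) <
        δ * ((X : ℝ) ^ h / Real.log X))).card : ℝ) ≤ (X : ℝ) ^ (2 * t - h + ε) := by
  obtain ⟨r', hr'⟩ := exists_nat_gt (2 / z)
  set r₁ : ℕ := max r' 2 with hr₁
  have hr₁2 : 2 ≤ r₁ := le_max_right _ _
  have hr₁z : 2 / (r₁ : ℝ) < z := by
    have h1 : (r' : ℝ) ≤ r₁ := by exact_mod_cast le_max_left _ _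
    have h2 : (0 : ℝ) < r₁ := by
      have : 0 < r₁ := by omega
      exact_mod_cast this
    rw [div_lt_iff₀ h2]
    rw [div_lt_iff₀ hz0] at hr'
    nlinarith
  obtain ⟨B, hB⟩ := Pool.Agent.Y677.RSZ.narrow (fun _ : Fin 1 => Pool.Agent.TH464.PW.quad 1 0 a)
    hsys (h / 2) (by linarith) r₁ hr₁2 l hl (δ₀ * h / 2) (by positivity)
  obtain ⟨N0, hN0⟩ := eventually_atTop.1 hB
  refine ⟨δ₀ / 2, by positivity, B, ?_⟩
  have hXr : Tendsto (fun X : ℕ => (X : ℝ)) atTop atTop := tendsto_natCast_atTop_atTop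
  have ev1 : ∀ᶠ X : ℕ in atTop, (2 : ℝ) ≤ (X : ℝ) ^ (h / 2) :=
    ((tendsto_rpow_atTop (by linarith)).comp hXr).eventually_ge_atTop _
  have ev2 : ∀ᶠ X : ℕ in atTop, (4 : ℝ) ≤ (X : ℝ) ^ (ε / 2) :=
    ((tendsto_rpow_atTop (by linarith)).comp hXr).eventually_ge_atTop _
  have ev3 : ∀ᶠ X : ℕ in atTop, (N0 : ℝ) ≤ (X : ℝ) ^ (2 * t - h) :=
    ((tendsto_rpow_atTop (by linarith)).comp hXr).eventually_ge_atTop _
  filter_upwards [ev1, ev2, ev3, eventually_ge_atTop 3, eventually_ge_atTop X0] with X e1 e2 e3 e4 e5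
  have hX3 : (3 : ℝ) ≤ X := by exact_mod_cast e4
  have hX0 : (0 : ℝ) < X := by linarith
  have hX1 : (1 : ℝ) ≤ X := by linarith
  have hlX : 0 < Real.log X := Real.log_pos (by linarith)
  set H : ℕ := ⌊(X : ℝ) ^ h⌋₊ with hH
  have hHle : (H : ℝ) ≤ (X : ℝ) ^ h := Nat.floor_le (by positivity)
  have hHX : (X : ℝ) ^ h ≤ X := by
    calc (X : ℝ) ^ h ≤ (X : ℝ) ^ (1 : ℝ) := Real.rpow_le_rpow_of_exponent_le hX1 (by linarith)
      _ = X := Real.rpow_one _
  have hXhalf : (X : ℝ) ^ (h / 2) ≤ H := by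
    have h1 : (X : ℝ) ^ h = (X : ℝ) ^ (h / 2) * (X : ℝ) ^ (h / 2) := by
      rw [← Real.rpow_add hX0]; congr 1; ring
    have h2 : (X : ℝ) ^ h < H + 1 := Nat.lt_floor_add_one _
    nlinarith
  set w : ℝ := (X : ℝ) ^ z with hw
  -- the good `M`
  have hgood : ∀ M : ℕ, M ≤ X → N0 ≤ M → (X : ℝ) ^ h ≤ M →
      δ₀ * (X : ℝ) ^ h / Real.log X ≤ ((gP P a r w M H).card : ℝ) →
      δ₀ / 2 * ((X : ℝ) ^ h / Real.log X) ≤ (cnt P a r w l (Real.log X ^ B) M H : ℝ) := by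
    intro M hMX hMN hMh hM
    have hM0 : (0 : ℝ) < M := lt_of_lt_of_le (by positivity) hMh
    have hMXr : (M : ℝ) ≤ X := by exact_mod_cast hMX
    have hM1 : (1 : ℝ) < M := by
      have h1 : (1 : ℝ) < (X : ℝ) ^ h := Real.one_lt_rpow (by linarith) hh
      linarith
    have hlM : h * Real.log X ≤ Real.log M := by
      rw [← Real.log_rpow hX0]
      exact Real.log_le_log (by positivity) hMh
    have hlM2 : Real.log M ≤ Real.log X := Real.log_le_log hM0 hMXr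
    have hlM0 : 0 < Real.log M := Real.log_pos hM1
    set A : Set ℕ := (gP P a r w M H : Set ℕ) with hA
    have hHM : H ≤ M := by
      have : (H : ℝ) ≤ M := hHle.trans hMh
      exact_mod_cast this
    have h1 := hN0 M hMN H
      ((Real.rpow_le_rpow hM0.le hMXr (by linarith)).trans hXhalf) hHM A (by
        intro m hm i p hp hd
        rw [Pool.Agent.TH464.PW.quad_eval] at hd
        have hm' : m ∈ gP P a r w M H := hm
        unfold gP at hm'
        have hm' := (mem_filter.1 hm').1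
        unfold gset at hm'
        rw [mem_filter, mem_Ioc] at hm'
        have e : (1 : ℤ) * (m : ℤ) ^ 2 + 0 * m + a = (m : ℤ) ^ 2 + a := by ring
        rw [e] at hd
        have h2 := hm'.2.2 p hp hd
        refine lt_of_lt_of_le ?_ h2
        have h3 : (m : ℝ) ≤ (X : ℝ) ^ (2 : ℝ) := by
          have h4 : m ≤ M + H := hm'.1.2
          have h5 : (m : ℝ) ≤ M + H := by exact_mod_cast h4
          rw [Real.rpow_two]
          nlinarith
        have hmpos : (0 : ℝ) < m := by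
          have : 0 < m := by omega
          exact_mod_cast this
        calc (m : ℝ) ^ (1 / (r₁ : ℝ)) ≤ ((X : ℝ) ^ (2 : ℝ)) ^ (1 / (r₁ : ℝ)) :=
              Real.rpow_le_rpow hmpos.le h3 (by positivity)
          _ = (X : ℝ) ^ (2 / (r₁ : ℝ)) := by
              rw [← Real.rpow_mul hX0.le]; congr 1; ring
          _ < (X : ℝ) ^ z := Real.rpow_lt_rpow_of_exponent_lt (by linarith) hr₁z)
    rw [Fintype.card_fin, pow_one] at h1
    -- the elements outside
    have h2 : (gP P a r w M H).card ≤ cnt P a r w l (Real.log X ^ B) M H +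
        N (Outside A l (Real.log M ^ B) M (M + H)) M (M + H) := by
      rw [← card_filter_add_card_filter_not
        (fun n => InProg A l (Real.log X ^ B) M (M + H) n)]
      apply Nat.add_le_add le_rfl
      unfold N
      apply card_le_card
      intro n hn
      rw [mem_filter] at hn
      rw [mem_filter]
      have hn1 := hn.1
      unfold gP at hn1
      have hn1 := (mem_filter.1 hn1).1
      unfold gset at hn1
      rw [mem_filter] at hn1
      refine ⟨hn1.1, hn.1, fun hP => hn.2 ?_⟩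
      obtain ⟨u, d, h3, h4, h5, h6⟩ := hP
      exact ⟨u, d, h3, h4.trans (pow_le_pow_left₀ hlM0.le hlM2 B), h5, h6⟩
    have h3 : ((gP P a r w M H).card : ℝ) ≤ (cnt P a r w l (Real.log X ^ B) M H : ℝ) +
        (N (Outside A l (Real.log M ^ B) M (M + H)) M (M + H) : ℝ) := by exact_mod_cast h2
    have h4 : δ₀ * h / 2 * H / Real.log M ≤ δ₀ / 2 * ((X : ℝ) ^ h / Real.log X) := by
      rw [div_le_iff₀ hlM0]
      calc δ₀ * h / 2 * H ≤ δ₀ * h / 2 * (X : ℝ) ^ h := by gcongr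
        _ = δ₀ / 2 * ((X : ℝ) ^ h / Real.log X) * (h * Real.log X) := by field_simp
        _ ≤ δ₀ / 2 * ((X : ℝ) ^ h / Real.log X) * Real.log M := by gcongr
    have h5 : δ₀ * (X : ℝ) ^ h / Real.log X =
        δ₀ / 2 * ((X : ℝ) ^ h / Real.log X) + δ₀ / 2 * ((X : ℝ) ^ h / Real.log X) := by ring
    linarith
  -- the exceptions
  have hsub : (Icc 1 X).filter (fun M =>
        (cnt P a r w l (Real.log X ^ B) M H : ℝ) < δ₀ / 2 * ((X : ℝ) ^ h / Real.log X)) ⊆
      (range N0 ∪ range (⌊(X : ℝ) ^ h⌋₊ + 1)) ∪ (Icc 1 X).filter (fun M =>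
        ((gP P a r w M H).card : ℝ) < δ₀ * (X : ℝ) ^ h / Real.log X) := by
    intro M hM
    rw [mem_filter, mem_Icc] at hM
    rw [mem_union, mem_union, mem_range, mem_range, mem_filter, mem_Icc]
    by_contra hcon
    push Not at hcon
    obtain ⟨⟨h1, h2⟩, h3⟩ := hcon
    have h4 := h3 hM.1
    have h5 : (X : ℝ) ^ h ≤ M := by
      have : ⌊(X : ℝ) ^ h⌋₊ < M := by omega
      exact (Nat.lt_of_floor_lt this).le
    exact absurd (hgood M hM.1.2 h1 h5 h4) (not_le.2 hM.2)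
  have hc1 := (card_le_card hsub).trans (card_union_le _ _)
  have hc2 := card_union_le (range N0) (range (⌊(X : ℝ) ^ h⌋₊ + 1))
  rw [card_range, card_range] at hc2
  have hc3 := HF X e5
  have hc4 : (((Icc 1 X).filter (fun M =>
        (cnt P a r w l (Real.log X ^ B) M H : ℝ) < δ₀ / 2 * ((X : ℝ) ^ h / Real.log X))).card : ℝ) ≤
      (N0 : ℝ) + ((H : ℝ) + 1) + (X : ℝ) ^ (2 * t - h + ε / 2) := by
    have h1 : (((Icc 1 X).filter (fun M =>
        (cnt P a r w l (Real.log X ^ B) M H : ℝ) < δ₀ / 2 * ((X : ℝ) ^ h / Real.log X))).card : ℝ) ≤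
        ((N0 + (H + 1) + ((Icc 1 X).filter (fun M =>
        ((gP P a r w M H).card : ℝ) < δ₀ * (X : ℝ) ^ h / Real.log X)).card : ℕ) : ℝ) := by
      have h2 := hc1.trans (Nat.add_le_add_right hc2 _)
      exact_mod_cast h2
    push_cast at h1
    linarith
  have hpw : (X : ℝ) ^ (2 * t - h) ≤ (X : ℝ) ^ (2 * t - h + ε / 2) :=
    Real.rpow_le_rpow_of_exponent_le hX1 (by linarith)
  have hH2 : (H : ℝ) ≤ (X : ℝ) ^ (2 * t - h) :=
    hHle.trans (Real.rpow_le_rpow_of_exponent_le hX1 (by linarith))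
  have h1X : (1 : ℝ) ≤ (X : ℝ) ^ (2 * t - h + ε / 2) := by
    apply Real.one_le_rpow hX1
    linarith
  refine hc4.trans ?_
  have hev4 : (X : ℝ) ^ (2 * t - h + ε) = (X : ℝ) ^ (ε / 2) * (X : ℝ) ^ (2 * t - h + ε / 2) := by
    rw [← Real.rpow_add hX0]; congr 1; ring
  rw [hev4]
  have h5 : (0 : ℝ) < (X : ℝ) ^ (2 * t - h + ε / 2) := by positivity
  calc (N0 : ℝ) + ((H : ℝ) + 1) + (X : ℝ) ^ (2 * t - h + ε / 2) ≤
      4 * (X : ℝ) ^ (2 * t - h + ε / 2) := by linarith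
    _ ≤ (X : ℝ) ^ (ε / 2) * (X : ℝ) ^ (2 * t - h + ε / 2) := by gcongr

/-- the upper bound of the right order of magnitude for the integers in a short interval at which all the
polynomials of a system have no small prime factor (after `Pool.Agent.X34.E.rough_upper`) -/
theorem rough_upper {ι : Type} [Fintype ι] [Nonempty ι] (f : ι → ℤ[X]) (hf : Poly.Sys f) (κ θ : ℝ) (hκ : 0 < κ)
    (hθ : 0 < θ) (hθ1 : θ ≤ 1) : ∃ C : ℝ, 0 < C ∧ ∀ᶠ X : ℕ in atTop, ∀ u H : ℕ, (X : ℝ) ^ θ ≤ H → H ≤ X →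
      u ≤ 3 * X → ∀ S : Finset ℕ, S ⊆ Ioc u (u + H) →
        (∀ n ∈ S, ∀ i, ∀ p : ℕ, p.Prime → (p : ℝ) ≤ (X : ℝ) ^ κ → ¬ (p : ℤ) ∣ (f i).eval (n : ℤ)) →
        (S.card : ℝ) ≤ C * (H / Real.log X ^ (Fintype.card ι)) := by
  classical
  obtain ⟨K, hK⟩ : ∃ K, K = Fintype.card ι := ⟨_, rfl⟩
  rw [← hK]
  obtain ⟨K1, hK1, h⟩ := Pool.Agent.TH977.PW.upper_input f hf (θ / 2) (by positivity) (by linarith)
  set r : ℕ := max K1 ⌈2 / κ⌉₊ with hr
  have hrκ : 2 / κ ≤ r := (Nat.le_ceil _).trans (by exact_mod_cast le_max_right _ _)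
  have hr0 : (0 : ℝ) < r := lt_of_lt_of_le (by positivity) hrκ
  obtain ⟨C1, C2, hC1, -, h1⟩ := h r (le_max_left _ _)
  obtain ⟨X0, hX0⟩ := eventually_atTop.1 (h1 1 one_pos)
  rw [← hK] at hX0
  refine ⟨C1 / θ ^ K, by positivity, ?_⟩
  have hpow : ∀ᶠ X : ℕ in atTop, (X0 : ℝ) + 4 ≤ (X : ℝ) ^ θ :=
    ((tendsto_rpow_atTop hθ).comp tendsto_natCast_atTop_atTop).eventually_ge_atTop _
  filter_upwards [hpow, eventually_ge_atTop 4] with X hXp hX4 u H hH1 hH2 hu S hS hSr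
  have hX4r : (4 : ℝ) ≤ X := by exact_mod_cast hX4
  have hXpos : (0 : ℝ) < X := by linarith
  have hlX : 0 < Real.log X := Real.log_pos (by linarith)
  set X' : ℕ := u + H with hX'
  have hHr : (H : ℝ) ≤ X := by exact_mod_cast hH2
  have hH0 : (0 : ℝ) < H := lt_of_lt_of_le (by positivity) hH1
  have hX'1 : (H : ℝ) ≤ X' := by exact_mod_cast (by omega : H ≤ X')
  have hX'0 : X0 ≤ X' := by
    have : (X0 : ℝ) ≤ X' := by linarith
    exact_mod_cast this
  have hX'4 : (X' : ℝ) ≤ (X : ℝ) ^ (2 : ℝ) := by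
    have h2 : X' ≤ 4 * X := by omega
    have h3 : (X' : ℝ) ≤ 4 * X := by exact_mod_cast h2
    rw [Real.rpow_two, sq]
    nlinarith
  have hX'pos : (0 : ℝ) < X' := by linarith
  obtain ⟨-, -, h3, -⟩ := hX0 X' hX'0 H (by
    calc (X' : ℝ) ^ (θ / 2) ≤ ((X : ℝ) ^ (2 : ℝ)) ^ (θ / 2) :=
          Real.rpow_le_rpow hX'pos.le hX'4 (by positivity)
      _ = (X : ℝ) ^ θ := by
          rw [← Real.rpow_mul hXpos.le]
          congr 1
          ring
      _ ≤ H := hH1) (by omega)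
  have hsub : S.card ≤ co (Rgh f r X' H) 0 (4 * H) := by
    unfold co
    have hinj : Set.InjOn (fun n => n - u) (S : Set ℕ) := by
      intro a ha b hb hab
      have ha' := mem_Ioc.1 (hS ha)
      have hb' := mem_Ioc.1 (hS hb)
      simp only at hab
      omega
    rw [← card_image_of_injOn hinj]
    apply card_le_card
    intro m hm
    obtain ⟨n, hn, rfl⟩ := mem_image.1 hm
    have h45 := mem_Ioc.1 (hS hn)
    rw [mem_filter, mem_Ioc]
    refine ⟨⟨by omega, by omega⟩, ?_⟩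
    intro p hp hq
    obtain ⟨i, hi⟩ := hq
    have hpp := (mem_pz.1 hp).2
    have h7 := (mem_pz.1 hp).1
    have e1 : n - u + (X' - H) = n := by omega
    rw [e1] at hi
    refine hSr n hn i p hpp ?_ hi
    have h8 : (p : ℝ) ≤ (X' : ℝ) ^ (1 / (r : ℝ)) := by
      exact (Nat.le_floor_iff (by positivity)).1 h7
    refine h8.trans ?_
    calc (X' : ℝ) ^ (1 / (r : ℝ)) ≤ ((X : ℝ) ^ (2 : ℝ)) ^ (1 / (r : ℝ)) :=
          Real.rpow_le_rpow hX'pos.le hX'4 (by positivity)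
      _ = (X : ℝ) ^ (2 / (r : ℝ)) := by
          rw [← Real.rpow_mul hXpos.le]
          congr 1
          ring
      _ ≤ (X : ℝ) ^ κ := by
          apply Real.rpow_le_rpow_of_exponent_le (by linarith)
          rw [div_le_iff₀ hr0]
          rw [div_le_iff₀ hκ] at hrκ
          linarith
  have hlog : θ * Real.log X ≤ Real.log X' := by
    rw [← Real.log_rpow hXpos]
    exact Real.log_le_log (by positivity) (hH1.trans hX'1)
  calc (S.card : ℝ) ≤ (co (Rgh f r X' H) 0 (4 * H) : ℝ) := by exact_mod_cast hsub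
    _ ≤ C1 * H / Real.log X' ^ K := h3
    _ ≤ C1 * H / (θ * Real.log X) ^ K := by
          apply div_le_div_of_nonneg_left (by positivity) (by positivity)
          exact pow_le_pow_left₀ (by positivity) hlog K
    _ = C1 / θ ^ K * (H / Real.log X ^ K) := by
          rw [mul_pow]
          field_simp

end Pool.Agent.T2H62.Comp
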