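import Pool.Agent.T2H62.Comp

set_option autoImplicit false

/-! Almost primes of the families of Ankeny, Chowla, Hasse and Lang in narrow progressions, in almost all very short
intervals. -/

namespace Pool.Agent.T2H62.CompAB

open Finset Filter Polynomial
open Pool.Agent.Y882.SI (gset)
open Pool.Agent.T2H62.Comp (gP cnt rough_upper)
open Pool.Agent.W123.RU Pool.Agent.TH464.PW

/-- the argument belongs to the family -/
def Fam (e : Bool) (m : ℕ) : Prop :=
  if e then ∃ q n : ℕ, q.Prime ∧ 1 ≤ n ∧ m = (2 * n + 1) * q else ∃ q n : ℕ, q.Prime ∧ 1 < n ∧ m = 2 * q * n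

/-- the constants -/
def cc (e : Bool) : ℤ := if e then 4 else 1

lemma ns (e : Bool) : ¬ IsSquare (-(cc e)) := by
  rintro ⟨r, hr⟩
  have := mul_self_nonneg r
  unfold cc at hr
  split_ifs at hr <;> omega

theorem sys1 (e : Bool) : Poly.Sys (fun _ : Fin 1 => quad 1 0 (cc e)) where
  irr := fun _ => by
    apply quad_irr 1 0 (cc e) one_ne_zero
    · rintro p hp ⟨h1, -, -⟩
      exact hp.one_lt.ne' (Nat.dvd_one.1 (by exact_mod_cast h1))
    · rintro ⟨r, hr⟩
      have := mul_self_nonneg r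
      unfold cc at hr
      split_ifs at hr <;> omega
  deg := fun _ => by rw [quad_deg 1 0 (cc e) one_ne_zero]; norm_num
  lead := fun _ => by rw [quad_lead 1 0 (cc e) one_ne_zero]; norm_num
  inj := fun _ _ _ => Subsingleton.elim _ _
  adm := fun p hp => by
    by_cases h2 : p = 2
    · subst h2
      cases e
      · refine ⟨0, fun _ h => ?_⟩
        rw [quad_eval] at h
        norm_num [cc] at h
      · refine ⟨1, fun _ h => ?_⟩
        rw [quad_eval] at h
        norm_num [cc] at h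
    · refine ⟨0, fun _ h => ?_⟩
      rw [quad_eval] at h
      cases e
      · norm_num [cc] at h
        exact hp.one_lt.ne' (Nat.dvd_one.1 (by exact_mod_cast h))
      · norm_num [cc] at h
        have h7 : p ∣ 4 := by exact_mod_cast h
        have h8 : p ∣ 2 ^ 2 := by simpa using h7
        exact h2 ((Nat.prime_dvd_prime_iff_eq hp Nat.prime_two).1 (hp.dvd_of_dvd_pow h8))

/-- leading coefficient of the second polynomial -/
def lc (e : Bool) : ℤ := if e then 1 else 4

/-- the second polynomial -/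
noncomputable def sq (e : Bool) : ℤ[X] := quad (lc e) 0 (cc e)

/-- the system of the prime arguments -/
noncomputable def fs (e : Bool) : Fin 2 → ℤ[X] := ![X, sq e]

lemma lc_ne (e : Bool) : lc e ≠ 0 := by unfold lc; split_ifs <;> norm_num

theorem sys2 (e : Bool) : Poly.Sys (fs e) where
  irr := fun i => by
    fin_cases i
    · exact irreducible_X
    · show Irreducible (quad (lc e) 0 (cc e))
      apply quad_irr _ _ _ (lc_ne e)
      · rintro p hp ⟨h1, -, h3⟩
        cases e
        · norm_num [cc] at h3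
          exact hp.one_lt.ne' (Nat.dvd_one.1 (by exact_mod_cast h3))
        · norm_num [lc] at h1
          exact hp.one_lt.ne' (Nat.dvd_one.1 (by exact_mod_cast h1))
      · rintro ⟨r, hr⟩
        have := mul_self_nonneg r
        unfold cc lc at hr
        split_ifs at hr <;> omega
  deg := fun i => by
    fin_cases i
    · show 0 < (X : ℤ[X]).natDegree
      rw [natDegree_X]; norm_num
    · show 0 < (quad (lc e) 0 (cc e)).natDegree
      rw [quad_deg _ _ _ (lc_ne e)]; norm_num
  lead := fun i => by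
    fin_cases i
    · show 0 < (X : ℤ[X]).leadingCoeff
      rw [leadingCoeff_X]; norm_num
    · show 0 < (quad (lc e) 0 (cc e)).leadingCoeff
      rw [quad_lead _ _ _ (lc_ne e)]
      unfold lc; split_ifs <;> norm_num
  inj := fun i j hij => by
    have h1 := congrArg (fun P : ℤ[X] => P.natDegree) hij
    fin_cases i <;> fin_cases j
    · rfl
    · exfalso
      change (X : ℤ[X]).natDegree = (quad (lc e) 0 (cc e)).natDegree at h1
      rw [natDegree_X, quad_deg _ _ _ (lc_ne e)] at h1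
      omega
    · exfalso
      change (quad (lc e) 0 (cc e)).natDegree = (X : ℤ[X]).natDegree at h1
      rw [natDegree_X, quad_deg _ _ _ (lc_ne e)] at h1
      omega
    · rfl
  adm := fun p hp => by
    by_cases h5 : p = 5
    · subst h5
      refine ⟨2, fun i h => ?_⟩
      fin_cases i
      · change ((5 : ℕ) : ℤ) ∣ (X : ℤ[X]).eval ((2 : ℕ) : ℤ) at h
        rw [eval_X] at h
        omega
      · change ((5 : ℕ) : ℤ) ∣ (quad (lc e) 0 (cc e)).eval ((2 : ℕ) : ℤ) at h
        rw [quad_eval] at h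
        cases e <;> norm_num [lc, cc] at h
    · refine ⟨1, fun i h => ?_⟩
      fin_cases i
      · change ((p : ℕ) : ℤ) ∣ (X : ℤ[X]).eval ((1 : ℕ) : ℤ) at h
        rw [eval_X] at h
        exact hp.one_lt.ne' (Nat.dvd_one.1 (by exact_mod_cast h))
      · change ((p : ℕ) : ℤ) ∣ (quad (lc e) 0 (cc e)).eval ((1 : ℕ) : ℤ) at h
        rw [quad_eval] at h
        have h6 : (p : ℤ) ∣ 5 := by
          cases e
          · norm_num [lc, cc] at h; exact h
          · norm_num [lc, cc] at h; exact h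
        have h7 : p ∣ 5 := by exact_mod_cast h6
        exact h5 ((Nat.prime_dvd_prime_iff_eq hp (by norm_num)).1 h7)

theorem finAll (a : ℤ) (ha : ¬ IsSquare (-a)) (r : ℕ) (t z : ℝ)
    (hpar : (r = 5 ∧ 1 / 2 ≤ t ∧ z = 2 / 5 * t) ∨ (r = 4 ∧ 269 / 500 ≤ t ∧ z = t / 4) ∨
      (r = 3 ∧ 29 / 40 ≤ t ∧ z = t / 4)) (ht : t < 1) (h ε : ℝ) (hh : 0 < h) (h1 : h ≤ 1)
    (hε : 0 < ε) :
    ∃ δ : ℝ, 0 < δ ∧ ∃ X0 : ℕ, ∀ X : ℕ, X0 ≤ X →
      (((Icc 1 X).filter (fun M => ((gset a r ((X : ℝ) ^ z) M ⌊(X : ℝ) ^ h⌋₊).card : ℝ) <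
        δ * (X : ℝ) ^ h / Real.log X)).card : ℝ) ≤ (X : ℝ) ^ (2 * t - h + ε) := by
  rcases hpar with ⟨rfl, ht0, rfl⟩ | ⟨rfl, ht0, rfl⟩ | ⟨rfl, ht0, rfl⟩
  · have hc := Pool.Agent.Y882.KW.cond_B t (20 / 31) (by linarith) (by norm_num) (by norm_num)
    exact Pool.Agent.Y882.MG.finAll a ha 5 t (2 / 5 * t) (9 / 10 * t) (20 / 31)
      (1001 / 500) (by linarith) (by linarith) (by linarith) ht (by linarith) (by linarith)
      (by linarith) (by norm_num) hc (by norm_num) (by
        have h3 : (1001 / 500 : ℝ) / (9 / 10 * t) ≤ 4449 / 1000 := by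
          rw [div_le_iff₀ (by linarith)]
          linarith
        push_cast
        norm_num at h3 ⊢
        linarith) h ε hh h1 hε
  · have hc := Pool.Agent.Y882.KW.cond_A t (8 / 9) (by linarith) (by norm_num) (by norm_num)
    exact Pool.Agent.Y882.MG.finAll a ha 4 t (t / 4) (24 / 25 * t) (8 / 9)
      (2001 / 1000) (by linarith) (by linarith) (by linarith) ht (by linarith) (by linarith)
      (by linarith) (by norm_num) hc (by norm_num) (by
        have h3 : (2001 / 1000 : ℝ) / (24 / 25 * t) ≤ 3875 / 1000 := by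
          rw [div_le_iff₀ (by linarith)]
          linarith
        push_cast
        norm_num at h3 ⊢
        linarith) h ε hh h1 hε
  · have hc := Pool.Agent.Y882.KW.cond_A t (8 / 9) (by linarith) (by norm_num) (by norm_num)
    exact Pool.Agent.Y882.MG.finAll a ha 3 t (t / 4) (24 / 25 * t) (8 / 9)
      (2001 / 1000) (by linarith) (by linarith) (by linarith) ht (by linarith) (by linarith)
      (by linarith) (by norm_num) hc (by norm_num) (by
        have h3 : (2001 / 1000 : ℝ) / (24 / 25 * t) ≤ 2875 / 1000 := by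
          rw [div_le_iff₀ (by linarith)]
          linarith
        push_cast
        norm_num at h3 ⊢
        linarith) h ε hh h1 hε

/-- an almost prime argument outside the family comes from a prime -/
lemma not_fam (e : Bool) (r : ℕ) (w : ℝ) (M H m : ℕ) (hw : 2 < w) (hM : 2 ≤ M) (hm : m ∈ gset (cc e) r w M H)
    (hF : ¬ Fam e m) : if e then m.Prime else (m % 2 = 0 ∧ (m / 2).Prime) := by
  classical
  unfold gset at hm
  rw [mem_filter, mem_Ioc] at hm
  obtain ⟨⟨h1, h2⟩, -, h3⟩ := hm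
  cases e
  · simp only [Bool.false_eq_true, if_false]
    unfold Fam at hF
    simp only [Bool.false_eq_true, if_false] at hF
    push Not at hF
    have heven : m % 2 = 0 := by
      by_contra hodd
      have h4 := h3 2 Nat.prime_two (by
        obtain ⟨k, hk⟩ : ∃ k : ℤ, (m : ℤ) = 2 * k + 1 := ⟨(m : ℤ) / 2, by omega⟩
        rw [hk]
        unfold cc
        simp only [Bool.false_eq_true, if_false]
        exact ⟨2 * k ^ 2 + 2 * k + 1, by push_cast; ring⟩)
      push_cast at h4
      linarith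
    refine ⟨heven, ?_⟩
    by_contra hnp
    have hne : m / 2 ≠ 1 := by omega
    have hq := Nat.minFac_prime hne
    obtain ⟨n, hn⟩ := Nat.minFac_dvd (m / 2)
    have hn1 : 1 < n := by
      by_contra hcon
      have : n = 0 ∨ n = 1 := by omega
      rcases this with rfl | rfl
      · omega
      · rw [mul_one] at hn
        rw [hn] at hnp
        exact hnp hq
    refine hF _ n hq hn1 ?_
    rw [mul_assoc, ← hn]
    omega
  · simp only [if_true]
    unfold Fam at hF
    simp only [if_true] at hF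
    push Not at hF
    have hodd : m % 2 = 1 := by
      by_contra heven
      have h4 := h3 2 Nat.prime_two (by
        obtain ⟨k, hk⟩ : ∃ k : ℤ, (m : ℤ) = 2 * k := ⟨(m : ℤ) / 2, by omega⟩
        rw [hk]
        unfold cc
        simp only [if_true]
        exact ⟨2 * k ^ 2 + 2, by push_cast; ring⟩)
      push_cast at h4
      linarith
    by_contra hnp
    have hne : m ≠ 1 := by omega
    have hq := Nat.minFac_prime hne
    obtain ⟨n, hn⟩ := Nat.minFac_dvd m
    have hnodd : n % 2 = 1 := by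
      by_contra h
      have h5 : 2 ∣ n := by omega
      have h6 : 2 ∣ m := hn ▸ (h5.mul_left _)
      omega
    have hn1 : n ≠ 1 := by
      rintro rfl
      rw [mul_one] at hn
      rw [hn] at hnp
      exact hnp hq
    refine hF _ ((n - 1) / 2) hq (by omega) ?_
    have e1 : 2 * ((n - 1) / 2) + 1 = n := by omega
    rw [e1, mul_comm, ← hn]

/-- few almost prime arguments are outside the family -/
theorem bad_few (e : Bool) (r : ℕ) (z h : ℝ) (hz : 0 < z) (hh : 0 < h) (hh1 : h ≤ 1) :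
    ∃ C : ℝ, 0 < C ∧ ∀ᶠ X : ℕ in atTop, ∀ M : ℕ, ⌊(X : ℝ) ^ h⌋₊ ≤ M → M ≤ X → ∀ S : Finset ℕ,
      S ⊆ gset (cc e) r ((X : ℝ) ^ z) M ⌊(X : ℝ) ^ h⌋₊ → (∀ m ∈ S, ¬ Fam e m) →
      (S.card : ℝ) ≤ C * ((X : ℝ) ^ h / Real.log X ^ 2) := by
  classical
  set κ : ℝ := min z h / 2 with hκdef
  have hκ : 0 < κ := by
    have : 0 < min z h := lt_min hz hh
    rw [hκdef]; linarith
  have hκz : κ < z := by
    have h1 : min z h ≤ z := min_le_left _ _
    have : 0 < min z h := lt_min hz hh
    rw [hκdef]; linarith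
  have hκh : κ ≤ h / 2 := by
    have h1 : min z h ≤ h := min_le_right _ _
    rw [hκdef]; linarith
  obtain ⟨C, hC, hup⟩ := rough_upper (fs e) (sys2 e) κ (h / 2) hκ (by linarith) (by linarith)
  rw [Fintype.card_fin] at hup
  refine ⟨C, hC, ?_⟩
  have hXr : Tendsto (fun X : ℕ => (X : ℝ)) atTop atTop := tendsto_natCast_atTop_atTop
  have ev1 : ∀ᶠ X : ℕ in atTop, (8 : ℝ) ≤ (X : ℝ) ^ (h / 2) :=
    ((tendsto_rpow_atTop (by linarith)).comp hXr).eventually_ge_atTop _
  have ev2 : ∀ᶠ X : ℕ in atTop, (3 : ℝ) ≤ (X : ℝ) ^ z :=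
    ((tendsto_rpow_atTop hz).comp hXr).eventually_ge_atTop _
  filter_upwards [hup, ev1, ev2, eventually_ge_atTop 3] with X gup e1 e2 e3
  intro M hHM hMX S hS hSF
  have hX3 : (3 : ℝ) ≤ X := by exact_mod_cast e3
  have hX0 : (0 : ℝ) < X := by linarith
  have hX1 : (1 : ℝ) ≤ X := by linarith
  have hlX : 0 < Real.log X := Real.log_pos (by linarith)
  set H : ℕ := ⌊(X : ℝ) ^ h⌋₊ with hH
  have hHle : (H : ℝ) ≤ (X : ℝ) ^ h := Nat.floor_le (by positivity)
  have hHX : (X : ℝ) ^ h ≤ X := by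
    calc (X : ℝ) ^ h ≤ (X : ℝ) ^ (1 : ℝ) := Real.rpow_le_rpow_of_exponent_le hX1 (by linarith)
      _ = X := Real.rpow_one _
  have hHX' : H ≤ X := by
    have : (H : ℝ) ≤ X := hHle.trans hHX
    exact_mod_cast this
  have hsq : (X : ℝ) ^ h = (X : ℝ) ^ (h / 2) * (X : ℝ) ^ (h / 2) := by
    rw [← Real.rpow_add hX0]; congr 1; ring
  have hHgt : (X : ℝ) ^ h < H + 1 := Nat.lt_floor_add_one _
  have hXhalf : (X : ℝ) ^ (h / 2) ≤ H := by nlinarith
  have hbig : 4 * (X : ℝ) ^ (h / 2) ≤ H := by nlinarith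
  have hM32 : (32 : ℝ) ≤ M := by
    have : (H : ℝ) ≤ M := by exact_mod_cast hHM
    linarith
  have hM2 : 2 ≤ M := by
    have : (2 : ℝ) ≤ M := by linarith
    exact_mod_cast this
  have hκX : (X : ℝ) ^ κ ≤ (X : ℝ) ^ (h / 2) := Real.rpow_le_rpow_of_exponent_le hX1 hκh
  have hκz' : (X : ℝ) ^ κ < (X : ℝ) ^ z := Real.rpow_lt_rpow_of_exponent_lt (by linarith) hκz
  have hfin : ∀ T : Finset ℕ, (S.card : ℝ) ≤ T.card → (T.card : ℝ) ≤ C * (H / Real.log X ^ 2) →
      (S.card : ℝ) ≤ C * ((X : ℝ) ^ h / Real.log X ^ 2) := by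
    intro T h1 h2
    refine h1.trans (h2.trans ?_)
    apply mul_le_mul_of_nonneg_left _ hC.le
    exact div_le_div_of_nonneg_right hHle (by positivity)
  have hnf := fun m (hm : m ∈ S) => not_fam e r ((X : ℝ) ^ z) M H m (by linarith) hM2 (hS hm) (hSF m hm)
  cases e
  · simp only [Bool.false_eq_true, if_false] at hnf
    apply hfin (S.image (fun m => m / 2))
    · rw [card_image_of_injOn]
      intro a ha b hb hab
      have h1 := (hnf a ha).1
      have h2 := (hnf b hb).1
      simp only at hab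
      omega
    · apply gup (M / 2) H hXhalf hHX' (by omega)
      · intro u hu
        obtain ⟨m, hm, rfl⟩ := mem_image.1 hu
        have h1 := hS hm
        unfold gset at h1
        rw [mem_filter, mem_Ioc] at h1
        have h2 := (hnf m hm).1
        rw [mem_Ioc]
        omega
      · intro u hu i p hp hpX hd
        obtain ⟨m, hm, rfl⟩ := mem_image.1 hu
        have h1 := hS hm
        unfold gset at h1
        rw [mem_filter, mem_Ioc] at h1
        obtain ⟨h2, h2'⟩ := hnf m hm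
        fin_cases i
        · change (p : ℤ) ∣ (Polynomial.X : Polynomial ℤ).eval (((m / 2 : ℕ)) : ℤ) at hd
          rw [eval_X] at hd
          have h4 : p ∣ m / 2 := by exact_mod_cast hd
          have h5 := (Nat.prime_dvd_prime_iff_eq hp h2').1 h4
          have h6 : M < 2 * p := by omega
          have h7 : (M : ℝ) < 2 * p := by exact_mod_cast h6
          have h8 : (H : ℝ) ≤ M := by exact_mod_cast hHM
          linarith
        · change (p : ℤ) ∣ (quad (lc false) 0 (cc false)).eval (((m / 2 : ℕ)) : ℤ) at hd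
          rw [quad_eval] at hd
          have h3 := h1.2.2 p hp (by
            have e0 : lc false * (((m / 2 : ℕ)) : ℤ) ^ 2 + 0 * (((m / 2 : ℕ)) : ℤ) + cc false =
                (m : ℤ) ^ 2 + cc false := by
              have : (m : ℤ) = 2 * (((m / 2 : ℕ)) : ℤ) := by
                have : m = 2 * (m / 2) := by omega
                exact_mod_cast this
              rw [this]
              norm_num [lc]
              ring
            rw [e0] at hd
            exact hd)
          linarith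
  · simp only [if_true] at hnf
    apply hfin S le_rfl
    apply gup M H hXhalf hHX' (by omega)
    · intro m hm
      have h1 := hS hm
      unfold gset at h1
      exact (mem_filter.1 h1).1
    · intro m hm i p hp hpX hd
      have h1 := hS hm
      unfold gset at h1
      rw [mem_filter, mem_Ioc] at h1
      fin_cases i
      · change (p : ℤ) ∣ (Polynomial.X : Polynomial ℤ).eval (m : ℤ) at hd
        rw [eval_X] at hd
        have h4 : p ∣ m := by exact_mod_cast hd
        have h5 := (Nat.prime_dvd_prime_iff_eq hp (hnf m hm)).1 h4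
        have h6 : M < p := by omega
        have h7 : (M : ℝ) < p := by exact_mod_cast h6
        have h8 : (H : ℝ) ≤ M := by exact_mod_cast hHM
        have h9 : 0 < (X : ℝ) ^ (h / 2) := by positivity
        linarith
      · change (p : ℤ) ∣ (quad (lc true) 0 (cc true)).eval (m : ℤ) at hd
        rw [quad_eval] at hd
        have h3 := h1.2.2 p hp (by
          have e0 : lc true * (m : ℤ) ^ 2 + 0 * (m : ℤ) + cc true = (m : ℤ) ^ 2 + cc true := by
            norm_num [lc]
          rw [e0] at hd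
          exact hd)
        linarith

theorem main (e : Bool) (r : ℕ) (t z : ℝ)
    (hpar : (r = 5 ∧ 1 / 2 ≤ t ∧ z = 2 / 5 * t) ∨ (r = 4 ∧ 269 / 500 ≤ t ∧ z = t / 4) ∨
      (r = 3 ∧ 29 / 40 ≤ t ∧ z = t / 4)) (ht : t < 1) (h ε : ℝ) (hh : 0 < h) (hht : h ≤ t)
    (hε : 0 < ε) (l : ℕ) (hl : 2 ≤ l) :
    ∃ δ : ℝ, 0 < δ ∧ ∃ B : ℕ, ∀ᶠ X : ℕ in atTop,
      (((Icc 1 X).filter (fun M =>
        (cnt (Fam e) (cc e) r ((X : ℝ) ^ z) l (Real.log X ^ B) M ⌊(X : ℝ) ^ h⌋₊ : ℝ) <
        δ * ((X : ℝ) ^ h / Real.log X))).card : ℝ) ≤ (X : ℝ) ^ (2 * t - h + ε) := by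
  classical
  have ht0 : 1 / 2 ≤ t := by
    rcases hpar with ⟨_, h, _⟩ | ⟨_, h, _⟩ | ⟨_, h, _⟩ <;> linarith
  have hz0 : 0 < z := by
    rcases hpar with ⟨_, _, h⟩ | ⟨_, _, h⟩ | ⟨_, _, h⟩ <;> rw [h] <;> linarith
  obtain ⟨δ₀, hδ₀, X0, HF⟩ := finAll (cc e) (ns e) r t z hpar ht h (ε / 4) hh (by linarith) (by linarith)
  obtain ⟨C, hC, hbad⟩ := bad_few e r z h hz0 hh (by linarith)
  have hXr : Tendsto (fun X : ℕ => (X : ℝ)) atTop atTop := tendsto_natCast_atTop_atTop
  have ev2 : ∀ᶠ X : ℕ in atTop, (2 : ℝ) ≤ (X : ℝ) ^ (ε / 4) :=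
    ((tendsto_rpow_atTop (by linarith)).comp hXr).eventually_ge_atTop _
  have ev3 : ∀ᶠ X : ℕ in atTop, 2 * C / δ₀ ≤ Real.log X :=
    (Real.tendsto_log_atTop.comp hXr).eventually_ge_atTop _
  obtain ⟨X1, hX1⟩ := eventually_atTop.1 (hbad.and (ev2.and (ev3.and (eventually_ge_atTop 3))))
  refine Pool.Agent.T2H62.Comp.main (Fam e) (cc e) (sys1 e) r t z hz0 ht0 ht h ε hh hht hε l hl (δ₀ / 2) (by positivity)
    (max X0 X1) (fun X hX => ?_)
  obtain ⟨g1, g2, g3, g4⟩ := hX1 X ((le_max_right _ _).trans hX)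
  have g0 := HF X ((le_max_left _ _).trans hX)
  have hX3 : (3 : ℝ) ≤ X := by exact_mod_cast g4
  have hX0 : (0 : ℝ) < X := by linarith
  have hX1' : (1 : ℝ) ≤ X := by linarith
  have hlX : 0 < Real.log X := Real.log_pos (by linarith)
  set H : ℕ := ⌊(X : ℝ) ^ h⌋₊ with hH
  have hHle : (H : ℝ) ≤ (X : ℝ) ^ h := Nat.floor_le (by positivity)
  have hsub : (Icc 1 X).filter (fun M => ((gP (Fam e) (cc e) r ((X : ℝ) ^ z) M H).card : ℝ) <
        δ₀ / 2 * (X : ℝ) ^ h / Real.log X) ⊆ range H ∪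
      (Icc 1 X).filter (fun M => ((gset (cc e) r ((X : ℝ) ^ z) M H).card : ℝ) <
        δ₀ * (X : ℝ) ^ h / Real.log X) := by
    intro M hM
    rw [mem_filter, mem_Icc] at hM
    rw [mem_union, mem_range, mem_filter, mem_Icc]
    by_contra hcon
    push Not at hcon
    obtain ⟨h1, h2⟩ := hcon
    have h3 := h2 hM.1
    have h4 := g1 M h1 hM.1.2 ((gset (cc e) r ((X : ℝ) ^ z) M H).filter (fun m => ¬ Fam e m)) (filter_subset _ _)
      (fun m hm => (mem_filter.1 hm).2)
    have h5 : ((gset (cc e) r ((X : ℝ) ^ z) M H).card : ℝ) = ((gP (Fam e) (cc e) r ((X : ℝ) ^ z) M H).card : ℝ) +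
        (((gset (cc e) r ((X : ℝ) ^ z) M H).filter (fun m => ¬ Fam e m)).card : ℝ) := by
      unfold gP
      rw [← Nat.cast_add]
      norm_cast
      exact (card_filter_add_card_filter_not (Fam e)).symm
    have h6 : C * ((X : ℝ) ^ h / Real.log X ^ 2) ≤ δ₀ / 2 * (X : ℝ) ^ h / Real.log X := by
      rw [div_le_iff₀ hδ₀] at g3
      have h7 : C ≤ δ₀ / 2 * Real.log X := by linarith
      have h8 : C * ((X : ℝ) ^ h / Real.log X ^ 2) = C / Real.log X * ((X : ℝ) ^ h / Real.log X) := by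
        field_simp
      have h9 : δ₀ / 2 * (X : ℝ) ^ h / Real.log X = δ₀ / 2 * ((X : ℝ) ^ h / Real.log X) := by ring
      rw [h8, h9]
      apply mul_le_mul_of_nonneg_right _ (by positivity)
      rw [div_le_iff₀ hlX]
      exact h7
    have h7 := hM.2
    have h8 : δ₀ * (X : ℝ) ^ h / Real.log X = δ₀ / 2 * (X : ℝ) ^ h / Real.log X + δ₀ / 2 * (X : ℝ) ^ h / Real.log X := by
      ring
    linarith
  have hc1 := (card_le_card hsub).trans (card_union_le _ _)
  rw [card_range] at hc1
  have hH2 : (H : ℝ) ≤ (X : ℝ) ^ (2 * t - h + ε / 4) :=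
    hHle.trans (Real.rpow_le_rpow_of_exponent_le hX1' (by linarith))
  have hc2 : (((Icc 1 X).filter (fun M => ((gP (Fam e) (cc e) r ((X : ℝ) ^ z) M H).card : ℝ) <
        δ₀ / 2 * (X : ℝ) ^ h / Real.log X)).card : ℝ) ≤ (X : ℝ) ^ (2 * t - h + ε / 4) + (X : ℝ) ^ (2 * t - h + ε / 4) := by
    refine le_trans ?_ (add_le_add hH2 g0)
    exact_mod_cast hc1
  refine hc2.trans ?_
  have e4 : (X : ℝ) ^ (2 * t - h + ε / 2) = (X : ℝ) ^ (ε / 4) * (X : ℝ) ^ (2 * t - h + ε / 4) := by
    rw [← Real.rpow_add hX0]; congr 1; ring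
  rw [e4]
  have h5 : (0 : ℝ) < (X : ℝ) ^ (2 * t - h + ε / 4) := by positivity
  nlinarith

end Pool.Agent.T2H62.CompAB
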