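import Pool.Agent.R490.Tq
import Pool.Agent.H305R2.MertensE

set_option autoImplicit false

/-! Consecutive rough numbers at distance `6` between consecutive cubes: definitions and counting. -/

namespace Pool.Agent.T2H62.Cube

open Finset Filter Topology
open Pool.Agent.R490.Tq (Ro nu V Dk tgap)

/-- `m` has no prime factor `≤ s` -/
def Rough (s m : ℕ) : Prop := ∀ p : ℕ, p.Prime → p ≤ s → ¬ p ∣ m

/-- `m` and `m + 6` are consecutive among the integers without a prime factor `≤ s` -/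
def Sexy (s m : ℕ) : Prop := Rough s m ∧ Rough s (m + 6) ∧ ∀ t : ℕ, m < t → t < m + 6 → ¬ Rough s t

open Classical in
/-- the number of the pairs between `n ^ 3` and `(n + 1) ^ 3` -/
noncomputable def S (s n : ℕ) : ℕ :=
  ((Ioo (n ^ 3) ((n + 1) ^ 3)).filter (fun m => m + 6 < (n + 1) ^ 3 ∧ Sexy s m)).card

open Classical in
/-- the number `S(n)` of the question -/
noncomputable def S0 (n : ℕ) : ℕ :=
  ((Ioo (n ^ 3) ((n + 1) ^ 3)).filter (fun p => p + 6 < (n + 1) ^ 3 ∧ p.Prime ∧ (p + 6).Prime ∧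
    ∀ t : ℕ, p < t → t < p + 6 → ¬ t.Prime)).card

/-- the density of the pairs -/
noncomputable def D (s : ℕ) : ℝ :=
  ∏ p ∈ (range (s + 1)).filter Nat.Prime, (1 - ((if p ≤ 3 then 1 else 2 : ℕ) : ℝ) / p)

/-! ### the densities -/

lemma card_image_mod (H : Finset ℕ) (p : ℕ) (h : ∀ x ∈ H, ∀ y ∈ H, x % p = y % p → x = y) :
    (H.image (fun h => h % p)).card = H.card :=
  Finset.card_image_of_injOn (fun x hx y hy e => h x hx y hy e)

/-- the primes from `5` on -/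
def P5 (s : ℕ) : Finset ℕ := ((range (s + 1)).filter Nat.Prime).filter (fun p => 3 < p)

lemma mem_P5 {s p : ℕ} : p ∈ P5 s ↔ p.Prime ∧ p ≤ s ∧ 3 < p := by
  unfold P5
  simp only [mem_filter, mem_range]
  constructor
  · rintro ⟨⟨h1, h2⟩, h3⟩; exact ⟨h2, by omega, h3⟩
  · rintro ⟨h1, h2, h3⟩; exact ⟨⟨by omega, h1⟩, h3⟩

lemma dvd_twelve {p : ℕ} (hp : p.Prime) : p ∣ 12 ↔ p ≤ 3 := by
  constructor
  · intro h
    have h1 : p ∣ 2 ^ 2 * 3 := by norm_num; exact h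
    rcases (hp.dvd_mul).1 h1 with h2 | h2
    · have := (Nat.prime_dvd_prime_iff_eq hp Nat.prime_two).1 (hp.dvd_of_dvd_pow h2)
      omega
    · have := (Nat.prime_dvd_prime_iff_eq hp Nat.prime_three).1 h2
      omega
  · intro h
    have := hp.two_le
    interval_cases p
    · norm_num
    · norm_num

lemma V12_gen (H : Finset ℕ) (s : ℕ) (hH : ∀ p : ℕ, p.Prime → 3 < p → ∀ x ∈ H, ∀ y ∈ H, x % p = y % p → x = y) :
    V H 12 s = ∏ p ∈ P5 s, (1 - (H.card : ℝ) / p) := by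
  unfold V P5
  rw [← Finset.prod_filter_mul_prod_filter_not ((range (s + 1)).filter Nat.Prime) (fun p => 3 < p)
    (fun p => (1 - (nu H 12 p : ℝ) / p))]
  have h2 : ∏ p ∈ ((range (s + 1)).filter Nat.Prime).filter (fun p => ¬ 3 < p),
      (1 - (nu H 12 p : ℝ) / p) = 1 := by
    apply Finset.prod_eq_one
    intro p hp
    rw [mem_filter, mem_filter] at hp
    have h3 : p ∣ 12 := (dvd_twelve hp.1.2).2 (by omega)
    unfold nu
    rw [if_pos h3]
    simp
  rw [h2, mul_one]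
  apply Finset.prod_congr rfl
  intro p hp
  rw [mem_filter, mem_filter] at hp
  have h3 : ¬ p ∣ 12 := fun h => by
    have := (dvd_twelve hp.1.2).1 h
    omega
  unfold nu
  rw [if_neg h3, card_image_mod H p (hH p hp.1.2 hp.2)]

lemma inj2 : ∀ p : ℕ, p.Prime → 3 < p → ∀ x ∈ ({0, 6} : Finset ℕ), ∀ y ∈ ({0, 6} : Finset ℕ),
    x % p = y % p → x = y := by
  intro p hp h3 x hx y hy h
  simp only [mem_insert, mem_singleton] at hx hy
  have h4 : p ≠ 4 := fun h => by rw [h] at hp; exact absurd hp (by norm_num)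
  have h6 : p ≠ 6 := fun h => by rw [h] at hp; exact absurd hp (by norm_num)
  have key : p = 5 ∨ 6 < p := by omega
  rcases key with rfl | hp6
  · rcases hx with rfl | rfl <;> rcases hy with rfl | rfl <;> omega
  · rcases hx with rfl | rfl <;> rcases hy with rfl | rfl <;>
      simp only [Nat.zero_mod, Nat.mod_eq_of_lt hp6] at h <;> omega

lemma inj3a : ∀ p : ℕ, p.Prime → 3 < p → ∀ x ∈ ({0, 2, 6} : Finset ℕ), ∀ y ∈ ({0, 2, 6} : Finset ℕ),
    x % p = y % p → x = y := by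
  intro p hp h3 x hx y hy h
  simp only [mem_insert, mem_singleton] at hx hy
  have h4 : p ≠ 4 := fun h => by rw [h] at hp; exact absurd hp (by norm_num)
  have h6 : p ≠ 6 := fun h => by rw [h] at hp; exact absurd hp (by norm_num)
  have key : p = 5 ∨ 6 < p := by omega
  rcases key with rfl | hp6
  · rcases hx with rfl | rfl | rfl <;> rcases hy with rfl | rfl | rfl <;> omega
  · rcases hx with rfl | rfl | rfl <;> rcases hy with rfl | rfl | rfl <;>
      simp only [Nat.zero_mod, Nat.mod_eq_of_lt hp6, Nat.mod_eq_of_lt (show 2 < p by omega)] at h <;> omega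

lemma inj3b : ∀ p : ℕ, p.Prime → 3 < p → ∀ x ∈ ({0, 4, 6} : Finset ℕ), ∀ y ∈ ({0, 4, 6} : Finset ℕ),
    x % p = y % p → x = y := by
  intro p hp h3 x hx y hy h
  simp only [mem_insert, mem_singleton] at hx hy
  have h4 : p ≠ 4 := fun h => by rw [h] at hp; exact absurd hp (by norm_num)
  have h6 : p ≠ 6 := fun h => by rw [h] at hp; exact absurd hp (by norm_num)
  have key : p = 5 ∨ 6 < p := by omega
  rcases key with rfl | hp6
  · rcases hx with rfl | rfl | rfl <;> rcases hy with rfl | rfl | rfl <;> omega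
  · rcases hx with rfl | rfl | rfl <;> rcases hy with rfl | rfl | rfl <;>
      simp only [Nat.zero_mod, Nat.mod_eq_of_lt hp6, Nat.mod_eq_of_lt (show 4 < p by omega)] at h <;> omega

/-- two classes -/
noncomputable def V2 (s : ℕ) : ℝ := ∏ p ∈ P5 s, (1 - 2 / (p : ℝ))

/-- three classes -/
noncomputable def V3 (s : ℕ) : ℝ := ∏ p ∈ P5 s, (1 - 3 / (p : ℝ))

lemma V_two (s : ℕ) : V {0, 6} 12 s = V2 s := by
  rw [V12_gen _ s inj2]
  simp [V2]

lemma V_threea (s : ℕ) : V {0, 2, 6} 12 s = V3 s := by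
  rw [V12_gen _ s inj3a]
  have : ({0, 2, 6} : Finset ℕ).card = 3 := rfl
  rw [this]
  simp [V3]

lemma V_threeb (s : ℕ) : V {0, 4, 6} 12 s = V3 s := by
  rw [V12_gen _ s inj3b]
  have : ({0, 4, 6} : Finset ℕ).card = 3 := rfl
  rw [this]
  simp [V3]

lemma D_eq (s : ℕ) (hs : 3 ≤ s) : D s = V2 s / 3 := by
  unfold D V2 P5
  rw [← Finset.prod_filter_mul_prod_filter_not ((range (s + 1)).filter Nat.Prime) (fun p => 3 < p)
    (fun p => (1 - ((if p ≤ 3 then 1 else 2 : ℕ) : ℝ) / p))]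
  have h2 : ((range (s + 1)).filter Nat.Prime).filter (fun p => ¬ 3 < p) = {2, 3} := by
    ext p
    simp only [mem_filter, mem_range, mem_insert, mem_singleton]
    constructor
    · rintro ⟨⟨_, h1⟩, h2⟩
      have := h1.two_le
      omega
    · rintro (rfl | rfl)
      · exact ⟨⟨by omega, Nat.prime_two⟩, by omega⟩
      · exact ⟨⟨by omega, Nat.prime_three⟩, by omega⟩
  rw [h2, Finset.prod_pair (by norm_num)]
  have h3 : ∏ p ∈ ((range (s + 1)).filter Nat.Prime).filter (fun p => 3 < p),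
      (1 - ((if p ≤ 3 then 1 else 2 : ℕ) : ℝ) / p) =
      ∏ p ∈ ((range (s + 1)).filter Nat.Prime).filter (fun p => 3 < p), (1 - 2 / (p : ℝ)) := by
    apply Finset.prod_congr rfl
    intro p hp
    rw [mem_filter] at hp
    rw [if_neg (by omega)]
    norm_num
  rw [h3]
  norm_num
  ring

lemma V2_pos (s : ℕ) : 0 < V2 s := by
  unfold V2
  apply Finset.prod_pos
  intro p hp
  have h := (mem_P5.1 hp).2.2
  have h1 : (4 : ℝ) ≤ p := by exact_mod_cast h
  rw [sub_pos, div_lt_one (by linarith)]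
  linarith

lemma V3_nonneg (s : ℕ) : 0 ≤ V3 s := by
  unfold V3
  apply Finset.prod_nonneg
  intro p hp
  have h := (mem_P5.1 hp).2.2
  have h1 : (4 : ℝ) ≤ p := by exact_mod_cast h
  rw [sub_nonneg, div_le_one (by linarith)]
  linarith

/-- the full product of Mertens -/
noncomputable def M1 (s : ℕ) : ℝ := ∏ p ∈ (Icc 1 s).filter Nat.Prime, (1 - (p : ℝ)⁻¹)

lemma fac (p : ℕ) (hp : p.Prime) : 0 < 1 - (p : ℝ)⁻¹ ∧ 1 - (p : ℝ)⁻¹ ≤ 1 := by
  have h2 : (2 : ℝ) ≤ p := by exact_mod_cast hp.two_le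
  have h3 : (p : ℝ)⁻¹ ≤ 1 / 2 := by
    rw [inv_eq_one_div]
    exact one_div_le_one_div_of_le (by norm_num) h2
  have h4 : 0 < (p : ℝ)⁻¹ := by positivity
  constructor <;> linarith

lemma M1_pos (s : ℕ) : 0 < M1 s := Finset.prod_pos (fun p hp => (fac p (mem_filter.1 hp).2).1)

lemma M1_split (s : ℕ) (hs : 3 ≤ s) : M1 s = 1 / 3 * ∏ p ∈ P5 s, (1 - (p : ℝ)⁻¹) := by
  unfold M1
  rw [← Finset.prod_filter_mul_prod_filter_not ((Icc 1 s).filter Nat.Prime) (fun p => 3 < p)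
    (fun p => (1 - (p : ℝ)⁻¹))]
  have h1 : ((Icc 1 s).filter Nat.Prime).filter (fun p => 3 < p) = P5 s := by
    ext p
    rw [mem_P5]
    simp only [mem_filter, mem_Icc]
    constructor
    · rintro ⟨⟨h1, h2⟩, h3⟩; exact ⟨h2, h1.2, h3⟩
    · rintro ⟨h1, h2, h3⟩; exact ⟨⟨⟨by omega, h2⟩, h1⟩, h3⟩
  have h2 : ((Icc 1 s).filter Nat.Prime).filter (fun p => ¬ 3 < p) = {2, 3} := by
    ext p
    simp only [mem_filter, mem_Icc, mem_insert, mem_singleton]
    constructor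
    · rintro ⟨⟨_, h1⟩, h2⟩
      have := h1.two_le
      omega
    · rintro (rfl | rfl)
      · exact ⟨⟨⟨by omega, by omega⟩, Nat.prime_two⟩, by omega⟩
      · exact ⟨⟨⟨by omega, by omega⟩, Nat.prime_three⟩, by omega⟩
  rw [h1, h2, Finset.prod_pair (by norm_num)]
  norm_num
  ring

lemma V3_le (s : ℕ) (hs : 3 ≤ s) : V3 s ≤ V2 s * (3 * M1 s) := by
  rw [M1_split s hs]
  have e : 3 * (1 / 3 * ∏ p ∈ P5 s, (1 - (p : ℝ)⁻¹)) = ∏ p ∈ P5 s, (1 - (p : ℝ)⁻¹) := by ring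
  rw [e]
  unfold V3 V2
  rw [← Finset.prod_mul_distrib]
  apply Finset.prod_le_prod
  · intro p hp
    have h := (mem_P5.1 hp).2.2
    have h1 : (4 : ℝ) ≤ p := by exact_mod_cast h
    rw [sub_nonneg, div_le_one (by linarith)]
    linarith
  · intro p hp
    have h := (mem_P5.1 hp).2.2
    have h1 : (4 : ℝ) ≤ p := by exact_mod_cast h
    have h0 : (0 : ℝ) < p := by linarith
    have e2 : (1 - 2 / (p : ℝ)) * (1 - (p : ℝ)⁻¹) - (1 - 3 / p) = 2 * ((p : ℝ)⁻¹ * (p : ℝ)⁻¹) := by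
      field_simp
      ring
    have h5 : 0 ≤ 2 * ((p : ℝ)⁻¹ * (p : ℝ)⁻¹) := by positivity
    linarith

/-- Mertens: lower and upper bounds -/
lemma M1_tendsto : Tendsto (fun s : ℕ => M1 s * Real.log s) atTop
    (𝓝 (Real.exp Real.eulerMascheroniConstant)⁻¹) := by
  have h := Pool.Agent.H305R2.mertens_three.inv₀ (Real.exp_pos _).ne'
  refine h.congr (fun N => ?_)
  unfold M1
  rw [Finset.prod_inv_distrib, inv_div, div_inv_eq_mul, mul_comm]

lemma M1_zero : Tendsto M1 atTop (𝓝 0) := by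
  have h1 : Tendsto (fun s : ℕ => (M1 s * Real.log s) * (Real.log s)⁻¹) atTop
      (𝓝 ((Real.exp Real.eulerMascheroniConstant)⁻¹ * 0)) :=
    M1_tendsto.mul ((Real.tendsto_log_atTop.comp tendsto_natCast_atTop_atTop).inv_tendsto_atTop)
  rw [mul_zero] at h1
  refine h1.congr' ?_
  filter_upwards [eventually_ge_atTop 3] with s hs
  have h3 : (3 : ℝ) ≤ s := by exact_mod_cast hs
  have hl : 0 < Real.log s := Real.log_pos (by linarith)
  rw [mul_assoc, mul_inv_cancel₀ hl.ne', mul_one]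

lemma tele (N : ℕ) : ∏ k ∈ Ioc 3 (N + 3), (1 - 1 / ((k : ℝ) ^ 2)) =
    (3 / 4 * ((N : ℝ) + 4) / ((N : ℝ) + 3) : ℝ) := by
  induction N with
  | zero => norm_num
  | succ N ih =>
    rw [show N + 1 + 3 = (N + 3) + 1 by ring, Finset.prod_Ioc_succ_top (by omega), ih]
    push_cast
    have : (N : ℝ) + 3 ≠ 0 := by positivity
    have : (N : ℝ) + 3 + 1 ≠ 0 := by positivity
    field_simp
    ring

/-- `V2` is at least a constant times the square of the product of Mertens -/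
lemma V2_ge (s : ℕ) (hs : 3 ≤ s) : 3 / 4 * (9 * M1 s ^ 2) ≤ V2 s := by
  have e : 9 * M1 s ^ 2 = ∏ p ∈ P5 s, (1 - (p : ℝ)⁻¹) ^ 2 := by
    rw [M1_split s hs, Finset.prod_pow]
    ring
  rw [e]
  have h1 : V2 s = (∏ p ∈ P5 s, (1 - 1 / (((p : ℝ) - 1) ^ 2))) * ∏ p ∈ P5 s, (1 - (p : ℝ)⁻¹) ^ 2 := by
    unfold V2
    rw [← Finset.prod_mul_distrib]
    apply Finset.prod_congr rfl
    intro p hp
    have h := (mem_P5.1 hp).2.2
    have h1 : (4 : ℝ) ≤ p := by exact_mod_cast h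
    have h2 : (p : ℝ) ≠ 0 := by linarith
    have h3 : (p : ℝ) - 1 ≠ 0 := by linarith
    field_simp
    ring
  rw [h1]
  have hpos : 0 ≤ ∏ p ∈ P5 s, (1 - (p : ℝ)⁻¹) ^ 2 := Finset.prod_nonneg (fun p _ => by positivity)
  apply mul_le_mul_of_nonneg_right _ hpos
  have h2 : ∏ k ∈ Ioc 3 (s + 3), (1 - 1 / ((k : ℝ) ^ 2)) ≤ ∏ p ∈ P5 s, (1 - 1 / (((p : ℝ) - 1) ^ 2)) := by
    have hsub : ((P5 s).image (fun p : ℕ => p - 1) : Finset ℕ) ⊆ Ioc 3 (s + 3) := by
      intro k hk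
      obtain ⟨p, hp, rfl⟩ := mem_image.1 hk
      obtain ⟨hp1, hp2, hp3⟩ := mem_P5.1 hp
      have h4 : p ≠ 4 := fun h => by rw [h] at hp1; exact absurd hp1 (by norm_num)
      rw [mem_Ioc]
      omega
    have h3 : ∏ p ∈ P5 s, (1 - 1 / (((p : ℝ) - 1) ^ 2)) =
        ∏ k ∈ ((P5 s).image (fun p : ℕ => p - 1) : Finset ℕ), (1 - 1 / ((k : ℝ) ^ 2)) := by
      rw [Finset.prod_image]
      · apply Finset.prod_congr rfl
        intro p hp
        obtain ⟨hp1, hp2, hp3⟩ := mem_P5.1 hp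
        rw [Nat.cast_sub (by omega), Nat.cast_one]
      · intro a ha b hb hab
        obtain ⟨ha1, ha2, ha3⟩ := mem_P5.1 ha
        obtain ⟨hb1, hb2, hb3⟩ := mem_P5.1 hb
        simp only at hab
        omega
    rw [h3]
    rw [← Finset.prod_sdiff hsub]
    have h5 : ∀ k ∈ Ioc 3 (s + 3), 0 ≤ 1 - 1 / ((k : ℝ) ^ 2) ∧ 1 - 1 / ((k : ℝ) ^ 2) ≤ 1 := by
      intro k hk
      have hk4 : (1 : ℝ) ≤ (k : ℝ) := by
        have := (mem_Ioc.1 hk).1
        exact_mod_cast (by omega : 1 ≤ k)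
      have hk2 : (1 : ℝ) ≤ (k : ℝ) ^ 2 := one_le_pow₀ hk4
      constructor
      · rw [sub_nonneg, div_le_one (by linarith)]; exact hk2
      · have : 0 ≤ 1 / ((k : ℝ) ^ 2) := by positivity
        linarith
    calc (∏ k ∈ Ioc 3 (s + 3) \ ((P5 s).image (fun p : ℕ => p - 1) : Finset ℕ), (1 - 1 / ((k : ℝ) ^ 2))) *
        ∏ k ∈ ((P5 s).image (fun p : ℕ => p - 1) : Finset ℕ), (1 - 1 / ((k : ℝ) ^ 2)) ≤
        1 * ∏ k ∈ ((P5 s).image (fun p : ℕ => p - 1) : Finset ℕ), (1 - 1 / ((k : ℝ) ^ 2)) := by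
          apply mul_le_mul_of_nonneg_right
          · exact Finset.prod_le_one (fun k hk => (h5 k (sdiff_subset hk)).1)
              (fun k hk => (h5 k (sdiff_subset hk)).2)
          · exact Finset.prod_nonneg (fun k hk => (h5 k (hsub hk)).1)
      _ = _ := one_mul _
  refine le_trans ?_ h2
  rw [tele s]
  have : (0 : ℝ) < (s : ℝ) + 3 := by positivity
  rw [le_div_iff₀ this]
  nlinarith

/-- the order of `D` -/
lemma D_ge : ∃ c : ℝ, 0 < c ∧ ∀ᶠ s : ℕ in atTop, c / Real.log s ^ 2 ≤ D s := by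
  set E := (Real.exp Real.eulerMascheroniConstant)⁻¹ with hE
  have hE0 : 0 < E := by positivity
  refine ⟨3 / 4 * (9 * (E / 2) ^ 2) / 3, by positivity, ?_⟩
  have h1 := M1_tendsto.eventually (lt_mem_nhds (show E / 2 < E by linarith))
  filter_upwards [h1, eventually_ge_atTop 3] with s h2 h3
  have h3r : (3 : ℝ) ≤ s := by exact_mod_cast h3
  have hl : 0 < Real.log s := Real.log_pos (by linarith)
  rw [D_eq s h3]
  have h4 := V2_ge s h3
  have h5 : (E / 2) / Real.log s ≤ M1 s := by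
    rw [div_le_iff₀ hl]; exact h2.le
  have h6 : ((E / 2) / Real.log s) ^ 2 ≤ M1 s ^ 2 := pow_le_pow_left₀ (by positivity) h5 2
  rw [div_pow] at h6
  have e : 3 / 4 * (9 * (E / 2) ^ 2) / 3 / Real.log s ^ 2 =
      (3 / 4 * (9 * ((E / 2) ^ 2 / Real.log s ^ 2))) / 3 := by
    field_simp
  rw [e]
  have : 3 / 4 * (9 * ((E / 2) ^ 2 / Real.log s ^ 2)) ≤ V2 s := by linarith
  linarith

end Pool.Agent.T2H62.Cube
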