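import Pool.Agent.T2H62.CubeA

set_option autoImplicit false

/-! Consecutive rough numbers at distance `6` between consecutive cubes: the count. -/

namespace Pool.Agent.T2H62.Cube

open Finset Filter Topology
open Pool.Agent.R490.Tq (Ro nu V Dk tgap)

open Classical in
/-- the `m` between the cubes with `m + 6` below `(n + 1) ^ 3` -/
noncomputable def cnt (n : ℕ) (P : ℕ → Prop) : ℕ :=
  ((Ioo (n ^ 3) ((n + 1) ^ 3)).filter (fun m => m + 6 < (n + 1) ^ 3 ∧ P m)).card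

/-- left end point -/
def U (n a : ℕ) : ℕ := (n ^ 3 - a) / 12

/-- length -/
def Y (n a : ℕ) : ℕ := ((n + 1) ^ 3 - 7 - a) / 12 - (n ^ 3 - a) / 12

lemma cube_succ (n : ℕ) : (n + 1) ^ 3 = n ^ 3 + (3 * (n * n) + 3 * n + 1) := by ring

lemma Y_bounds (n a : ℕ) (hn : 6 ≤ n) (ha : a < 12) :
    3 * (n * n) ≤ 12 * Y n a ∧ 12 * Y n a ≤ 3 * (n * n) + 4 * n ∧
    (n ^ 3 - a) / 12 ≤ ((n + 1) ^ 3 - 7 - a) / 12 ∧ a ≤ n ^ 3 := by
  unfold Y
  rw [cube_succ]
  have h1 : 216 ≤ n ^ 3 := by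
    calc 216 = 6 ^ 3 := by norm_num
      _ ≤ n ^ 3 := Nat.pow_le_pow_left hn 3
  have h2 : 36 ≤ n * n := Nat.mul_le_mul hn hn
  generalize n ^ 3 = x at *
  generalize n * n = y at *
  omega

open Classical in
lemma cls_eq (n a : ℕ) (hn : 6 ≤ n) (ha : a < 12) (P : ℕ → Prop) :
    cnt n (fun m => m % 12 = a ∧ P m) = ((Ioc (U n a) (U n a + Y n a)).filter (fun t => P (12 * t + a))).card := by
  obtain ⟨h1, h2, h3, h4⟩ := Y_bounds n a hn ha
  have h5 : 216 ≤ n ^ 3 := by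
    calc 216 = 6 ^ 3 := by norm_num
      _ ≤ n ^ 3 := Nat.pow_le_pow_left hn 3
  have h6 : n ^ 3 ≤ (n + 1) ^ 3 := Nat.pow_le_pow_left (by omega) 3
  have hUY : U n a + Y n a = ((n + 1) ^ 3 - 7 - a) / 12 := by
    unfold U Y
    omega
  rw [hUY]
  unfold cnt U
  generalize n ^ 3 = x at *
  generalize (n + 1) ^ 3 = z at *
  refine Finset.card_nbij' (fun m => m / 12) (fun t => 12 * t + a) ?_ ?_ ?_ ?_
  · intro m hm
    simp only [mem_coe, mem_filter, mem_Ioo, mem_Ioc] at hm ⊢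
    obtain ⟨⟨g1, g2⟩, g3, g4, g5⟩ := hm
    have e : 12 * (m / 12) + a = m := by omega
    refine ⟨⟨by omega, by omega⟩, ?_⟩
    rw [e]
    exact g5
  · intro t ht
    simp only [mem_coe, mem_filter, mem_Ioo, mem_Ioc] at ht ⊢
    obtain ⟨⟨g1, g2⟩, g3⟩ := ht
    refine ⟨⟨by omega, by omega⟩, by omega, by omega, g3⟩
  · intro m hm
    simp only [mem_coe, mem_filter, mem_Ioo] at hm
    obtain ⟨⟨g1, g2⟩, g3, g4, g5⟩ := hm
    show 12 * (m / 12) + a = m
    omega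
  · intro t ht
    show (12 * t + a) / 12 = t
    omega

/-- rough patterns -/
def RoughAll (s : ℕ) (H : Finset ℕ) (m : ℕ) : Prop := ∀ h ∈ H, Rough s (m + h)

lemma Ro_iff (H : Finset ℕ) (q a s t : ℕ) : Ro H q a s t ↔ RoughAll s H (q * t + a) := by
  unfold Ro RoughAll Rough
  constructor
  · intro h x hx p hp hps hd
    exact h p hp hps x hx hd
  · intro h p hp hps x hx hd
    exact h x hx p hp hps hd

open Classical in
lemma Dk_eq (H : Finset ℕ) (a s n : ℕ) (hn : 6 ≤ n) (ha : a < 12) :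
    Dk H 12 a s 1 0 (U n a) (Y n a) = cnt n (fun m => m % 12 = a ∧ RoughAll s H m) := by
  rw [cls_eq n a hn ha]
  unfold Dk
  congr 1
  apply filter_congr
  intro t ht
  rw [Ro_iff]
  simp

lemma adm2 (p : ℕ) (hp : p.Prime) : ∃ m : ℕ, ∀ h ∈ ({0, 6} : Finset ℕ), ¬ p ∣ m + h := by
  rcases lt_or_ge p 30 with h30 | h30
  · refine ⟨101, fun h hh hd => ?_⟩
    simp only [mem_insert, mem_singleton] at hh
    have := (Nat.prime_dvd_prime_iff_eq hp (by rcases hh with rfl | rfl <;> norm_num)).1 hd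
    omega
  · refine ⟨5, fun h hh hd => ?_⟩
    simp only [mem_insert, mem_singleton] at hh
    have := Nat.le_of_dvd (by omega) hd
    omega

lemma adm3a (p : ℕ) (hp : p.Prime) : ∃ m : ℕ, ∀ h ∈ ({0, 2, 6} : Finset ℕ), ¬ p ∣ m + h := by
  rcases lt_or_ge p 30 with h30 | h30
  · refine ⟨101, fun h hh hd => ?_⟩
    simp only [mem_insert, mem_singleton] at hh
    have := (Nat.prime_dvd_prime_iff_eq hp (by rcases hh with rfl | rfl | rfl <;> norm_num)).1 hd
    omega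
  · refine ⟨5, fun h hh hd => ?_⟩
    simp only [mem_insert, mem_singleton] at hh
    have := Nat.le_of_dvd (by omega) hd
    omega

lemma adm3b (p : ℕ) (hp : p.Prime) : ∃ m : ℕ, ∀ h ∈ ({0, 4, 6} : Finset ℕ), ¬ p ∣ m + h := by
  rcases lt_or_ge p 30 with h30 | h30
  · refine ⟨97, fun h hh hd => ?_⟩
    simp only [mem_insert, mem_singleton] at hh
    have := (Nat.prime_dvd_prime_iff_eq hp (by rcases hh with rfl | rfl | rfl <;> norm_num)).1 hd
    omega
  · refine ⟨7, fun h hh hd => ?_⟩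
    simp only [mem_insert, mem_singleton] at hh
    have := Nat.le_of_dvd (by omega) hd
    omega

/-- the theorem for one residue class modulo `12` -/
lemma one_class (k : ℕ) (hk : 2 ≤ k) (ε : ℝ) (hε : 0 < ε) :
    ∃ r0 : ℕ, ∀ r : ℕ, r0 ≤ r → ∀ᶠ n : ℕ in atTop, ∀ s : ℕ, s = ⌊(n : ℝ) ^ (1 / (r : ℝ))⌋₊ →
      ∀ H : Finset ℕ, H.card = k → (∀ h ∈ H, h ≤ 6) → (∀ p : ℕ, p.Prime → ∃ m : ℕ, ∀ h ∈ H, ¬ p ∣ m + h) →
      ∀ a : ℕ, a < 12 → (∀ h ∈ H, Nat.Coprime 12 (a + h)) →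
        |(cnt n (fun m => m % 12 = a ∧ RoughAll s H m) : ℝ) - Y n a * V H 12 s| ≤ ε * (Y n a * V H 12 s) := by
  obtain ⟨r0, h0⟩ := tgap k 1 hk 1 one_pos 1 0 ε hε
  refine ⟨r0, fun r hr => ?_⟩
  filter_upwards [h0 r hr, eventually_ge_atTop 12] with n hn hn12
  intro s hs H hH hH6 hadm a ha hco
  obtain ⟨h1, h2, h3, h4⟩ := Y_bounds n a (by omega) ha
  have hY : (n : ℝ) ^ (1 : ℝ) ≤ Y n a := by
    rw [Real.rpow_one]
    have : n ≤ Y n a := by nlinarith
    exact_mod_cast this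
  have h5 := hn s hs H hH (fun h hh => by have := hH6 h hh; rw [pow_one]; omega) hadm 12 a
    (by norm_num) (by rw [pow_one]; omega) (by rw [pow_one]; omega) hco
    (fun h hh h' hh' hlt hd => by
      have := hH6 h hh
      have := Nat.le_of_dvd (by omega) hd
      omega) (U n a) (Y n a) hY 1 0 (Or.inl le_rfl)
  rw [Dk_eq H a s n (by omega) ha] at h5
  have e : (Y n a : ℝ) * V H 12 s * ∑ j ∈ range 1, Real.exp (-(((0 : ℕ) : ℝ) * V H 12 s)) *
      (((0 : ℕ) : ℝ) * V H 12 s) ^ j / j.factorial = Y n a * V H 12 s := by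
    simp
  rw [e] at h5
  exact h5

/-! ### the pairs -/

lemma rough_mod {s m : ℕ} (hs : 3 ≤ s) (h : Rough s m) : m % 12 = 1 ∨ m % 12 = 5 ∨ m % 12 = 7 ∨ m % 12 = 11 := by
  have h2 := h 2 Nat.prime_two (by omega)
  have h3 := h 3 Nat.prime_three hs
  omega

lemma cnt_congr (n : ℕ) (P Q : ℕ → Prop) (h : ∀ m, P m ↔ Q m) : cnt n P = cnt n Q := by
  have : P = Q := funext fun m => propext (h m)
  rw [this]

lemma cnt_add (n : ℕ) (P Q : ℕ → Prop) : cnt n P = cnt n (fun m => P m ∧ Q m) + cnt n (fun m => P m ∧ ¬ Q m) := by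
  classical
  unfold cnt
  rw [← Finset.card_filter_add_card_filter_not (s := (Ioo (n ^ 3) ((n + 1) ^ 3)).filter
    (fun m => m + 6 < (n + 1) ^ 3 ∧ P m)) Q, filter_filter, filter_filter]
  congr 2
  · ext m; simp only [mem_filter]; tauto
  · ext m; simp only [mem_filter]; tauto

lemma cnt_mono (n : ℕ) (P Q : ℕ → Prop) (h : ∀ m, P m → Q m) : cnt n P ≤ cnt n Q := by
  classical
  unfold cnt
  apply card_le_card
  intro m hm
  simp only [mem_filter] at hm ⊢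
  exact ⟨hm.1, hm.2.1, h m hm.2.2⟩

lemma cnt_or (n : ℕ) (P Q : ℕ → Prop) : cnt n (fun m => P m ∨ Q m) ≤ cnt n P + cnt n Q := by
  classical
  unfold cnt
  refine le_trans (card_le_card ?_) (card_union_le _ _)
  intro m hm
  simp only [mem_filter] at hm
  simp only [mem_union, mem_filter]
  rcases hm.2.2 with h | h
  · left; exact ⟨hm.1, hm.2.1, h⟩
  · right; exact ⟨hm.1, hm.2.1, h⟩

lemma cnt_cls (n : ℕ) (P : ℕ → Prop) (hP : ∀ m, P m → m % 12 = 1 ∨ m % 12 = 5 ∨ m % 12 = 7 ∨ m % 12 = 11) :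
    cnt n P = cnt n (fun m => m % 12 = 1 ∧ P m) + cnt n (fun m => m % 12 = 5 ∧ P m) +
      cnt n (fun m => m % 12 = 7 ∧ P m) + cnt n (fun m => m % 12 = 11 ∧ P m) := by
  rw [cnt_add n P (fun m => m % 12 = 1), cnt_add n (fun m => P m ∧ ¬ m % 12 = 1) (fun m => m % 12 = 5),
    cnt_add n (fun m => (P m ∧ ¬ m % 12 = 1) ∧ ¬ m % 12 = 5) (fun m => m % 12 = 7)]
  have e1 : cnt n (fun m => P m ∧ m % 12 = 1) = cnt n (fun m => m % 12 = 1 ∧ P m) :=
    cnt_congr n _ _ (fun m => by tauto)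
  have e2 : cnt n (fun m => (P m ∧ ¬ m % 12 = 1) ∧ m % 12 = 5) = cnt n (fun m => m % 12 = 5 ∧ P m) :=
    cnt_congr n _ _ (fun m => by
      constructor
      · rintro ⟨⟨b, c⟩, d⟩; exact ⟨d, b⟩
      · rintro ⟨b, c⟩; exact ⟨⟨c, by omega⟩, b⟩)
  have e3 : cnt n (fun m => ((P m ∧ ¬ m % 12 = 1) ∧ ¬ m % 12 = 5) ∧ m % 12 = 7) =
      cnt n (fun m => m % 12 = 7 ∧ P m) :=
    cnt_congr n _ _ (fun m => by
      constructor
      · rintro ⟨⟨⟨b, _⟩, _⟩, d⟩; exact ⟨d, b⟩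
      · rintro ⟨b, c⟩; exact ⟨⟨⟨c, by omega⟩, by omega⟩, b⟩)
  have e4 : cnt n (fun m => ((P m ∧ ¬ m % 12 = 1) ∧ ¬ m % 12 = 5) ∧ ¬ m % 12 = 7) =
      cnt n (fun m => m % 12 = 11 ∧ P m) :=
    cnt_congr n _ _ (fun m => by
      constructor
      · rintro ⟨⟨⟨b, b1⟩, b2⟩, d⟩
        have := hP m b
        exact ⟨by omega, b⟩
      · rintro ⟨b, c⟩; exact ⟨⟨⟨c, by omega⟩, by omega⟩, by omega⟩)
  rw [e1, e2, e3, e4]
  ring

/-- rough pairs which are not consecutive -/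
lemma nonconsec {s m : ℕ} (hs : 3 ≤ s) (h : RoughAll s {0, 6} m) (hn : ¬ Sexy s m) :
    ((m % 12 = 5 ∧ RoughAll s {0, 2, 6} m) ∨ (m % 12 = 11 ∧ RoughAll s {0, 2, 6} m)) ∨
    ((m % 12 = 1 ∧ RoughAll s {0, 4, 6} m) ∨ (m % 12 = 7 ∧ RoughAll s {0, 4, 6} m)) := by
  have h0 : Rough s m := by simpa using h 0 (by simp)
  have h6 : Rough s (m + 6) := h 6 (by simp)
  unfold Sexy at hn
  push Not at hn
  obtain ⟨t, ht1, ht2, ht3⟩ := hn h0 h6
  have hm := rough_mod hs h0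
  have ht := rough_mod hs ht3
  have key : t = m + 2 ∨ t = m + 4 := by omega
  rcases key with rfl | rfl
  · left
    have hall : RoughAll s {0, 2, 6} m := by
      intro x hx
      simp only [mem_insert, mem_singleton] at hx
      rcases hx with rfl | rfl | rfl
      · exact h0
      · exact ht3
      · exact h6
    have : m % 12 = 5 ∨ m % 12 = 11 := by omega
    rcases this with h | h
    · left; exact ⟨h, hall⟩
    · right; exact ⟨h, hall⟩
  · right
    have hall : RoughAll s {0, 4, 6} m := by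
      intro x hx
      simp only [mem_insert, mem_singleton] at hx
      rcases hx with rfl | rfl | rfl
      · exact h0
      · exact ht3
      · exact h6
    have : m % 12 = 1 ∨ m % 12 = 7 := by omega
    rcases this with h | h
    · left; exact ⟨h, hall⟩
    · right; exact ⟨h, hall⟩

lemma S_cnt (s n : ℕ) : S s n = cnt n (fun m => Sexy s m) := rfl

open Classical in
lemma S_le (s n : ℕ) (_hs : 3 ≤ s) : S s n ≤ cnt n (fun m => RoughAll s {0, 6} m) := by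
  rw [S_cnt]
  apply cnt_mono
  rintro m ⟨h1, h2, -⟩ x hx
  simp only [mem_insert, mem_singleton] at hx
  rcases hx with rfl | rfl
  · exact h1
  · exact h2

open Classical in
lemma S_ge (s n : ℕ) (hs : 3 ≤ s) : cnt n (fun m => RoughAll s {0, 6} m) ≤ S s n +
    ((cnt n (fun m => m % 12 = 5 ∧ RoughAll s {0, 2, 6} m) + cnt n (fun m => m % 12 = 11 ∧ RoughAll s {0, 2, 6} m)) +
    (cnt n (fun m => m % 12 = 1 ∧ RoughAll s {0, 4, 6} m) + cnt n (fun m => m % 12 = 7 ∧ RoughAll s {0, 4, 6} m))) := by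
  rw [cnt_add n (fun m => RoughAll s {0, 6} m) (fun m => Sexy s m)]
  apply Nat.add_le_add
  · rw [S_cnt]
    exact cnt_mono n _ _ (fun m h => h.2)
  · refine (cnt_mono n _ _ (fun m h => nonconsec hs h.1 h.2)).trans ?_
    exact (cnt_or n _ _).trans (Nat.add_le_add (cnt_or n _ _) (cnt_or n _ _))

/-- `s` tends to infinity -/
lemma s_tendsto (r : ℕ) (hr : 1 ≤ r) : Tendsto (fun n : ℕ => ⌊(n : ℝ) ^ (1 / (r : ℝ))⌋₊) atTop atTop := by
  have hr0 : (0 : ℝ) < r := by exact_mod_cast hr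
  exact tendsto_nat_floor_atTop.comp
    ((tendsto_rpow_atTop (by positivity)).comp tendsto_natCast_atTop_atTop)

theorem count (ε : ℝ) (hε : 0 < ε) : ∃ r0 : ℕ, 1 ≤ r0 ∧ ∀ r : ℕ, r0 ≤ r → ∀ᶠ n : ℕ in atTop,
    ∀ s : ℕ, s = ⌊(n : ℝ) ^ (1 / (r : ℝ))⌋₊ →
      |(S s n : ℝ) - 3 * (n : ℝ) ^ 2 * D s| ≤ ε * (3 * (n : ℝ) ^ 2 * D s) := by
  obtain ⟨r2, h2⟩ := one_class 2 le_rfl (ε / 16) (by positivity)
  obtain ⟨r3, h3⟩ := one_class 3 (by norm_num) 1 one_pos
  refine ⟨max (max r2 r3) 1, le_max_right _ _, fun r hr => ?_⟩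
  have hr2 : r2 ≤ r := (le_max_left _ _).trans ((le_max_left _ _).trans hr)
  have hr3 : r3 ≤ r := (le_max_right _ _).trans ((le_max_left _ _).trans hr)
  have hr1 : 1 ≤ r := (le_max_right _ _).trans hr
  have hM : ∀ᶠ n : ℕ in atTop, M1 (⌊(n : ℝ) ^ (1 / (r : ℝ))⌋₊) < ε / 96 :=
    (M1_zero.comp (s_tendsto r hr1)).eventually (gt_mem_nhds (by positivity))
  have hs3 := (s_tendsto r hr1).eventually_ge_atTop 3
  have hnε : ∀ᶠ n : ℕ in atTop, 8 / ε ≤ (n : ℝ) := tendsto_natCast_atTop_atTop.eventually_ge_atTop _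
  filter_upwards [h2 r hr2, h3 r hr3, hM, hs3, hnε, eventually_ge_atTop 12] with n g2 g3 gM gs gn gn12
  intro s hs
  rw [← hs] at gM gs
  have hn12 : (12 : ℝ) ≤ n := by exact_mod_cast gn12
  have hV2 := V2_pos s
  have hV3 := V3_nonneg s
  have hV3le := V3_le s gs
  have hM0 := M1_pos s
  -- the four classes
  have hco : ∀ a : ℕ, a = 1 ∨ a = 5 ∨ a = 7 ∨ a = 11 → ∀ h ∈ ({0, 6} : Finset ℕ), Nat.Coprime 12 (a + h) := by
    intro a ha h hh
    simp only [mem_insert, mem_singleton] at hh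
    rcases ha with rfl | rfl | rfl | rfl <;> rcases hh with rfl | rfl <;> decide
  have c2 : ∀ a : ℕ, a = 1 ∨ a = 5 ∨ a = 7 ∨ a = 11 →
      |(cnt n (fun m => m % 12 = a ∧ RoughAll s {0, 6} m) : ℝ) - Y n a * V2 s| ≤ ε / 16 * (Y n a * V2 s) := by
    intro a ha
    have := g2 s hs {0, 6} rfl (fun h hh => by simp only [mem_insert, mem_singleton] at hh; omega) adm2 a
      (by omega) (hco a ha)
    rwa [V_two] at this
  have c3a : ∀ a : ℕ, a = 5 ∨ a = 11 →
      (cnt n (fun m => m % 12 = a ∧ RoughAll s {0, 2, 6} m) : ℝ) ≤ 2 * (Y n a * V3 s) := by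
    intro a ha
    have := g3 s hs {0, 2, 6} rfl (fun h hh => by simp only [mem_insert, mem_singleton] at hh; omega) adm3a a
      (by omega) (fun h hh => by
        simp only [mem_insert, mem_singleton] at hh
        rcases ha with rfl | rfl <;> rcases hh with rfl | rfl | rfl <;> decide)
    rw [V_threea] at this
    have := (abs_le.1 this).2
    linarith
  have c3b : ∀ a : ℕ, a = 1 ∨ a = 7 →
      (cnt n (fun m => m % 12 = a ∧ RoughAll s {0, 4, 6} m) : ℝ) ≤ 2 * (Y n a * V3 s) := by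
    intro a ha
    have := g3 s hs {0, 4, 6} rfl (fun h hh => by simp only [mem_insert, mem_singleton] at hh; omega) adm3b a
      (by omega) (fun h hh => by
        simp only [mem_insert, mem_singleton] at hh
        rcases ha with rfl | rfl <;> rcases hh with rfl | rfl | rfl <;> decide)
    rw [V_threeb] at this
    have := (abs_le.1 this).2
    linarith
  -- the lengths
  have hY : ∀ a : ℕ, a < 12 → (n : ℝ) ^ 2 / 4 ≤ Y n a ∧ (Y n a : ℝ) ≤ (n : ℝ) ^ 2 / 4 + n / 3 := by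
    intro a ha
    obtain ⟨y1, y2, -, -⟩ := Y_bounds n a (by omega) ha
    have y1' : 3 * ((n : ℝ) * n) ≤ 12 * Y n a := by exact_mod_cast y1
    have y2' : 12 * (Y n a : ℝ) ≤ 3 * ((n : ℝ) * n) + 4 * n := by exact_mod_cast y2
    constructor <;> nlinarith
  -- the total number of the pairs
  have hP := cnt_cls n (fun m => RoughAll s {0, 6} m) (fun m h => rough_mod gs (by simpa using h 0 (by simp)))
  have hPr : (cnt n (fun m => RoughAll s {0, 6} m) : ℝ) = cnt n (fun m => m % 12 = 1 ∧ RoughAll s {0, 6} m) +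
      cnt n (fun m => m % 12 = 5 ∧ RoughAll s {0, 6} m) + cnt n (fun m => m % 12 = 7 ∧ RoughAll s {0, 6} m) +
      cnt n (fun m => m % 12 = 11 ∧ RoughAll s {0, 6} m) := by
    rw [hP]
    push_cast
    ring
  have hSle : (S s n : ℝ) ≤ cnt n (fun m => RoughAll s {0, 6} m) := by exact_mod_cast S_le s n gs
  have hSge : (cnt n (fun m => RoughAll s {0, 6} m) : ℝ) ≤ S s n +
    ((cnt n (fun m => m % 12 = 5 ∧ RoughAll s {0, 2, 6} m) + cnt n (fun m => m % 12 = 11 ∧ RoughAll s {0, 2, 6} m)) +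
    (cnt n (fun m => m % 12 = 1 ∧ RoughAll s {0, 4, 6} m) + cnt n (fun m => m % 12 = 7 ∧ RoughAll s {0, 4, 6} m))) := by
    exact_mod_cast S_ge s n gs
  have hnn : (n : ℝ) / 3 ≤ (n : ℝ) ^ 2 / 4 := by nlinarith
  -- sizes
  have hDV : 3 * (n : ℝ) ^ 2 * D s = (n : ℝ) ^ 2 * V2 s := by rw [D_eq s gs]; ring
  rw [hDV]
  set X := (n : ℝ) ^ 2 * V2 s with hX
  have hX0 : 0 < X := by positivity
  have hYV : ∀ y : ℝ, (n : ℝ) ^ 2 / 4 ≤ y → y ≤ (n : ℝ) ^ 2 / 4 + n / 3 →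
      X / 4 ≤ y * V2 s ∧ y * V2 s ≤ X / 4 + ε / 24 * X ∧ y * V2 s ≤ X / 2 ∧ y * V3 s ≤ ε / 64 * X := by
    intro y hy1 hy2
    have e1 : (n : ℝ) / 3 ≤ ε / 24 * (n : ℝ) ^ 2 := by
      have h8 : 8 ≤ ε * n := by
        rw [div_le_iff₀ hε] at gn
        linarith
      nlinarith
    refine ⟨?_, ?_, ?_, ?_⟩
    · have := mul_le_mul_of_nonneg_right hy1 hV2.le
      have e : (n : ℝ) ^ 2 / 4 * V2 s = X / 4 := by rw [hX]; ring
      linarith
    · have := mul_le_mul_of_nonneg_right (hy2.trans (add_le_add le_rfl e1)) hV2.le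
      have e : ((n : ℝ) ^ 2 / 4 + ε / 24 * (n : ℝ) ^ 2) * V2 s = X / 4 + ε / 24 * X := by rw [hX]; ring
      linarith
    · have h9 : y ≤ (n : ℝ) ^ 2 / 2 := by linarith
      have := mul_le_mul_of_nonneg_right h9 hV2.le
      have e : (n : ℝ) ^ 2 / 2 * V2 s = X / 2 := by rw [hX]; ring
      linarith
    · have h9 : y ≤ (n : ℝ) ^ 2 / 2 := by linarith
      have h10 : V3 s ≤ V2 s * (ε / 32) := by
        refine hV3le.trans (mul_le_mul_of_nonneg_left ?_ hV2.le)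
        linarith
      calc y * V3 s ≤ (n : ℝ) ^ 2 / 2 * (V2 s * (ε / 32)) :=
            mul_le_mul h9 h10 hV3 (by positivity)
        _ = ε / 64 * X := by rw [hX]; ring
  -- one class
  have hcl : ∀ a : ℕ, (a = 1 ∨ a = 5 ∨ a = 7 ∨ a = 11) →
      X / 4 - ε * X / 32 ≤ (cnt n (fun m => m % 12 = a ∧ RoughAll s {0, 6} m) : ℝ) ∧
      (cnt n (fun m => m % 12 = a ∧ RoughAll s {0, 6} m) : ℝ) ≤ X / 4 + ε * X / 24 + ε * X / 32 := by
    intro a ha
    have h12 : a < 12 := by omega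
    obtain ⟨yl, yu⟩ := hY a h12
    obtain ⟨p1, p2, p3, p4⟩ := hYV _ yl yu
    have aa := abs_le.1 (c2 a ha)
    have f1 : ε / 16 * (Y n a * V2 s) ≤ ε * X / 32 := by
      have := mul_le_mul_of_nonneg_left p3 (show 0 ≤ ε / 16 by positivity)
      calc ε / 16 * (Y n a * V2 s) ≤ ε / 16 * (X / 2) := this
        _ = ε * X / 32 := by ring
    have e24 : ε / 24 * X = ε * X / 24 := by ring
    rw [e24] at p2
    constructor
    · linarith only [aa.1, f1, p1]
    · linarith only [aa.2, f1, p2]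
  have hcl3 : ∀ a : ℕ, a < 12 → 2 * (Y n a * V3 s) ≤ ε * X / 32 := by
    intro a ha
    obtain ⟨yl, yu⟩ := hY a ha
    obtain ⟨-, -, -, p4⟩ := hYV _ yl yu
    calc 2 * (Y n a * V3 s) ≤ 2 * (ε / 64 * X) := by linarith only [p4]
      _ = ε * X / 32 := by ring
  have m1 := hcl 1 (by norm_num)
  have m5 := hcl 5 (by norm_num)
  have m7 := hcl 7 (by norm_num)
  have m11 := hcl 11 (by norm_num)
  have b5 := (c3a 5 (by norm_num)).trans (hcl3 5 (by norm_num))
  have b11 := (c3a 11 (by norm_num)).trans (hcl3 11 (by norm_num))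
  have b1 := (c3b 1 (by norm_num)).trans (hcl3 1 (by norm_num))
  have b7 := (c3b 7 (by norm_num)).trans (hcl3 7 (by norm_num))
  have hεX : 0 < ε * X := by positivity
  rw [abs_le]
  constructor
  · linarith only [hPr, hSge, m1.1, m5.1, m7.1, m11.1, b1, b5, b7, b11, hεX]
  · linarith only [hPr, hSle, m1.2, m5.2, m7.2, m11.2, hεX]

end Pool.Agent.T2H62.Cube
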