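import Pool.Agent.T2H62.CubeB

set_option autoImplicit false

/-! Consecutive rough numbers at distance `6` between consecutive cubes: the law of the distances. -/

namespace Pool.Agent.T2H62.Cube

open Finset Filter Topology
open Pool.Agent.R490.Tq (Ro nu V Dk tgap)

/-- the density of the pairs in the class `1` modulo `30` -/
noncomputable def E (s : ℕ) : ℝ :=
  ∏ p ∈ (range (s + 1)).filter Nat.Prime, (1 - ((if p ≤ 5 then 0 else 2 : ℕ) : ℝ) / p)

open Classical in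
/-- the number of the pairs `m`, `m + 6` between the cubes with `m ≡ 1 mod 30` for which fewer than `k` of the
numbers `m - 30, m - 60, ..., m - 30 T` start such a pair -/
noncomputable def Q (s k T n : ℕ) : ℕ :=
  ((Ioo (n ^ 3) ((n + 1) ^ 3)).filter (fun m => m + 6 < (n + 1) ^ 3 ∧ m % 30 = 1 ∧ Sexy s m ∧
    ((Ico (m - 30 * T) m).filter (fun m' => m' % 30 = 1 ∧ Sexy s m')).card < k)).card

lemma dvd_thirty {p : ℕ} (hp : p.Prime) : p ∣ 30 ↔ p ≤ 5 := by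
  constructor
  · intro h
    by_contra hcon
    have h30 := Nat.le_of_dvd (by norm_num) h
    push Not at hcon
    interval_cases p <;> revert h hp <;> norm_num
  · intro h
    have := hp.two_le
    have h4 : p ≠ 4 := fun h => by rw [h] at hp; exact absurd hp (by norm_num)
    interval_cases p <;> first | omega | norm_num

lemma V30 (s : ℕ) : V {0, 6} 30 s = E s := by
  unfold V E
  apply Finset.prod_congr rfl
  intro p hp
  have hpp := (mem_filter.1 hp).2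
  unfold nu
  by_cases h : p ≤ 5
  · rw [if_pos ((dvd_thirty hpp).2 h), if_pos h]
  · rw [if_neg (fun hd => h ((dvd_thirty hpp).1 hd)), if_neg h, card_image_mod _ p (inj2 p hpp (by omega))]
    rfl

lemma sexy30 {s t : ℕ} (hs : 5 ≤ s) : Sexy s (30 * t + 1) ↔ RoughAll s {0, 6} (30 * t + 1) := by
  constructor
  · rintro ⟨h1, h2, -⟩ x hx
    simp only [mem_insert, mem_singleton] at hx
    rcases hx with rfl | rfl
    · exact h1
    · exact h2
  · intro h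
    refine ⟨by simpa using h 0 (by simp), h 6 (by simp), fun u h1 h2 hu => ?_⟩
    have g2 := hu 2 Nat.prime_two (by omega)
    have g3 := hu 3 Nat.prime_three (by omega)
    have g5 := hu 5 Nat.prime_five (by omega)
    have key : u = 30 * t + 2 ∨ u = 30 * t + 3 ∨ u = 30 * t + 4 ∨ u = 30 * t + 5 ∨ u = 30 * t + 6 := by omega
    rcases key with rfl | rfl | rfl | rfl | rfl <;> omega

open Classical in
lemma prev_eq (s t T : ℕ) (hs : 5 ≤ s) :
    ((Ico (30 * t + 1 - 30 * T) (30 * t + 1)).filter (fun m' => m' % 30 = 1 ∧ Sexy s m')).card =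
      ((Ico (t - T) t).filter (fun m => Ro {0, 6} 30 1 s m)).card := by
  refine Finset.card_nbij' (fun m => m / 30) (fun t => 30 * t + 1) ?_ ?_ ?_ ?_
  · intro m hm
    simp only [mem_coe, mem_filter, mem_Ico] at hm ⊢
    obtain ⟨⟨g1, g2⟩, g3, g4⟩ := hm
    have e : m = 30 * (m / 30) + 1 := by omega
    refine ⟨⟨by omega, by omega⟩, ?_⟩
    rw [e] at g4
    rw [Ro_iff]
    exact (sexy30 hs).1 g4
  · intro u hu
    simp only [mem_coe, mem_filter, mem_Ico] at hu ⊢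
    obtain ⟨⟨g1, g2⟩, g3⟩ := hu
    refine ⟨⟨by omega, by omega⟩, by omega, ?_⟩
    rw [Ro_iff] at g3
    exact (sexy30 hs).2 g3
  · intro m hm
    simp only [mem_coe, mem_filter, mem_Ico] at hm
    obtain ⟨⟨g1, g2⟩, g3, g4⟩ := hm
    show 30 * (m / 30) + 1 = m
    omega
  · intro u hu
    show (30 * u + 1) / 30 = u
    omega

/-- left end point -/
def U3 (n : ℕ) : ℕ := (n ^ 3 - 1) / 30

/-- length -/
def Y3 (n : ℕ) : ℕ := ((n + 1) ^ 3 - 8) / 30 - (n ^ 3 - 1) / 30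

lemma Y3_bounds (n : ℕ) (hn : 12 ≤ n) :
    3 * (n * n) ≤ 30 * Y3 n ∧ 30 * Y3 n ≤ 3 * (n * n) + 5 * n ∧
    (n ^ 3 - 1) / 30 ≤ ((n + 1) ^ 3 - 8) / 30 ∧ 30 ≤ n ^ 3 := by
  unfold Y3
  rw [cube_succ]
  have h1 : 1728 ≤ n ^ 3 := by
    calc 1728 = 12 ^ 3 := by norm_num
      _ ≤ n ^ 3 := Nat.pow_le_pow_left hn 3
  have h2 : 144 ≤ n * n := Nat.mul_le_mul hn hn
  generalize n ^ 3 = x at *
  generalize n * n = y at *
  omega

open Classical in
lemma Q_eq (s k T n : ℕ) (hs : 5 ≤ s) (hn : 12 ≤ n) : Q s k T n = Dk {0, 6} 30 1 s k T (U3 n) (Y3 n) := by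
  obtain ⟨h1, h2, h3, h4⟩ := Y3_bounds n hn
  have h5 : 1728 ≤ n ^ 3 := by
    calc 1728 = 12 ^ 3 := by norm_num
      _ ≤ n ^ 3 := Nat.pow_le_pow_left hn 3
  have h6 : n ^ 3 ≤ (n + 1) ^ 3 := Nat.pow_le_pow_left (by omega) 3
  have hUY : U3 n + Y3 n = ((n + 1) ^ 3 - 8) / 30 := by
    unfold U3 Y3
    omega
  unfold Q Dk
  rw [hUY]
  unfold U3
  generalize n ^ 3 = x at *
  generalize (n + 1) ^ 3 = z at *
  refine Finset.card_nbij' (fun m => m / 30) (fun t => 30 * t + 1) ?_ ?_ ?_ ?_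
  · intro m hm
    simp only [mem_coe, mem_filter, mem_Ioo, mem_Ioc] at hm ⊢
    obtain ⟨⟨g1, g2⟩, g3, g4, g5, g6⟩ := hm
    have e : m = 30 * (m / 30) + 1 := by omega
    refine ⟨⟨by omega, by omega⟩, ?_, ?_⟩
    · rw [e] at g5
      rw [Ro_iff]
      exact (sexy30 hs).1 g5
    · rw [← prev_eq s _ T hs, ← e]
      exact g6
  · intro t ht
    simp only [mem_coe, mem_filter, mem_Ioo, mem_Ioc] at ht ⊢
    obtain ⟨⟨g1, g2⟩, g3, g4⟩ := ht
    refine ⟨⟨by omega, by omega⟩, by omega, by omega, ?_, ?_⟩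
    · rw [Ro_iff] at g3
      exact (sexy30 hs).2 g3
    · rw [prev_eq s _ T hs]
      exact g4
  · intro m hm
    simp only [mem_coe, mem_filter, mem_Ioo] at hm
    obtain ⟨⟨g1, g2⟩, g3, g4, g5⟩ := hm
    show 30 * (m / 30) + 1 = m
    omega
  · intro t ht
    show (30 * t + 1) / 30 = t
    omega

lemma E_pos (s : ℕ) : 0 < E s := by
  unfold E
  apply Finset.prod_pos
  intro p hp
  split_ifs with h
  · simp
  · have h1 : (6 : ℝ) ≤ p := by exact_mod_cast (by omega : 6 ≤ p)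
    rw [sub_pos, div_lt_one (by linarith)]
    push_cast
    linarith

lemma poisson_le (x : ℝ) (hx : 0 ≤ x) (k : ℕ) : ∑ j ∈ range k, Real.exp (-x) * x ^ j / j.factorial ≤ 1 := by
  have h := Real.sum_le_exp_of_nonneg hx k
  have h3 : ∑ j ∈ range k, Real.exp (-x) * x ^ j / j.factorial =
      Real.exp (-x) * ∑ j ∈ range k, x ^ j / j.factorial := by
    rw [Finset.mul_sum]
    exact Finset.sum_congr rfl fun j _ => by ring
  rw [h3]
  calc Real.exp (-x) * ∑ j ∈ range k, x ^ j / j.factorial ≤ Real.exp (-x) * Real.exp x :=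
        mul_le_mul_of_nonneg_left h (Real.exp_pos _).le
    _ = 1 := by rw [← Real.exp_add]; simp

/-- the law of the distances -/
theorem law (k0 : ℕ) (x0 ε : ℝ) (hε : 0 < ε) : ∃ r0 : ℕ, 1 ≤ r0 ∧ ∀ r : ℕ, r0 ≤ r → ∀ᶠ n : ℕ in atTop,
    ∀ s : ℕ, s = ⌊(n : ℝ) ^ (1 / (r : ℝ))⌋₊ → ∀ k T : ℕ, (k ≤ k0 ∨ T * E s ≤ x0) →
      |(Q s k T n : ℝ) - (n : ℝ) ^ 2 / 10 * E s * ∑ j ∈ range k, Real.exp (-(T * E s)) * (T * E s) ^ j / j.factorial| ≤
        ε * ((n : ℝ) ^ 2 / 10 * E s) := by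
  obtain ⟨r0, h0⟩ := tgap 2 1 le_rfl 1 one_pos k0 x0 (ε / 4) (by positivity)
  refine ⟨max r0 1, le_max_right _ _, fun r hr => ?_⟩
  have hr0 : r0 ≤ r := (le_max_left _ _).trans hr
  have hr1 : 1 ≤ r := (le_max_right _ _).trans hr
  have hs5 := (s_tendsto r hr1).eventually_ge_atTop 5
  have hnε : ∀ᶠ n : ℕ in atTop, 8 / ε ≤ (n : ℝ) := tendsto_natCast_atTop_atTop.eventually_ge_atTop _
  filter_upwards [h0 r hr0, hs5, hnε, eventually_ge_atTop 30] with n g gs gn gn30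
  intro s hs k T hkT
  rw [← hs] at gs
  obtain ⟨y1, y2, -, -⟩ := Y3_bounds n (by omega)
  have hn30 : (30 : ℝ) ≤ n := by exact_mod_cast gn30
  have y1' : 3 * ((n : ℝ) * n) ≤ 30 * Y3 n := by exact_mod_cast y1
  have y2' : 30 * (Y3 n : ℝ) ≤ 3 * ((n : ℝ) * n) + 5 * n := by exact_mod_cast y2
  have hY : (n : ℝ) ^ (1 : ℝ) ≤ Y3 n := by
    rw [Real.rpow_one]
    nlinarith
  have h1 := g s hs {0, 6} rfl (fun h hh => by
      simp only [mem_insert, mem_singleton] at hh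
      rw [pow_one]; omega) adm2 30 1 (by norm_num) (by rw [pow_one]; omega) (by rw [pow_one]; omega)
    (fun h hh => by
      simp only [mem_insert, mem_singleton] at hh
      rcases hh with rfl | rfl <;> decide)
    (fun h hh h' hh' hlt hd => by
      simp only [mem_insert, mem_singleton] at hh hh'
      have := Nat.le_of_dvd (by omega) hd
      omega) (U3 n) (Y3 n) hY k T (by rw [V30]; exact hkT)
  rw [V30, ← Q_eq s k T n gs (by omega)] at h1
  have hE := E_pos s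
  set P := ∑ j ∈ range k, Real.exp (-(T * E s)) * (T * E s) ^ j / j.factorial with hP
  have hP1 : P ≤ 1 := poisson_le _ (by positivity) k
  have hP0 : 0 ≤ P := Finset.sum_nonneg (fun j _ => by positivity)
  -- the length
  have hlen : |(Y3 n : ℝ) - (n : ℝ) ^ 2 / 10| ≤ (n : ℝ) / 6 := by
    rw [abs_le]
    constructor <;> nlinarith
  have h8 : 8 ≤ ε * n := by
    rw [div_le_iff₀ hε] at gn
    linarith
  have hn6 : (n : ℝ) / 6 ≤ ε / 4 * ((n : ℝ) ^ 2 / 10) := by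
    have h9 := mul_le_mul_of_nonneg_right h8 (show (0 : ℝ) ≤ n by linarith)
    have e : ε / 4 * ((n : ℝ) ^ 2 / 10) = ε * n * n / 40 := by ring
    rw [e]
    linarith
  have hYle : (Y3 n : ℝ) ≤ 2 * ((n : ℝ) ^ 2 / 10) := by
    have h9 := mul_le_mul_of_nonneg_right hn30 (show (0 : ℝ) ≤ n by linarith)
    have e : 2 * ((n : ℝ) ^ 2 / 10) = (n * n) / 5 := by ring
    rw [e]
    linarith
  have e1 : |(Y3 n : ℝ) * E s * P - (n : ℝ) ^ 2 / 10 * E s * P| ≤ ε / 4 * ((n : ℝ) ^ 2 / 10) * E s := by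
    rw [← sub_mul, ← sub_mul, abs_mul, abs_mul, abs_of_pos hE, abs_of_nonneg hP0]
    calc |(Y3 n : ℝ) - (n : ℝ) ^ 2 / 10| * E s * P ≤ (ε / 4 * ((n : ℝ) ^ 2 / 10)) * E s * 1 := by
          apply mul_le_mul _ hP1 hP0 (by positivity)
          exact mul_le_mul_of_nonneg_right (hlen.trans hn6) hE.le
      _ = _ := by ring
  have e2 : ε / 4 * (Y3 n * E s) ≤ ε / 2 * ((n : ℝ) ^ 2 / 10 * E s) := by
    have := mul_le_mul_of_nonneg_right hYle hE.le
    nlinarith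
  have e3 := abs_le.1 h1
  have e4 := abs_le.1 e1
  have hX : 0 < (n : ℝ) ^ 2 / 10 * E s := by positivity
  have e5 : ε / 4 * ((n : ℝ) ^ 2 / 10) * E s = ε * ((n : ℝ) ^ 2 / 10 * E s) / 4 := by ring
  have e6 : ε / 2 * ((n : ℝ) ^ 2 / 10 * E s) = ε * ((n : ℝ) ^ 2 / 10 * E s) / 2 := by ring
  have e7 : 0 < ε * ((n : ℝ) ^ 2 / 10 * E s) := by positivity
  rw [e5] at e4
  rw [e6] at e2
  rw [abs_le]
  constructor
  · linarith only [e3.1, e4.1, e2, e7]
  · linarith only [e3.2, e4.2, e2, e7]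

/-! ### the number of prime factors, the pairs of the question, the order of magnitude -/

lemma few (s L m : ℕ) (hm : 0 < m) (h : Rough s m) (hL : m < (s + 1) ^ (L + 1)) :
    m.primeFactorsList.length ≤ L := by
  by_contra hcon
  push Not at hcon
  have h1 : ∀ q ∈ m.primeFactorsList, s + 1 ≤ q := by
    intro q hq
    by_contra h2
    exact h q (Nat.prime_of_mem_primeFactorsList hq) (by omega) (Nat.dvd_of_mem_primeFactorsList hq)
  have h2 : (s + 1) ^ m.primeFactorsList.length ≤ m.primeFactorsList.prod := List.pow_card_le_prod _ _ h1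
  rw [Nat.prod_primeFactorsList hm.ne'] at h2
  have h3 : (s + 1) ^ (L + 1) ≤ (s + 1) ^ m.primeFactorsList.length :=
    Nat.pow_le_pow_right (by omega) hcon
  omega

lemma few_cubes (r : ℕ) (hr : 1 ≤ r) : ∀ᶠ n : ℕ in atTop, ∀ m : ℕ, 0 < m → m < (n + 1) ^ 3 →
    Rough ⌊(n : ℝ) ^ (1 / (r : ℝ))⌋₊ m → m.primeFactorsList.length ≤ 3 * r := by
  have hr0 : (0 : ℝ) < r := by exact_mod_cast hr
  have h8 : ∀ᶠ n : ℕ in atTop, (8 : ℝ) ≤ (n : ℝ) ^ (1 / (r : ℝ)) :=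
    ((tendsto_rpow_atTop (by positivity)).comp tendsto_natCast_atTop_atTop).eventually_ge_atTop _
  filter_upwards [h8, eventually_ge_atTop 1] with n g8 g1
  intro m hm hmn h
  apply few _ _ _ hm h
  have hn1 : (1 : ℝ) ≤ n := by exact_mod_cast g1
  have hx := Nat.lt_floor_add_one ((n : ℝ) ^ (1 / (r : ℝ)))
  have h2 : (n : ℝ) ^ 3 * (n : ℝ) ^ (1 / (r : ℝ)) = ((n : ℝ) ^ (1 / (r : ℝ))) ^ (3 * r + 1) := by
    rw [← Real.rpow_natCast ((n : ℝ) ^ (1 / (r : ℝ))), ← Real.rpow_mul (by positivity), ← Real.rpow_natCast,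
      ← Real.rpow_add (by positivity)]
    congr 1
    push_cast
    field_simp
  have h3 : ((n : ℝ) ^ (1 / (r : ℝ))) ^ (3 * r + 1) ≤ ((⌊(n : ℝ) ^ (1 / (r : ℝ))⌋₊ : ℝ) + 1) ^ (3 * r + 1) :=
    pow_le_pow_left₀ (by positivity) hx.le _
  have h4 : ((n : ℝ) + 1) ^ 3 ≤ (n : ℝ) ^ 3 * 8 := by
    have : ((n : ℝ) + 1) ≤ 2 * n := by linarith
    calc ((n : ℝ) + 1) ^ 3 ≤ (2 * n) ^ 3 := pow_le_pow_left₀ (by positivity) this 3
      _ = (n : ℝ) ^ 3 * 8 := by ring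
  have h5 : (n : ℝ) ^ 3 * 8 ≤ (n : ℝ) ^ 3 * (n : ℝ) ^ (1 / (r : ℝ)) :=
    mul_le_mul_of_nonneg_left g8 (by positivity)
  have h6 : (((n + 1) ^ 3 : ℕ) : ℝ) ≤ (((⌊(n : ℝ) ^ (1 / (r : ℝ))⌋₊ + 1) ^ (3 * r + 1) : ℕ) : ℝ) := by
    push_cast
    linarith
  have h7 : (n + 1) ^ 3 ≤ (⌊(n : ℝ) ^ (1 / (r : ℝ))⌋₊ + 1) ^ (3 * r + 1) := by exact_mod_cast h6
  omega

lemma rough_prime {n s m : ℕ} (hn : 1 ≤ n) (hs : s ≤ n ^ 3) (hs2 : (n + 1) ^ 3 ≤ (s + 1) ^ 2)
    (h1 : n ^ 3 < m) (h2 : m < (n + 1) ^ 3) : Rough s m ↔ m.Prime := by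
  have hn3 : 1 ≤ n ^ 3 := Nat.one_le_pow _ _ hn
  constructor
  · intro h
    by_contra hcon
    have hne : m ≠ 1 := by omega
    have hp := Nat.minFac_prime hne
    have h3 := Nat.minFac_sq_le_self (by omega) hcon
    have h4 : m.minFac ≤ s := by
      by_contra h5
      have : (s + 1) ^ 2 ≤ m.minFac ^ 2 := Nat.pow_le_pow_left (by omega) 2
      omega
    exact h _ hp h4 (Nat.minFac_dvd m)
  · intro h p hp hps hd
    have := (Nat.prime_dvd_prime_iff_eq hp h).1 hd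
    omega

lemma S_eq_S0 (n s : ℕ) (hn : 1 ≤ n) (hs : s ≤ n ^ 3) (hs2 : (n + 1) ^ 3 ≤ (s + 1) ^ 2) : S s n = S0 n := by
  classical
  unfold S S0
  congr 1
  ext m
  simp only [mem_filter, mem_Ioo]
  constructor
  · rintro ⟨⟨h1, h2⟩, h3, h4, h5, h6⟩
    refine ⟨⟨h1, h2⟩, h3, (rough_prime hn hs hs2 h1 h2).1 h4,
      (rough_prime hn hs hs2 (by omega) h3).1 h5, fun t ht1 ht2 hp => h6 t ht1 ht2 ?_⟩
    exact (rough_prime hn hs hs2 (by omega) (by omega)).2 hp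
  · rintro ⟨⟨h1, h2⟩, h3, h4, h5, h6⟩
    refine ⟨⟨h1, h2⟩, h3, (rough_prime hn hs hs2 h1 h2).2 h4,
      (rough_prime hn hs hs2 (by omega) h3).2 h5, fun t ht1 ht2 hp => h6 t ht1 ht2 ?_⟩
    exact (rough_prime hn hs hs2 (by omega) (by omega)).1 hp

lemma D_order : ∃ c : ℝ, 0 < c ∧ ∀ r : ℕ, 1 ≤ r → ∀ᶠ n : ℕ in atTop,
    c * (r : ℝ) ^ 2 * (n : ℝ) ^ 2 / Real.log n ^ 2 ≤ 3 * (n : ℝ) ^ 2 * D ⌊(n : ℝ) ^ (1 / (r : ℝ))⌋₊ := by
  obtain ⟨c, hc, h⟩ := D_ge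
  refine ⟨3 * c, by positivity, fun r hr => ?_⟩
  have hr0 : (0 : ℝ) < r := by exact_mod_cast hr
  filter_upwards [(s_tendsto r hr).eventually h, (s_tendsto r hr).eventually_ge_atTop 3,
    eventually_ge_atTop 3] with n g1 g3 gn
  have hn3 : (3 : ℝ) ≤ n := by exact_mod_cast gn
  have hln : 0 < Real.log n := Real.log_pos (by linarith)
  set s := ⌊(n : ℝ) ^ (1 / (r : ℝ))⌋₊ with hs
  have hs3 : (3 : ℝ) ≤ s := by exact_mod_cast g3
  have hls : 0 < Real.log s := Real.log_pos (by linarith)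
  have h1 : Real.log s ≤ 1 / (r : ℝ) * Real.log n := by
    rw [← Real.log_rpow (by linarith)]
    exact Real.log_le_log (by linarith) (Nat.floor_le (by positivity))
  have h2 : Real.log s ^ 2 ≤ (1 / (r : ℝ) * Real.log n) ^ 2 := pow_le_pow_left₀ hls.le h1 2
  have h3 : c / (1 / (r : ℝ) * Real.log n) ^ 2 ≤ c / Real.log s ^ 2 :=
    div_le_div_of_nonneg_left hc.le (by positivity) h2
  have h4 : c / (1 / (r : ℝ) * Real.log n) ^ 2 = c * (r : ℝ) ^ 2 / Real.log n ^ 2 := by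
    field_simp
  rw [h4] at h3
  calc 3 * c * (r : ℝ) ^ 2 * (n : ℝ) ^ 2 / Real.log n ^ 2 = 3 * (n : ℝ) ^ 2 * (c * (r : ℝ) ^ 2 / Real.log n ^ 2) := by
        ring
    _ ≤ 3 * (n : ℝ) ^ 2 * D s := mul_le_mul_of_nonneg_left (h3.trans g1) (by positivity)

end Pool.Agent.T2H62.Cube
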