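import Pool.Agent.T2H62.CubeC
import Pool.Agent.Y840.CT.Gen

set_option autoImplicit false

/-! Chen's theorem for the primes `p` with `p + 6` a product of at most two primes between consecutive cubes. -/

namespace Pool.Agent.T2H62.Cube

open Finset Filter Topology
open Pool.Agent.R490.Tq (Ro nu V Dk tgap)

/-- the number of the primes `p` with `n ^ 3 < p`, `p + 6 < (n + 1) ^ 3` such that `p + 6` has at most two prime
factors, all of them larger than `n ^ (1/3)`, and such that `p`, `p + 6` are consecutive among the integers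
without a prime factor `≤ n ^ (1/r)` -/
noncomputable def T (r n : ℕ) : ℕ := cnt n (fun m => m.Prime ∧ (m + 6).primeFactorsList.length ≤ 2 ∧
  (∀ q : ℕ, q.Prime → q ∣ m + 6 → (n : ℝ) ^ (1 / 3 : ℝ) < q) ∧ Sexy ⌊(n : ℝ) ^ (1 / (r : ℝ))⌋₊ m)

/-- the pairs which are not consecutive -/
noncomputable def NC (s n : ℕ) : ℕ :=
  ((cnt n (fun m => m % 12 = 5 ∧ RoughAll s {0, 2, 6} m) + cnt n (fun m => m % 12 = 11 ∧ RoughAll s {0, 2, 6} m)) +
    (cnt n (fun m => m % 12 = 1 ∧ RoughAll s {0, 4, 6} m) + cnt n (fun m => m % 12 = 7 ∧ RoughAll s {0, 4, 6} m)))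

lemma V2_le (s : ℕ) (hs : 3 ≤ s) : V2 s ≤ 9 * M1 s ^ 2 := by
  have e : 9 * M1 s ^ 2 = ∏ p ∈ P5 s, (1 - (p : ℝ)⁻¹) ^ 2 := by
    rw [M1_split s hs, Finset.prod_pow]
    ring
  rw [e]
  unfold V2
  apply Finset.prod_le_prod
  · intro p hp
    have h := (mem_P5.1 hp).2.2
    have h1 : (4 : ℝ) ≤ p := by exact_mod_cast h
    rw [sub_nonneg, div_le_one (by linarith)]
    linarith
  · intro p hp
    have h := (mem_P5.1 hp).2.2
    have h1 : (4 : ℝ) ≤ p := by exact_mod_cast h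
    have e2 : (1 - (p : ℝ)⁻¹) ^ 2 - (1 - 2 / (p : ℝ)) = ((p : ℝ)⁻¹) ^ 2 := by
      have : (p : ℝ) ≠ 0 := by linarith
      field_simp
      ring
    have h5 : 0 ≤ ((p : ℝ)⁻¹) ^ 2 := by positivity
    linarith

/-- upper bounds -/
lemma upper : ∃ R : ℕ, 3 ≤ R ∧ ∃ C : ℝ, 0 < C ∧ ∀ δ : ℝ, 0 < δ → ∀ᶠ n : ℕ in atTop,
    ∀ s : ℕ, s = ⌊(n : ℝ) ^ (1 / (R : ℝ))⌋₊ →
      (cnt n (fun m => RoughAll s {0, 6} m) : ℝ) ≤ C * ((n : ℝ) ^ 2 / Real.log n ^ 2) ∧
      (NC s n : ℝ) ≤ δ * ((n : ℝ) ^ 2 / Real.log n ^ 2) := by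
  obtain ⟨r2, h2⟩ := one_class 2 le_rfl 1 one_pos
  obtain ⟨r3, h3⟩ := one_class 3 (by norm_num) 1 one_pos
  set R : ℕ := max (max r2 r3) 3 with hR
  have hR2 : r2 ≤ R := (le_max_left _ _).trans (le_max_left _ _)
  have hR3 : r3 ≤ R := (le_max_right _ _).trans (le_max_left _ _)
  have hR1 : 3 ≤ R := le_max_right _ _
  have hR0 : (0 : ℝ) < R := by exact_mod_cast (by omega : 0 < R)
  set E := (Real.exp Real.eulerMascheroniConstant)⁻¹ with hE
  have hE0 : 0 < E := by positivity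
  set C : ℝ := 9 * (2 * E * (2 * R)) ^ 2 with hC
  have hC0 : 0 < C := by positivity
  refine ⟨R, hR1, 4 * C, by positivity, fun δ hδ => ?_⟩
  have hM : ∀ᶠ n : ℕ in atTop, M1 (⌊(n : ℝ) ^ (1 / (R : ℝ))⌋₊) < δ / (12 * C) :=
    (M1_zero.comp (s_tendsto R (by omega))).eventually (gt_mem_nhds (by positivity))
  have hM2 : ∀ᶠ n : ℕ in atTop, M1 (⌊(n : ℝ) ^ (1 / (R : ℝ))⌋₊) * Real.log (⌊(n : ℝ) ^ (1 / (R : ℝ))⌋₊ : ℕ) < 2 * E :=
    (s_tendsto R (by omega)).eventually (M1_tendsto.eventually (gt_mem_nhds (by linarith)))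
  have hs3 := (s_tendsto R (by omega)).eventually_ge_atTop 3
  have hbig : ∀ᶠ n : ℕ in atTop, (4 : ℝ) ≤ (n : ℝ) ^ (1 / (R : ℝ)) :=
    ((tendsto_rpow_atTop (by positivity)).comp tendsto_natCast_atTop_atTop).eventually_ge_atTop _
  filter_upwards [h2 R hR2, h3 R hR3, hM, hM2, hs3, hbig, eventually_ge_atTop 12] with n g2 g3 gM gM2 gs gb gn12
  intro s hs
  rw [← hs] at gM gM2 gs
  have hn12 : (12 : ℝ) ≤ n := by exact_mod_cast gn12
  have hln : 0 < Real.log n := Real.log_pos (by linarith)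
  have hV2 := V2_pos s
  have hV3 := V3_nonneg s
  have hV3le := V3_le s gs
  have hM0 := M1_pos s
  have hs3r : (3 : ℝ) ≤ s := by exact_mod_cast gs
  have hls : 0 < Real.log s := Real.log_pos (by linarith)
  -- log s
  have hlog : Real.log n / (2 * R) ≤ Real.log s := by
    have h4 : (n : ℝ) ^ (1 / (R : ℝ)) / 2 ≤ s := by
      have := Nat.lt_floor_add_one ((n : ℝ) ^ (1 / (R : ℝ)))
      rw [← hs] at this
      linarith
    have h5 : ((n : ℝ) ^ (1 / (R : ℝ))) ^ (1 / 2 : ℝ) ≤ (n : ℝ) ^ (1 / (R : ℝ)) / 2 := by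
      rw [← Real.sqrt_eq_rpow, Real.sqrt_le_left (by positivity)]
      nlinarith
    have h6 : Real.log (((n : ℝ) ^ (1 / (R : ℝ))) ^ (1 / 2 : ℝ)) ≤ Real.log s :=
      Real.log_le_log (by positivity) (h5.trans h4)
    rw [Real.log_rpow (by positivity), Real.log_rpow (by linarith)] at h6
    calc Real.log n / (2 * R) = 1 / 2 * (1 / (R : ℝ) * Real.log n) := by field_simp
      _ ≤ _ := h6
  have hM3 : M1 s ≤ 2 * E * (2 * R) / Real.log n := by
    rw [le_div_iff₀ hln]
    have h7 : Real.log n ≤ 2 * R * Real.log s := by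
      rw [div_le_iff₀ (by positivity)] at hlog
      linarith
    calc M1 s * Real.log n ≤ M1 s * (2 * R * Real.log s) := mul_le_mul_of_nonneg_left h7 hM0.le
      _ = (M1 s * Real.log s) * (2 * R) := by ring
      _ ≤ 2 * E * (2 * R) := mul_le_mul_of_nonneg_right gM2.le (by positivity)
  have hV2C : V2 s ≤ C / Real.log n ^ 2 := by
    refine (V2_le s gs).trans ?_
    have := pow_le_pow_left₀ hM0.le hM3 2
    rw [div_pow] at this
    rw [hC]
    calc 9 * M1 s ^ 2 ≤ 9 * ((2 * E * (2 * R)) ^ 2 / Real.log n ^ 2) := by linarith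
      _ = _ := by ring
  have hYle : ∀ a : ℕ, a < 12 → (Y n a : ℝ) ≤ (n : ℝ) ^ 2 / 2 := by
    intro a ha
    obtain ⟨y1, y2, -, -⟩ := Y_bounds n a (by omega) ha
    have y2' : 12 * (Y n a : ℝ) ≤ 3 * ((n : ℝ) * n) + 4 * n := by exact_mod_cast y2
    have h9 := mul_le_mul_of_nonneg_right hn12 (show (0 : ℝ) ≤ n by linarith)
    have e : (n : ℝ) ^ 2 / 2 = (n * n) / 2 := by ring
    rw [e]
    linarith
  have c2 : ∀ a : ℕ, a = 1 ∨ a = 5 ∨ a = 7 ∨ a = 11 →
      (cnt n (fun m => m % 12 = a ∧ RoughAll s {0, 6} m) : ℝ) ≤ (n : ℝ) ^ 2 * V2 s := by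
    intro a ha
    have := g2 s hs {0, 6} rfl (fun h hh => by simp only [mem_insert, mem_singleton] at hh; omega) adm2 a
      (by omega) (by
        intro h hh
        simp only [mem_insert, mem_singleton] at hh
        rcases ha with rfl | rfl | rfl | rfl <;> rcases hh with rfl | rfl <;> decide)
    rw [V_two] at this
    have h1 := (abs_le.1 this).2
    have h2 := mul_le_mul_of_nonneg_right (hYle a (by omega)) hV2.le
    linarith
  have c3a : ∀ a : ℕ, a = 5 ∨ a = 11 →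
      (cnt n (fun m => m % 12 = a ∧ RoughAll s {0, 2, 6} m) : ℝ) ≤ (n : ℝ) ^ 2 * V3 s := by
    intro a ha
    have := g3 s hs {0, 2, 6} rfl (fun h hh => by simp only [mem_insert, mem_singleton] at hh; omega) adm3a a
      (by omega) (fun h hh => by
        simp only [mem_insert, mem_singleton] at hh
        rcases ha with rfl | rfl <;> rcases hh with rfl | rfl | rfl <;> decide)
    rw [V_threea] at this
    have h1 := (abs_le.1 this).2
    have h2 := mul_le_mul_of_nonneg_right (hYle a (by omega)) hV3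
    linarith
  have c3b : ∀ a : ℕ, a = 1 ∨ a = 7 →
      (cnt n (fun m => m % 12 = a ∧ RoughAll s {0, 4, 6} m) : ℝ) ≤ (n : ℝ) ^ 2 * V3 s := by
    intro a ha
    have := g3 s hs {0, 4, 6} rfl (fun h hh => by simp only [mem_insert, mem_singleton] at hh; omega) adm3b a
      (by omega) (fun h hh => by
        simp only [mem_insert, mem_singleton] at hh
        rcases ha with rfl | rfl <;> rcases hh with rfl | rfl | rfl <;> decide)
    rw [V_threeb] at this
    have h1 := (abs_le.1 this).2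
    have h2 := mul_le_mul_of_nonneg_right (hYle a (by omega)) hV3
    linarith
  constructor
  · rw [cnt_cls n (fun m => RoughAll s {0, 6} m) (fun m h => rough_mod gs (by simpa using h 0 (by simp)))]
    push_cast
    have h1 := c2 1 (by norm_num)
    have h5 := c2 5 (by norm_num)
    have h7 := c2 7 (by norm_num)
    have h11 := c2 11 (by norm_num)
    have hb : (n : ℝ) ^ 2 * V2 s ≤ C * ((n : ℝ) ^ 2 / Real.log n ^ 2) := by
      calc (n : ℝ) ^ 2 * V2 s ≤ (n : ℝ) ^ 2 * (C / Real.log n ^ 2) :=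
            mul_le_mul_of_nonneg_left hV2C (by positivity)
        _ = _ := by ring
    have e : 4 * C * ((n : ℝ) ^ 2 / Real.log n ^ 2) = 4 * (C * ((n : ℝ) ^ 2 / Real.log n ^ 2)) := by ring
    rw [e]
    linarith only [h1, h5, h7, h11, hb]
  · unfold NC
    push_cast
    have b5 := c3a 5 (by norm_num)
    have b11 := c3a 11 (by norm_num)
    have b1 := c3b 1 (by norm_num)
    have b7 := c3b 7 (by norm_num)
    have hb : (n : ℝ) ^ 2 * V3 s ≤ δ / 4 * ((n : ℝ) ^ 2 / Real.log n ^ 2) := by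
      calc (n : ℝ) ^ 2 * V3 s ≤ (n : ℝ) ^ 2 * (C / Real.log n ^ 2 * (3 * (δ / (12 * C)))) := by
            apply mul_le_mul_of_nonneg_left _ (by positivity)
            refine hV3le.trans ?_
            apply mul_le_mul hV2C (by linarith) (by positivity) (by positivity)
        _ = _ := by field_simp; ring
    have e : δ * ((n : ℝ) ^ 2 / Real.log n ^ 2) = 4 * (δ / 4 * ((n : ℝ) ^ 2 / Real.log n ^ 2)) := by ring
    rw [e]
    linarith only [b1, b5, b7, b11, hb]

end Pool.Agent.T2H62.Cube
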