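import Pool.Agent.T2H62.CubeD

set_option autoImplicit false

/-! Chen's theorem for the primes `p` with `p + 6` a product of at most two primes between consecutive cubes:
a positive proportion of the cubes. -/

namespace Pool.Agent.T2H62.Cube

open Finset Filter Topology
open Pool.Agent.Y840.CT (rho Good Vp Sys genI)

lemma rho6 {q : ℕ} (hq : q.Prime) : rho {-6} q = if q ≤ 3 then 1 else 2 := by
  unfold rho
  have h2 := hq.two_le
  have h4 : q ≠ 4 := fun h => by rw [h] at hq; exact absurd hq (by norm_num)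
  have h6 : q ≠ 6 := fun h => by rw [h] at hq; exact absurd hq (by norm_num)
  split_ifs with h
  · have : q = 2 ∨ q = 3 := by omega
    rcases this with rfl | rfl <;> decide
  · rw [Finset.image_insert, Finset.image_singleton, Finset.card_pair]
    intro h0
    rw [Int.zero_emod] at h0
    have h1 : (q : ℤ) ∣ -6 := Int.dvd_of_emod_eq_zero h0.symm
    rw [Int.dvd_neg] at h1
    have h3 : q ∣ 6 := by exact_mod_cast h1
    have h5 := Nat.le_of_dvd (by norm_num) h3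
    have : q = 5 := by omega
    subst this
    omega

lemma Vp6 (X : ℕ) : Vp {-6} X = D X := by
  unfold Vp D
  have hs : (Icc 1 X).filter Nat.Prime = (range (X + 1)).filter Nat.Prime := by
    ext p
    simp only [mem_filter, mem_Icc, mem_range]
    constructor
    · rintro ⟨h1, h2⟩; exact ⟨by omega, h2⟩
    · rintro ⟨h1, h2⟩; exact ⟨⟨h2.one_lt.le, by omega⟩, h2⟩
  rw [hs]
  apply Finset.prod_congr rfl
  intro p hp
  rw [rho6 (mem_filter.1 hp).2]

lemma sys6 (X : ℕ) (hX : 6 ≤ X) : Sys 1 X {-6} where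
  card := by simp
  size := by
    intro h hh
    rw [mem_singleton] at hh
    subst hh
    refine ⟨by norm_num, ?_⟩
    have : (6 : ℤ) ≤ X := by exact_mod_cast hX
    simpa using this
  loc := by
    intro q hq
    rw [rho6 hq]
    have := hq.two_le
    split_ifs <;> omega

/-- the interval between two cubes which contains a given number -/
lemma exists_cube {M N p : ℕ} (h1 : M ^ 3 < p) (h2 : p ≤ N ^ 3) : ∃ n : ℕ, M ≤ n ∧ n < N ∧ n ^ 3 < p ∧ p ≤ (n + 1) ^ 3 := by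
  classical
  have hex : ∃ k : ℕ, p ≤ k ^ 3 := ⟨N, h2⟩
  obtain ⟨k, hk⟩ : ∃ k, k = Nat.find hex := ⟨_, rfl⟩
  have hk1 : p ≤ k ^ 3 := by rw [hk]; exact Nat.find_spec hex
  have hk2 : ∀ j, j < k → j ^ 3 < p := by
    intro j hj
    rw [hk] at hj
    have := Nat.find_min hex hj
    omega
  have hkN : k ≤ N := by rw [hk]; exact Nat.find_min' hex h2
  have hkM : M < k := by
    by_contra hcon
    push Not at hcon
    have := Nat.pow_le_pow_left hcon 3
    omega
  obtain ⟨n, rfl⟩ : ∃ n, k = n + 1 := ⟨k - 1, by omega⟩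
  exact ⟨n, by omega, by omega, hk2 n (by omega), hk1⟩

open Classical in
/-- the good primes of one interval -/
noncomputable def A (t N n : ℕ) : Finset ℕ :=
  (Ioo (n ^ 3) ((n + 1) ^ 3)).filter (fun p => p.Prime ∧ (p + 6).primeFactorsList.length ≤ 2 ∧
    ∀ q : ℕ, q.Prime → q ∣ p + 6 → (N : ℝ) ^ (1 / 3 : ℝ) < q)

open Classical in
lemma cover (t M N : ℕ) (hN : 1 ≤ N) : Good t (N ^ 3) (M ^ 3) (N ^ 3) {-6} (-6) ⊆ (Ico M N).biUnion (fun n => A t N n) := by
  intro p hp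
  unfold Good at hp
  rw [mem_filter, mem_Ioc] at hp
  obtain ⟨⟨h1, h2⟩, hpp, -, h3, -⟩ := hp
  obtain ⟨n, hn1, hn2, hn3, hn4⟩ := exists_cube h1 h2
  rw [mem_biUnion]
  refine ⟨n, mem_Ico.2 ⟨hn1, hn2⟩, ?_⟩
  unfold A
  rw [mem_filter, mem_Ioo]
  have hne : p ≠ (n + 1) ^ 3 := fun h => by
    rw [h] at hpp
    exact Nat.Prime.not_prime_pow (by norm_num) hpp
  obtain ⟨g1, g2, g3⟩ := h3
  have e : ((-6 : ℤ) - p).natAbs = p + 6 := by omega
  rw [e] at g2
  refine ⟨⟨hn3, by omega⟩, hpp, g2, fun q hq hd => ?_⟩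
  have h4 := g3 q hq (by
    have h5 : ((-6 : ℤ) - p) = -((p + 6 : ℕ) : ℤ) := by push_cast; ring
    rw [h5, Int.dvd_neg]
    exact_mod_cast hd)
  have e2 : (((N ^ 3 : ℕ) : ℝ)) ^ (1 / 9 : ℝ) = (N : ℝ) ^ (1 / 3 : ℝ) := by
    push_cast
    rw [← Real.rpow_natCast, ← Real.rpow_mul (by positivity)]
    norm_num
  rw [e2] at h4
  exact h4

lemma card_eq_cnt (n : ℕ) (P : ℕ → Prop) (S : Finset ℕ)
    (h : ∀ m, m ∈ S ↔ (n ^ 3 < m ∧ m < (n + 1) ^ 3) ∧ m + 6 < (n + 1) ^ 3 ∧ P m) : S.card = cnt n P := by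
  classical
  unfold cnt
  congr 1
  ext m
  rw [h, mem_filter, mem_Ioo]

open Classical in
/-- the good primes of one interval are counted by `T`, up to few -/
lemma A_card (t N n R : ℕ) (hR : 3 ≤ R) (hnN : n ≤ N) (hn : 2 ≤ n)
    (hs : 3 ≤ ⌊(n : ℝ) ^ (1 / (R : ℝ))⌋₊) :
    (A t N n).card ≤ T R n + 6 + NC ⌊(n : ℝ) ^ (1 / (R : ℝ))⌋₊ n := by
  set s := ⌊(n : ℝ) ^ (1 / (R : ℝ))⌋₊ with hsdef
  have hR0 : (0 : ℝ) < R := by exact_mod_cast (by omega : 0 < R)
  have hn1 : (1 : ℝ) ≤ n := by exact_mod_cast (by omega : 1 ≤ n)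
  have hsn : (s : ℝ) ≤ (n : ℝ) ^ (1 / (R : ℝ)) := Nat.floor_le (by positivity)
  have hsn3 : (s : ℝ) ≤ (n : ℝ) ^ (1 / 3 : ℝ) := by
    refine hsn.trans (Real.rpow_le_rpow_of_exponent_le hn1 ?_)
    rw [div_le_div_iff₀ hR0 (by norm_num)]
    have : (3 : ℝ) ≤ R := by exact_mod_cast hR
    linarith
  have hsn1 : s ≤ n := by
    have : (s : ℝ) ≤ n := by
      refine hsn.trans ?_
      have := Real.rpow_le_rpow_of_exponent_le hn1 (show 1 / (R : ℝ) ≤ 1 by
        rw [div_le_one hR0]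
        have : (3 : ℝ) ≤ R := by exact_mod_cast hR
        linarith)
      rwa [Real.rpow_one] at this
    exact_mod_cast this
  have hnn : n ≤ n ^ 3 := Nat.le_self_pow (by norm_num) n
  -- rough
  have hrough : ∀ p ∈ A t N n, RoughAll s {0, 6} p := by
    intro p hp x hx
    unfold A at hp
    rw [mem_filter, mem_Ioo] at hp
    obtain ⟨⟨h1, h2⟩, hpp, h3, h4⟩ := hp
    simp only [mem_insert, mem_singleton] at hx
    rcases hx with rfl | rfl
    · intro q hq hqs hd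
      rw [add_zero] at hd
      have := (Nat.prime_dvd_prime_iff_eq hq hpp).1 hd
      omega
    · intro q hq hqs hd
      have h5 := h4 q hq hd
      have h6 : (q : ℝ) ≤ s := by exact_mod_cast hqs
      have h7 : (n : ℝ) ^ (1 / 3 : ℝ) ≤ (N : ℝ) ^ (1 / 3 : ℝ) :=
        Real.rpow_le_rpow (by positivity) (by exact_mod_cast hnN) (by norm_num)
      linarith
  have hsub : A t N n ⊆ ((Ioo (n ^ 3) ((n + 1) ^ 3)).filter (fun m => m + 6 < (n + 1) ^ 3 ∧
      (m.Prime ∧ (m + 6).primeFactorsList.length ≤ 2 ∧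
      (∀ q : ℕ, q.Prime → q ∣ m + 6 → (n : ℝ) ^ (1 / 3 : ℝ) < q) ∧ Sexy s m)) ∪
      Ico ((n + 1) ^ 3 - 6) ((n + 1) ^ 3)) ∪
      (Ioo (n ^ 3) ((n + 1) ^ 3)).filter (fun m => m + 6 < (n + 1) ^ 3 ∧ (RoughAll s {0, 6} m ∧ ¬ Sexy s m)) := by
    intro p hp
    have hr := hrough p hp
    unfold A at hp
    rw [mem_filter, mem_Ioo] at hp
    obtain ⟨⟨h1, h2⟩, hpp, h3, h4⟩ := hp
    rw [mem_union, mem_union, mem_filter, mem_filter, mem_Ico, mem_Ioo]
    by_cases h6 : p + 6 < (n + 1) ^ 3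
    · by_cases hS : Sexy s p
      · left; left
        refine ⟨⟨h1, h2⟩, h6, hpp, h3, fun q hq hd => ?_, hS⟩
        have h7 : (n : ℝ) ^ (1 / 3 : ℝ) ≤ (N : ℝ) ^ (1 / 3 : ℝ) :=
          Real.rpow_le_rpow (by positivity) (by exact_mod_cast hnN) (by norm_num)
        exact lt_of_le_of_lt h7 (h4 q hq hd)
      · right
        exact ⟨⟨h1, h2⟩, h6, hr, hS⟩
    · left; right
      omega
  have hcard := card_le_card hsub
  refine hcard.trans ((card_union_le _ _).trans ?_)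
  apply Nat.add_le_add
  · refine (card_union_le _ _).trans ?_
    apply Nat.add_le_add
    · apply le_of_eq
      unfold T
      apply card_eq_cnt
      intro m
      rw [mem_filter, mem_Ioo]
    · rw [Nat.card_Ico]
      omega
  · have h1 : ((Ioo (n ^ 3) ((n + 1) ^ 3)).filter (fun m => m + 6 < (n + 1) ^ 3 ∧
        (RoughAll s {0, 6} m ∧ ¬ Sexy s m))).card = cnt n (fun m => RoughAll s {0, 6} m ∧ ¬ Sexy s m) := by
      apply card_eq_cnt
      intro m
      rw [mem_filter, mem_Ioo]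
    rw [h1]
    unfold NC
    refine (cnt_mono n _ _ (fun m h => nonconsec hs h.1 h.2)).trans ?_
    exact (cnt_or n _ _).trans (Nat.add_le_add (cnt_or n _ _) (cnt_or n _ _))

lemma T_le (R n : ℕ) : T R n ≤ cnt n (fun m => RoughAll ⌊(n : ℝ) ^ (1 / (R : ℝ))⌋₊ {0, 6} m) := by
  unfold T
  apply cnt_mono
  rintro m ⟨-, -, -, h1, h2, -⟩ x hx
  simp only [mem_insert, mem_singleton] at hx
  rcases hx with rfl | rfl
  · exact h1
  · exact h2

end Pool.Agent.T2H62.Cube
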