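import Pool.Agent.T2H62.CubeE

set_option autoImplicit false

/-! Chen's theorem for the primes `p` with `p + 6` a product of at most two primes between consecutive cubes:
a positive proportion of the cubes. -/

namespace Pool.Agent.T2H62.Cube

open Finset Filter Topology
open Pool.Agent.Y840.CT (rho Good Vp Sys genI)

/-- the lower bound for the sum over the cubes -/
lemma lower : ∃ t : ℕ, ∃ c : ℝ, 0 < c ∧ ∀ᶠ N : ℕ in atTop,
    c * ((N : ℝ) ^ 3 / Real.log N ^ 2) ≤ ∑ n ∈ Ico (N / 2) N, ((A t N n).card : ℝ) := by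
  classical
  obtain ⟨t, ht, c, hc, h, -⟩ := genI 1
  obtain ⟨X0, h1⟩ := h (1 / 2) (by norm_num)
  obtain ⟨c', hc', h2⟩ := D_ge
  refine ⟨t, c * (1 / 2) * (c' / 9), by positivity, ?_⟩
  have hc3 : Tendsto (fun N : ℕ => N ^ 3) atTop atTop := tendsto_pow_atTop (by norm_num)
  filter_upwards [hc3.eventually h2, hc3.eventually_ge_atTop X0, hc3.eventually_ge_atTop 6,
    eventually_ge_atTop 3] with N g2 gX g6 g3
  have hN3 : (3 : ℝ) ≤ N := by exact_mod_cast g3
  have hln : 0 < Real.log N := Real.log_pos (by linarith)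
  have hM : 2 * (N / 2) ≤ N := by omega
  have hM3 : 8 * (N / 2) ^ 3 ≤ N ^ 3 := by
    calc 8 * (N / 2) ^ 3 = (2 * (N / 2)) ^ 3 := by ring
      _ ≤ N ^ 3 := Nat.pow_le_pow_left hM 3
  have hM3' : 8 * (((N / 2) ^ 3 : ℕ) : ℝ) ≤ ((N ^ 3 : ℕ) : ℝ) := by exact_mod_cast hM3
  have hpos : (0 : ℝ) ≤ ((N ^ 3 : ℕ) : ℝ) := Nat.cast_nonneg _
  have h3 := h1 (N ^ 3) gX {-6} (sys6 _ g6) (-6) (mem_singleton_self _) ((N / 2) ^ 3) (N ^ 3) le_rfl (by linarith)
  rw [Vp6] at h3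
  have h4 := card_le_card (cover t (N / 2) N (by omega))
  have h5 : (((Good t (N ^ 3) ((N / 2) ^ 3) (N ^ 3) {-6} (-6)).card : ℕ) : ℝ) ≤
      ∑ n ∈ Ico (N / 2) N, ((A t N n).card : ℝ) := by
    have h6 := h4.trans card_biUnion_le
    exact_mod_cast h6
  refine le_trans ?_ (h3.trans h5)
  have e1 : Real.log ((N ^ 3 : ℕ) : ℝ) = 3 * Real.log N := by
    push_cast
    rw [Real.log_pow]
    norm_num
  rw [e1] at g2
  have e2 : c' / (3 * Real.log N) ^ 2 = c' / 9 * (1 / Real.log N ^ 2) := by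
    field_simp
    norm_num
  rw [e2] at g2
  have hhalf : 1 / 2 * (N : ℝ) ^ 3 ≤ ((N ^ 3 : ℕ) : ℝ) - (((N / 2) ^ 3 : ℕ) : ℝ) := by
    have : ((N ^ 3 : ℕ) : ℝ) = (N : ℝ) ^ 3 := by push_cast; ring
    rw [← this]
    linarith
  calc c * (1 / 2) * (c' / 9) * ((N : ℝ) ^ 3 / Real.log N ^ 2) =
      (c * (1 / 2 * (N : ℝ) ^ 3)) * (c' / 9 * (1 / Real.log N ^ 2)) := by ring
    _ ≤ (c * (((N ^ 3 : ℕ) : ℝ) - (((N / 2) ^ 3 : ℕ) : ℝ))) * D (N ^ 3) := by
        apply mul_le_mul _ g2 (by positivity)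
        · apply mul_nonneg hc.le
          exact le_trans (by positivity) hhalf
        · exact mul_le_mul_of_nonneg_left hhalf hc.le

/-- **positive proportion** -/
theorem chen : ∃ R : ℕ, 3 ≤ R ∧ ∃ c κ : ℝ, 0 < c ∧ 0 < κ ∧ ∀ᶠ N : ℕ in atTop,
    κ * N ≤ (((range N).filter (fun n : ℕ => 2 ≤ n ∧ c * ((n : ℝ) ^ 2 / Real.log n ^ 2) ≤ T R n)).card : ℝ) := by
  classical
  obtain ⟨R, hR, C, hC, hup⟩ := upper
  obtain ⟨t, c1, hc1, hlow⟩ := lower
  refine ⟨R, hR, c1 / 16, c1 / (16 * C), by positivity, by positivity, ?_⟩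
  have hR0 : (0 : ℝ) < R := by exact_mod_cast (by omega : 0 < R)
  obtain ⟨n0, hn0⟩ := eventually_atTop.1 (hup (c1 / 16) (by positivity))
  obtain ⟨n1, hn1⟩ := eventually_atTop.1 ((s_tendsto R (by omega)).eventually_ge_atTop 3)
  -- the small term
  have hsmall : ∀ᶠ N : ℕ in atTop, (6 : ℝ) * N ≤ c1 / 8 * ((N : ℝ) ^ 3 / Real.log N ^ 2) := by
    have h1 : Tendsto (fun N : ℕ => Real.log (N : ℝ) ^ 2 / (N : ℝ)) atTop (𝓝 0) := by
      have := (isLittleO_log_rpow_rpow_atTop 2 (one_pos : (0 : ℝ) < 1)).tendsto_div_nhds_zero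
      have h2 := this.comp tendsto_natCast_atTop_atTop
      refine h2.congr (fun N => ?_)
      simp [Function.comp, Real.rpow_two]
    have h2 : ∀ᶠ N : ℕ in atTop, Real.log (N : ℝ) ^ 2 / (N : ℝ) < c1 / 48 := h1.eventually (gt_mem_nhds (by positivity))
    filter_upwards [h2, eventually_ge_atTop 3] with N g2 g3
    have hN3 : (3 : ℝ) ≤ N := by exact_mod_cast g3
    have hln : 0 < Real.log N := Real.log_pos (by linarith)
    rw [div_lt_iff₀ (by linarith)] at g2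
    have e : c1 / 8 * ((N : ℝ) ^ 3 / Real.log N ^ 2) = (c1 / 8 * (N : ℝ) ^ 3) / Real.log N ^ 2 := by ring
    rw [e, le_div_iff₀ (by positivity)]
    have h5 : (6 : ℝ) * N * Real.log N ^ 2 ≤ 6 * N * (c1 / 48 * N) :=
      mul_le_mul_of_nonneg_left g2.le (by positivity)
    have h6 : 6 * (N : ℝ) * (c1 / 48 * N) = c1 / 8 * (N : ℝ) ^ 2 := by ring
    have h7 : (N : ℝ) ^ 2 ≤ (N : ℝ) ^ 3 := pow_le_pow_right₀ (by linarith) (by norm_num)
    have h8 := mul_le_mul_of_nonneg_left h7 (show 0 ≤ c1 / 8 by positivity)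
    linarith
  filter_upwards [hlow, hsmall, eventually_ge_atTop (2 * n0 + 2), eventually_ge_atTop (2 * n1 + 2),
    eventually_ge_atTop 16] with N gl gs g0 g1 g16
  have hN16 : (16 : ℝ) ≤ N := by exact_mod_cast g16
  have hln : 0 < Real.log N := Real.log_pos (by linarith)
  set Z : ℝ := (N : ℝ) ^ 2 / Real.log N ^ 2 with hZ
  have hZ0 : 0 < Z := by positivity
  have hZ3 : (N : ℝ) ^ 3 / Real.log N ^ 2 = N * Z := by rw [hZ]; ring
  rw [hZ3] at gl gs
  -- comparison of the main terms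
  have hcomp : ∀ n ∈ Ico (N / 2) N, (n : ℝ) ^ 2 / Real.log n ^ 2 ≤ 4 * Z := by
    intro n hn
    rw [mem_Ico] at hn
    have hn8 : 8 ≤ n := by omega
    have hn8' : (8 : ℝ) ≤ n := by exact_mod_cast hn8
    have hnN : (n : ℝ) ≤ N := by exact_mod_cast hn.2.le
    have hln' : 0 < Real.log n := Real.log_pos (by linarith)
    have h1 : (N : ℝ) ≤ (n : ℝ) ^ 2 := by
      have h0 : N ≤ 2 * n + 1 := by omega
      have : N ≤ n ^ 2 := by nlinarith
      exact_mod_cast this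
    have h2 : Real.log N ≤ 2 * Real.log n := by
      have := Real.log_le_log (by linarith) h1
      rw [Real.log_pow] at this
      push_cast at this
      exact this
    rw [hZ]
    rw [div_le_iff₀ (by positivity)]
    have e : 4 * ((N : ℝ) ^ 2 / Real.log N ^ 2) * Real.log n ^ 2 = (N : ℝ) ^ 2 * ((2 * Real.log n) ^ 2 / Real.log N ^ 2) := by ring
    rw [e]
    have h3 : 1 ≤ (2 * Real.log n) ^ 2 / Real.log N ^ 2 := by
      rw [le_div_iff₀ (by positivity), one_mul]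
      exact pow_le_pow_left₀ hln.le h2 2
    have h4 : (n : ℝ) ^ 2 ≤ (N : ℝ) ^ 2 := pow_le_pow_left₀ (by positivity) hnN 2
    calc (n : ℝ) ^ 2 ≤ (N : ℝ) ^ 2 := h4
      _ = (N : ℝ) ^ 2 * 1 := by ring
      _ ≤ _ := mul_le_mul_of_nonneg_left h3 (by positivity)
  have hcardI : ((Ico (N / 2) N).card : ℝ) ≤ N := by
    rw [Nat.card_Ico]
    exact_mod_cast Nat.sub_le _ _
  -- the sum of T
  have hsum : ∑ n ∈ Ico (N / 2) N, ((A t N n).card : ℝ) ≤
      ∑ n ∈ Ico (N / 2) N, (T R n : ℝ) + 6 * N + c1 / 4 * (N * Z) := by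
    have hterm : ∀ n ∈ Ico (N / 2) N, ((A t N n).card : ℝ) ≤ (T R n : ℝ) + (6 + c1 / 4 * Z) := by
      intro n hn
      have hc := hcomp n hn
      rw [mem_Ico] at hn
      have h1 := A_card t N n R hR hn.2.le (by omega) (hn1 n (by omega))
      have h2 := (hn0 n (by omega) _ rfl).2
      have h3 : ((A t N n).card : ℝ) ≤ (T R n : ℝ) + 6 + (NC ⌊(n : ℝ) ^ (1 / (R : ℝ))⌋₊ n : ℝ) := by exact_mod_cast h1
      have h4 := mul_le_mul_of_nonneg_left hc (show 0 ≤ c1 / 16 by positivity)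
      linarith
    refine (Finset.sum_le_sum hterm).trans ?_
    rw [Finset.sum_add_distrib, Finset.sum_const, nsmul_eq_mul]
    have h5 : ((Ico (N / 2) N).card : ℝ) * (6 + c1 / 4 * Z) ≤ N * (6 + c1 / 4 * Z) :=
      mul_le_mul_of_nonneg_right hcardI (by positivity)
    linarith
  have hT : c1 / 2 * (N * Z) ≤ ∑ n ∈ Ico (N / 2) N, (T R n : ℝ) := by
    have : 0 < c1 * (N * Z) := by positivity
    linarith
  -- splitting
  set G := (Ico (N / 2) N).filter (fun n : ℕ => c1 / 16 * ((n : ℝ) ^ 2 / Real.log n ^ 2) ≤ T R n) with hG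
  have hsplit : ∑ n ∈ Ico (N / 2) N, (T R n : ℝ) ≤ (G.card : ℝ) * (4 * C * Z) + N * (c1 / 4 * Z) := by
    rw [← Finset.sum_filter_add_sum_filter_not (Ico (N / 2) N) (fun n : ℕ => c1 / 16 * ((n : ℝ) ^ 2 / Real.log n ^ 2) ≤ T R n)]
    apply add_le_add
    · rw [← hG, ← nsmul_eq_mul, ← Finset.sum_const]
      apply Finset.sum_le_sum
      intro n hn
      rw [hG, mem_filter] at hn
      have hc := hcomp n hn.1
      have hn' := mem_Ico.1 hn.1
      have h1 := (hn0 n (by omega) _ rfl).1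
      have h2 : (T R n : ℝ) ≤ (cnt n (fun m => RoughAll ⌊(n : ℝ) ^ (1 / (R : ℝ))⌋₊ {0, 6} m) : ℝ) := by
        exact_mod_cast T_le R n
      have h3 := mul_le_mul_of_nonneg_left hc hC.le
      linarith
    · have h6 : ((Ico (N / 2) N).card : ℝ) * (c1 / 4 * Z) ≤ N * (c1 / 4 * Z) :=
        mul_le_mul_of_nonneg_right hcardI (by positivity)
      refine le_trans ?_ h6
      rw [← nsmul_eq_mul, ← Finset.sum_const]
      refine le_trans (Finset.sum_le_sum (g := fun _ => c1 / 4 * Z) ?_) ?_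
      · intro n hn
        rw [mem_filter] at hn
        have hc := hcomp n hn.1
        have h4 := mul_le_mul_of_nonneg_left hc (show 0 ≤ c1 / 16 by positivity)
        have h5 := hn.2
        push Not at h5
        linarith
      · apply Finset.sum_le_sum_of_subset_of_nonneg (filter_subset _ _)
        intro i _ _
        positivity
  have hGc : c1 / (16 * C) * N ≤ (G.card : ℝ) := by
    have h7 : c1 / 4 * (N * Z) ≤ (G.card : ℝ) * (4 * C * Z) := by linarith
    have h8 : (c1 / (16 * C) * N) * (4 * C * Z) ≤ (G.card : ℝ) * (4 * C * Z) := by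
      calc (c1 / (16 * C) * N) * (4 * C * Z) = c1 / 4 * (N * Z) := by field_simp; ring
        _ ≤ _ := h7
    exact le_of_mul_le_mul_right h8 (by positivity)
  refine hGc.trans ?_
  have hsub : G ⊆ (range N).filter (fun n : ℕ => 2 ≤ n ∧ c1 / 16 * ((n : ℝ) ^ 2 / Real.log n ^ 2) ≤ T R n) := by
    intro n hn
    rw [hG, mem_filter, mem_Ico] at hn
    rw [mem_filter, mem_range]
    exact ⟨hn.1.2, by omega, hn.2⟩
  exact_mod_cast card_le_card hsub

end Pool.Agent.T2H62.Cube
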