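import Pool.Agent.T2H62.CubeF
import Pool.Agent.R490.Tup

set_option autoImplicit false

/-! Narrow progressions of the primes of `CubeF`. -/

namespace Pool.Agent.T2H62.Cube

open Finset Filter Topology

/-- the primes counted by `T` -/
def GoodP (R n m : ℕ) : Prop := (n ^ 3 < m ∧ m < (n + 1) ^ 3) ∧ m + 6 < (n + 1) ^ 3 ∧
  m.Prime ∧ (m + 6).primeFactorsList.length ≤ 2 ∧
  (∀ q : ℕ, q.Prime → q ∣ m + 6 → (n : ℝ) ^ (1 / 3 : ℝ) < q) ∧ Sexy ⌊(n : ℝ) ^ (1 / (R : ℝ))⌋₊ m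

/-- `m` is a term of an `l`-term progression of such primes, with difference at most `D` -/
def InAP (R l : ℕ) (D : ℝ) (n m : ℕ) : Prop := ∃ u d : ℕ, 1 ≤ d ∧ (d : ℝ) ≤ D ∧
  (∀ i < l, GoodP R n (u + i * d)) ∧ ∃ i < l, m = u + i * d

open Classical in
/-- the number of these primes -/
noncomputable def TP (R l : ℕ) (D : ℝ) (n : ℕ) : ℕ :=
  ((Ioo (n ^ 3) ((n + 1) ^ 3)).filter (fun m => GoodP R n m ∧ InAP R l D n m)).card

open Classical in
lemma T_eq (R n : ℕ) : T R n = ((Ioo (n ^ 3) ((n + 1) ^ 3)).filter (fun m => GoodP R n m)).card := by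
  unfold T
  symm
  apply card_eq_cnt
  intro m
  rw [mem_filter, mem_Ioo]
  unfold GoodP
  tauto

lemma goodP_Rg {R n m : ℕ} (hn : 2 ≤ n) (h : GoodP R n m) : Pool.Agent.R490.Tu.Rg {0, 6} 18 m := by
  obtain ⟨⟨h1, h2⟩, h3, h4, h5, h6, h7⟩ := h
  have hn1 : (1 : ℝ) ≤ n := by exact_mod_cast (by omega : 1 ≤ n)
  have hm2 : 2 ≤ m := h4.two_le
  have hm1 : (1 : ℝ) < m := by exact_mod_cast (by omega : 1 < m)
  intro x hx p hp hd
  simp only [mem_insert, mem_singleton] at hx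
  rcases hx with rfl | rfl
  · rw [add_zero] at hd
    rw [(Nat.prime_dvd_prime_iff_eq hp h4).1 hd]
    calc (m : ℝ) ^ (1 / ((18 : ℕ) : ℝ)) < (m : ℝ) ^ (1 : ℝ) :=
          Real.rpow_lt_rpow_of_exponent_lt hm1 (by norm_num)
      _ = m := Real.rpow_one _
  · have h8 := h6 p hp hd
    refine lt_of_le_of_lt ?_ h8
    have h9 : m ≤ n ^ 6 := by
      have e1 : (n + 1) ^ 3 ≤ (n ^ 2) ^ 3 := Nat.pow_le_pow_left (by nlinarith) 3
      have e2 : (n ^ 2) ^ 3 = n ^ 6 := by ring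
      omega
    have h10 : (m : ℝ) ≤ (n : ℝ) ^ 6 := by exact_mod_cast h9
    calc (m : ℝ) ^ (1 / ((18 : ℕ) : ℝ)) ≤ ((n : ℝ) ^ 6) ^ (1 / ((18 : ℕ) : ℝ)) :=
          Real.rpow_le_rpow (by linarith) h10 (by positivity)
      _ = (n : ℝ) ^ (1 / 3 : ℝ) := by
          rw [← Real.rpow_natCast, ← Real.rpow_mul (by linarith)]
          norm_num

/-- **positive proportion, in narrow progressions** -/
theorem chenAP : ∃ R : ℕ, 3 ≤ R ∧ ∃ c κ : ℝ, 0 < c ∧ 0 < κ ∧ ∀ l : ℕ, 2 ≤ l → ∃ B : ℕ, ∀ᶠ N : ℕ in atTop,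
    κ * N ≤ (((range N).filter (fun n : ℕ => 2 ≤ n ∧
      c * ((n : ℝ) ^ 2 / Real.log n ^ 2) ≤ TP R l (Real.log n ^ B) n)).card : ℝ) := by
  classical
  obtain ⟨R, hR, c, κ, hc, hκ, h⟩ := chen
  refine ⟨R, hR, c / 2, κ / 2, by positivity, by positivity, fun l hl => ?_⟩
  obtain ⟨B, hB⟩ := Pool.Agent.R490.Tu.narPow {0, 6} ⟨0, by simp⟩ adm2 3 (by norm_num) 18 (by norm_num) l hl (c / 2)
    (by positivity)
  refine ⟨B, ?_⟩
  obtain ⟨n0, hn0⟩ := eventually_atTop.1 hB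
  have hbig : ∀ᶠ N : ℕ in atTop, (n0 : ℝ) ≤ κ / 2 * N := by
    have : Tendsto (fun N : ℕ => κ / 2 * (N : ℝ)) atTop atTop :=
      tendsto_natCast_atTop_atTop.const_mul_atTop (by positivity)
    exact this.eventually_ge_atTop _
  filter_upwards [h, hbig] with N hN hb
  have hsub : (range N).filter (fun n : ℕ => 2 ≤ n ∧ c * ((n : ℝ) ^ 2 / Real.log n ^ 2) ≤ T R n) ⊆
      range n0 ∪ (range N).filter (fun n : ℕ => 2 ≤ n ∧
        c / 2 * ((n : ℝ) ^ 2 / Real.log n ^ 2) ≤ TP R l (Real.log n ^ B) n) := by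
    intro n hn
    rw [mem_filter, mem_range] at hn
    rw [mem_union, mem_range, mem_filter, mem_range]
    by_cases hnn : n < n0
    · left; exact hnn
    · right
      push Not at hnn
      obtain ⟨h1, h2, h3⟩ := hn
      refine ⟨h1, h2, ?_⟩
      have h4 := hn0 n hnn {m | GoodP R n m} (fun m hm => goodP_Rg h2 hm)
      have e2 : ({0, 6} : Finset ℕ).card = 2 := rfl
      rw [e2] at h4
      rw [T_eq] at h3
      have h5 : ((Ioo (n ^ 3) ((n + 1) ^ 3)).filter (fun m => GoodP R n m)).card ≤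
          TP R l (Real.log n ^ B) n + ((Ioo (n ^ 3) ((n + 1) ^ 3)).filter (fun m : ℕ =>
          m ∈ {m | GoodP R n m} ∧ ¬ Pool.Agent.R490.Tu.InP {m | GoodP R n m} l (Real.log n ^ B) (n ^ 3) ((n + 1) ^ 3) m)).card := by
        unfold TP
        refine le_trans (card_le_card ?_) (card_union_le _ _)
        intro m hm
        rw [mem_filter] at hm
        rw [mem_union, mem_filter, mem_filter]
        by_cases hI : Pool.Agent.R490.Tu.InP {m | GoodP R n m} l (Real.log n ^ B) (n ^ 3) ((n + 1) ^ 3) m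
        · left
          obtain ⟨u, d, g1, g2, g3, g4⟩ := hI
          exact ⟨hm.1, hm.2, u, d, g1, g2, fun i hi => (g3 i hi).1, g4⟩
        · right
          exact ⟨hm.1, hm.2, hI⟩
      have h6 : (((Ioo (n ^ 3) ((n + 1) ^ 3)).filter (fun m => GoodP R n m)).card : ℝ) ≤
          (TP R l (Real.log n ^ B) n : ℝ) + (((Ioo (n ^ 3) ((n + 1) ^ 3)).filter (fun m : ℕ =>
          m ∈ {m | GoodP R n m} ∧ ¬ Pool.Agent.R490.Tu.InP {m | GoodP R n m} l (Real.log n ^ B) (n ^ 3) ((n + 1) ^ 3) m)).card : ℝ) := by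
        exact_mod_cast h5
      have e3 : ((n : ℝ) ^ (3 - 1) / Real.log n ^ 2) = ((n : ℝ) ^ 2 / Real.log n ^ 2) := by norm_num
      rw [e3] at h4
      linarith
  have h7 := (card_le_card hsub).trans (card_union_le _ _)
  rw [card_range] at h7
  have h8 : (((range N).filter (fun n : ℕ => 2 ≤ n ∧ c * ((n : ℝ) ^ 2 / Real.log n ^ 2) ≤ T R n)).card : ℝ) ≤
      (n0 : ℝ) + (((range N).filter (fun n : ℕ => 2 ≤ n ∧
        c / 2 * ((n : ℝ) ^ 2 / Real.log n ^ 2) ≤ TP R l (Real.log n ^ B) n)).card : ℝ) := by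
    exact_mod_cast h7
  linarith

end Pool.Agent.T2H62.Cube
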