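import Pool.Agent.X32.Uni.Exact
import Pool.Agent.H381R2.HR.Main

/-!
Hensley-Richards windows of almost primes.
-/

set_option autoImplicit false

namespace Pool.Agent.T2H62.HRW

open Finset Filter
open Pool.Agent.X32.Uni

/-- an admissible set of natural numbers -/
def Admissible (T : Finset ℕ) : Prop := ∀ p : ℕ, p.Prime → ∃ n : ℕ, ∀ h ∈ T, ¬ p ∣ n + h

/-- `v > 1` is a product of at most `r` primes, all of them larger than `y` -/
def AlmostN (r : ℕ) (y : ℝ) (v : ℕ) : Prop :=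
  1 < v ∧ v.primeFactorsList.length ≤ r ∧ ∀ q : ℕ, q.Prime → q ∣ v → y < q

theorem almost_cast (r : ℕ) (y : ℝ) (v : ℕ) : Almost r y (v : ℤ) ↔ AlmostN r y v := by
  unfold Almost AlmostN
  rw [Nat.abs_cast, Int.natAbs_natCast]
  constructor
  · rintro ⟨h1, h2, h3⟩
    exact ⟨by exact_mod_cast h1, h2, fun q hq hd => h3 q hq (Int.natCast_dvd_natCast.2 hd)⟩
  · rintro ⟨h1, h2, h3⟩
    exact ⟨by exact_mod_cast h1, h2, fun q hq hd => h3 q hq (Int.natCast_dvd_natCast.1 hd)⟩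

open Classical in
/-- the windows -/
noncomputable def Win (y : ℕ) (T : Finset ℕ) (i j C t X A B : ℕ) : Finset ℕ :=
  (Ioc A B).filter (fun n : ℕ => (n + i).Prime ∧ AlmostN 2 ((X : ℝ) ^ (1 / 9 : ℝ)) (n + j) ∧
    (∀ h ∈ T, AlmostN t ((X : ℝ) ^ (1 / (t : ℝ))) (n + h)) ∧
    ∀ h : ℕ, 1 ≤ h → h ≤ y → h ∉ T → ∃ q : ℕ, q.Prime ∧ q ≤ C ∧ q ∣ n + h)

theorem windows (y : ℕ) (T : Finset ℕ) (hT : Admissible T) (i j : ℕ) (hi : i ∈ T) (hj : j ∈ T) (hij : i ≠ j) :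
    ∃ C t : ℕ, 1 ≤ t ∧ ∃ κ : ℝ, 0 < κ ∧ ∀ (s : ℕ) (θ δ : ℝ), 0 < θ → 0 < δ → ∃ c X₀ : ℕ, ∀ X : ℕ, X₀ ≤ X →
      ∀ A B : ℕ, B ≤ X → θ * X ≤ (B : ℝ) - A →
        κ * ((B : ℝ) - A) / Real.log X ^ T.card ≤ ((Win y T i j C t X A B).card : ℝ) ∧
        ∀ S : Finset ℕ, S ⊆ Win y T i j C t X A B → δ * ((B : ℝ) - A) / Real.log X ^ T.card ≤ S.card →
          ∃ n d : ℕ, 1 ≤ d ∧ (d : ℝ) ≤ Real.log X ^ c ∧ ∀ l < s, n + l * d ∈ S := by
  classical
  obtain ⟨e, he⟩ : ∃ e : T ≃ Fin T.card, e = T.equivFin := ⟨_, rfl⟩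
  obtain ⟨b, hb⟩ : ∃ b : Fin T.card → ℤ, b = fun l => (((e.symm l : T) : ℕ) : ℤ) := ⟨_, rfl⟩
  have hbT : ∀ l, ((e.symm l : T) : ℕ) ∈ T := fun l => (e.symm l).2
  have hbv : ∀ l, b l = (((e.symm l : T) : ℕ) : ℤ) := fun l => by rw [hb]
  have hbinj : ∀ l m, l ≠ m → b l ≠ b m := by
    intro l m hlm he'
    rw [hbv, hbv] at he'
    exact hlm (e.symm.injective (Subtype.ext (by exact_mod_cast he')))
  obtain ⟨G, hG⟩ : ∃ G : Finset (ℤ × ℤ), G = ((Icc 1 y) \ T).image (fun h : ℕ => ((1 : ℤ), (h : ℤ))) := ⟨_, rfl⟩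
  obtain ⟨C, t, ht, κ, hκ, H⟩ := exactU (fun _ => 1) b (by
      intro p hp
      obtain ⟨n, hn⟩ := hT p hp
      refine ⟨n, fun l hd => hn _ (hbT l) ?_⟩
      rw [hbv, one_mul] at hd
      exact_mod_cast hd) (fun _ => one_ne_zero)
    (by
      intro l m hlm h0
      apply hbinj l m hlm
      linarith)
    (e ⟨i, hi⟩) (e ⟨j, hj⟩) (by
      intro h
      exact hij (congrArg Subtype.val (e.injective h))) G
    (by
      intro τ hτ
      rw [hG, mem_image] at hτ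
      obtain ⟨h, _, rfl⟩ := hτ
      exact one_ne_zero)
    (by
      intro τ hτ l h0
      rw [hG, mem_image] at hτ
      obtain ⟨h, hh, rfl⟩ := hτ
      rw [Finset.mem_sdiff] at hh
      apply hh.2
      rw [hbv] at h0
      have h1 : ((h : ℕ) : ℤ) = (((e.symm l : T) : ℕ) : ℤ) := by
        simp only at h0
        linarith
      have h2 : h = ((e.symm l : T) : ℕ) := by exact_mod_cast h1
      rw [h2]
      exact hbT l)
  have hbi : b (e ⟨i, hi⟩) = (i : ℤ) := by rw [hbv, Equiv.symm_apply_apply]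
  have hbj : b (e ⟨j, hj⟩) = (j : ℤ) := by rw [hbv, Equiv.symm_apply_apply]
  have heq : ∀ X A B : ℕ, GE' (fun _ => 1) b G (e ⟨i, hi⟩) (e ⟨j, hj⟩) C t X A B = Win y T i j C t X A B := by
    intro X A B
    unfold GE' Win
    apply filter_congr
    intro n _
    rw [hbi, hbj]
    have c1 : ∀ h : ℕ, (1 : ℤ) * (n : ℤ) + (h : ℤ) = ((n + h : ℕ) : ℤ) := by
      intro h
      push_cast
      ring
    simp only [c1, hbv, almost_cast, Int.natAbs_natCast]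
    refine and_congr_right fun _ => and_congr_right fun _ => and_congr ?_ ?_
    · constructor
      · intro h1 h hh
        have h2 := h1 (e ⟨h, hh⟩)
        rwa [Equiv.symm_apply_apply] at h2
      · intro h1 l
        exact h1 _ (hbT l)
    · constructor
      · intro h1 h h2 h3 h4
        obtain ⟨q, q1, q2, q3⟩ := h1 ((1 : ℤ), (h : ℤ)) (by
          rw [hG, mem_image]
          exact ⟨h, Finset.mem_sdiff.2 ⟨mem_Icc.2 ⟨h2, h3⟩, h4⟩, rfl⟩)
        refine ⟨q, q1, q2, ?_⟩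
        simp only [c1] at q3
        exact_mod_cast q3
      · intro h1 τ hτ
        rw [hG, mem_image] at hτ
        obtain ⟨h, hh, rfl⟩ := hτ
        rw [Finset.mem_sdiff, mem_Icc] at hh
        obtain ⟨q, q1, q2, q3⟩ := h1 h hh.1.1 hh.1.2 hh.2
        refine ⟨q, q1, q2, ?_⟩
        simp only [c1]
        exact_mod_cast q3
  simp only [heq] at H
  exact ⟨C, t, ht, κ, hκ, H⟩

/-- the large admissible sets -/
theorem large (α : ℝ) (hα : α < 1 / 2) : ∃ y₀ : ℕ, ∀ y : ℕ, y₀ ≤ y → ∃ T : Finset ℕ, T ⊆ Icc 1 y ∧ Admissible T ∧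
    (Nat.primeCounting y : ℝ) + α * (y * Real.log (Real.log (Real.log y)) / Real.log y ^ 2) ≤ T.card := by
  classical
  obtain ⟨x0, h⟩ := Pool.Agent.H381R2.HR.final hα
  refine ⟨⌈x0⌉₊, fun y hy => ?_⟩
  obtain ⟨S, _, hS1, hS2, hS3⟩ := h y ((Nat.le_ceil x0).trans (by exact_mod_cast hy))
  rw [Nat.floor_natCast] at hS3
  refine ⟨S.image (fun s => s.toNat + 1), ?_, ?_, ?_⟩
  · intro m hm
    rw [mem_image] at hm
    obtain ⟨s, hs, rfl⟩ := hm
    obtain ⟨h1, h2⟩ := hS1 s hs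
    rw [mem_Icc]
    have h3 : s < (y : ℤ) := by exact_mod_cast h2
    omega
  · intro p hp
    obtain ⟨r, hr⟩ := hS2 p hp
    -- `n ≡ - r - 1`
    refine ⟨((-r - 1) % (p : ℤ)).toNat, fun m hm hd => ?_⟩
    rw [mem_image] at hm
    obtain ⟨s, hs, rfl⟩ := hm
    apply hr s hs
    have hp0 : (0 : ℤ) < p := by exact_mod_cast hp.pos
    have h1 : (((((-r - 1) % (p : ℤ)).toNat : ℕ)) : ℤ) = (-r - 1) % (p : ℤ) :=
      Int.toNat_of_nonneg (Int.emod_nonneg _ hp0.ne')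
    have h2 : ((s.toNat : ℕ) : ℤ) = s := Int.toNat_of_nonneg (hS1 s hs).1
    have h3 : (p : ℤ) ∣ (-r - 1) % (p : ℤ) + (s + 1) := by
      have h4 : ((((((-r - 1) % (p : ℤ)).toNat + (s.toNat + 1)) : ℕ)) : ℤ) = (-r - 1) % (p : ℤ) + (s + 1) := by
        push_cast
        rw [h1, h2]
      rw [← h4]
      exact_mod_cast hd
    have h5 : (-r - 1) % (p : ℤ) + (s + 1) ≡ (-r - 1) + (s + 1) [ZMOD p] := (Int.mod_modEq _ _).add_right _
    have h6 := (Int.modEq_zero_iff_dvd.1 (h5.symm.trans (Int.modEq_zero_iff_dvd.2 h3)))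
    have h7 : (-r - 1) + (s + 1) = s - r := by ring
    rwa [h7] at h6
  · rw [card_image_of_injOn]
    · exact hS3
    · intro s hs s' hs' he
      have h1 := (hS1 s hs).1
      have h2 := (hS1 s' hs').1
      simp only at he
      omega

end Pool.Agent.T2H62.HRW
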