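import Pool.Agent.T2H62.KS
import Pool.Agent.X32.Uni.Exact

/-!
Exact patterns of values of linear forms: Chen's theorem with coverings, and short intervals.
-/

set_option autoImplicit false

namespace Pool.Agent.T2H62.LG

open Finset Filter
open Polynomial (C X aeval)
open scoped Polynomial
open Pool.Agent.X32.Uni

variable {k : ℕ}

/-- the linear polynomials of a set of pairs -/
noncomputable def pT (T : Finset (ℤ × ℤ)) : Finset ℤ[X] := by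
  classical
  exact T.image (fun τ => C τ.1 * X + C τ.2)

theorem pT_ok (a b : Fin k → ℤ) (T : Finset (ℤ × ℤ))
    (hT : ∀ τ ∈ T, τ.1 ≠ 0) (hTne : ∀ τ ∈ T, ∀ l, τ.1 * b l - a l * τ.2 ≠ 0) :
    ∀ g ∈ pT T, g ≠ 0 ∧ ∃ α : ℂ, aeval α g = 0 ∧ ∀ l, aeval α (lf a b l) ≠ 0 := by
  classical
  intro g hg
  unfold pT at hg
  rw [mem_image] at hg
  obtain ⟨τ, hτ, rfl⟩ := hg
  have h1 := hT τ hτ
  have h1c : (τ.1 : ℂ) ≠ 0 := by exact_mod_cast h1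
  refine ⟨?_, -(τ.2 : ℂ) / τ.1, ?_, fun l => ?_⟩
  · intro h0
    have h2 := congrArg (fun q : ℤ[X] => q.coeff 1) h0
    rw [Polynomial.coeff_add, Polynomial.coeff_C_mul, Polynomial.coeff_X_one, Polynomial.coeff_C_succ] at h2
    simp at h2
    exact h1 h2
  · rw [map_add, map_mul, Polynomial.aeval_C, Polynomial.aeval_C, Polynomial.aeval_X]
    simp only [eq_intCast]
    field_simp
    ring
  · unfold lf
    rw [map_add, map_mul, Polynomial.aeval_C, Polynomial.aeval_C, Polynomial.aeval_X]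
    simp only [eq_intCast]
    intro h0
    apply hTne τ hτ l
    have h3 : ((τ.1 * b l - a l * τ.2 : ℤ) : ℂ) = 0 := by
      push_cast
      have h4 : (a l : ℂ) * (-(τ.2 : ℂ) / τ.1) + b l = ((τ.1 : ℂ) * b l - a l * τ.2) / τ.1 := by
        field_simp
        ring
      rw [h4, div_eq_zero_iff] at h0
      rcases h0 with h0 | h0
      · exact h0
      · exact absurd h0 h1c
    exact_mod_cast h3

open Classical in
/-- all forms almost prime, and bounded prime factors in the forms of `T` -/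
noncomputable def GT (a b : Fin k → ℤ) (T : Finset (ℤ × ℤ)) (C t X A B : ℕ) : Finset ℕ :=
  (Ioc A B).filter (fun n : ℕ => (∀ l, Almost t ((X : ℝ) ^ (1 / (t : ℝ))) (a l * (n : ℤ) + b l)) ∧
    ∀ τ ∈ T, ∃ q : ℕ, q.Prime ∧ q ≤ C ∧ (q : ℤ) ∣ τ.1 * n + τ.2)

open Classical in
/-- all forms almost prime -/
noncomputable def GA (a b : Fin k → ℤ) (t X A B : ℕ) : Finset ℕ :=
  (Ioc A B).filter (fun n : ℕ => ∀ l, Almost t ((X : ℝ) ^ (1 / (t : ℝ))) (a l * (n : ℤ) + b l))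

theorem shortG (a b : Fin k → ℤ) (hk : 0 < k) (hadm : AdmL a b) (ha : ∀ l, a l ≠ 0)
    (hdet : ∀ l m, l ≠ m → a l * b m - a m * b l ≠ 0) (T : Finset (ℤ × ℤ))
    (hT : ∀ τ ∈ T, τ.1 ≠ 0) (hTne : ∀ τ ∈ T, ∀ l, τ.1 * b l - a l * τ.2 ≠ 0) (ε : ℝ) (hε : 0 < ε) :
    ∃ C t : ℕ, 1 ≤ t ∧ ∃ κ K : ℝ, 0 < κ ∧ 0 < K ∧
      (∃ X₀ : ℕ, ∀ X : ℕ, X₀ ≤ X → ∀ A B : ℕ, B ≤ X → (X : ℝ) ^ ε ≤ (B : ℝ) - A →
          κ * ((B : ℝ) - A) / Real.log X ^ k ≤ ((GT a b T C t X A B).card : ℝ) ∧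
          ((GA a b t X A B).card : ℝ) ≤ K * ((B : ℝ) - A) / Real.log X ^ k) ∧
      ∀ (s r : ℕ) (δ : ℝ), 1 ≤ s → 0 < δ → ∃ c X₀ : ℕ, ∀ X : ℕ, X₀ ≤ X →
        ∀ A B : ℕ, B ≤ X → (X : ℝ) ^ ε ≤ (B : ℝ) - A → ∀ G' : Finset ℕ, G' ⊆ GA a b t X A B →
        ∀ χ : ℕ → Fin r, ∃ P : Finset (ℕ × ℕ),
          (∀ z ∈ P, 1 ≤ z.2 ∧ (z.2 : ℝ) ≤ Real.log X ^ c ∧
            ∀ l < s, z.1 + l * z.2 ∈ G' ∧ χ (z.1 + l * z.2) = χ z.1) ∧
          (P : Set (ℕ × ℕ)).PairwiseDisjoint (apSet s) ∧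
          (((G' \ P.biUnion (apSet s)).card : ℕ) : ℝ) ≤ δ * ((B : ℝ) - A) / Real.log X ^ k := by
  classical
  have hdeg : ∀ l, (lf a b l).natDegree = 1 := fun l => lf_deg _ _ l (ha l)
  have hsum : ∑ l, (lf a b l).natDegree = k := by
    simp only [hdeg]
    simp
  obtain ⟨C, t, ht, κ, KU, hκ, hKU, ⟨X₁, H1⟩, H2⟩ := ChX.killS2 (lf a b) hk (fun l => (hdeg l).ge) (loc_lf hadm)
    (pT T) (pT_ok a b T hT hTne) ε hε
  rw [hsum] at H1
  obtain ⟨d0, hd0⟩ : ∃ d0, k = d0 + 1 := ⟨k - 1, by omega⟩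
  obtain ⟨cV, hcV, hV⟩ := V_low d0
  have hVlow : ∀ X : ℕ, 2 ≤ X → cV / Real.log X ^ k ≤ V (lf a b) X := by
    intro X hX
    have h1 := hV k (lf a b) X hX (loc_lf hadm) (by rw [hsum, ← hd0])
    rw [← hd0] at h1
    exact h1
  obtain ⟨CV, hCV, hup⟩ := VL_up' a b hadm ha hdet
  obtain ⟨X₂, h2⟩ := eventually_atTop.1 hup
  have hGB : ∀ X A B : ℕ, GoodB (lf a b) t X A B = GA a b t X A B := by
    intro X A B
    unfold GoodB GA
    simp only [lf_eval, hdeg, mul_one]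
  have hGS : ∀ X A B : ℕ, GS (lf a b) (pT T) C t X A B = GT a b T C t X A B := by
    intro X A B
    unfold GS GT
    simp only [lf_eval, hdeg, mul_one]
    apply filter_congr
    intro n _
    refine and_congr_right fun _ => ?_
    unfold pT
    constructor
    · intro h τ hτ
      obtain ⟨q, q1, q2, q3⟩ := h _ (mem_image_of_mem _ hτ)
      refine ⟨q, q1, q2, ?_⟩
      simpa using q3
    · intro h g hg
      rw [mem_image] at hg
      obtain ⟨τ, hτ, rfl⟩ := hg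
      obtain ⟨q, q1, q2, q3⟩ := h τ hτ
      refine ⟨q, q1, q2, ?_⟩
      simpa using q3
  simp only [hGB, hGS] at H1 H2
  refine ⟨C, t, ht, κ * cV, KU * CV, by positivity, by positivity, ?_, fun s r δ hs hδ => ?_⟩
  · refine ⟨max X₁ (max X₂ 3), fun X hX A B hB hAB => ?_⟩
    have hX1 : X₁ ≤ X := (le_max_left _ _).trans hX
    have hX2 : X₂ ≤ X := (le_max_left _ _).trans ((le_max_right _ _).trans hX)
    have hX3 : 3 ≤ X := (le_max_right _ _).trans ((le_max_right _ _).trans hX)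
    have hX0 : (0 : ℝ) < X := by exact_mod_cast (by omega : 0 < X)
    have hBA : 0 < (B : ℝ) - A := lt_of_lt_of_le (Real.rpow_pos_of_pos hX0 _) hAB
    obtain ⟨h3, h4⟩ := H1 X hX1
    obtain ⟨h5, h6⟩ := h4 A B hB hAB
    constructor
    · refine le_trans ?_ h5
      have := hVlow X (by omega)
      calc κ * cV * ((B : ℝ) - A) / Real.log X ^ k = κ * ((B : ℝ) - A) * (cV / Real.log X ^ k) := by ring
        _ ≤ _ := mul_le_mul_of_nonneg_left this (by positivity)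
    · refine h6.trans ?_
      have h7 := h2 X hX2
      rw [V_lf]
      calc KU * ((B : ℝ) - A) * VL a b X ≤ KU * ((B : ℝ) - A) * (CV / Real.log X ^ k) :=
            mul_le_mul_of_nonneg_left h7 (by positivity)
        _ = _ := by ring
  · obtain ⟨c, X₃, H3⟩ := H2 s r (δ / CV) hs (by positivity)
    refine ⟨c, max X₃ (max X₂ 3), fun X hX A B hB hAB G' hG' χ => ?_⟩
    have hX1 : X₃ ≤ X := (le_max_left _ _).trans hX
    have hX2 : X₂ ≤ X := (le_max_left _ _).trans ((le_max_right _ _).trans hX)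
    have hX3 : 3 ≤ X := (le_max_right _ _).trans ((le_max_right _ _).trans hX)
    have hX0 : (0 : ℝ) < X := by exact_mod_cast (by omega : 0 < X)
    have hBA : 0 < (B : ℝ) - A := lt_of_lt_of_le (Real.rpow_pos_of_pos hX0 _) hAB
    obtain ⟨P, p1, p2, p3⟩ := H3 X hX1 A B hB hAB G' hG' χ
    refine ⟨P, p1, p2, p3.trans ?_⟩
    have h7 := h2 X hX2
    rw [V_lf]
    calc δ / CV * ((B : ℝ) - A) * VL a b X ≤ δ / CV * ((B : ℝ) - A) * (CV / Real.log X ^ k) :=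
          mul_le_mul_of_nonneg_left h7 (by positivity)
      _ = _ := by field_simp

/-- coverings of the sets of arguments with almost prime values -/
theorem coverG (a b : Fin k → ℤ) (hadm : AdmL a b) (ha : ∀ l, a l ≠ 0)
    (hdet : ∀ l m, l ≠ m → a l * b m - a m * b l ≠ 0) (t : ℕ) (ht : 1 ≤ t) (ε : ℝ) (hε : 0 < ε)
    (s r : ℕ) (δ : ℝ) (hs : 1 ≤ s) (hδ : 0 < δ) : ∃ c X₀ : ℕ, ∀ X : ℕ, X₀ ≤ X →
        ∀ A B : ℕ, B ≤ X → (X : ℝ) ^ ε ≤ (B : ℝ) - A → ∀ G' : Finset ℕ, G' ⊆ GA a b t X A B →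
        ∀ χ : ℕ → Fin r, ∃ P : Finset (ℕ × ℕ),
          (∀ z ∈ P, 1 ≤ z.2 ∧ (z.2 : ℝ) ≤ Real.log X ^ c ∧
            ∀ l < s, z.1 + l * z.2 ∈ G' ∧ χ (z.1 + l * z.2) = χ z.1) ∧
          (P : Set (ℕ × ℕ)).PairwiseDisjoint (apSet s) ∧
          (((G' \ P.biUnion (apSet s)).card : ℕ) : ℝ) ≤ δ * ((B : ℝ) - A) / Real.log X ^ k := by
  classical
  have hdeg : ∀ l, (lf a b l).natDegree = 1 := fun l => lf_deg _ _ l (ha l)
  have hsum : ∑ l, (lf a b l).natDegree = k := by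
    simp only [hdeg]
    simp
  obtain ⟨cV, hcV, hV⟩ := V_low (k - 1)
  obtain ⟨CV, hCV, hup⟩ := VL_up' a b hadm ha hdet
  obtain ⟨X₂, h2⟩ := eventually_atTop.1 hup
  obtain ⟨c, X₃, H3⟩ := ChX.cover k t ht s r hs ε (δ / CV) hε (by positivity)
  refine ⟨c, max X₃ (max X₂ 3), fun X hX A B hB hAB G' hG' χ => ?_⟩
  have hX1 : X₃ ≤ X := (le_max_left _ _).trans hX
  have hX2 : X₂ ≤ X := (le_max_left _ _).trans ((le_max_right _ _).trans hX)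
  have hX3 : 3 ≤ X := (le_max_right _ _).trans ((le_max_right _ _).trans hX)
  have hX0 : (0 : ℝ) < X := by exact_mod_cast (by omega : 0 < X)
  have hlog : 0 < Real.log X := Real.log_pos (by exact_mod_cast (by omega : 1 < X))
  have hBA : 0 < (B : ℝ) - A := lt_of_lt_of_le (Real.rpow_pos_of_pos hX0 _) hAB
  obtain ⟨P, p1, p2, p3⟩ := H3 X hX1 k (lf a b) hsum.le (loc_lf hadm) A B hB hAB G'
    (hG'.trans (filter_subset _ _)) (by
      intro x hx l q hq hd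
      have h5 := hG' hx
      unfold GA at h5
      rw [mem_filter] at h5
      rw [lf_eval] at hd
      exact (h5.2 l).2.2 q hq hd)
    (lt_of_lt_of_le (by positivity) (hV k (lf a b) X (by omega) (loc_lf hadm) (by rw [hsum]; omega))) χ
  refine ⟨P, p1, p2, p3.trans ?_⟩
  have h7 := h2 X hX2
  rw [V_lf]
  calc δ / CV * ((B : ℝ) - A) * VL a b X ≤ δ / CV * ((B : ℝ) - A) * (CV / Real.log X ^ k) :=
        mul_le_mul_of_nonneg_left h7 (by positivity)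
    _ = _ := by field_simp

theorem ev_half (θ : ℝ) (hθ : 0 < θ) : ∃ X₀ : ℕ, ∀ X : ℕ, X₀ ≤ X → (X : ℝ) ^ (1 / 2 : ℝ) ≤ θ * X := by
  have hpow : ∀ M : ℝ, ∀ a : ℝ, 0 < a → ∀ᶠ n : ℕ in atTop, M < (n : ℝ) ^ a := fun M a ha =>
    ((tendsto_rpow_atTop ha).comp tendsto_natCast_atTop_atTop).eventually (eventually_gt_atTop M)
  obtain ⟨X₄, H4⟩ := eventually_atTop.1 (hpow (1 / θ) (1 / 2) (by positivity))
  refine ⟨max X₄ 1, fun X hX => ?_⟩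
  have h6 := H4 X ((le_max_left _ _).trans hX)
  have hX0 : (0 : ℝ) < X := by exact_mod_cast (le_max_right _ _).trans hX
  have h7 : (X : ℝ) = (X : ℝ) ^ (1 / 2 : ℝ) * (X : ℝ) ^ (1 / 2 : ℝ) := by
    rw [← Real.rpow_add hX0]
    norm_num
  have h8 : 0 < (X : ℝ) ^ (1 / 2 : ℝ) := Real.rpow_pos_of_pos hX0 _
  rw [div_lt_iff₀ hθ] at h6
  calc (X : ℝ) ^ (1 / 2 : ℝ) = 1 * (X : ℝ) ^ (1 / 2 : ℝ) := (one_mul _).symm
    _ ≤ ((X : ℝ) ^ (1 / 2 : ℝ) * θ) * (X : ℝ) ^ (1 / 2 : ℝ) := by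
        apply mul_le_mul_of_nonneg_right h6.le h8.le
    _ = θ * X := by
        conv_rhs => rw [h7]
        ring

theorem chenG (a b : Fin k → ℤ) (hadm : AdmL a b) (ha : ∀ l, a l ≠ 0)
    (hdet : ∀ l m, l ≠ m → a l * b m - a m * b l ≠ 0) (i j : Fin k) (hij : i ≠ j) (T : Finset (ℤ × ℤ))
    (hT : ∀ τ ∈ T, τ.1 ≠ 0) (hTne : ∀ τ ∈ T, ∀ l, τ.1 * b l - a l * τ.2 ≠ 0) :
    ∃ C t : ℕ, 1 ≤ t ∧ ∃ κ : ℝ, 0 < κ ∧
      (∀ θ : ℝ, 0 < θ → ∃ X₀ : ℕ, ∀ X : ℕ, X₀ ≤ X → ∀ A B : ℕ, B ≤ X → θ * X ≤ (B : ℝ) - A →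
        κ * ((B : ℝ) - A) / Real.log X ^ k ≤ ((GE' a b T i j C t X A B).card : ℝ)) ∧
      ∀ (s r : ℕ) (θ δ : ℝ), 1 ≤ s → 0 < θ → 0 < δ → ∃ c X₀ : ℕ, ∀ X : ℕ, X₀ ≤ X →
        ∀ A B : ℕ, B ≤ X → θ * X ≤ (B : ℝ) - A → ∀ G' : Finset ℕ, G' ⊆ GA a b t X A B →
        ∀ χ : ℕ → Fin r, ∃ P : Finset (ℕ × ℕ),
          (∀ z ∈ P, 1 ≤ z.2 ∧ (z.2 : ℝ) ≤ Real.log X ^ c ∧
            ∀ l < s, z.1 + l * z.2 ∈ G' ∧ χ (z.1 + l * z.2) = χ z.1) ∧
          (P : Set (ℕ × ℕ)).PairwiseDisjoint (apSet s) ∧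
          (((G' \ P.biUnion (apSet s)).card : ℕ) : ℝ) ≤ δ * ((B : ℝ) - A) / Real.log X ^ k := by
  classical
  obtain ⟨C, t, ht, κ, hκ, H⟩ := exactU a b hadm ha hdet i j hij T hT hTne
  refine ⟨C, t, ht, κ, hκ, fun θ hθ => ?_, fun s r θ δ hs hθ hδ => ?_⟩
  · obtain ⟨_, X₀, H1⟩ := H 1 θ 1 hθ one_pos
    exact ⟨X₀, fun X hX A B hB hAB => (H1 X hX A B hB hAB).1⟩
  · obtain ⟨c, X₀, H1⟩ := coverG a b hadm ha hdet t ht (1 / 2) (by norm_num) s r δ hs hδ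
    obtain ⟨X₄, H4⟩ := ev_half θ hθ
    refine ⟨c, max X₀ X₄, fun X hX A B hB hAB => ?_⟩
    exact H1 X ((le_max_left _ _).trans hX) A B hB ((H4 X ((le_max_right _ _).trans hX)).trans hAB)

end Pool.Agent.T2H62.LG
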