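import Pool.Agent.T2H62.PLaw2

/-!
The Poisson law after primes for exact patterns: the law.
-/

set_option autoImplicit false

namespace Pool.Agent.T2H62.PL

open Finset Filter
open scoped Polynomial
open Pool.Agent.R490.LZ (Ro De Wr Pr Nx)
open Pool.Agent.R490.Sg (D1)

variable {L K : Finset (ℤ × ℤ)}

open Classical in
/-- the primes in `(u, u + Y]` with the pattern -/
noncomputable def PrE (L K : Finset (ℤ × ℤ)) (y u Y : ℕ) : Finset ℕ :=
  (Ioc u (u + Y)).filter (fun n => n.Prime ∧ Pat L K y n)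

open Classical in
/-- the number of the integers in `(n, n + T]` with the pattern -/
noncomputable def NxE (L K : Finset (ℤ × ℤ)) (y T n : ℕ) : ℕ := ((Ioc n (n + T)).filter (fun m => Pat L K y m)).card

/-- the Poisson probability of a finite set -/
noncomputable def Po (x : ℝ) (J : Finset ℕ) : ℝ := ∑ j ∈ J, Real.exp (-x) * x ^ j / j.factorial

open Classical in
/-- the combinatorial step: few elements have a window which meets a sparse set -/
theorem window_few (R : ℕ → Prop) (P B : Finset ℕ) (T l : ℕ) (hP : ∀ n ∈ P, R n) (hB : ∀ m ∈ B, R m)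
    (hl : ∀ n ∈ P, ((Ioc n (n + T)).filter R).card < l) (hw : ∀ n ∈ P, ∃ m ∈ B, n < m ∧ m ≤ n + T) :
    P.card ≤ l * B.card := by
  choose g hg1 hg2 hg3 using hw
  -- every `m` is the value of fewer than `l` elements
  have key : ∀ m ∈ B, ((P.attach).filter (fun n => g n.1 n.2 = m)).card ≤ l := by
    intro m hm
    by_contra hcon
    push Not at hcon
    obtain ⟨F, hF⟩ : ∃ F : Finset ℕ, F = ((P.attach).filter (fun n => g n.1 n.2 = m)).image (fun n => n.1) := ⟨_, rfl⟩
    have hFc : l < F.card := by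
      rw [hF, card_image_of_injective _ Subtype.val_injective]
      exact hcon
    have hFm : ∀ n ∈ F, n ∈ P ∧ n < m ∧ m ≤ n + T := by
      intro n hn
      rw [hF, mem_image] at hn
      obtain ⟨n', hn', rfl⟩ := hn
      rw [mem_filter] at hn'
      refine ⟨n'.2, ?_, ?_⟩
      · rw [← hn'.2]
        exact hg2 n'.1 n'.2
      · rw [← hn'.2]
        exact hg3 n'.1 n'.2
    have hne : F.Nonempty := card_pos.1 (by omega)
    obtain ⟨n0, hn0, hmin⟩ := F.exists_min_image id hne
    simp only [id] at hmin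
    obtain ⟨a1, a2, a3⟩ := hFm n0 hn0
    have hsub : F.erase n0 ⊆ (Ioc n0 (n0 + T)).filter R := by
      intro n hn
      rw [mem_erase] at hn
      obtain ⟨b1, b2, b3⟩ := hFm n hn.2
      have h4 := hmin n hn.2
      rw [mem_filter, mem_Ioc]
      refine ⟨⟨lt_of_le_of_ne h4 (Ne.symm hn.1), by omega⟩, hP n b1⟩
    have h5 := card_le_card hsub
    rw [card_erase_of_mem hn0] at h5
    have h6 := hl n0 a1
    omega
  have h1 : P.card = ∑ m ∈ B, ((P.attach).filter (fun n => g n.1 n.2 = m)).card := by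
    rw [← card_attach]
    exact card_eq_sum_card_fiberwise (f := fun n : {x // x ∈ P} => g n.1 n.2) (t := B)
      (fun n _ => hg1 n.1 n.2)
  rw [h1]
  calc ∑ m ∈ B, ((P.attach).filter (fun n => g n.1 n.2 = m)).card ≤ ∑ _m ∈ B, l := sum_le_sum key
    _ = l * B.card := by rw [sum_const, smul_eq_mul, mul_comm]

theorem law (hL : Adm L) (h10 : ((1 : ℤ), (0 : ℤ)) ∈ L) (hk : 2 ≤ L.card)
    (hK1 : ∀ κ ∈ K, 1 ≤ κ.1) (hK : ∀ κ ∈ K, ∀ l ∈ L, κ.1 * l.2 ≠ l.1 * κ.2)
    (δ x0 ε : ℝ) (hδ : 0 < δ) (hδ1 : δ ≤ 1) (hx0 : 0 ≤ x0) (hε : 0 < ε) (hε1 : ε ≤ 1) :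
    ∃ r0 : ℕ, 2 ≤ r0 ∧ ∀ r : ℕ, r0 ≤ r → ∀ᶠ X : ℕ in atTop, ∀ y : ℕ, y = ⌊(X : ℝ) ^ (1 / (r : ℝ))⌋₊ →
      0 < Wr L y ∧ ∀ u Y : ℕ, δ * X ≤ Y → u + Y ≤ X →
      |((PrE L K y u Y).card : ℝ) * Real.log X - Y * Wr L y| ≤ ε * (Y * Wr L y) ∧
      ∀ T : ℕ, T * De L y ≤ x0 → ∀ J : Finset ℕ,
      |(((PrE L K y u Y).filter (fun n => NxE L K y T n ∈ J)).card : ℝ) - (PrE L K y u Y).card * Po (T * De L y) J| ≤
        ε * (PrE L K y u Y).card := by
  classical
  obtain ⟨e, he⟩ : ∃ e : ℝ, e = ε / 16 := ⟨_, rfl⟩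
  have he0 : 0 < e := by rw [he]; positivity
  have he1 : e ≤ 1 / 16 := by rw [he]; linarith
  obtain ⟨r0, hr0, H⟩ := Pool.Agent.R490.LZ.primeL 1 L.card 1 squarefree_one hk 1 1 δ one_pos one_pos hδ hδ1 x0 e he0
    (by linarith)
  obtain ⟨N₀, hN₀⟩ := good_of hL.one hL.adm
  obtain ⟨l, hl⟩ := exists_nat_gt (x0 / e)
  obtain ⟨cD, hcD, hDlow⟩ := De_low (by omega) hL.one hL.adm
  refine ⟨r0, hr0, fun r hr => ?_⟩
  have hr2 : 2 ≤ r := hr0.trans hr
  have hrr : (0 : ℝ) < r := by exact_mod_cast (by omega : 0 < r)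
  obtain ⟨C, hC, hB⟩ := extraK hL.one hK1 hK r hr2
  have hpow : ∀ M : ℝ, ∀ a : ℝ, 0 < a → ∀ᶠ n : ℕ in atTop, M < (n : ℝ) ^ a := fun M a ha =>
    ((tendsto_rpow_atTop ha).comp tendsto_natCast_atTop_atTop).eventually (eventually_gt_atTop M)
  have hyt : Tendsto (fun X : ℕ => ⌊(X : ℝ) ^ (1 / (r : ℝ))⌋₊) atTop atTop :=
    tendsto_nat_floor_atTop.comp ((tendsto_rpow_atTop (by positivity)).comp tendsto_natCast_atTop_atTop)
  have hlogt : Tendsto (fun X : ℕ => Real.log (X : ℝ)) atTop atTop :=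
    Real.tendsto_log_atTop.comp tendsto_natCast_atTop_atTop
  obtain ⟨k, hkk⟩ : ∃ k : ℕ, L.card = k + 1 := ⟨L.card - 1, by omega⟩
  have hTsmall : ∀ᶠ X : ℕ in atTop, x0 / cD * Real.log X ^ L.card ≤ X := by
    have h3 := (Real.isLittleO_pow_log_id_atTop (n := L.card)).comp_tendsto tendsto_natCast_atTop_atTop
    have h4 := h3.bound (show (0 : ℝ) < 1 / (x0 / cD + 1) by positivity)
    filter_upwards [h4, eventually_ge_atTop 1] with X hX hX1
    simp only [Function.comp, id, Real.norm_eq_abs, Nat.abs_cast] at hX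
    have h5 : 0 ≤ Real.log X := Real.log_nonneg (by exact_mod_cast hX1)
    rw [abs_of_nonneg (by positivity)] at hX
    have h6 : x0 / cD ≤ x0 / cD + 1 := by linarith
    calc x0 / cD * Real.log X ^ L.card ≤ (x0 / cD + 1) * Real.log X ^ L.card := by gcongr
      _ ≤ (x0 / cD + 1) * (1 / (x0 / cD + 1) * X) := by gcongr
      _ = X := by field_simp
  filter_upwards [H r hr, hB, hyt.eventually D1_up, eventually_ge_atTop N₀, eventually_ge_atTop 3,
    hyt.eventually (eventually_ge_atTop 3), hTsmall,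
    hlogt.eventually (eventually_ge_atTop ((l + 1) * (4 * C * r / (δ * cD)) / e))] with
    X h1 h2 h3 h4 h5 h6 h7 h8 y hy
  rw [← hy] at h3 h6
  have hX0 : (0 : ℝ) < X := by exact_mod_cast (by omega : 0 < X)
  have hX1 : (1 : ℝ) ≤ X := by exact_mod_cast (by omega : 1 ≤ X)
  have hlX : 0 < Real.log X := Real.log_pos (by exact_mod_cast (by omega : 1 < X))
  have hly : 0 < Real.log y := Real.log_pos (by exact_mod_cast (by omega : 1 < y))
  have hyX : (y : ℝ) ≤ (X : ℝ) ^ (1 / (r : ℝ)) := by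
    rw [hy]
    exact Nat.floor_le (by positivity)
  have hlyX : Real.log y ≤ Real.log X := by
    have h9 : (y : ℝ) ≤ X := hyX.trans (by
      calc (X : ℝ) ^ (1 / (r : ℝ)) ≤ (X : ℝ) ^ (1 : ℝ) := by
            apply Real.rpow_le_rpow_of_exponent_le hX1
            rw [div_le_one hrr]
            exact_mod_cast (by omega : 1 ≤ r)
        _ = X := Real.rpow_one _)
    exact Real.log_le_log (by positivity) h9
  -- `log X ≤ 2 r log y`
  have hlogy : Real.log X ≤ 2 * r * Real.log y := by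
    have h9 : (X : ℝ) ^ (1 / (r : ℝ)) ≤ (y : ℝ) ^ (2 : ℝ) := by
      have h10 : (X : ℝ) ^ (1 / (r : ℝ)) < (y : ℝ) + 1 := by
        rw [hy]
        exact Nat.lt_floor_add_one _
      have h11 : (3 : ℝ) ≤ y := by exact_mod_cast h6
      rw [Real.rpow_two]
      nlinarith
    have h10 := Real.log_le_log (by positivity) h9
    rw [Real.log_rpow hX0, Real.log_rpow (by positivity)] at h10
    rw [div_mul_eq_mul_div, one_mul, div_le_iff₀ hrr] at h10
    linarith
  have hG := hN₀ X h4
  have hG1 : Pool.Agent.R490.LZ.Good (X ^ 1) L := by rw [pow_one]; exact hG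
  obtain ⟨hW, h9⟩ := h1 L 0 rfl (by simpa using h10) (by simpa using (Real.rpow_nonneg (Nat.cast_nonneg X) _))
    (fun p hp hd => absurd (Nat.dvd_one.1 hd) hp.one_lt.ne')
    hG1 (fun l hl l' hl' t ht _ h => hL.nt l hl l' hl' t ht h) y hy
  refine ⟨hW, fun u Y hY huY => ?_⟩
  obtain ⟨h11, h12⟩ := h9 X (by rw [Real.rpow_one]) u Y hY huY
  have hY0 : 0 < (Y : ℝ) := lt_of_lt_of_le (by positivity) hY
  have hDpos : 0 < De L y := lt_of_lt_of_le (by positivity) (hDlow y (by omega))
  -- the two sets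
  obtain ⟨P0, hP0⟩ : ∃ P0 : Finset ℕ, P0 = Pr 1 0 L y u Y := ⟨_, rfl⟩
  rw [← hP0] at h11 h12
  have hP0m : ∀ n, n ∈ P0 ↔ (u < n ∧ n ≤ u + Y) ∧ n.Prime ∧ Ro L y n := by
    intro n
    rw [hP0]
    unfold Pr
    rw [mem_filter, mem_Ioc, one_mul, add_zero]
  obtain ⟨PE, hPE⟩ : ∃ PE : Finset ℕ, PE = PrE L K y u Y := ⟨_, rfl⟩
  rw [← hPE]
  have hPEm : ∀ n, n ∈ PE ↔ (u < n ∧ n ≤ u + Y) ∧ n.Prime ∧ Pat L K y n := by
    intro n
    rw [hPE]
    unfold PrE
    rw [mem_filter, mem_Ioc]
  obtain ⟨B, hBd⟩ : ∃ B : Finset ℕ, B = (Ioc 0 (2 * X)).filter (fun m => Ro L y m ∧ ∃ κ ∈ K,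
    (κ.1 * (m : ℤ) + κ.2).natAbs.Prime) := ⟨_, rfl⟩
  have hBc := h2 y hy
  rw [← hBd] at hBc
  have hPEsub : PE ⊆ P0 := by
    intro n hn
    rw [hPEm] at hn
    rw [hP0m]
    exact ⟨hn.1, hn.2.1, hn.2.2.1⟩
  have hPat : ∀ m : ℕ, 0 < m → m ≤ 2 * X → Ro L y m → m ∉ B → Pat L K y m := by
    intro m m0 m1 m2 m3
    refine ⟨m2, fun κ hκ hp => m3 ?_⟩
    rw [hBd, mem_filter, mem_Ioc]
    exact ⟨⟨m0, m1⟩, m2, κ, hκ, hp⟩
  have hdiff : P0 \ PE ⊆ B := by
    intro n hn
    rw [Finset.mem_sdiff, hP0m, hPEm] at hn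
    by_contra hcon
    exact hn.2 ⟨hn.1.1, hn.1.2.1, hPat n (by omega) (by omega) hn.1.2.2 hcon⟩
  have hcard1 : (P0.card : ℝ) ≤ PE.card + B.card := by
    have h13 := card_le_card hdiff
    have h14 := card_sdiff_add_card_eq_card hPEsub
    exact_mod_cast (by omega : P0.card ≤ PE.card + B.card)
  have hcard2 : (PE.card : ℝ) ≤ P0.card := by exact_mod_cast card_le_card hPEsub
  -- `B` is small
  have hWlow : cD / Real.log X ^ k ≤ Wr L y := by
    rw [← Pool.Agent.R490.LZ.W_eq]
    have h13 := hDlow y (by omega)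
    rw [hkk] at h13
    have hD1pos : 0 < D1 y := Pool.Agent.Y879.PR.Vz_pos y |> fun h => by rwa [Pool.Agent.R490.Sg.Vz_D1] at h
    rw [le_div_iff₀ hD1pos]
    calc cD / Real.log X ^ k * D1 y ≤ cD / Real.log y ^ k * (1 / Real.log y) := by
          gcongr
      _ = cD / Real.log y ^ (k + 1) := by
          rw [pow_succ]
          field_simp
      _ ≤ De L y := h13
  have hYW : 0 < Y * Wr L y := by positivity
  have hP0low : (1 - e) * (Y * Wr L y) ≤ P0.card * Real.log X := by
    have := (abs_le.1 h11).1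
    linarith
  have hP0up : P0.card * Real.log X ≤ (1 + e) * (Y * Wr L y) := by
    have := (abs_le.1 h11).2
    linarith
  have hBsmall : ((l : ℝ) + 1) * B.card ≤ e * P0.card := by
    -- `B.card ≤ C X / log ^ (k + 2)`, `P0.card ≥ (δ cD / 2) X / log ^ (k + 1)`
    have hP0' : δ * cD / 2 * (X / Real.log X ^ (k + 1)) ≤ P0.card := by
      have h13 : (1 / 2) * (δ * X * (cD / Real.log X ^ k)) ≤ P0.card * Real.log X := by
        refine le_trans ?_ hP0low
        apply mul_le_mul (by linarith) _ (by positivity) (by linarith)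
        exact mul_le_mul hY hWlow (by positivity) hY0.le
      have h14 : δ * cD / 2 * (X / Real.log X ^ (k + 1)) =
          (1 / 2) * (δ * X * (cD / Real.log X ^ k)) / Real.log X := by
        rw [pow_succ]
        field_simp
      rw [h14, div_le_iff₀ hlX]
      exact h13
    have hBc' : (B.card : ℝ) ≤ C * (X / Real.log X ^ (k + 1)) / Real.log X := by
      refine hBc.trans (le_of_eq ?_)
      rw [hkk, pow_succ]
      field_simp
    have h15 : ((l : ℝ) + 1) * (4 * C * r / (δ * cD)) ≤ e * Real.log X := by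
      rw [div_le_iff₀ he0] at h8
      linarith
    have h16 : 0 < (X : ℝ) / Real.log X ^ (k + 1) := by positivity
    have h17 : ((l : ℝ) + 1) * C ≤ e * Real.log X * (δ * cD / 2) := by
      have h18 : ((l : ℝ) + 1) * (4 * C * r / (δ * cD)) = ((l : ℝ) + 1) * C * (4 * r / (δ * cD)) := by ring
      rw [h18] at h15
      have h19 : ((l : ℝ) + 1) * C * (4 * r / (δ * cD)) * (δ * cD / 2) ≤ e * Real.log X * (δ * cD / 2) :=
        mul_le_mul_of_nonneg_right h15 (by positivity)
      have h20 : ((l : ℝ) + 1) * C * (4 * r / (δ * cD)) * (δ * cD / 2) = ((l : ℝ) + 1) * C * (2 * r) := by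
        field_simp
        ring
      rw [h20] at h19
      have h21 : (1 : ℝ) ≤ 2 * r := by
        have : (1 : ℝ) ≤ r := by exact_mod_cast (by omega : 1 ≤ r)
        linarith
      have h22 : ((l : ℝ) + 1) * C * 1 ≤ ((l : ℝ) + 1) * C * (2 * r) :=
        mul_le_mul_of_nonneg_left h21 (by positivity)
      linarith
    calc ((l : ℝ) + 1) * B.card ≤ ((l : ℝ) + 1) * (C * (X / Real.log X ^ (k + 1)) / Real.log X) := by gcongr
      _ = (((l : ℝ) + 1) * C) * (X / Real.log X ^ (k + 1)) / Real.log X := by ring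
      _ ≤ (e * Real.log X * (δ * cD / 2)) * (X / Real.log X ^ (k + 1)) / Real.log X := by gcongr
      _ = e * (δ * cD / 2 * (X / Real.log X ^ (k + 1))) := by field_simp
      _ ≤ e * P0.card := by gcongr
  have hl0 : (0 : ℝ) ≤ l := Nat.cast_nonneg l
  have hB0 : (0 : ℝ) ≤ B.card := Nat.cast_nonneg _
  have hB1 : (B.card : ℝ) ≤ e * P0.card := by
    have : (B.card : ℝ) ≤ ((l : ℝ) + 1) * B.card := by nlinarith
    linarith
  have hP00 : (0 : ℝ) ≤ P0.card := Nat.cast_nonneg _
  constructor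
  · rw [abs_le]
    constructor
    · have h13 : ((P0.card : ℝ) - e * P0.card) * Real.log X ≤ PE.card * Real.log X := by
        apply mul_le_mul_of_nonneg_right _ hlX.le
        linarith
      have h14 : (1 - e) * ((1 - e) * (Y * Wr L y)) ≤ (1 - e) * (P0.card * Real.log X) :=
        mul_le_mul_of_nonneg_left hP0low (by linarith)
      have h15 : (1 - ε) * (Y * Wr L y) ≤ (1 - e) * ((1 - e) * (Y * Wr L y)) := by
        have h16 : 1 - ε ≤ (1 - e) * (1 - e) := by
          have : ε = 16 * e := by rw [he]; ring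
          rw [this]
          nlinarith
        calc (1 - ε) * (Y * Wr L y) ≤ ((1 - e) * (1 - e)) * (Y * Wr L y) :=
              mul_le_mul_of_nonneg_right h16 hYW.le
          _ = (1 - e) * ((1 - e) * (Y * Wr L y)) := by ring
      linarith
    · have h13 : (PE.card : ℝ) * Real.log X ≤ P0.card * Real.log X := mul_le_mul_of_nonneg_right hcard2 hlX.le
      have h14 : e * (Y * Wr L y) ≤ ε * (Y * Wr L y) := by
        apply mul_le_mul_of_nonneg_right _ hYW.le
        rw [he]
        linarith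
      linarith
  · intro T hT J
    have hx : 0 ≤ T * De L y := by positivity
    have hl1 : 1 ≤ l := by
      have h13 : (0 : ℝ) ≤ x0 / e := by positivity
      have h14 : (0 : ℝ) < l := lt_of_le_of_lt h13 hl
      exact_mod_cast h14
    have hl' : (0 : ℝ) < l := by exact_mod_cast hl1
    -- `T ≤ X`
    have hTX : T ≤ X := by
      have h13 := hDlow y (by omega)
      have h14 : (T : ℝ) * (cD / Real.log X ^ L.card) ≤ x0 := by
        refine le_trans ?_ hT
        apply mul_le_mul_of_nonneg_left _ (Nat.cast_nonneg T)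
        refine le_trans ?_ h13
        gcongr
      have h15 : (T : ℝ) ≤ x0 / cD * Real.log X ^ L.card := by
        rw [mul_div_assoc', div_le_iff₀ (by positivity)] at h14
        rw [div_mul_eq_mul_div, le_div_iff₀ hcD]
        exact h14
      exact_mod_cast h15.trans h7
    -- the exceptional elements
    obtain ⟨E1, hE1⟩ : ∃ E1 : Finset ℕ, E1 = P0.filter (fun n => Nx L y T n ∉ range l) := ⟨_, rfl⟩
    obtain ⟨E2, hE2⟩ : ∃ E2 : Finset ℕ, E2 = P0.filter (fun n => Nx L y T n ∈ range l ∧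
      ∃ m ∈ B, n < m ∧ m ≤ n + T) := ⟨_, rfl⟩
    have hE1c : (E1.card : ℝ) ≤ 2 * e * P0.card := by
      have h13 := (abs_le.1 (h12 T hT (range l))).1
      have h14 : (P0.filter (fun n => Nx L y T n ∈ range l)).card + E1.card = P0.card := by
        rw [hE1]
        exact card_filter_add_card_filter_not (s := P0) (fun n => Nx L y T n ∈ range l)
      have h15 : ((P0.filter (fun n => Nx L y T n ∈ range l)).card : ℝ) + E1.card = P0.card := by exact_mod_cast h14
      have h16 := pois_ge (T * De L y) hx l hl1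
      have h17 : T * De L y / l ≤ e := by
        rw [div_le_iff₀ hl']
        rw [div_lt_iff₀ he0] at hl
        linarith
      have h18 : (1 - e) * (P0.card : ℝ) ≤ (P0.card : ℝ) *
          ∑ j ∈ range l, Real.exp (-(T * De L y)) * (T * De L y) ^ j / j.factorial := by
        rw [mul_comm (1 - e)]
        apply mul_le_mul_of_nonneg_left _ hP00
        linarith
      linarith
    have hE2c : (E2.card : ℝ) ≤ l * B.card := by
      have h13 := window_few (fun n => Ro L y n) E2 B T l (by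
          intro n hn
          rw [hE2, mem_filter, hP0m] at hn
          exact hn.1.2.2) (by
          intro m hm
          rw [hBd, mem_filter] at hm
          exact hm.2.1) (by
          intro n hn
          rw [hE2, mem_filter, mem_range] at hn
          exact hn.2.1) (by
          intro n hn
          rw [hE2, mem_filter] at hn
          exact hn.2.2)
      exact_mod_cast h13
    -- outside of the exceptional elements the counts agree
    have hagree : ∀ n ∈ P0, n ∉ B → n ∉ E1 → n ∉ E2 → n ∈ PE ∧ NxE L K y T n = Nx L y T n := by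
      intro n hn n1 n2 n3
      have hnn := (hP0m n).1 hn
      refine ⟨(hPEm n).2 ⟨hnn.1, hnn.2.1, hPat n (by omega) (by omega) hnn.2.2 n1⟩, ?_⟩
      have hin : Nx L y T n ∈ range l := by
        by_contra hcon
        exact n2 (by rw [hE1, mem_filter]; exact ⟨hn, hcon⟩)
      have hno : ∀ m ∈ B, ¬ (n < m ∧ m ≤ n + T) := by
        intro m hm hmm
        exact n3 (by rw [hE2, mem_filter]; exact ⟨hn, hin, m, hm, hmm⟩)
      unfold NxE Nx
      congr 1
      apply filter_congr
      intro m hm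
      rw [mem_Ioc] at hm
      constructor
      · intro h13
        exact h13.1
      · intro h13
        exact hPat m (by omega) (by omega) h13 (fun hmB => hno m hmB hm)
    obtain ⟨A1, hA1⟩ : ∃ A1 : Finset ℕ, A1 = PE.filter (fun n => NxE L K y T n ∈ J) := ⟨_, rfl⟩
    obtain ⟨A0, hA0⟩ : ∃ A0 : Finset ℕ, A0 = P0.filter (fun n => Nx L y T n ∈ J) := ⟨_, rfl⟩
    rw [← hA1]
    have hsub1 : A1 ⊆ A0 ∪ (B ∪ (E1 ∪ E2)) := by
      intro n hn
      rw [hA1, mem_filter] at hn
      rw [mem_union, mem_union, mem_union]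
      by_cases n1 : n ∈ B
      · exact Or.inr (Or.inl n1)
      by_cases n2 : n ∈ E1
      · exact Or.inr (Or.inr (Or.inl n2))
      by_cases n3 : n ∈ E2
      · exact Or.inr (Or.inr (Or.inr n3))
      left
      rw [hA0, mem_filter]
      have hn0 := hPEsub hn.1
      refine ⟨hn0, ?_⟩
      rw [← (hagree n hn0 n1 n2 n3).2]
      exact hn.2
    have hsub2 : A0 ⊆ A1 ∪ (B ∪ (E1 ∪ E2)) := by
      intro n hn
      rw [hA0, mem_filter] at hn
      rw [mem_union, mem_union, mem_union]
      by_cases n1 : n ∈ B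
      · exact Or.inr (Or.inl n1)
      by_cases n2 : n ∈ E1
      · exact Or.inr (Or.inr (Or.inl n2))
      by_cases n3 : n ∈ E2
      · exact Or.inr (Or.inr (Or.inr n3))
      left
      rw [hA1, mem_filter]
      have h13 := hagree n hn.1 n1 n2 n3
      refine ⟨h13.1, ?_⟩
      rw [h13.2]
      exact hn.2
    have hexc : (((B ∪ (E1 ∪ E2)).card : ℕ) : ℝ) ≤ 3 * e * P0.card := by
      have h13 : (B ∪ (E1 ∪ E2)).card ≤ B.card + (E1.card + E2.card) :=
        (card_union_le _ _).trans (Nat.add_le_add_left (card_union_le _ _) _)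
      have h14 : (((B ∪ (E1 ∪ E2)).card : ℕ) : ℝ) ≤ B.card + (E1.card + E2.card) := by exact_mod_cast h13
      have h15 : (B.card : ℝ) + l * B.card ≤ e * P0.card := by linarith
      linarith
    have hA10 : |(A1.card : ℝ) - A0.card| ≤ 3 * e * P0.card := by
      have h13 : (A1.card : ℝ) ≤ A0.card + ((B ∪ (E1 ∪ E2)).card : ℕ) := by
        exact_mod_cast (card_le_card hsub1).trans (card_union_le _ _)
      have h14 : (A0.card : ℝ) ≤ A1.card + ((B ∪ (E1 ∪ E2)).card : ℕ) := by
        exact_mod_cast (card_le_card hsub2).trans (card_union_le _ _)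
      rw [abs_le]
      constructor <;> linarith
    have h13 := h12 T hT J
    rw [← hA0] at h13
    have hpo : ∑ j ∈ J, Real.exp (-(T * De L y)) * (T * De L y) ^ j / j.factorial = Po (T * De L y) J := rfl
    rw [hpo] at h13
    have hpo0 : 0 ≤ Po (T * De L y) J := pois_nonneg _ hx J
    have hpo1 : Po (T * De L y) J ≤ 1 := pois_le_one _ hx J
    have h14 : |((P0.card : ℝ) - PE.card) * Po (T * De L y) J| ≤ e * P0.card := by
      rw [abs_mul, abs_of_nonneg hpo0, abs_of_nonneg (by linarith)]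
      calc ((P0.card : ℝ) - PE.card) * Po (T * De L y) J ≤ ((P0.card : ℝ) - PE.card) * 1 := by
            apply mul_le_mul_of_nonneg_left hpo1 (by linarith)
        _ ≤ e * P0.card := by linarith
    have h15 : (A1.card : ℝ) - PE.card * Po (T * De L y) J = ((A1.card : ℝ) - A0.card) +
        ((A0.card : ℝ) - P0.card * Po (T * De L y) J) + ((P0.card : ℝ) - PE.card) * Po (T * De L y) J := by ring
    rw [h15]
    refine (abs_add_three _ _ _).trans ?_
    have h16 : (P0.card : ℝ) ≤ 2 * PE.card := by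
      have : e * P0.card ≤ 1 / 16 * P0.card := mul_le_mul_of_nonneg_right he1 hP00
      linarith
    have h17 : 5 * e * P0.card ≤ ε * PE.card := by
      have h18 : ε = 16 * e := by rw [he]; ring
      rw [h18]
      have h19 : (0 : ℝ) ≤ e * PE.card := mul_nonneg he0.le (Nat.cast_nonneg _)
      have h20 : e * P0.card ≤ e * (2 * PE.card) := mul_le_mul_of_nonneg_left h16 he0.le
      linarith
    linarith

end Pool.Agent.T2H62.PL
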