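import Pool.Agent.T2H62.LinG
import Pool.Agent.T2H62.PLaw3
import Pool.Agent.T2H62.ChP

/-!
Exact patterns in the orbits of `S x = 4 x + 1`.
-/

set_option autoImplicit false

namespace Pool.Agent.T2H62.O4

open Finset Filter
open Pool.Agent.X32.Uni

/-- `1 + 4 + ... + 4 ^ (h - 1)` -/
def be (h : ℕ) : ℕ := ∑ i ∈ range h, 4 ^ i

theorem be3 (h : ℕ) : 3 * be h + 1 = 4 ^ h := by
  unfold be
  induction h with
  | zero => simp
  | succ h ih => rw [sum_range_succ, pow_succ, mul_add]; omega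

theorem be_succ (h : ℕ) : be (h + 1) = 4 * be h + 1 := by
  have h1 := be3 h
  have h2 := be3 (h + 1)
  rw [pow_succ] at h2
  omega

theorem S_it {S : ℕ → ℕ} (hS : ∀ x, S x = 4 * x + 1) (h n : ℕ) : S^[h] n = 4 ^ h * n + be h := by
  induction h with
  | zero => simp [be]
  | succ h ih =>
    rw [Function.iterate_succ_apply', ih, hS, be_succ, pow_succ]
    ring

/-- the form of the `h`-th iterate -/
def fo (h : ℕ) : ℤ × ℤ := (4 ^ h, be h)

theorem fo_ev {S : ℕ → ℕ} (hS : ∀ x, S x = 4 * x + 1) (h n : ℕ) :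
    (fo h).1 * (n : ℤ) + (fo h).2 = ((S^[h] n : ℕ) : ℤ) := by
  rw [S_it hS]
  unfold fo
  push_cast
  ring

theorem np {h h' : ℕ} (hne : h ≠ h') : (4 : ℤ) ^ h * be h' - 4 ^ h' * be h ≠ 0 := by
  intro h0
  have h1 : (3 : ℤ) * be h + 1 = 4 ^ h := by exact_mod_cast be3 h
  have h2 : (3 : ℤ) * be h' + 1 = 4 ^ h' := by exact_mod_cast be3 h'
  have h3 : (4 : ℤ) ^ h = 4 ^ h' := by
    rw [← h1, ← h2] at h0 ⊢
    nlinarith
  exact hne (Nat.pow_right_injective (a := 4) (by norm_num) (by exact_mod_cast h3))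

/-- the local condition -/
def Loc3 (J : Finset ℕ) : Prop := ∃ r : ℕ, ∀ h ∈ J, ¬ 3 ∣ h + r

theorem four_pow_mod (h : ℕ) : ∃ z : ℤ, (4 : ℤ) ^ h = 3 * z + 1 := ⟨be h, by exact_mod_cast (be3 h).symm⟩

theorem be_mod3 (h : ℕ) : ∃ z : ℤ, (be h : ℤ) = 3 * z + h := by
  induction h with
  | zero => exact ⟨0, by simp [be]⟩
  | succ h ih =>
    obtain ⟨z, hz⟩ := ih
    refine ⟨4 * z + h, ?_⟩
    rw [be_succ]
    push_cast
    rw [hz]
    ring

theorem adm_exists {J : Finset ℕ} (hJ : Loc3 J) (p : ℕ) (hp : p.Prime) :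
    ∃ n : ℕ, ∀ h ∈ J, ¬ (p : ℤ) ∣ 4 ^ h * (n : ℤ) + be h := by
  by_cases h3 : p = 3
  · subst h3
    obtain ⟨r, hr⟩ := hJ
    refine ⟨r, fun h hh hd => hr h hh ?_⟩
    obtain ⟨z, hz⟩ := four_pow_mod h
    obtain ⟨w, hw⟩ := be_mod3 h
    rw [hz, hw] at hd
    have h4 : (3 : ℤ) ∣ ((h + r : ℕ) : ℤ) := by
      push_cast
      have h5 : ((3 : ℤ) * z + 1) * r + (3 * w + h) = 3 * (z * r + w) + (h + r) := by ring
      push_cast at hd
      rw [h5] at hd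
      exact (Int.dvd_add_right (Dvd.intro _ rfl)).1 hd
    exact_mod_cast h4
  · have hc : Nat.Coprime 3 p := (Nat.coprime_primes Nat.prime_three hp).2 (fun h => h3 h.symm)
    obtain ⟨n, hn⟩ : ∃ n : ℕ, 3 * n + 1 ≡ 0 [MOD p] := by
      obtain ⟨m, hm⟩ := Nat.exists_mul_mod_eq_one_of_coprime hc hp.one_lt
      refine ⟨m * (p - 1), ?_⟩
      have h5 : 3 * m ≡ 1 [MOD p] := by
        unfold Nat.ModEq
        rw [hm.2, Nat.mod_eq_of_lt hp.one_lt]
      have h6 : 3 * (m * (p - 1)) + 1 ≡ 1 * (p - 1) + 1 [MOD p] := by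
        have := (h5.mul_right (p - 1)).add_right 1
        rwa [mul_assoc] at this
      refine h6.trans ?_
      have h7 : 1 * (p - 1) + 1 = p := by
        have := hp.one_lt
        omega
      rw [h7]
      exact (Nat.modEq_zero_iff_dvd.2 dvd_rfl)
    refine ⟨n, fun h hh hd => ?_⟩
    have h5 : (p : ℤ) ∣ 3 * n + 1 := by
      have := Nat.modEq_zero_iff_dvd.1 hn
      exact_mod_cast this
    have h6 : (3 : ℤ) * be h + 1 = 4 ^ h := by exact_mod_cast be3 h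
    have h7 : (p : ℤ) ∣ 1 := by
      have h8 : (1 : ℤ) = 4 ^ h * (3 * n + 1) - 3 * (4 ^ h * (n : ℤ) + be h) := by
        linear_combination h6
      rw [h8]
      exact dvd_sub (h5.mul_left _) (hd.mul_left _)
    have h9 := Int.eq_one_of_dvd_one (by positivity) h7
    have := hp.one_lt
    omega

/-- `m = S^h(n) + d` with `h, |d| ≤ L`, and `d ≠ 0` or `h ∉ J` -/
def Other (S : ℕ → ℕ) (J : Finset ℕ) (L n : ℕ) (m : ℤ) : Prop :=
  ∃ h ≤ L, ∃ d : ℤ, |d| ≤ L ∧ (d = 0 → h ∉ J) ∧ m = (S^[h] n : ℕ) + d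

/-- the forms near the orbit -/
noncomputable def near (L : ℕ) : Finset (ℤ × ℤ) :=
  ((range (L + 1)) ×ˢ (Icc (-(L : ℤ)) L)).image (fun x : ℕ × ℤ => ((4 : ℤ) ^ x.1, (be x.1 : ℤ) + x.2))

open Classical in
/-- the forms near the orbit which are not proportional to a form of `J` -/
noncomputable def nearJ (J : Finset ℕ) (L : ℕ) : Finset (ℤ × ℤ) :=
  (near L).filter (fun τ => ∀ h ∈ J, τ.1 * be h - 4 ^ h * τ.2 ≠ 0)

theorem nearJ_one {J : Finset ℕ} {L : ℕ} {τ : ℤ × ℤ} (hτ : τ ∈ nearJ J L) : 1 ≤ τ.1 := by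
  classical
  unfold nearJ near at hτ
  rw [mem_filter, mem_image] at hτ
  obtain ⟨⟨x, _, rfl⟩, _⟩ := hτ
  exact one_le_pow₀ (by norm_num)

theorem nearJ_np {J : Finset ℕ} {L : ℕ} {τ : ℤ × ℤ} (hτ : τ ∈ nearJ J L) :
    ∀ h ∈ J, τ.1 * be h - 4 ^ h * τ.2 ≠ 0 := by
  classical
  unfold nearJ at hτ
  rw [mem_filter] at hτ
  exact hτ.2

theorem be_odd {h : ℕ} (hh : 1 ≤ h) : ∃ z, be h = 4 * z + 1 := by
  obtain ⟨g, rfl⟩ : ∃ g, h = g + 1 := ⟨h - 1, by omega⟩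
  exact ⟨be g, be_succ g⟩

/-- a near term is a value of a form of `nearJ`, or a multiple of `4` -/
theorem other_cases {S : ℕ → ℕ} (hS : ∀ x, S x = 4 * x + 1) {J : Finset ℕ} {L n : ℕ} {m : ℤ}
    (hm : Other S J L n m) : (∃ τ ∈ nearJ J L, m = τ.1 * n + τ.2) ∨ (4 : ℤ) ∣ m := by
  classical
  obtain ⟨h, hh, d, hd, hne, hmd'⟩ := hm
  have hmd : m = 4 ^ h * (n : ℤ) + ((be h : ℤ) + d) := by
    rw [hmd', S_it hS]
    push_cast
    ring
  by_cases hin : ((4 : ℤ) ^ h, (be h : ℤ) + d) ∈ nearJ J L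
  · exact Or.inl ⟨_, hin, hmd⟩
  right
  have hnear : ((4 : ℤ) ^ h, (be h : ℤ) + d) ∈ near L := by
    unfold near
    rw [mem_image]
    refine ⟨(h, d), ?_, rfl⟩
    rw [mem_product, mem_range, mem_Icc]
    rw [abs_le] at hd
    exact ⟨by omega, hd.1, hd.2⟩
  have h1 : ∃ g ∈ J, (4 : ℤ) ^ h * be g = 4 ^ g * ((be h : ℤ) + d) := by
    by_contra hcon
    push Not at hcon
    apply hin
    unfold nearJ
    rw [mem_filter]
    refine ⟨hnear, fun g hg h0 => hcon g hg ?_⟩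
    simp only at h0
    linarith
  obtain ⟨g, hg, h2⟩ := h1
  rcases lt_trichotomy g h with hlt | heq | hgt
  · obtain ⟨e, he⟩ : ∃ e, h = g + 1 + e := ⟨h - (g + 1), by omega⟩
    have h4 : ((be h : ℤ) + d) = 4 * (4 ^ e * be g) := by
      have h5 : (4 : ℤ) ^ h = 4 ^ g * (4 * 4 ^ e) := by
        rw [he, pow_add, pow_succ]
        ring
      rw [h5] at h2
      have h6 : (4 : ℤ) ^ g ≠ 0 := pow_ne_zero _ (by norm_num)
      have h7 : (4 : ℤ) ^ g * (4 * 4 ^ e * be g) = 4 ^ g * ((be h : ℤ) + d) := by linarith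
      have h8 := mul_left_cancel₀ h6 h7
      linarith
    rw [hmd, h4]
    have h5 : (4 : ℤ) ^ h = 4 * (4 ^ g * 4 ^ e) := by
      rw [he, pow_add, pow_succ]
      ring
    rw [h5]
    exact ⟨4 ^ g * 4 ^ e * n + 4 ^ e * be g, by ring⟩
  · exfalso
    subst heq
    have h6 : (4 : ℤ) ^ g ≠ 0 := pow_ne_zero _ (by norm_num)
    have h8 := mul_left_cancel₀ h6 h2
    have h9 : d = 0 := by linarith
    exact hne h9 hg
  · exfalso
    obtain ⟨e, he⟩ : ∃ e, g = h + 1 + e := ⟨g - (h + 1), by omega⟩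
    obtain ⟨z, hz⟩ := be_odd (show 1 ≤ g by omega)
    have h5 : (4 : ℤ) ^ g = 4 ^ h * (4 * 4 ^ e) := by
      rw [he, pow_add, pow_succ]
      ring
    rw [h5] at h2
    have h6 : (4 : ℤ) ^ h ≠ 0 := pow_ne_zero _ (by norm_num)
    have h7 : (4 : ℤ) ^ h * be g = 4 ^ h * (4 * (4 ^ e * ((be h : ℤ) + d))) := by linarith
    have h8 := mul_left_cancel₀ h6 h7
    rw [hz] at h8
    push_cast at h8
    omega

theorem not_prime_of_four {m : ℤ} (h : (4 : ℤ) ∣ m) : ¬ m.natAbs.Prime := by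
  intro hp
  have h1 : 4 ∣ m.natAbs := by
    have := Int.natAbs_dvd_natAbs.2 h
    simpa using this
  have h2 : 2 ∣ m.natAbs := (show (2 : ℕ) ∣ 4 by norm_num).trans h1
  have h3 := (Nat.prime_dvd_prime_iff_eq Nat.prime_two hp).1 h2
  rw [← h3] at h1
  norm_num at h1

/-- `v > 1` is a product of at most `r` primes, all of them larger than `y` -/
def AlmostN (r : ℕ) (y : ℝ) (v : ℕ) : Prop :=
  1 < v ∧ v.primeFactorsList.length ≤ r ∧ ∀ q : ℕ, q.Prime → q ∣ v → y < q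

theorem almost_cast (r : ℕ) (y : ℝ) (v : ℕ) : Almost r y (v : ℤ) ↔ AlmostN r y v := by
  unfold Almost AlmostN
  rw [Nat.abs_cast, Int.natAbs_natCast]
  constructor
  · rintro ⟨h1, h2, h3⟩
    exact ⟨by exact_mod_cast h1, h2, fun q hq hd => h3 q hq (Int.natCast_dvd_natCast.2 hd)⟩
  · rintro ⟨h1, h2, h3⟩
    exact ⟨by exact_mod_cast h1, h2, fun q hq hd => h3 q hq (Int.natCast_dvd_natCast.1 hd)⟩

open Classical in
/-- the good `n`: Chen's theorem -/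
noncomputable def GC (S : ℕ → ℕ) (J : Finset ℕ) (i j L C t X A B : ℕ) : Finset ℕ :=
  (Ioc A B).filter (fun n : ℕ => (S^[i] n).Prime ∧ AlmostN 2 ((X : ℝ) ^ (1 / 9 : ℝ)) (S^[j] n) ∧
    (∀ h ∈ J, AlmostN t ((X : ℝ) ^ (1 / (t : ℝ))) (S^[h] n)) ∧
    ∀ m : ℤ, Other S J L n m → ∃ q : ℕ, q.Prime ∧ q ≤ C ∧ (q : ℤ) ∣ m)

open Classical in
/-- the good `n`: almost primes with bounded prime factors near the orbit -/
noncomputable def GN (S : ℕ → ℕ) (J : Finset ℕ) (L C t X A B : ℕ) : Finset ℕ :=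
  (Ioc A B).filter (fun n : ℕ => (∀ h ∈ J, AlmostN t ((X : ℝ) ^ (1 / (t : ℝ))) (S^[h] n)) ∧
    ∀ m : ℤ, Other S J L n m → ∃ q : ℕ, q.Prime ∧ q ≤ C ∧ (q : ℤ) ∣ m)

section
variable {S : ℕ → ℕ} {J : Finset ℕ}

/-- the leading coefficients -/
noncomputable def aJ (J : Finset ℕ) (l : Fin J.card) : ℤ := 4 ^ ((J.equivFin.symm l : J) : ℕ)

/-- the constant terms -/
noncomputable def bJ (J : Finset ℕ) (l : Fin J.card) : ℤ := be ((J.equivFin.symm l : J) : ℕ)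

theorem ev_l (hS : ∀ x, S x = 4 * x + 1) (l : Fin J.card) (n : ℕ) :
    aJ J l * (n : ℤ) + bJ J l = ((S^[((J.equivFin.symm l : J) : ℕ)] n : ℕ) : ℤ) := by
  rw [S_it hS]
  unfold aJ bJ
  push_cast
  ring

theorem ev_h (hS : ∀ x, S x = 4 * x + 1) {h : ℕ} (hh : h ∈ J) (n : ℕ) :
    aJ J (J.equivFin ⟨h, hh⟩) * (n : ℤ) + bJ J (J.equivFin ⟨h, hh⟩) = ((S^[h] n : ℕ) : ℤ) := by
  rw [ev_l hS, Equiv.symm_apply_apply]

theorem admJ (hJ : Loc3 J) : AdmL (aJ J) (bJ J) := by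
  intro p hp
  obtain ⟨n, hn⟩ := adm_exists hJ p hp
  exact ⟨n, fun l => hn _ (J.equivFin.symm l).2⟩

theorem aJ_ne (l : Fin J.card) : aJ J l ≠ 0 := pow_ne_zero _ (by norm_num)

theorem detJ (l m : Fin J.card) (hlm : l ≠ m) : aJ J l * bJ J m - aJ J m * bJ J l ≠ 0 := by
  apply np
  intro h
  exact hlm (J.equivFin.symm.injective (Subtype.ext h))

theorem nearJ_ne0 {L : ℕ} : ∀ τ ∈ nearJ J L, τ.1 ≠ 0 := fun τ hτ => by
  have := nearJ_one hτ
  omega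

theorem nearJ_l {L : ℕ} : ∀ τ ∈ nearJ J L, ∀ l, τ.1 * bJ J l - aJ J l * τ.2 ≠ 0 := fun τ hτ l =>
  nearJ_np hτ _ (J.equivFin.symm l).2

theorem kill_of (hS : ∀ x, S x = 4 * x + 1) {L C n : ℕ}
    (h : ∀ τ ∈ nearJ J L, ∃ q : ℕ, q.Prime ∧ q ≤ C ∧ (q : ℤ) ∣ τ.1 * n + τ.2) :
    ∀ m : ℤ, Other S J L n m → ∃ q : ℕ, q.Prime ∧ q ≤ max C 2 ∧ (q : ℤ) ∣ m := by
  intro m hm
  rcases other_cases hS hm with ⟨τ, hτ, rfl⟩ | h4
  · obtain ⟨q, q1, q2, q3⟩ := h τ hτ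
    exact ⟨q, q1, q2.trans (le_max_left _ _), q3⟩
  · exact ⟨2, Nat.prime_two, le_max_right _ _, (show ((2 : ℕ) : ℤ) ∣ 4 by norm_num).trans h4⟩

theorem almost_all (hS : ∀ x, S x = 4 * x + 1) (t : ℕ) (y : ℝ) (n : ℕ) :
    (∀ l, Almost t y (aJ J l * (n : ℤ) + bJ J l)) ↔ ∀ h ∈ J, AlmostN t y (S^[h] n) := by
  constructor
  · intro h1 h hh
    have h2 := h1 (J.equivFin ⟨h, hh⟩)
    rw [ev_h hS hh] at h2
    exact (almost_cast _ _ _).1 h2
  · intro h1 l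
    rw [ev_l hS]
    exact (almost_cast _ _ _).2 (h1 _ (J.equivFin.symm l).2)

/-- Chen's theorem for the orbits of `S x = 4 x + 1`, with isolated terms and coverings -/
theorem chen (hS : ∀ x, S x = 4 * x + 1) (hJ : Loc3 J) (i j : ℕ) (hi : i ∈ J) (hj : j ∈ J) (hij : i ≠ j) (L : ℕ) :
    ∃ C t : ℕ, 1 ≤ t ∧ ∃ κ : ℝ, 0 < κ ∧ ∀ (s r : ℕ) (θ δ : ℝ), 1 ≤ s → 0 < θ → 0 < δ → ∃ b X₀ : ℕ, ∀ X : ℕ, X₀ ≤ X →
      ∀ A B : ℕ, B ≤ X → θ * X ≤ (B : ℝ) - A →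
        κ * ((B : ℝ) - A) / Real.log X ^ J.card ≤ ((GC S J i j L C t X A B).card : ℝ) ∧
        ∀ χ : ℕ → Fin r, ∃ P : Finset (ℕ × ℕ),
          (∀ z ∈ P, 1 ≤ z.2 ∧ (z.2 : ℝ) ≤ Real.log X ^ b ∧
            ∀ l < s, z.1 + l * z.2 ∈ GC S J i j L C t X A B ∧ χ (z.1 + l * z.2) = χ z.1) ∧
          (P : Set (ℕ × ℕ)).PairwiseDisjoint (apSet s) ∧
          (((GC S J i j L C t X A B \ P.biUnion (apSet s)).card : ℕ) : ℝ) ≤
            δ * ((B : ℝ) - A) / Real.log X ^ J.card := by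
  classical
  obtain ⟨C, t, ht, κ, hκ, H, H'⟩ := LG.chenG (aJ J) (bJ J) (admJ hJ) aJ_ne detJ (J.equivFin ⟨i, hi⟩)
    (J.equivFin ⟨j, hj⟩) (fun h => hij (congrArg Subtype.val (J.equivFin.injective h))) (nearJ J L)
    nearJ_ne0 nearJ_l
  refine ⟨max C 2, t, ht, κ, hκ, fun s r θ δ hs hθ hδ => ?_⟩
  obtain ⟨X₁, H1⟩ := H θ hθ
  obtain ⟨b, X₂, H2⟩ := H' s r θ δ hs hθ hδ
  refine ⟨b, max X₁ X₂, fun X hX A B hB hAB => ⟨?_, fun χ => ?_⟩⟩
  · refine (H1 X ((le_max_left _ _).trans hX) A B hB hAB).trans ?_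
    have hsub : GE' (aJ J) (bJ J) (nearJ J L) (J.equivFin ⟨i, hi⟩) (J.equivFin ⟨j, hj⟩) C t X A B ⊆
        GC S J i j L (max C 2) t X A B := by
      intro n hn
      unfold GE' at hn
      unfold GC
      rw [mem_filter] at hn ⊢
      obtain ⟨h1, h2, h3, h4, h5⟩ := hn
      rw [ev_h hS hi, Int.natAbs_natCast] at h2
      rw [ev_h hS hj] at h3
      exact ⟨h1, h2, (almost_cast _ _ _).1 h3, (almost_all hS _ _ _).1 h4, kill_of hS h5⟩
    exact_mod_cast card_le_card hsub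
  · refine H2 X ((le_max_right _ _).trans hX) A B hB hAB _ ?_ χ
    intro n hn
    unfold GC at hn
    unfold LG.GA
    rw [mem_filter] at hn ⊢
    exact ⟨hn.1, (almost_all hS _ _ _).2 hn.2.2.2.1⟩

/-- almost primes in the orbits of `S x = 4 x + 1` in short intervals -/
theorem short (hS : ∀ x, S x = 4 * x + 1) (hJ : Loc3 J) (hJ0 : J.Nonempty) (L : ℕ) (ε : ℝ) (hε : 0 < ε) :
    ∃ C t : ℕ, 1 ≤ t ∧ ∃ κ K : ℝ, 0 < κ ∧ 0 < K ∧ ∀ (s r : ℕ) (δ : ℝ), 1 ≤ s → 0 < δ → ∃ b X₀ : ℕ, ∀ X : ℕ, X₀ ≤ X →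
      ∀ A B : ℕ, B ≤ X → (X : ℝ) ^ ε ≤ (B : ℝ) - A →
        κ * ((B : ℝ) - A) / Real.log X ^ J.card ≤ ((GN S J L C t X A B).card : ℝ) ∧
        ((GN S J L C t X A B).card : ℝ) ≤ K * ((B : ℝ) - A) / Real.log X ^ J.card ∧
        ∀ χ : ℕ → Fin r, ∃ P : Finset (ℕ × ℕ),
          (∀ z ∈ P, 1 ≤ z.2 ∧ (z.2 : ℝ) ≤ Real.log X ^ b ∧
            ∀ l < s, z.1 + l * z.2 ∈ GN S J L C t X A B ∧ χ (z.1 + l * z.2) = χ z.1) ∧
          (P : Set (ℕ × ℕ)).PairwiseDisjoint (apSet s) ∧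
          (((GN S J L C t X A B \ P.biUnion (apSet s)).card : ℕ) : ℝ) ≤
            δ * ((B : ℝ) - A) / Real.log X ^ J.card := by
  classical
  obtain ⟨C, t, ht, κ, K, hκ, hK, ⟨X₁, H1⟩, H2⟩ := LG.shortG (aJ J) (bJ J) hJ0.card_pos (admJ hJ) aJ_ne detJ (nearJ J L)
    nearJ_ne0 nearJ_l ε hε
  have hup : ∀ X A B : ℕ, GN S J L (max C 2) t X A B ⊆ LG.GA (aJ J) (bJ J) t X A B := by
    intro X A B n hn
    unfold GN at hn
    unfold LG.GA
    rw [mem_filter] at hn ⊢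
    exact ⟨hn.1, (almost_all hS _ _ _).2 hn.2.1⟩
  refine ⟨max C 2, t, ht, κ, K, hκ, hK, fun s r δ hs hδ => ?_⟩
  obtain ⟨b, X₂, H3⟩ := H2 s r δ hs hδ
  refine ⟨b, max X₁ X₂, fun X hX A B hB hAB => ?_⟩
  obtain ⟨h1, h2⟩ := H1 X ((le_max_left _ _).trans hX) A B hB hAB
  refine ⟨h1.trans ?_, le_trans ?_ h2, fun χ => H3 X ((le_max_right _ _).trans hX) A B hB hAB _ (hup X A B) χ⟩
  · have hsub : LG.GT (aJ J) (bJ J) (nearJ J L) C t X A B ⊆ GN S J L (max C 2) t X A B := by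
      intro n hn
      unfold LG.GT at hn
      unfold GN
      rw [mem_filter] at hn ⊢
      obtain ⟨h1, h4, h5⟩ := hn
      exact ⟨h1, (almost_all hS _ _ _).1 h4, kill_of hS h5⟩
    exact_mod_cast card_le_card hsub
  · exact_mod_cast card_le_card (hup X A B)

/-! the Poisson law -/

/-- no `S^h(n)`, `h ∈ J`, has a prime factor `≤ y`, and no integer near the orbit is prime -/
def Iso (S : ℕ → ℕ) (J : Finset ℕ) (L y n : ℕ) : Prop :=
  (∀ h ∈ J, ∀ p : ℕ, p.Prime → p ≤ y → ¬ p ∣ S^[h] n) ∧ ∀ m : ℤ, Other S J L n m → ¬ m.natAbs.Prime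

theorem adm_fo (hJ : Loc3 J) : PL.Adm (J.image fo) where
  one := by
    intro l hl
    rw [mem_image] at hl
    obtain ⟨h, _, rfl⟩ := hl
    exact one_le_pow₀ (by norm_num)
  adm := by
    intro p hp
    obtain ⟨n, hn⟩ := adm_exists hJ p hp
    refine ⟨n, fun l hl => ?_⟩
    rw [mem_image] at hl
    obtain ⟨h, hh, rfl⟩ := hl
    exact hn h hh
  nt := by
    intro l hl l' hl' t ht h1 h2
    rw [mem_image] at hl hl'
    obtain ⟨h, _, rfl⟩ := hl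
    obtain ⟨h', _, rfl⟩ := hl'
    unfold fo at h1 h2
    simp only at h1 h2
    have h3 : h = h' := Nat.pow_right_injective (a := 4) (by norm_num) (by exact_mod_cast h1)
    subst h3
    have h4 : (0 : ℤ) < 4 ^ h * t := by
      have h6 : (0 : ℤ) < t := by exact_mod_cast ht
      positivity
    linarith

theorem pat_iff (hS : ∀ x, S x = 4 * x + 1) (L y n : ℕ) :
    PL.Pat (J.image fo) (nearJ J L) y n ↔ Iso S J L y n := by
  unfold PL.Pat Iso Pool.Agent.R490.LZ.Ro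
  constructor
  · rintro ⟨h1, h2⟩
    refine ⟨fun h hh p hp hpy hd => ?_, fun m hm => ?_⟩
    · refine h1 p hp hpy (fo h) (mem_image_of_mem _ hh) ?_
      rw [fo_ev hS]
      exact Int.natCast_dvd_natCast.2 hd
    · rcases other_cases hS hm with ⟨τ, hτ, rfl⟩ | h4
      · exact h2 τ hτ
      · exact not_prime_of_four h4
  · rintro ⟨h1, h2⟩
    refine ⟨fun p hp hpy l hl hd => ?_, fun τ hτ => ?_⟩
    · rw [mem_image] at hl
      obtain ⟨h, hh, rfl⟩ := hl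
      rw [fo_ev hS] at hd
      exact h1 h hh p hp hpy (Int.natCast_dvd_natCast.1 hd)
    · apply h2
      classical
      have hne := nearJ_np hτ
      unfold nearJ near at hτ
      rw [mem_filter, mem_image] at hτ
      obtain ⟨⟨x, hx, rfl⟩, _⟩ := hτ
      rw [mem_product, mem_range, mem_Icc] at hx
      simp only at hne ⊢
      refine ⟨x.1, by omega, x.2, abs_le.2 hx.2, fun h0 hJx => ?_, ?_⟩
      · apply hne x.1 hJx
        rw [h0]
        ring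
      · rw [S_it hS]
        push_cast
        ring

/-- the number of the residue classes `x` modulo `p` with `p ∣ S^h(x)` for some `h ∈ J` -/
noncomputable def omega (S : ℕ → ℕ) (J : Finset ℕ) (p : ℕ) : ℕ :=
  ((range p).filter (fun x : ℕ => ∃ h ∈ J, p ∣ S^[h] x)).card

/-- the product of `1 - ω(p) / p` -/
noncomputable def D (S : ℕ → ℕ) (J : Finset ℕ) (y : ℕ) : ℝ :=
  ∏ p ∈ (range (y + 1)).filter Nat.Prime, (1 - (omega S J p : ℝ) / p)

/-- the product of `(1 - ω(p) / p) / (1 - 1 / p)` -/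
noncomputable def W (S : ℕ → ℕ) (J : Finset ℕ) (y : ℕ) : ℝ :=
  ∏ p ∈ (range (y + 1)).filter Nat.Prime, (1 - (omega S J p : ℝ) / p) / (1 - 1 / (p : ℝ))

open Classical in
/-- the primes of `(u, u + Y]` with the pattern -/
noncomputable def Starts (S : ℕ → ℕ) (J : Finset ℕ) (L y u Y : ℕ) : Finset ℕ :=
  (Ioc u (u + Y)).filter (fun n => n.Prime ∧ Iso S J L y n)

open Classical in
/-- the number of the integers in `(n, n + T]` with the pattern -/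
noncomputable def Next (S : ℕ → ℕ) (J : Finset ℕ) (L y T n : ℕ) : ℕ :=
  ((Ioc n (n + T)).filter (fun m => Iso S J L y m)).card

theorem om_eq (hS : ∀ x, S x = 4 * x + 1) (p : ℕ) :
    ((range p).filter (fun m : ℕ => ∃ l ∈ J.image fo, (p : ℤ) ∣ l.1 * m + l.2)).card = omega S J p := by
  classical
  unfold omega
  congr 1
  ext x
  rw [mem_filter, mem_filter]
  refine and_congr_right fun _ => ?_
  constructor
  · rintro ⟨l, hl, hd⟩
    rw [mem_image] at hl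
    obtain ⟨h, hh, rfl⟩ := hl
    rw [fo_ev hS] at hd
    exact ⟨h, hh, Int.natCast_dvd_natCast.1 hd⟩
  · rintro ⟨h, hh, hd⟩
    refine ⟨fo h, mem_image_of_mem _ hh, ?_⟩
    rw [fo_ev hS]
    exact Int.natCast_dvd_natCast.2 hd

theorem De_eq (hS : ∀ x, S x = 4 * x + 1) (y : ℕ) : Pool.Agent.R490.LZ.De (J.image fo) y = D S J y := by
  classical
  unfold Pool.Agent.R490.LZ.De D
  refine prod_congr rfl fun p _ => ?_
  rw [← om_eq hS]

theorem Wr_eq (hS : ∀ x, S x = 4 * x + 1) (y : ℕ) : Pool.Agent.R490.LZ.Wr (J.image fo) y = W S J y := by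
  classical
  unfold Pool.Agent.R490.LZ.Wr W
  refine prod_congr rfl fun p _ => ?_
  rw [← om_eq hS]

theorem starts_eq (hS : ∀ x, S x = 4 * x + 1) (L y v Y : ℕ) :
    PL.PrE (J.image fo) (nearJ J L) y v Y = Starts S J L y v Y := by
  classical
  unfold PL.PrE Starts
  apply filter_congr
  intro n _
  rw [pat_iff hS]

theorem next_eq (hS : ∀ x, S x = 4 * x + 1) (L y T n : ℕ) :
    PL.NxE (J.image fo) (nearJ J L) y T n = Next S J L y T n := by
  classical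
  unfold PL.NxE Next
  congr 1
  apply filter_congr
  intro m _
  rw [pat_iff hS]

theorem fo_inj : Function.Injective fo := by
  intro h h' he
  have h1 := congrArg Prod.fst he
  unfold fo at h1
  simp only at h1
  exact Nat.pow_right_injective (a := 4) (by norm_num) (by exact_mod_cast h1)

/-- the law of the isolated patterns after primes -/
theorem poisson (hS : ∀ x, S x = 4 * x + 1) (hJ : Loc3 J) (h0 : 0 ∈ J) (hJ2 : 2 ≤ J.card) (L : ℕ) (δ x0 ε : ℝ)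
    (hδ : 0 < δ) (hδ1 : δ ≤ 1) (hx0 : 0 ≤ x0) (hε : 0 < ε) (hε1 : ε ≤ 1) :
    ∃ r0 : ℕ, 2 ≤ r0 ∧ ∀ r : ℕ, r0 ≤ r → ∀ᶠ X : ℕ in atTop, ∀ y : ℕ, y = ⌊(X : ℝ) ^ (1 / (r : ℝ))⌋₊ →
      0 < W S J y ∧ ∀ v Y : ℕ, δ * X ≤ Y → v + Y ≤ X →
      |((Starts S J L y v Y).card : ℝ) * Real.log X - Y * W S J y| ≤ ε * (Y * W S J y) ∧
      ∀ T : ℕ, T * D S J y ≤ x0 → ∀ M : Finset ℕ,
      |(((Starts S J L y v Y).filter (fun n => Next S J L y T n ∈ M)).card : ℝ) -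
          (Starts S J L y v Y).card * ∑ j ∈ M, Real.exp (-(T * D S J y)) * (T * D S J y) ^ j / j.factorial| ≤
        ε * (Starts S J L y v Y).card := by
  classical
  have hcard : (J.image fo).card = J.card := card_image_of_injective _ fo_inj
  obtain ⟨r0, hr0, h⟩ := PL.law (L := J.image fo) (K := nearJ J L) (adm_fo hJ)
    (by
      rw [mem_image]
      refine ⟨0, h0, ?_⟩
      unfold fo be
      simp)
    (by rw [hcard]; exact hJ2)
    (fun τ hτ => nearJ_one hτ)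
    (by
      intro τ hτ l hl he
      rw [mem_image] at hl
      obtain ⟨h', hh', rfl⟩ := hl
      unfold fo at he
      simp only at he
      apply nearJ_np hτ h' hh'
      linarith) δ x0 ε hδ hδ1 hx0 hε hε1
  refine ⟨r0, hr0, fun r hr => ?_⟩
  filter_upwards [h r hr] with X hX y hy
  have h1 := hX y hy
  simp only [De_eq hS, Wr_eq hS, starts_eq hS, next_eq hS] at h1
  exact h1

end

end Pool.Agent.T2H62.O4
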