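import Pool.Agent.R490.LZ
import Pool.Agent.T2H62.Comp
import Pool.Agent.X32.Uni.Up

/-!
The Poisson law after primes for exact patterns: linear forms without small prime factors, other linear forms
composite.
-/

set_option autoImplicit false

namespace Pool.Agent.T2H62.PL

open Finset Filter
open scoped Polynomial
open Pool.Agent.W123.RU.Poly (Sys)
open Pool.Agent.R490.LZ (Ro De Wr Pr Nx)
open Pool.Agent.R490.Sg (D1)

/-! ### Poisson sums -/

theorem pois_le_one (x : ℝ) (hx : 0 ≤ x) (J : Finset ℕ) :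
    ∑ j ∈ J, Real.exp (-x) * x ^ j / j.factorial ≤ 1 := by
  have h1 : ∑ j ∈ J, Real.exp (-x) * x ^ j / j.factorial ≤
      ∑ j ∈ range (J.sup id + 1), Real.exp (-x) * x ^ j / j.factorial := by
    apply sum_le_sum_of_subset_of_nonneg
    · intro j hj
      rw [mem_range]
      have := le_sup (f := id) hj
      simp only [id] at this
      omega
    · intro j _ _
      positivity
  refine h1.trans ?_
  have h2 : ∑ j ∈ range (J.sup id + 1), Real.exp (-x) * x ^ j / j.factorial =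
      Real.exp (-x) * ∑ j ∈ range (J.sup id + 1), x ^ j / j.factorial := by
    rw [mul_sum]
    refine sum_congr rfl fun j _ => ?_
    rw [mul_div_assoc]
  rw [h2]
  have h3 := Real.sum_le_exp_of_nonneg hx (J.sup id + 1)
  calc Real.exp (-x) * ∑ j ∈ range (J.sup id + 1), x ^ j / j.factorial ≤ Real.exp (-x) * Real.exp x := by
        apply mul_le_mul_of_nonneg_left h3 (Real.exp_pos _).le
    _ = 1 := by rw [← Real.exp_add]; simp

theorem pois_nonneg (x : ℝ) (hx : 0 ≤ x) (J : Finset ℕ) :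
    0 ≤ ∑ j ∈ J, Real.exp (-x) * x ^ j / j.factorial := by
  apply sum_nonneg
  intro j _
  positivity

theorem exp_tail (x : ℝ) (hx : 0 ≤ x) (l : ℕ) (hl : 1 ≤ l) :
    Real.exp x ≤ ∑ j ∈ range l, x ^ j / j.factorial + x / l * Real.exp x := by
  have hs : HasSum (fun n : ℕ => x ^ n / (n.factorial : ℝ)) (Real.exp x) := by
    rw [Real.exp_eq_exp_ℝ]
    exact NormedSpace.expSeries_div_hasSum_exp x
  have ht := hs.tendsto_sum_nat
  have hl0 : (0 : ℝ) < l := by exact_mod_cast hl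
  apply le_of_tendsto ht
  filter_upwards [eventually_ge_atTop l] with n hn
  have h1 : ∑ j ∈ range n, x ^ j / (j.factorial : ℝ) = ∑ j ∈ range l, x ^ j / (j.factorial : ℝ) +
      ∑ j ∈ Ico l n, x ^ j / (j.factorial : ℝ) := (sum_range_add_sum_Ico _ hn).symm
  rw [h1]
  gcongr
  have h2 : ∑ j ∈ Ico l n, x ^ j / (j.factorial : ℝ) ≤ ∑ j ∈ Ico l n, x / l * (x ^ (j - 1) / ((j - 1).factorial : ℝ)) := by
    apply sum_le_sum
    intro j hj
    rw [mem_Ico] at hj
    obtain ⟨i, rfl⟩ : ∃ i, j = i + 1 := ⟨j - 1, by omega⟩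
    rw [Nat.add_sub_cancel, Nat.factorial_succ]
    push_cast
    have h3 : (0 : ℝ) < i.factorial := by exact_mod_cast Nat.factorial_pos i
    have h4 : (l : ℝ) ≤ (i : ℝ) + 1 := by exact_mod_cast hj.1
    have h5 : x / ((i : ℝ) + 1) ≤ x / l := div_le_div_of_nonneg_left hx hl0 h4
    calc x ^ (i + 1) / (((i : ℝ) + 1) * i.factorial) = x / ((i : ℝ) + 1) * (x ^ i / i.factorial) := by
          rw [pow_succ]
          field_simp
      _ ≤ x / l * (x ^ i / i.factorial) := mul_le_mul_of_nonneg_right h5 (by positivity)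
  refine h2.trans ?_
  rw [← mul_sum]
  apply mul_le_mul_of_nonneg_left _ (by positivity)
  have h3 : ∑ j ∈ Ico l n, x ^ (j - 1) / ((j - 1).factorial : ℝ) ≤ ∑ i ∈ range n, x ^ i / (i.factorial : ℝ) := by
    have h4 : ∑ j ∈ Ico l n, x ^ (j - 1) / ((j - 1).factorial : ℝ) =
        ∑ i ∈ (Ico l n).image (fun j => j - 1), x ^ i / (i.factorial : ℝ) := by
      rw [sum_image]
      intro a ha b hb hab
      have ha' := mem_Ico.1 ha
      have hb' := mem_Ico.1 hb
      simp only at hab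
      omega
    rw [h4]
    apply sum_le_sum_of_subset_of_nonneg
    · intro i hi
      rw [mem_image] at hi
      obtain ⟨j, hj, rfl⟩ := hi
      rw [mem_Ico] at hj
      rw [mem_range]
      omega
    · intro i _ _
      positivity
  exact h3.trans (Real.sum_le_exp_of_nonneg hx n)

theorem pois_ge (x : ℝ) (hx : 0 ≤ x) (l : ℕ) (hl : 1 ≤ l) :
    1 - x / l ≤ ∑ j ∈ range l, Real.exp (-x) * x ^ j / j.factorial := by
  have h1 := exp_tail x hx l hl
  have h2 : ∑ j ∈ range l, Real.exp (-x) * x ^ j / j.factorial =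
      Real.exp (-x) * ∑ j ∈ range l, x ^ j / j.factorial := by
    rw [mul_sum]
    refine sum_congr rfl fun j _ => ?_
    rw [mul_div_assoc]
  rw [h2]
  have h3 : Real.exp (-x) * Real.exp x = 1 := by rw [← Real.exp_add]; simp
  have h4 := mul_le_mul_of_nonneg_left h1 (Real.exp_pos (-x)).le
  rw [h3, mul_add] at h4
  have h5 : Real.exp (-x) * (x / l * Real.exp x) = x / l := by
    calc Real.exp (-x) * (x / l * Real.exp x) = x / l * (Real.exp (-x) * Real.exp x) := by ring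
      _ = x / l := by rw [h3, mul_one]
  rw [h5] at h4
  linarith

/-! ### Systems -/

/-- admissible sets of linear forms without translates -/
structure Adm (L : Finset (ℤ × ℤ)) : Prop where
  one : ∀ l ∈ L, 1 ≤ l.1
  adm : ∀ p : ℕ, p.Prime → ∃ m : ℕ, ∀ l ∈ L, ¬ (p : ℤ) ∣ l.1 * m + l.2
  nt : ∀ l ∈ L, ∀ l' ∈ L, ∀ t : ℕ, 1 ≤ t → l.1 = l'.1 → l.2 ≠ l'.2 + l'.1 * t

variable {L K : Finset (ℤ × ℤ)}

theorem good_of (h1 : ∀ l ∈ L, 1 ≤ l.1) (h2 : ∀ p : ℕ, p.Prime → ∃ m : ℕ, ∀ l ∈ L, ¬ (p : ℤ) ∣ l.1 * m + l.2) :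
    ∃ N₀ : ℕ, ∀ N : ℕ, N₀ ≤ N → Pool.Agent.R490.LZ.Good N L := by
  refine ⟨∑ l ∈ L, (l.1.natAbs + l.2.natAbs), fun N hN => ⟨h1, ?_, ?_, h2⟩⟩
  · intro l hl
    have h3 : l.1.natAbs + l.2.natAbs ≤ ∑ l ∈ L, (l.1.natAbs + l.2.natAbs) :=
      single_le_sum (f := fun l : ℤ × ℤ => l.1.natAbs + l.2.natAbs) (fun _ _ => Nat.zero_le _) hl
    omega
  · intro l hl
    have h3 : l.1.natAbs + l.2.natAbs ≤ ∑ l ∈ L, (l.1.natAbs + l.2.natAbs) :=
      single_le_sum (f := fun l : ℤ × ℤ => l.1.natAbs + l.2.natAbs) (fun _ _ => Nat.zero_le _) hl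
    rw [Int.abs_eq_natAbs]
    omega

/-- the pattern: the forms of `L` have no prime factor `≤ y`, the forms of `K` are not prime -/
def Pat (L K : Finset (ℤ × ℤ)) (y n : ℕ) : Prop := Ro L y n ∧ ∀ κ ∈ K, ¬ (κ.1 * (n : ℤ) + κ.2).natAbs.Prime

open Classical in
/-- upper bound for the numbers with one more prime -/
theorem extra (h1 : ∀ l ∈ L, 1 ≤ l.1) (κ : ℤ × ℤ) (hκ1 : 1 ≤ κ.1) (hκ : ∀ l ∈ L, κ.1 * l.2 ≠ l.1 * κ.2)
    (r : ℕ) (hr : 2 ≤ r) : ∃ C : ℝ, 0 < C ∧ ∀ᶠ N : ℕ in atTop, ∀ y : ℕ, y = ⌊(N : ℝ) ^ (1 / (r : ℝ))⌋₊ →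
      ((((Ioc 0 (2 * N)).filter (fun m => Ro L y m ∧ (κ.1 * (m : ℤ) + κ.2).natAbs.Prime)).card : ℕ) : ℝ) ≤
        C * (N / Real.log N ^ (L.card + 1)) := by
  have hr0 : (0 : ℝ) < r := by exact_mod_cast (by omega : 0 < r)
  have hκL : κ ∉ L := fun h => hκ κ h rfl
  have hpow : ∀ M : ℝ, ∀ a : ℝ, 0 < a → ∀ᶠ n : ℕ in atTop, M < (n : ℝ) ^ a := fun M a ha =>
    ((tendsto_rpow_atTop ha).comp tendsto_natCast_atTop_atTop).eventually (eventually_gt_atTop M)
  -- the small arguments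
  have hsm : ∀ᶠ N : ℕ in atTop, (N : ℝ) ^ (1 / (r : ℝ)) + (κ.2.natAbs + 1) ≤ 1 * (N / Real.log N ^ (L.card + 1)) := by
    have h2 : ∀ᶠ N : ℕ in atTop, 4 * Real.log N ^ (L.card + 1) ≤ (N : ℝ) ^ (1 / 2 : ℝ) := by
      have h3 := (isLittleO_log_rpow_rpow_atTop (s := 1 / 2) ((L.card + 1 : ℕ) : ℝ) (by norm_num)).comp_tendsto
        tendsto_natCast_atTop_atTop
      have h4 := h3.bound (show (0 : ℝ) < 1 / 4 by norm_num)
      filter_upwards [h4, eventually_ge_atTop 1] with N hN hN1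
      simp only [Function.comp, Real.norm_eq_abs, Real.rpow_natCast] at hN
      have h5 : 0 ≤ Real.log N := Real.log_nonneg (by exact_mod_cast hN1)
      rw [abs_of_nonneg (by positivity), abs_of_nonneg (by positivity)] at hN
      linarith
    filter_upwards [h2, hpow (κ.2.natAbs + 1) (1 / 2) (by norm_num), eventually_ge_atTop 3] with N hN1 hN2 hN3
    have hN0 : (0 : ℝ) < N := by exact_mod_cast (by omega : 0 < N)
    have hN1' : (1 : ℝ) ≤ N := by exact_mod_cast (by omega : 1 ≤ N)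
    have hlog : 0 < Real.log N := Real.log_pos (by exact_mod_cast (by omega : 1 < N))
    have h3 : (N : ℝ) ^ (1 / (r : ℝ)) ≤ (N : ℝ) ^ (1 / 2 : ℝ) := by
      apply Real.rpow_le_rpow_of_exponent_le hN1'
      apply one_div_le_one_div_of_le (by norm_num)
      exact_mod_cast hr
    have h4 : (N : ℝ) = (N : ℝ) ^ (1 / 2 : ℝ) * (N : ℝ) ^ (1 / 2 : ℝ) := by
      rw [← Real.rpow_add hN0]
      norm_num
    have hs0 : (0 : ℝ) < (N : ℝ) ^ (1 / 2 : ℝ) := by positivity
    rw [one_mul, le_div_iff₀ (by positivity)]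
    calc ((N : ℝ) ^ (1 / (r : ℝ)) + (κ.2.natAbs + 1)) * Real.log N ^ (L.card + 1) ≤
          (2 * (N : ℝ) ^ (1 / 2 : ℝ)) * Real.log N ^ (L.card + 1) := by
            apply mul_le_mul_of_nonneg_right _ (by positivity)
            linarith
      _ ≤ (N : ℝ) ^ (1 / 2 : ℝ) * (N : ℝ) ^ (1 / 2 : ℝ) := by nlinarith
      _ = N := h4.symm
  -- the small `m`
  have hcardS : ∀ N y : ℕ, y = ⌊(N : ℝ) ^ (1 / (r : ℝ))⌋₊ →
      (((Icc 0 (y + κ.2.natAbs)).card : ℕ) : ℝ) ≤ (N : ℝ) ^ (1 / (r : ℝ)) + (κ.2.natAbs + 1) := by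
    intro N y hy
    rw [Nat.card_Icc]
    have h5 : (y : ℝ) ≤ (N : ℝ) ^ (1 / (r : ℝ)) := by
      rw [hy]
      exact Nat.floor_le (by positivity)
    push_cast
    linarith
  have hsmall : ∀ m y : ℕ, (κ.1 * (m : ℤ) + κ.2).natAbs ≤ y → m ≤ y + κ.2.natAbs := by
    intro m y h
    have h6 : (m : ℤ) ≤ κ.1 * m := by nlinarith [(by positivity : (0 : ℤ) ≤ m)]
    omega
  by_cases hadm : ∀ p : ℕ, p.Prime → ∃ m : ℕ, ∀ l ∈ insert κ L, ¬ (p : ℤ) ∣ l.1 * m + l.2
  · obtain ⟨N₀, hN₀⟩ := good_of (L := insert κ L) (by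
      intro l hl
      rw [mem_insert] at hl
      rcases hl with rfl | hl
      · exact hκ1
      · exact h1 l hl) hadm
    have hG := hN₀ N₀ le_rfl
    have hne : Nonempty (Fin (insert κ L).card) := ⟨⟨0, Finset.card_pos.2 ⟨κ, mem_insert_self _ _⟩⟩⟩
    obtain ⟨C, hC, hup⟩ := Pool.Agent.T2H62.Comp.rough_upper (Pool.Agent.R490.LZ.sys (insert κ L) (insert κ L).card rfl)
      (Pool.Agent.R490.LZ.z_sys hG) (1 / (2 * r)) (1 / 2) (by positivity) (by norm_num) (by norm_num)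
    rw [Fintype.card_fin] at hup
    have hcardI : (insert κ L).card = L.card + 1 := card_insert_of_notMem hκL
    refine ⟨2 * C + 1, by positivity, ?_⟩
    have hup' : ∀ᶠ N : ℕ in atTop, ∀ u H : ℕ, (((2 * N : ℕ) : ℝ)) ^ (1 / 2 : ℝ) ≤ H → H ≤ 2 * N →
        u ≤ 3 * (2 * N) → ∀ S : Finset ℕ, S ⊆ Ioc u (u + H) →
          (∀ n ∈ S, ∀ i, ∀ p : ℕ, p.Prime → (p : ℝ) ≤ (((2 * N : ℕ) : ℝ)) ^ (1 / (2 * (r : ℝ))) →
            ¬ (p : ℤ) ∣ (Pool.Agent.R490.LZ.sys (insert κ L) (insert κ L).card rfl i).eval (n : ℤ)) →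
          (S.card : ℝ) ≤ C * (H / Real.log ((2 * N : ℕ) : ℝ) ^ (insert κ L).card) := by
      have ht : Tendsto (fun N : ℕ => 2 * N) atTop atTop := by
        apply tendsto_atTop_mono (f := fun N => N) (fun N => by omega) tendsto_id
      exact ht.eventually hup
    filter_upwards [hup', hsm, eventually_ge_atTop 3] with N hN1 hN2 hN3 y hy
    have hN0 : (0 : ℝ) < N := by exact_mod_cast (by omega : 0 < N)
    have hlog : 0 < Real.log N := Real.log_pos (by exact_mod_cast (by omega : 1 < N))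
    have hsub : (Ioc 0 (2 * N)).filter (fun m => Ro L y m ∧ (κ.1 * (m : ℤ) + κ.2).natAbs.Prime) ⊆
        ((Ioc 0 (2 * N)).filter (fun m => Ro (insert κ L) y m)) ∪ Icc 0 (y + κ.2.natAbs) := by
      intro m hm
      rw [mem_filter] at hm
      rw [mem_union]
      by_cases hs : (κ.1 * (m : ℤ) + κ.2).natAbs ≤ y
      · exact Or.inr (mem_Icc.2 ⟨Nat.zero_le _, hsmall m y hs⟩)
      · left
        rw [mem_filter]
        refine ⟨hm.1, ?_⟩
        intro p hp hpy l hl hd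
        rw [mem_insert] at hl
        rcases hl with rfl | hl
        · have h5 : p ∣ (l.1 * (m : ℤ) + l.2).natAbs := Int.natCast_dvd.1 hd
          rw [Nat.prime_dvd_prime_iff_eq hp hm.2.2] at h5
          omega
        · exact hm.2.1 p hp hpy l hl hd
    have h2 : ((((Ioc 0 (2 * N)).filter (fun m => Ro (insert κ L) y m)).card : ℕ) : ℝ) ≤
        C * (((2 * N : ℕ) : ℝ) / Real.log ((2 * N : ℕ) : ℝ) ^ (L.card + 1)) := by
      rw [← hcardI]
      apply hN1 0 (2 * N)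
      · have h5 : (1 : ℝ) ≤ ((2 * N : ℕ) : ℝ) := by exact_mod_cast (by omega : 1 ≤ 2 * N)
        calc (((2 * N : ℕ) : ℝ)) ^ (1 / 2 : ℝ) ≤ (((2 * N : ℕ) : ℝ)) ^ (1 : ℝ) :=
              Real.rpow_le_rpow_of_exponent_le h5 (by norm_num)
          _ = _ := Real.rpow_one _
      · exact le_rfl
      · omega
      · intro m hm
        rw [zero_add]
        exact (mem_filter.1 hm).1
      · intro m hm i p hp hpX hd
        rw [mem_filter] at hm
        obtain ⟨l', hl', hd'⟩ := (Pool.Agent.R490.LZ.sys_Q (L := insert κ L) rfl p m).1 ⟨i, hd⟩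
        refine hm.2 p hp ?_ l' hl' hd'
        rw [hy]
        apply Nat.le_floor
        refine hpX.trans ?_
        have h5 : (((2 * N : ℕ) : ℝ)) ≤ (N : ℝ) ^ (2 : ℝ) := by
          rw [Real.rpow_two]
          push_cast
          have : (3 : ℝ) ≤ N := by exact_mod_cast hN3
          nlinarith
        calc (((2 * N : ℕ) : ℝ)) ^ (1 / (2 * (r : ℝ))) ≤ ((N : ℝ) ^ (2 : ℝ)) ^ (1 / (2 * (r : ℝ))) :=
              Real.rpow_le_rpow (by positivity) h5 (by positivity)
          _ = (N : ℝ) ^ (1 / (r : ℝ)) := by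
              rw [← Real.rpow_mul hN0.le]
              congr 1
              field_simp
    have h3 : C * (((2 * N : ℕ) : ℝ) / Real.log ((2 * N : ℕ) : ℝ) ^ (L.card + 1)) ≤
        2 * C * (N / Real.log N ^ (L.card + 1)) := by
      have h6 : Real.log N ≤ Real.log ((2 * N : ℕ) : ℝ) := by
        apply Real.log_le_log hN0
        exact_mod_cast (by omega : N ≤ 2 * N)
      have h7 : ((2 * N : ℕ) : ℝ) / Real.log ((2 * N : ℕ) : ℝ) ^ (L.card + 1) ≤
          (2 * N) / Real.log N ^ (L.card + 1) := by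
        push_cast
        apply div_le_div_of_nonneg_left (by positivity) (by positivity)
        apply pow_le_pow_left₀ hlog.le
        exact_mod_cast h6
      calc C * (((2 * N : ℕ) : ℝ) / Real.log ((2 * N : ℕ) : ℝ) ^ (L.card + 1)) ≤
            C * ((2 * N) / Real.log N ^ (L.card + 1)) := mul_le_mul_of_nonneg_left h7 hC.le
        _ = _ := by ring
    have h4 := card_le_card hsub
    have h5 := card_union_le ((Ioc 0 (2 * N)).filter (fun m => Ro (insert κ L) y m)) (Icc 0 (y + κ.2.natAbs))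
    have h6 : ((((Ioc 0 (2 * N)).filter (fun m => Ro L y m ∧ (κ.1 * (m : ℤ) + κ.2).natAbs.Prime)).card : ℕ) : ℝ) ≤
        ((((Ioc 0 (2 * N)).filter (fun m => Ro (insert κ L) y m)).card : ℕ) : ℝ) +
          (((Icc 0 (y + κ.2.natAbs)).card : ℕ) : ℝ) := by exact_mod_cast h4.trans h5
    have h7 := hcardS N y hy
    calc _ ≤ _ := h6
      _ ≤ 2 * C * (N / Real.log N ^ (L.card + 1)) + 1 * (N / Real.log N ^ (L.card + 1)) := by linarith
      _ = _ := by ring
  · push Not at hadm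
    obtain ⟨p, hp, hpm⟩ := hadm
    refine ⟨1, one_pos, ?_⟩
    filter_upwards [hsm, hpow (p + 1) (1 / (r : ℝ)) (by positivity)] with N hN2 hN3 y hy
    have hpy : p ≤ y := by
      rw [hy]
      apply Nat.le_floor
      linarith
    have hsub : (Ioc 0 (2 * N)).filter (fun m => Ro L y m ∧ (κ.1 * (m : ℤ) + κ.2).natAbs.Prime) ⊆
        Icc 0 (y + κ.2.natAbs) := by
      intro m hm
      rw [mem_filter] at hm
      refine mem_Icc.2 ⟨Nat.zero_le _, hsmall m y ?_⟩
      obtain ⟨l, hl, hd⟩ := hpm m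
      rw [mem_insert] at hl
      rcases hl with rfl | hl
      · have h5 : p ∣ (l.1 * (m : ℤ) + l.2).natAbs := Int.natCast_dvd.1 hd
        rw [Nat.prime_dvd_prime_iff_eq hp hm.2.2] at h5
        omega
      · exact absurd hd (hm.2.1 p hp hpy l hl)
    have h4 : ((((Ioc 0 (2 * N)).filter (fun m => Ro L y m ∧ (κ.1 * (m : ℤ) + κ.2).natAbs.Prime)).card : ℕ) : ℝ) ≤
        (((Icc 0 (y + κ.2.natAbs)).card : ℕ) : ℝ) := by exact_mod_cast card_le_card hsub
    exact h4.trans ((hcardS N y hy).trans hN2)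

end Pool.Agent.T2H62.PL
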