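import Pool.Agent.T2H62.PLaw

/-!
The Poisson law after primes for exact patterns: the main theorem.
-/

set_option autoImplicit false

namespace Pool.Agent.T2H62.PL

open Finset Filter
open scoped Polynomial
open Pool.Agent.R490.LZ (Ro De Wr Pr Nx)
open Pool.Agent.R490.Sg (D1)

variable {L K : Finset (ℤ × ℤ)}

open Classical in
/-- the numbers with one more prime among finitely many forms -/
theorem extraK (h1 : ∀ l ∈ L, 1 ≤ l.1) (hK1 : ∀ κ ∈ K, 1 ≤ κ.1) (hK : ∀ κ ∈ K, ∀ l ∈ L, κ.1 * l.2 ≠ l.1 * κ.2)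
    (r : ℕ) (hr : 2 ≤ r) : ∃ C : ℝ, 0 < C ∧ ∀ᶠ N : ℕ in atTop, ∀ y : ℕ, y = ⌊(N : ℝ) ^ (1 / (r : ℝ))⌋₊ →
      ((((Ioc 0 (2 * N)).filter (fun m => Ro L y m ∧ ∃ κ ∈ K, (κ.1 * (m : ℤ) + κ.2).natAbs.Prime)).card : ℕ) : ℝ) ≤
        C * (N / Real.log N ^ (L.card + 1)) := by
  induction K using Finset.induction_on with
  | empty =>
    refine ⟨1, one_pos, ?_⟩
    filter_upwards [eventually_ge_atTop 3] with N hN y hy
    have hlog : 0 < Real.log N := Real.log_pos (by exact_mod_cast (by omega : 1 < N))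
    simp
    positivity
  | insert κ K hκ ih =>
    obtain ⟨C, hC, h2⟩ := ih (fun κ' h => hK1 κ' (mem_insert_of_mem h)) (fun κ' h => hK κ' (mem_insert_of_mem h))
    obtain ⟨C', hC', h3⟩ := extra h1 κ (hK1 κ (mem_insert_self _ _)) (hK κ (mem_insert_self _ _)) r hr
    refine ⟨C + C', by positivity, ?_⟩
    filter_upwards [h2, h3] with N h4 h5 y hy
    have hsub : (Ioc 0 (2 * N)).filter (fun m => Ro L y m ∧ ∃ κ' ∈ insert κ K, (κ'.1 * (m : ℤ) + κ'.2).natAbs.Prime) ⊆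
        (Ioc 0 (2 * N)).filter (fun m => Ro L y m ∧ ∃ κ' ∈ K, (κ'.1 * (m : ℤ) + κ'.2).natAbs.Prime) ∪
        (Ioc 0 (2 * N)).filter (fun m => Ro L y m ∧ (κ.1 * (m : ℤ) + κ.2).natAbs.Prime) := by
      intro m hm
      rw [mem_filter] at hm
      rw [mem_union, mem_filter, mem_filter]
      obtain ⟨m1, m2, κ', m3, m4⟩ := hm
      rw [mem_insert] at m3
      rcases m3 with rfl | m3
      · exact Or.inr ⟨m1, m2, m4⟩
      · exact Or.inl ⟨m1, m2, κ', m3, m4⟩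
    have h6 := (card_le_card hsub).trans (card_union_le _ _)
    have h7 := h4 y hy
    have h8 := h5 y hy
    have h9 : ((((Ioc 0 (2 * N)).filter (fun m => Ro L y m ∧ ∃ κ' ∈ insert κ K,
        (κ'.1 * (m : ℤ) + κ'.2).natAbs.Prime)).card : ℕ) : ℝ) ≤
        ((((Ioc 0 (2 * N)).filter (fun m => Ro L y m ∧ ∃ κ' ∈ K, (κ'.1 * (m : ℤ) + κ'.2).natAbs.Prime)).card : ℕ) : ℝ)
        + ((((Ioc 0 (2 * N)).filter (fun m => Ro L y m ∧ (κ.1 * (m : ℤ) + κ.2).natAbs.Prime)).card : ℕ) : ℝ) := by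
      exact_mod_cast h6
    calc _ ≤ _ := h9
      _ ≤ C * (N / Real.log N ^ (L.card + 1)) + C' * (N / Real.log N ^ (L.card + 1)) := by linarith
      _ = _ := by ring

/-- lower bound for the density -/
theorem De_low (hL : 1 ≤ L.card) (h1 : ∀ l ∈ L, 1 ≤ l.1)
    (h2 : ∀ p : ℕ, p.Prime → ∃ m : ℕ, ∀ l ∈ L, ¬ (p : ℤ) ∣ l.1 * m + l.2) :
    ∃ c : ℝ, 0 < c ∧ ∀ y : ℕ, 2 ≤ y → c / Real.log y ^ L.card ≤ De L y := by
  classical
  obtain ⟨d, hd⟩ : ∃ d : ℕ, L.card = d + 1 := ⟨L.card - 1, by omega⟩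
  obtain ⟨c, hc, h⟩ := Pool.Agent.X32.Uni.V_low d
  obtain ⟨f, hf⟩ : ∃ f : Fin L.card → ℤ[X], f = Pool.Agent.R490.LZ.sys L L.card rfl := ⟨_, rfl⟩
  have hev : ∀ (p m : ℕ), p.Prime → ((p : ℤ) ∣ ∏ i, (f i).eval (m : ℤ) ↔ ∃ l ∈ L, (p : ℤ) ∣ l.1 * m + l.2) := by
    intro p m hp
    rw [← Pool.Agent.R490.LZ.sys_Q (L := L) rfl p m, ← hf]
    constructor
    · intro hd
      obtain ⟨i, _, hi⟩ := (Nat.prime_iff_prime_int.1 hp).exists_mem_finset_dvd hd
      exact ⟨i, hi⟩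
    · rintro ⟨i, hi⟩
      exact hi.trans (dvd_prod_of_mem _ (mem_univ i))
  have hdeg : ∀ i, (f i).natDegree = 1 := by
    intro i
    rw [hf]
    unfold Pool.Agent.R490.LZ.sys
    rw [Pool.Agent.Y879.GL.lf_deg]
    have := h1 _ ((L.equivFinOfCardEq rfl).symm i).2
    omega
  refine ⟨c, hc, fun y hy => ?_⟩
  have h3 := h L.card f y hy (by
    intro p hp
    obtain ⟨m, hm⟩ := h2 p hp
    refine ⟨m, fun hd => ?_⟩
    obtain ⟨l, hl, hd'⟩ := (hev p m hp).1 hd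
    exact hm l hl hd') (by
    simp only [hdeg]
    simp [hd])
  rw [hd]
  refine h3.trans (le_of_eq ?_)
  unfold Pool.Agent.X32.Uni.V De
  have e1 : (Icc 1 y).filter Nat.Prime = (range (y + 1)).filter Nat.Prime := by
    ext p
    rw [mem_filter, mem_filter, mem_Icc, mem_range]
    constructor
    · rintro ⟨h4, h5⟩
      exact ⟨by omega, h5⟩
    · rintro ⟨h4, h5⟩
      have := h5.one_lt
      exact ⟨by omega, h5⟩
  rw [e1]
  refine prod_congr rfl fun p hp => ?_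
  have hpp := (mem_filter.1 hp).2
  have e2 : Pool.Agent.X32.Uni.om f p =
      ((range p).filter (fun m : ℕ => ∃ l ∈ L, (p : ℤ) ∣ l.1 * m + l.2)).card := by
    unfold Pool.Agent.X32.Uni.om
    congr 1
    apply filter_congr
    intro x _
    exact hev p x hpp
  rw [e2]

/-- upper bound for the density of the integers without small prime factors -/
theorem D1_up : ∀ᶠ y : ℕ in atTop, D1 y ≤ 1 / Real.log y := by
  filter_upwards [Pool.Agent.X32.Uni.prod_inv_le] with y hy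
  refine le_trans (le_of_eq ?_) hy
  unfold D1
  have e1 : (Icc 1 y).filter Nat.Prime = (range (y + 1)).filter Nat.Prime := by
    ext p
    rw [mem_filter, mem_filter, mem_Icc, mem_range]
    constructor
    · rintro ⟨h4, h5⟩
      exact ⟨by omega, h5⟩
    · rintro ⟨h4, h5⟩
      have := h5.one_lt
      exact ⟨by omega, h5⟩
  rw [e1]
  refine prod_congr rfl fun p _ => ?_
  rw [one_div]

end Pool.Agent.T2H62.PL
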