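import Pool.Agent.T2H62.SAPm2
import Pool.Agent.T2H62.SpM2

set_option autoImplicit false

/-! Regular points of the set of the integers `n` with `n ^ 2 - 2` almost prime. -/

namespace Pool.Agent.T2H62.RegM2

open Finset Filter Topology
open Pool.Agent.Y882.SI (gset)
open Pool.Agent.R490.Sg (Ro De D1 regS cnt Irregular)
open Pool.Agent.T2H62.SpM2 (f2 good2 De_eq D1_GG dens_lim)
open Pool.Agent.Y781.JR (RR GG RR_conv GG_pos)

/-- the integers `n` such that `n ^ 2 - 2` has at most `r` prime factors, all of them at least `w` -/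
def S (r : ℕ) (w : ℝ) : Set ℕ :=
  {n | ((n : ℤ) ^ 2 - 2).natAbs.primeFactorsList.length ≤ r ∧ ∀ p : ℕ, p.Prime → (p : ℤ) ∣ (n : ℤ) ^ 2 - 2 → w ≤ p}

open Classical in
lemma gset_cnt (r : ℕ) (w : ℝ) (M H : ℕ) : (gset (-2) r w M H).card = cnt (S r w) M (M + H) := by
  unfold gset cnt S
  congr 1
  ext n
  simp only [mem_filter, Set.mem_ofPred_eq, sub_eq_add_neg]

theorem reg (r : ℕ) (t z : ℝ)
    (hpar : (r = 5 ∧ 1 / 2 ≤ t ∧ z = 2 / 5 * t) ∨ (r = 4 ∧ 269 / 500 ≤ t ∧ z = t / 4) ∨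
      (r = 3 ∧ 29 / 40 ≤ t ∧ z = t / 4)) (ht : t < 1) (h ε : ℝ) (hh : 0 < h) (hht : h ≤ t) (hε : 0 < ε) :
    ∃ r₁ : ℕ, 2 ≤ r₁ ∧ ∀ η : ℝ, 0 < η → ∃ c : ℝ, 0 < c ∧ ∀ δ : ℝ, 0 < δ → ∃ B : ℕ, ∀ᶠ X : ℕ in atTop,
      (((Icc 1 X).filter (fun M => η * (cnt (S r ((X : ℝ) ^ z)) M (M + ⌊(X : ℝ) ^ h⌋₊) : ℝ) <
        (cnt (Irregular (S r ((X : ℝ) ^ z)) (1 / De f2 ⌊(X : ℝ) ^ (1 / (r₁ : ℝ))⌋₊) c δ B ⌊(X : ℝ) ^ h⌋₊) M
          (M + ⌊(X : ℝ) ^ h⌋₊) : ℝ))).card : ℝ) ≤ (X : ℝ) ^ (2 * t - h + ε) := by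
  classical
  have ht0 : 1 / 2 ≤ t := by
    rcases hpar with ⟨_, h, _⟩ | ⟨_, h, _⟩ | ⟨_, h, _⟩ <;> linarith
  have hz0 : 0 < z := by
    rcases hpar with ⟨_, _, h⟩ | ⟨_, _, h⟩ | ⟨_, _, h⟩ <;> rw [h] <;> linarith
  obtain ⟨δ₀, hδ₀, X0, HF⟩ := Pool.Agent.T2H62.SAP.finAll1 r t z hpar ht h (ε / 2) hh (by linarith) (by linarith)
  obtain ⟨r0, hr0, h0⟩ := regS 2 1 (h / 2) (by linarith)
  obtain ⟨r', hr'⟩ := exists_nat_gt (1 / z)
  set r₁ : ℕ := max r0 (max r' 2) with hr₁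
  have hr₁2 : 2 ≤ r₁ := (le_max_right _ _).trans (le_max_right _ _)
  have hr₁0 : r0 ≤ r₁ := le_max_left _ _
  have hr₁pos : (0 : ℝ) < r₁ := by exact_mod_cast (by omega : 0 < r₁)
  have hr₁z : 1 / (r₁ : ℝ) < z := by
    have h1 : (r' : ℝ) ≤ r₁ := by exact_mod_cast (le_max_left _ _).trans (le_max_right _ _)
    rw [div_lt_iff₀ hr₁pos]
    rw [div_lt_iff₀ hz0] at hr'
    nlinarith
  refine ⟨r₁, hr₁2, fun η hη => ?_⟩
  obtain ⟨C, hC, hR⟩ := RR_conv (-2) Pool.Agent.T2H62.SpM2.ns2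
  obtain ⟨B0, hB0⟩ : ∃ B : ℝ, ∀ N : ℕ, RR (-2) N ≤ B := by
    obtain ⟨B, hB⟩ := hR.bddAbove_range
    exact ⟨B, fun N => hB (Set.mem_range_self N)⟩
  set B1 : ℝ := max B0 1 with hB1
  have hB1pos : 0 < B1 := lt_of_lt_of_le one_pos (le_max_right _ _)
  obtain ⟨L, hL, -, hlim⟩ := dens_lim
  -- upper bound for the density
  set K : ℝ := L * Real.exp (-Real.eulerMascheroniConstant) + 1 with hK
  have hK0 : 0 < K := by positivity
  obtain ⟨c, hc, h1⟩ := h0 r₁ hr₁0 B1 (η * δ₀ / (2 * (K * (2 * r₁)))) hB1pos (by positivity)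
  refine ⟨c, hc, fun δ hδ => ?_⟩
  obtain ⟨B, h2⟩ := h1 δ hδ
  refine ⟨B, ?_⟩
  have hXr : Tendsto (fun X : ℕ => (X : ℝ)) atTop atTop := tendsto_natCast_atTop_atTop
  have hy : Tendsto (fun X : ℕ => ⌊(X : ℝ) ^ (1 / (r₁ : ℝ))⌋₊) atTop atTop :=
    tendsto_nat_floor_atTop.comp ((tendsto_rpow_atTop (by positivity)).comp hXr)
  have ev1 : ∀ᶠ X : ℕ in atTop, (2 : ℝ) ≤ (X : ℝ) ^ (h / 2) :=
    ((tendsto_rpow_atTop (by linarith)).comp hXr).eventually_ge_atTop _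
  have ev2 : ∀ᶠ X : ℕ in atTop, (4 : ℝ) ≤ (X : ℝ) ^ (ε / 2) :=
    ((tendsto_rpow_atTop (by linarith)).comp hXr).eventually_ge_atTop _
  have ev3 : ∀ᶠ X : ℕ in atTop, De f2 ⌊(X : ℝ) ^ (1 / (r₁ : ℝ))⌋₊ *
      Real.log (⌊(X : ℝ) ^ (1 / (r₁ : ℝ))⌋₊ : ℕ) < K :=
    hy.eventually (hlim.eventually (gt_mem_nhds (by rw [hK]; linarith)))
  have ev4 : ∀ᶠ X : ℕ in atTop, (4 : ℝ) ≤ (X : ℝ) ^ (1 / (r₁ : ℝ)) :=
    ((tendsto_rpow_atTop (by positivity)).comp hXr).eventually_ge_atTop _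
  filter_upwards [h2, ev1, ev2, ev3, ev4, eventually_ge_atTop 3, eventually_ge_atTop X0] with X g2 e1 e2 e3 e4 e5 e6
  have hX3 : (3 : ℝ) ≤ X := by exact_mod_cast e5
  have hX0 : (0 : ℝ) < X := by linarith
  have hX1 : (1 : ℝ) ≤ X := by linarith
  have hlX : 0 < Real.log X := Real.log_pos (by linarith)
  set H : ℕ := ⌊(X : ℝ) ^ h⌋₊ with hH
  set y : ℕ := ⌊(X : ℝ) ^ (1 / (r₁ : ℝ))⌋₊ with hydef
  have hHle : (H : ℝ) ≤ (X : ℝ) ^ h := Nat.floor_le (by positivity)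
  have hHX : (X : ℝ) ^ h ≤ X := by
    calc (X : ℝ) ^ h ≤ (X : ℝ) ^ (1 : ℝ) := Real.rpow_le_rpow_of_exponent_le hX1 (by linarith)
      _ = X := Real.rpow_one _
  have hXhalf : (X : ℝ) ^ (h / 2) ≤ H := by
    have h1 : (X : ℝ) ^ h = (X : ℝ) ^ (h / 2) * (X : ℝ) ^ (h / 2) := by
      rw [← Real.rpow_add hX0]; congr 1; ring
    have h2 : (X : ℝ) ^ h < H + 1 := Nat.lt_floor_add_one _
    nlinarith
  -- the density
  have hDe0 : 0 ≤ De f2 y := by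
    rw [De_eq, D1_GG]
    apply mul_nonneg (GG_pos _).le
    unfold RR
    apply Finset.prod_nonneg
    intro p hp
    have hpp := (mem_filter.1 hp).2.1
    have hp2 := (mem_filter.1 hp).2.2
    have h3 : (3 : ℝ) ≤ p := by
      have : 3 ≤ p := by
        have := hpp.two_le
        omega
      exact_mod_cast this
    rw [sub_nonneg, div_le_one (by linarith)]
    rcases jacobiSym.trichotomy (-(-2)) p with h | h | h <;> rw [h] <;> push_cast <;> linarith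
  have hlogy : Real.log X / (2 * r₁) ≤ Real.log y := by
    have h4 : (X : ℝ) ^ (1 / (r₁ : ℝ)) / 2 ≤ y := by
      have := Nat.lt_floor_add_one ((X : ℝ) ^ (1 / (r₁ : ℝ)))
      rw [← hydef] at this
      linarith
    have h5 : ((X : ℝ) ^ (1 / (r₁ : ℝ))) ^ (1 / 2 : ℝ) ≤ (X : ℝ) ^ (1 / (r₁ : ℝ)) / 2 := by
      rw [← Real.sqrt_eq_rpow, Real.sqrt_le_left (by positivity)]
      nlinarith
    have h6 : Real.log (((X : ℝ) ^ (1 / (r₁ : ℝ))) ^ (1 / 2 : ℝ)) ≤ Real.log y :=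
      Real.log_le_log (by positivity) (h5.trans h4)
    rw [Real.log_rpow (by positivity), Real.log_rpow hX0] at h6
    calc Real.log X / (2 * r₁) = 1 / 2 * (1 / (r₁ : ℝ) * Real.log X) := by field_simp
      _ ≤ _ := h6
  have hDeup : De f2 y ≤ K * (2 * r₁) / Real.log X := by
    rw [le_div_iff₀ hlX]
    have h7 : Real.log X ≤ 2 * r₁ * Real.log y := by
      rw [div_le_iff₀ (by positivity)] at hlogy
      linarith
    calc De f2 y * Real.log X ≤ De f2 y * (2 * r₁ * Real.log y) := mul_le_mul_of_nonneg_left h7 hDe0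
      _ = (De f2 y * Real.log y) * (2 * r₁) := by ring
      _ ≤ K * (2 * r₁) := mul_le_mul_of_nonneg_right e3.le (by positivity)
  have hyw : ∀ m ∈ S r ((X : ℝ) ^ z), Ro f2 y m := by
    intro m hm p hp hpy hd
    have h3 := hm.2 p hp hd
    have h4 : (p : ℝ) ≤ (X : ℝ) ^ (1 / (r₁ : ℝ)) := by
      have : (p : ℝ) ≤ y := by exact_mod_cast hpy
      exact this.trans (Nat.floor_le (by positivity))
    have h5 : (X : ℝ) ^ (1 / (r₁ : ℝ)) < (X : ℝ) ^ z :=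
      Real.rpow_lt_rpow_of_exponent_lt (by linarith) hr₁z
    linarith
  -- the good `M`
  have hgood : ∀ M : ℕ, H ≤ M → δ₀ * (X : ℝ) ^ h / Real.log X ≤ ((gset (-2) r ((X : ℝ) ^ z) M H).card : ℝ) →
      (cnt (Irregular (S r ((X : ℝ) ^ z)) (1 / De f2 y) c δ B H) M (M + H) : ℝ) ≤
        η * (cnt (S r ((X : ℝ) ^ z)) M (M + H) : ℝ) := by
    intro M hM hlow
    rw [gset_cnt] at hlow
    have h3 := g2 (Pool.Agent.TH464.PW.quad 1 0 (-2)) f2 (good2 X (by omega)) y rfl (by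
        rw [De_eq, mul_comm]
        exact mul_le_mul_of_nonneg_right ((hB0 _).trans (le_max_left _ _)) (by rw [D1_GG]; exact (GG_pos _).le))
      M H hXhalf (by
        have : (H : ℝ) ≤ X := hHle.trans hHX
        exact_mod_cast this) hM (S r ((X : ℝ) ^ z)) hyw
    refine h3.trans ?_
    have h4 : (H : ℝ) * De f2 y ≤ (X : ℝ) ^ h * (K * (2 * r₁) / Real.log X) :=
      mul_le_mul hHle hDeup hDe0 (by positivity)
    calc η * δ₀ / (2 * (K * (2 * r₁))) * (H * De f2 y) ≤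
          η * δ₀ / (2 * (K * (2 * r₁))) * ((X : ℝ) ^ h * (K * (2 * r₁) / Real.log X)) :=
          mul_le_mul_of_nonneg_left h4 (by positivity)
      _ = η / 2 * (δ₀ * (X : ℝ) ^ h / Real.log X) := by field_simp
      _ ≤ η * (δ₀ * (X : ℝ) ^ h / Real.log X) := by
          apply mul_le_mul_of_nonneg_right (by linarith) (by positivity)
      _ ≤ _ := mul_le_mul_of_nonneg_left hlow hη.le
  -- the exceptions
  have hsub : (Icc 1 X).filter (fun M =>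
        η * (cnt (S r ((X : ℝ) ^ z)) M (M + H) : ℝ) <
        (cnt (Irregular (S r ((X : ℝ) ^ z)) (1 / De f2 y) c δ B H) M (M + H) : ℝ)) ⊆
      range H ∪ (Icc 1 X).filter (fun M =>
        ((gset (-2) r ((X : ℝ) ^ z) M H).card : ℝ) < δ₀ * (X : ℝ) ^ h / Real.log X) := by
    intro M hM
    rw [mem_filter, mem_Icc] at hM
    rw [mem_union, mem_range, mem_filter, mem_Icc]
    by_contra hcon
    push Not at hcon
    obtain ⟨h1, h3⟩ := hcon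
    have h4 := h3 hM.1
    exact absurd (hgood M h1 h4) (not_le.2 hM.2)
  have hc1 := (card_le_card hsub).trans (card_union_le _ _)
  rw [card_range] at hc1
  have hc3 := HF X e6
  have hpw : (X : ℝ) ^ (2 * t - h) ≤ (X : ℝ) ^ (2 * t - h + ε / 2) :=
    Real.rpow_le_rpow_of_exponent_le hX1 (by linarith)
  have hH2 : (H : ℝ) ≤ (X : ℝ) ^ (2 * t - h) :=
    hHle.trans (Real.rpow_le_rpow_of_exponent_le hX1 (by linarith))
  have hc4 : (((Icc 1 X).filter (fun M =>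
        η * (cnt (S r ((X : ℝ) ^ z)) M (M + H) : ℝ) <
        (cnt (Irregular (S r ((X : ℝ) ^ z)) (1 / De f2 y) c δ B H) M (M + H) : ℝ))).card : ℝ) ≤
      (H : ℝ) + (X : ℝ) ^ (2 * t - h + ε / 2) := by
    refine le_trans ?_ (add_le_add le_rfl hc3)
    exact_mod_cast hc1
  refine hc4.trans ?_
  have hev4 : (X : ℝ) ^ (2 * t - h + ε) = (X : ℝ) ^ (ε / 2) * (X : ℝ) ^ (2 * t - h + ε / 2) := by
    rw [← Real.rpow_add hX0]; congr 1; ring
  rw [hev4]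
  have h5 : (0 : ℝ) < (X : ℝ) ^ (2 * t - h + ε / 2) := by positivity
  calc (H : ℝ) + (X : ℝ) ^ (2 * t - h + ε / 2) ≤
      4 * (X : ℝ) ^ (2 * t - h + ε / 2) := by linarith
    _ ≤ (X : ℝ) ^ (ε / 2) * (X : ℝ) ^ (2 * t - h + ε / 2) := by gcongr

end Pool.Agent.T2H62.RegM2
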