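import Pool.Agent.T2H62.SUa

set_option autoImplicit false

/-! The primes of the families of Ankeny, Chowla, Hasse and Lang in almost all short intervals. -/

namespace Pool.Agent.T2H62.SUab

open Filter Finset Topology
open Pool.Agent.Y781.JR (RR)
open Pool.Agent.T2H62.SU (primesIn)

/-- the family of Ankeny, Chowla and Hasse -/
def InA (p : ℕ) : Prop := p.Prime ∧ ∃ q n : ℕ, q.Prime ∧ 1 < n ∧ p = (2 * q * n) ^ 2 + 1

/-- the family of Lang -/
def InB (p : ℕ) : Prop := p.Prime ∧ ∃ q n : ℕ, q.Prime ∧ 1 ≤ n ∧ p = ((2 * n + 1) * q) ^ 2 + 4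

open Classical in
/-- the number of the `m` in `(N, N + H]` with `m ^ 2 + 1` in the first family, plus the number of the `m` in
`(N, N + H]` with `m ^ 2 + 4` in the second family -/
noncomputable def count (N H : ℕ) : ℕ :=
  ((Ioc N (N + H)).filter (fun m => InA (m ^ 2 + 1))).card + ((Ioc N (N + H)).filter (fun m => InB (m ^ 2 + 4))).card

lemma RR4 (N : ℕ) : RR 4 N = RR 1 N := by
  unfold RR
  apply Finset.prod_congr rfl
  intro p hp
  have h := (mem_filter.1 hp).2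
  have e : jacobiSym (-4) p = jacobiSym (-1) p := by
    have h4 : (-4 : ℤ) = -1 * 2 ^ 2 := by norm_num
    rw [h4, jacobiSym.mul_left, jacobiSym.sq_one', mul_one]
    rw [Int.gcd_eq_natAbs]
    have h2 : Nat.Coprime 2 p := by
      rw [Nat.coprime_primes Nat.prime_two h.1]
      exact fun h3 => h.2 h3.symm
    simpa using h2
  rw [e]

lemma ns (a : ℤ) (ha : 0 < a) : ¬ IsSquare (-a) := by
  rintro ⟨r, hr⟩
  have := mul_self_nonneg r
  omega

lemma count_le (N H : ℕ) : count N H ≤ primesIn 1 N H + primesIn 4 N H := by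
  classical
  unfold count primesIn
  apply Nat.add_le_add
  · apply card_le_card
    intro m hm
    rw [mem_filter] at hm ⊢
    refine ⟨hm.1, ?_⟩
    have e : ((m : ℤ) ^ 2 + 1).toNat = m ^ 2 + 1 := by
      have : ((m : ℤ) ^ 2 + 1) = ((m ^ 2 + 1 : ℕ) : ℤ) := by push_cast; ring
      rw [this, Int.toNat_natCast]
    rw [e]
    exact hm.2.1
  · apply card_le_card
    intro m hm
    rw [mem_filter] at hm ⊢
    refine ⟨hm.1, ?_⟩
    have e : ((m : ℤ) ^ 2 + 4).toNat = m ^ 2 + 4 := by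
      have : ((m : ℤ) ^ 2 + 4) = ((m ^ 2 + 4 : ℕ) : ℤ) := by push_cast; ring
      rw [this, Int.toNat_natCast]
    rw [e]
    exact hm.2.1

theorem main : ∃ L : ℝ, 0 < L ∧ Tendsto (RR 1) atTop (𝓝 L) ∧
    ∀ h τ δ ε : ℝ, 0 < h → h ≤ 1 → 1 / 2 ≤ τ → τ < 1 → 0 < δ → 0 < ε →
      ∀ᶠ X : ℕ in atTop, (((Icc 1 X).filter (fun N : ℕ =>
        (4 / τ + δ) * (L * ((X : ℝ) ^ h / Real.log X)) <
          (count N ⌊(X : ℝ) ^ h⌋₊ : ℝ))).card : ℝ) ≤ (X : ℝ) ^ (2 * τ - h + ε) := by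
  classical
  obtain ⟨L, hL, h1, h2⟩ := Pool.Agent.T2H62.SU.main 1 (ns 1 one_pos)
  obtain ⟨L', hL', h1', h2'⟩ := Pool.Agent.T2H62.SU.main 4 (ns 4 (by norm_num))
  have hLL : L' = L := by
    apply tendsto_nhds_unique h1'
    exact h1.congr (fun N => (RR4 N).symm)
  rw [hLL] at h2'
  refine ⟨L, hL, h1, fun h τ δ ε a1 a2 a3 a4 a5 a6 => ?_⟩
  have hXr : Tendsto (fun X : ℕ => (X : ℝ)) atTop atTop := tendsto_natCast_atTop_atTop
  have ev2 : ∀ᶠ X : ℕ in atTop, (2 : ℝ) ≤ (X : ℝ) ^ (ε / 2) :=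
    ((tendsto_rpow_atTop (by linarith)).comp hXr).eventually_ge_atTop _
  filter_upwards [h2 h τ δ (ε / 2) a1 a2 a3 a4 a5 (by linarith), h2' h τ δ (ε / 2) a1 a2 a3 a4 a5 (by linarith), ev2,
    eventually_ge_atTop 1] with X g1 g2 g3 g4
  have hX0 : (0 : ℝ) < X := by exact_mod_cast g4
  set K := (4 / τ + δ) * (L / 2 * ((X : ℝ) ^ h / Real.log X)) with hK
  have hsub : (Icc 1 X).filter (fun N : ℕ =>
        (4 / τ + δ) * (L * ((X : ℝ) ^ h / Real.log X)) < (count N ⌊(X : ℝ) ^ h⌋₊ : ℝ)) ⊆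
      (Icc 1 X).filter (fun N : ℕ => K < (primesIn 1 N ⌊(X : ℝ) ^ h⌋₊ : ℝ)) ∪
      (Icc 1 X).filter (fun N : ℕ => K < (primesIn 4 N ⌊(X : ℝ) ^ h⌋₊ : ℝ)) := by
    intro N hN
    rw [mem_filter] at hN
    rw [mem_union, mem_filter, mem_filter]
    by_contra hcon
    push Not at hcon
    have c1 := hcon.1 hN.1
    have c2 := hcon.2 hN.1
    have c3 : (count N ⌊(X : ℝ) ^ h⌋₊ : ℝ) ≤ (primesIn 1 N ⌊(X : ℝ) ^ h⌋₊ : ℝ) + (primesIn 4 N ⌊(X : ℝ) ^ h⌋₊ : ℝ) := by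
      exact_mod_cast count_le N _
    have c4 : (4 / τ + δ) * (L * ((X : ℝ) ^ h / Real.log X)) = K + K := by rw [hK]; ring
    have c5 := hN.2
    linarith
  have hc := (card_le_card hsub).trans (card_union_le _ _)
  have hc' : (((Icc 1 X).filter (fun N : ℕ =>
        (4 / τ + δ) * (L * ((X : ℝ) ^ h / Real.log X)) < (count N ⌊(X : ℝ) ^ h⌋₊ : ℝ))).card : ℝ) ≤
      (X : ℝ) ^ (2 * τ - h + ε / 2) + (X : ℝ) ^ (2 * τ - h + ε / 2) := by
    refine le_trans ?_ (add_le_add g1 g2)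
    exact_mod_cast hc
  refine hc'.trans ?_
  have e : (X : ℝ) ^ (2 * τ - h + ε) = (X : ℝ) ^ (ε / 2) * (X : ℝ) ^ (2 * τ - h + ε / 2) := by
    rw [← Real.rpow_add hX0]; congr 1; ring
  rw [e]
  have h5 : (0 : ℝ) < (X : ℝ) ^ (2 * τ - h + ε / 2) := by positivity
  nlinarith

end Pool.Agent.T2H62.SUab
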