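import Pool.Agent.R490.Single
import Pool.Agent.Y781.JR.Dens
import Pool.Agent.TH464.PW.Quad

set_option autoImplicit false

/-! The numbers `(2 q n) ^ 2 + 1` and `((2 n + 1) q) ^ 2 + 4` without small prime factors: the spacing laws, uniformly in
the prime `q`. -/

namespace Pool.Agent.T2H62.SpAB

open Polynomial Finset Filter Topology
open Pool.Agent.R490.Sg (Ro De D1 Dk gapS Good)
open Pool.Agent.Y781.JR (RR GG RR_conv dens_eq GG_pos)
open Pool.Agent.TH464.PW (quad quad_eval quad_irr quad_deg)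

/-- the two families -/
def fam (e : Bool) (q : ℕ) : ℤ → ℤ := fun x => if e then ((2 * x + 1) * q) ^ 2 + 4 else (2 * q * x) ^ 2 + 1

/-- the polynomial `x ^ 2 + 1` -/
def f1 : ℤ → ℤ := fun x => x ^ 2 + 1

lemma roots_le (e : Bool) (q p : ℕ) (hp : p.Prime) (h2q : ¬ (p : ℤ) ∣ 2 * q) :
    ((range p).filter (fun m : ℕ => (p : ℤ) ∣ f1 (m : ℤ))).card ≤
      ((range p).filter (fun m : ℕ => (p : ℤ) ∣ fam e q (m : ℤ))).card := by
  have : Fact p.Prime := ⟨hp⟩
  have hc : (2 * q : ZMod p) ≠ 0 := fun h => h2q (by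
    rw [← ZMod.intCast_zmod_eq_zero_iff_dvd]
    push_cast
    exact h)
  have h2 : (2 : ZMod p) ≠ 0 := fun h => hc (by rw [h, zero_mul])
  have hq : (q : ZMod p) ≠ 0 := fun h => hc (by rw [h, mul_zero])
  have hval : ∀ m : ℕ, m < p → ((m : ZMod p)).val = m := fun m hm => ZMod.val_cast_of_lt hm
  cases e
  · apply Finset.card_le_card_of_injOn (fun m : ℕ => ((m : ZMod p) / (2 * q)).val)
    · intro m hm
      simp only [coe_filter, mem_range, Set.mem_ofPred_eq] at hm ⊢
      refine ⟨ZMod.val_lt _, ?_⟩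
      rw [← ZMod.intCast_zmod_eq_zero_iff_dvd]
      have h3 := (ZMod.intCast_zmod_eq_zero_iff_dvd _ _).2 hm.2
      unfold f1 at h3
      unfold fam
      simp only [Bool.false_eq_true, if_false]
      push_cast at h3 ⊢
      rw [ZMod.natCast_zmod_val]
      have : (2 * (q : ZMod p) * ((m : ZMod p) / (2 * q))) = m := by field_simp
      rw [this]
      exact h3
    · intro m hm m' hm' h
      simp only [coe_filter, mem_range, Set.mem_ofPred_eq] at hm hm'
      have h3 : (m : ZMod p) / (2 * q) = (m' : ZMod p) / (2 * q) := ZMod.val_injective p h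
      have h4 : (m : ZMod p) = m' := by
        have := congrArg (fun x => x * (2 * (q : ZMod p))) h3
        simpa [div_mul_cancel₀ _ hc] using this
      rw [← hval m hm.1, ← hval m' hm'.1, h4]
  · apply Finset.card_le_card_of_injOn (fun m : ℕ => (((2 * m : ZMod p) / q - 1) / 2).val)
    · intro m hm
      simp only [coe_filter, mem_range, Set.mem_ofPred_eq] at hm ⊢
      refine ⟨ZMod.val_lt _, ?_⟩
      rw [← ZMod.intCast_zmod_eq_zero_iff_dvd]
      have h3 := (ZMod.intCast_zmod_eq_zero_iff_dvd _ _).2 hm.2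
      unfold f1 at h3
      unfold fam
      simp only [if_true]
      push_cast at h3 ⊢
      rw [ZMod.natCast_zmod_val]
      have : ((2 * (((2 * m : ZMod p) / q - 1) / 2) + 1) * (q : ZMod p)) = 2 * m := by field_simp; ring
      rw [this]
      linear_combination 4 * h3
    · intro m hm m' hm' h
      simp only [coe_filter, mem_range, Set.mem_ofPred_eq] at hm hm'
      have h3 : ((2 * m : ZMod p) / q - 1) / 2 = ((2 * m' : ZMod p) / q - 1) / 2 := ZMod.val_injective p h
      have h4 : (m : ZMod p) = m' := by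
        field_simp at h3
        have h5 : (2 : ZMod p) * m = 2 * m' := by linear_combination h3
        exact mul_left_cancel₀ h2 h5
      rw [← hval m hm.1, ← hval m' hm'.1, h4]

lemma D1_GG (y : ℕ) : D1 y = GG (y + 1) := rfl

lemma De1_dens (y : ℕ) : De f1 y = Pool.Agent.Y882.JR.dens 1 ((y + 1 : ℕ) : ℝ) := by
  classical
  unfold De Pool.Agent.Y882.JR.dens
  rw [Nat.ceil_natCast]
  apply Finset.prod_congr rfl
  intro p _
  congr 3

lemma De1_eq (y : ℕ) : De f1 y = D1 y * RR 1 (y + 1) := by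
  rw [De1_dens, dens_eq, Nat.ceil_natCast, D1_GG]

/-- at most two roots -/
lemma two_roots (p : ℕ) (hp : p.Prime) (h3 : p ≠ 2) :
    ((range p).filter (fun m : ℕ => (p : ℤ) ∣ f1 (m : ℤ))).card ≤ 2 ∧
    (p = 3 → ((range p).filter (fun m : ℕ => (p : ℤ) ∣ f1 (m : ℤ))).card = 0) := by
  constructor
  · by_contra hcon
    push Not at hcon
    obtain ⟨a, ha, b, hb, c, hc, hab, hac, hbc⟩ := Finset.two_lt_card.1 hcon
    simp only [mem_filter, mem_range] at ha hb hc
    unfold f1 at ha hb hc
    have hpz : Prime (p : ℤ) := Nat.prime_iff_prime_int.1 hp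
    have key : ∀ x y : ℕ, x < p → y < p → (p : ℤ) ∣ (x : ℤ) ^ 2 + 1 → (p : ℤ) ∣ (y : ℤ) ^ 2 + 1 → x ≠ y → x + y = p := by
      intro x y hx hy h1 h2 hxy
      have h3 : (p : ℤ) ∣ ((x : ℤ) - y) * (x + y) := by
        have := dvd_sub h1 h2
        have e : (x : ℤ) ^ 2 + 1 - ((y : ℤ) ^ 2 + 1) = ((x : ℤ) - y) * (x + y) := by ring
        rwa [e] at this
      rcases hpz.dvd_or_dvd h3 with h | h
      · exfalso
        obtain ⟨k, hk⟩ := h
        have h4 : -(p : ℤ) < p * k := by omega
        have h5 : (p : ℤ) * k < p := by omega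
        have hp0 : (0 : ℤ) < p := by exact_mod_cast hp.pos
        have h6 : -1 < k := by nlinarith
        have h7 : k < 1 := by nlinarith
        have : k = 0 := by omega
        subst this
        omega
      · obtain ⟨k, hk⟩ := h
        have hp0 : (0 : ℤ) < p := by exact_mod_cast hp.pos
        have h5 : (p : ℤ) * k < 2 * p := by omega
        have h7 : k < 2 := by nlinarith
        have h8 : 0 ≤ (p : ℤ) * k := by omega
        have h9 : 0 ≤ k := by
          by_contra h
          push Not at h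
          nlinarith
        have : k = 0 ∨ k = 1 := by omega
        rcases this with rfl | rfl
        · have hx0 : x = 0 := by omega
          have hy0 : y = 0 := by omega
          omega
        · omega
    have k1 := key a b ha.1 hb.1 ha.2 hb.2 hab
    have k2 := key a c ha.1 hc.1 ha.2 hc.2 hac
    omega
  · rintro rfl
    decide

lemma fac_le (e : Bool) (q : ℕ) (hq : q.Prime) (p : ℕ) (hp : p.Prime) :
    0 ≤ 1 - (((range p).filter (fun m : ℕ => (p : ℤ) ∣ fam e q (m : ℤ))).card : ℝ) / p ∧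
    1 - (((range p).filter (fun m : ℕ => (p : ℤ) ∣ fam e q (m : ℤ))).card : ℝ) / p ≤
      ((if p = 2 then 2 else 1) * (if p = q then 5 / 3 else 1)) *
        (1 - (((range p).filter (fun m : ℕ => (p : ℤ) ∣ f1 (m : ℤ))).card : ℝ) / p) := by
  have hp0 : (0 : ℝ) < p := by exact_mod_cast hp.pos
  have hcard : (((range p).filter (fun m : ℕ => (p : ℤ) ∣ fam e q (m : ℤ))).card : ℝ) ≤ p := by
    have := card_filter_le (range p) (fun m : ℕ => (p : ℤ) ∣ fam e q (m : ℤ))
    rw [card_range] at this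
    exact_mod_cast this
  have h0 : 0 ≤ (((range p).filter (fun m : ℕ => (p : ℤ) ∣ fam e q (m : ℤ))).card : ℝ) / p := by positivity
  refine ⟨by rw [sub_nonneg, div_le_one hp0]; exact hcard, ?_⟩
  by_cases h2 : p = 2
  · subst h2
    have hr : ((range 2).filter (fun m : ℕ => ((2 : ℕ) : ℤ) ∣ f1 (m : ℤ))).card = 1 := by decide
    rw [hr, if_pos rfl]
    have h4 : (1 : ℝ) ≤ if 2 = q then 5 / 3 else 1 := by split_ifs <;> norm_num
    push_cast
    push_cast at h0
    nlinarith
  · obtain ⟨hr1, hr2⟩ := two_roots p hp h2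
    by_cases hpq : p = q
    · rw [if_neg h2, if_pos hpq]
      have h5 : (3 / 5 : ℝ) ≤ 1 - (((range p).filter (fun m : ℕ => (p : ℤ) ∣ f1 (m : ℤ))).card : ℝ) / p := by
        by_cases h3 : p = 3
        · rw [hr2 h3]
          norm_num
        · have h5 : 5 ≤ p := by
            have := hp.two_le
            have h4 : p ≠ 4 := fun h => by rw [h] at hp; exact absurd hp (by norm_num)
            omega
          have h5' : (5 : ℝ) ≤ p := by exact_mod_cast h5
          have hr1' : (((range p).filter (fun m : ℕ => (p : ℤ) ∣ f1 (m : ℤ))).card : ℝ) ≤ 2 := by exact_mod_cast hr1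
          have : (((range p).filter (fun m : ℕ => (p : ℤ) ∣ f1 (m : ℤ))).card : ℝ) / p ≤ 2 / 5 :=
            div_le_div₀ (by norm_num) hr1' (by norm_num) h5'
          linarith
      linarith
    · rw [if_neg h2, if_neg hpq, one_mul, one_mul]
      have hpz : Prime (p : ℤ) := Nat.prime_iff_prime_int.1 hp
      have h6 := roots_le e q p hp (by
        intro h
        rcases hpz.dvd_or_dvd h with h | h
        · have : p ∣ 2 := by exact_mod_cast h
          exact h2 ((Nat.prime_dvd_prime_iff_eq hp Nat.prime_two).1 this)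
        · have : p ∣ q := by exact_mod_cast h
          exact hpq ((Nat.prime_dvd_prime_iff_eq hp hq).1 this))
      have h7 : (((range p).filter (fun m : ℕ => (p : ℤ) ∣ f1 (m : ℤ))).card : ℝ) ≤
        (((range p).filter (fun m : ℕ => (p : ℤ) ∣ fam e q (m : ℤ))).card : ℝ) := by exact_mod_cast h6
      have := div_le_div_of_nonneg_right h7 hp0.le
      linarith

lemma f1_nonneg (p : ℕ) (hp : p.Prime) :
    0 ≤ 1 - (((range p).filter (fun m : ℕ => (p : ℤ) ∣ f1 (m : ℤ))).card : ℝ) / p := by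
  have hp0 : (0 : ℝ) < p := by exact_mod_cast hp.pos
  rw [sub_nonneg, div_le_one hp0]
  have := card_filter_le (range p) (fun m : ℕ => (p : ℤ) ∣ f1 (m : ℤ))
  rw [card_range] at this
  exact_mod_cast this

lemma De_le (e : Bool) (q : ℕ) (hq : q.Prime) (y : ℕ) : De (fam e q) y ≤ 10 / 3 * De f1 y := by
  classical
  unfold De
  set s := (range (y + 1)).filter Nat.Prime with hs
  have h1 : ∏ p ∈ s, (1 - (((range p).filter (fun m : ℕ => (p : ℤ) ∣ fam e q (m : ℤ))).card : ℝ) / p) ≤
      ∏ p ∈ s, (((if p = 2 then 2 else 1) * (if p = q then 5 / 3 else 1)) *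
        (1 - (((range p).filter (fun m : ℕ => (p : ℤ) ∣ f1 (m : ℤ))).card : ℝ) / p)) := by
    apply Finset.prod_le_prod
    · intro p hp
      exact (fac_le e q hq p (mem_filter.1 hp).2).1
    · intro p hp
      exact (fac_le e q hq p (mem_filter.1 hp).2).2
  refine le_trans (le_of_eq ?_) (h1.trans ?_)
  · apply Finset.prod_congr rfl
    intro p _
    congr
  · rw [Finset.prod_mul_distrib, Finset.prod_mul_distrib]
    have h2 : ∏ p ∈ s, (if p = 2 then (2 : ℝ) else 1) ≤ 2 := by
      rw [Finset.prod_ite_eq']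
      split_ifs <;> norm_num
    have h3 : ∏ p ∈ s, (if p = q then (5 / 3 : ℝ) else 1) ≤ 5 / 3 := by
      rw [Finset.prod_ite_eq']
      split_ifs <;> norm_num
    have h4 : 0 ≤ ∏ p ∈ s, (if p = q then (5 / 3 : ℝ) else 1) :=
      Finset.prod_nonneg (fun p _ => by split_ifs <;> norm_num)
    have h5 : (∏ p ∈ s, (if p = 2 then (2 : ℝ) else 1)) * ∏ p ∈ s, (if p = q then (5 / 3 : ℝ) else 1) ≤ 10 / 3 := by
      calc (∏ p ∈ s, (if p = 2 then (2 : ℝ) else 1)) * ∏ p ∈ s, (if p = q then (5 / 3 : ℝ) else 1) ≤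
            2 * (5 / 3) := mul_le_mul h2 h3 h4 (by norm_num)
        _ = 10 / 3 := by norm_num
    have h6 : 0 ≤ ∏ p ∈ s, (1 - (((range p).filter (fun m : ℕ => (p : ℤ) ∣ f1 (m : ℤ))).card : ℝ) / p) :=
      Finset.prod_nonneg (fun p hp => f1_nonneg p (mem_filter.1 hp).2)
    refine (mul_le_mul_of_nonneg_right h5 h6).trans (le_of_eq ?_)
    congr 1

lemma ns1 : ¬ IsSquare (-(1 : ℤ)) := by
  rintro ⟨r, hr⟩
  nlinarith [mul_self_nonneg r]

/-- the coefficients -/
def cA (q : ℕ) : ℤ := 4 * (q : ℤ) ^ 2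

def cB (e : Bool) (q : ℕ) : ℤ := if e then 4 * (q : ℤ) ^ 2 else 0

def cC (e : Bool) (q : ℕ) : ℤ := if e then (q : ℤ) ^ 2 + 4 else 1

lemma good (e : Bool) (q A X : ℕ) (hq : q.Prime) (h2 : e = true → q ≠ 2) (hX : 2 ≤ X) (hqX : q ≤ X ^ A) :
    Good 2 ((X : ℤ) ^ (2 * A + 3)) (quad (cA q) (cB e q) (cC e q)) (fam e q) where
  ev := fun x => by
    rw [quad_eval]
    unfold fam cA cB cC
    cases e
    · simp only [Bool.false_eq_true, if_false]
      ring
    · simp only [if_true]
      ring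
  irr := by
    have hq0 : (0 : ℤ) < q := by exact_mod_cast hq.pos
    apply quad_irr (cA q) (cB e q) (cC e q) (by unfold cA; positivity)
    · rintro p hp ⟨h1, h3, h4⟩
      have hpz : Prime (p : ℤ) := Nat.prime_iff_prime_int.1 hp
      unfold cC at h4
      cases e
      · simp only [Bool.false_eq_true, if_false] at h4
        exact hp.one_lt.ne' (Nat.dvd_one.1 (by exact_mod_cast h4))
      · simp only [if_true] at h4
        have hq2 := h2 rfl
        unfold cA at h1
        have hcase : p = 2 ∨ p = q := by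
          have h5 : (p : ℤ) ∣ (2 * (q : ℤ)) ^ 2 := by
            have : (4 * (q : ℤ) ^ 2) = (2 * (q : ℤ)) ^ 2 := by ring
            rwa [this] at h1
          rcases hpz.dvd_or_dvd (hpz.dvd_of_dvd_pow h5) with h | h
          · left
            have : p ∣ 2 := by exact_mod_cast h
            exact (Nat.prime_dvd_prime_iff_eq hp Nat.prime_two).1 this
          · right
            have : p ∣ q := by exact_mod_cast h
            exact (Nat.prime_dvd_prime_iff_eq hp hq).1 this
        have hqodd : q % 2 = 1 := by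
          rcases hq.eq_two_or_odd with h | h
          · exact absurd h hq2
          · exact h
        rcases hcase with rfl | rfl
        · obtain ⟨k, hk⟩ : ∃ k : ℤ, (q : ℤ) = 2 * k + 1 := ⟨(q : ℤ) / 2, by omega⟩
          rw [hk] at h4
          have h3 : ((2 * k + 1) ^ 2 + 4 : ℤ) = 2 * (2 * k ^ 2 + 2 * k + 2) + 1 := by ring
          rw [h3] at h4
          push_cast at h4
          omega
        · have h6 : (p : ℤ) ∣ 4 := (dvd_add_right (dvd_pow_self _ two_ne_zero)).1 h4
          have h7 : p ∣ 4 := by exact_mod_cast h6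
          have h8 : p ∣ 2 ^ 2 := by simpa using h7
          exact hq2 ((Nat.prime_dvd_prime_iff_eq hp Nat.prime_two).1 (hp.dvd_of_dvd_pow h8))
    · rintro ⟨r, hr⟩
      have h1 : 0 ≤ r * r := mul_self_nonneg r
      have h2' : cB e q ^ 2 - 4 * cA q * cC e q < 0 := by
        unfold cA cB cC
        cases e
        · simp only [Bool.false_eq_true, if_false]
          have := pow_pos hq0 2
          nlinarith
        · simp only [if_true]
          have : (4 * (q : ℤ) ^ 2) ^ 2 - 4 * (4 * (q : ℤ) ^ 2) * ((q : ℤ) ^ 2 + 4) = -(64 * (q : ℤ) ^ 2) := by ring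
          rw [this]
          have := pow_pos hq0 2
          linarith
      omega
  deg := by
    have hq0 : (0 : ℤ) < q := by exact_mod_cast hq.pos
    rw [quad_deg _ _ _ (by unfold cA; positivity)]
    norm_num
  degD := by
    have hq0 : (0 : ℤ) < q := by exact_mod_cast hq.pos
    rw [quad_deg _ _ _ (by unfold cA; positivity)]
  hgt := fun n => by
    have hX2 : (2 : ℤ) ≤ X := by exact_mod_cast hX
    have hq' : (q : ℤ) ≤ (X : ℤ) ^ A := by exact_mod_cast hqX
    have hq0 : (0 : ℤ) ≤ q := Nat.cast_nonneg q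
    have hqq : (q : ℤ) ^ 2 ≤ (X : ℤ) ^ (2 * A) := by
      calc (q : ℤ) ^ 2 ≤ ((X : ℤ) ^ A) ^ 2 := pow_le_pow_left₀ hq0 hq' 2
        _ = (X : ℤ) ^ (2 * A) := by rw [← pow_mul, mul_comm]
    have h1 : (1 : ℤ) ≤ (X : ℤ) ^ (2 * A) := one_le_pow₀ (by linarith)
    have h8 : (8 : ℤ) * (X : ℤ) ^ (2 * A) ≤ (X : ℤ) ^ (2 * A + 3) := by
      rw [pow_add, mul_comm]
      apply mul_le_mul_of_nonneg_left _ (by positivity)
      calc (8 : ℤ) = 2 ^ 3 := by norm_num
        _ ≤ (X : ℤ) ^ 3 := pow_le_pow_left₀ (by norm_num) hX2 3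
    have hq2nn : (0 : ℤ) ≤ (q : ℤ) ^ 2 := by positivity
    apply Pool.Agent.Y879.GL.quad_coeff
    · unfold cA
      rw [abs_of_nonneg (by positivity)]
      linarith
    · unfold cB
      split_ifs
      · rw [abs_of_nonneg (by positivity)]
        linarith
      · rw [abs_zero]; positivity
    · unfold cC
      split_ifs
      · rw [abs_of_nonneg (by positivity)]
        linarith
      · rw [abs_one]
        linarith
  adm := fun p hp => by
    have hpz : Prime (p : ℤ) := Nat.prime_iff_prime_int.1 hp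
    cases e
    · refine ⟨0, fun h => ?_⟩
      unfold fam at h
      norm_num at h
      exact hp.one_lt.ne' (Nat.dvd_one.1 (by exact_mod_cast h))
    · have hq2 := h2 rfl
      by_cases hp2 : p = 2
      · refine ⟨0, fun h => ?_⟩
        subst hp2
        unfold fam at h
        simp only [if_true] at h
        have hqodd : q % 2 = 1 := by
          rcases hq.eq_two_or_odd with h | h
          · exact absurd h hq2
          · exact h
        obtain ⟨k, hk⟩ : ∃ k : ℤ, (q : ℤ) = 2 * k + 1 := ⟨(q : ℤ) / 2, by omega⟩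
        rw [hk] at h
        have h3 : ((2 * ((0 : ℕ) : ℤ) + 1) * (2 * k + 1)) ^ 2 + 4 = 2 * (2 * k ^ 2 + 2 * k + 2) + 1 := by
          push_cast; ring
        rw [h3] at h
        push_cast at h
        omega
      · -- `2 m + 1 = p`
        refine ⟨(p - 1) / 2, fun h => ?_⟩
        have hpodd : p % 2 = 1 := by
          rcases hp.eq_two_or_odd with h | h
          · exact absurd h hp2
          · exact h
        unfold fam at h
        simp only [if_true] at h
        have e1 : (2 * (((p - 1) / 2 : ℕ) : ℤ) + 1) = p := by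
          have : 2 * ((p - 1) / 2) + 1 = p := by
            have := hp.two_le
            omega
          exact_mod_cast this
        rw [e1] at h
        have h6 : (p : ℤ) ∣ 4 := (dvd_add_right (dvd_pow (dvd_mul_right _ _) two_ne_zero)).1 h
        have h7 : p ∣ 4 := by exact_mod_cast h6
        have h8 : p ∣ 2 ^ 2 := by simpa using h7
        exact hp2 ((Nat.prime_dvd_prime_iff_eq hp Nat.prime_two).1 (hp.dvd_of_dvd_pow h8))

/-- **the law** -/
theorem law (A : ℕ) (θ : ℝ) (hθ : 0 < θ) (k0 : ℕ) (x0 ε : ℝ) (hε : 0 < ε) :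
    ∃ r0 : ℕ, ∀ r : ℕ, r0 ≤ r → ∀ᶠ X : ℕ in atTop, ∀ y : ℕ, y = ⌊(X : ℝ) ^ (1 / (r : ℝ))⌋₊ →
      ∀ (e : Bool) (q : ℕ), q.Prime → q ≤ X ^ A → (e = true → q ≠ 2) →
      ∀ u Y : ℕ, (X : ℝ) ^ θ ≤ Y → ∀ k T : ℕ, (k ≤ k0 ∨ T * De (fam e q) y ≤ x0) →
        |(Dk (fam e q) y k T u Y : ℝ) - Y * De (fam e q) y *
          ∑ j ∈ range k, Real.exp (-(T * De (fam e q) y)) * (T * De (fam e q) y) ^ j / j.factorial| ≤
          ε * (Y * De (fam e q) y) := by
  obtain ⟨r0, h0⟩ := gapS 2 (2 * A + 3) θ hθ k0 x0 ε hε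
  obtain ⟨C, hC, hR⟩ := RR_conv 1 ns1
  obtain ⟨B, hB⟩ : ∃ B : ℝ, ∀ N : ℕ, RR 1 N ≤ B := by
    obtain ⟨B, hB⟩ := hR.bddAbove_range
    exact ⟨B, fun N => hB (Set.mem_range_self N)⟩
  refine ⟨r0, fun r hr => ?_⟩
  filter_upwards [h0 r hr (10 / 3 * B), eventually_ge_atTop 2] with X h1 h2
  intro y hy e q hq hqX he u Y hY k T hT
  refine h1 _ (fam e q) (good e q A X hq he h2 hqX) y hy ?_ u Y hY k T hT
  refine (De_le e q hq y).trans ?_
  rw [De1_eq]
  have h3 : 0 ≤ D1 y := by rw [D1_GG]; exact (GG_pos _).le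
  have h4 := mul_le_mul_of_nonneg_left (hB (y + 1)) h3
  nlinarith

end Pool.Agent.T2H62.SpAB
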