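import Pool.Agent.T2H62.LinG

/-!
Exact patterns of translates: Chen's theorem with coverings, and short intervals.
-/

set_option autoImplicit false

namespace Pool.Agent.T2H62.TU

open Finset Filter
open Pool.Agent.X32.Uni
open Pool.Agent.T2H62

variable {T W : Finset ℤ}

open Classical in
/-- `Q n + i` prime, `Q n + j` a product of two primes, `Q n + h`, `h ∈ T`, almost prime, `Q n + w`, `w ∈ W`, with a small
prime factor -/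
noncomputable def GC (Q : ℕ) (T W : Finset ℤ) (i j : ℤ) (C t X A B : ℕ) : Finset ℕ :=
  (Ioc A B).filter (fun n : ℕ => ((Q : ℤ) * n + i).natAbs.Prime ∧
    Almost 2 ((X : ℝ) ^ (1 / 9 : ℝ)) ((Q : ℤ) * n + j) ∧
    (∀ h ∈ T, Almost t ((X : ℝ) ^ (1 / (t : ℝ))) ((Q : ℤ) * n + h)) ∧
    ∀ w ∈ W, ∃ q : ℕ, q.Prime ∧ q ≤ C ∧ (q : ℤ) ∣ (Q : ℤ) * n + w)

open Classical in
/-- `Q n + h`, `h ∈ T`, almost prime, `Q n + w`, `w ∈ W`, with a small prime factor -/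
noncomputable def GN (Q : ℕ) (T W : Finset ℤ) (C t X A B : ℕ) : Finset ℕ :=
  (Ioc A B).filter (fun n : ℕ => (∀ h ∈ T, Almost t ((X : ℝ) ^ (1 / (t : ℝ))) ((Q : ℤ) * n + h)) ∧
    ∀ w ∈ W, ∃ q : ℕ, q.Prime ∧ q ≤ C ∧ (q : ℤ) ∣ (Q : ℤ) * n + w)

/-- the offsets -/
noncomputable def bT (T : Finset ℤ) : Fin T.card → ℤ := fun l => ((T.equivFin.symm l : T) : ℤ)

theorem bT_mem (l : Fin T.card) : bT T l ∈ T := (T.equivFin.symm l).2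

theorem bT_inj {l m : Fin T.card} (h : l ≠ m) : bT T l ≠ bT T m := by
  intro he
  exact h (T.equivFin.symm.injective (Subtype.ext he))

theorem bT_at {h : ℤ} (hh : h ∈ T) : bT T (T.equivFin ⟨h, hh⟩) = h := by
  unfold bT
  rw [Equiv.symm_apply_apply]

/-- the forms to be killed -/
noncomputable def kW (Q : ℕ) (W : Finset ℤ) : Finset (ℤ × ℤ) := W.image (fun w => ((Q : ℤ), w))

theorem kW_ne {Q : ℕ} (hQ : 1 ≤ Q) : ∀ τ ∈ kW Q W, τ.1 ≠ 0 := by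
  intro τ hτ
  unfold kW at hτ
  rw [mem_image] at hτ
  obtain ⟨w, _, rfl⟩ := hτ
  simp only
  exact_mod_cast (by omega : Q ≠ 0)

theorem kW_l {Q : ℕ} (hQ : 1 ≤ Q) (hTW : ∀ w ∈ W, w ∉ T) : ∀ τ ∈ kW Q W, ∀ l, τ.1 * bT T l - (Q : ℤ) * τ.2 ≠ 0 := by
  intro τ hτ l h0
  unfold kW at hτ
  rw [mem_image] at hτ
  obtain ⟨w, hw, rfl⟩ := hτ
  have hQ0 : (Q : ℤ) ≠ 0 := by exact_mod_cast (by omega : Q ≠ 0)
  simp only at h0
  rw [← mul_sub] at h0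
  rcases mul_eq_zero.1 h0 with h1 | h1
  · exact hQ0 h1
  · have h2 : bT T l = w := by linarith
    exact hTW w hw (h2 ▸ bT_mem l)

/-- no fixed prime divisor -/
def AdmT (Q : ℕ) (T : Finset ℤ) : Prop := ∀ p : ℕ, p.Prime → ∃ n : ℤ, ∀ h ∈ T, ¬ (p : ℤ) ∣ (Q : ℤ) * n + h

theorem admT {Q : ℕ} (h : AdmT Q T) : AdmL (fun _ => (Q : ℤ)) (bT T) := by
  intro p hp
  obtain ⟨n, hn⟩ := h p hp
  exact ⟨n, fun l => hn _ (bT_mem l)⟩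

theorem detT {Q : ℕ} (hQ : 1 ≤ Q) : ∀ l m : Fin T.card, l ≠ m → (Q : ℤ) * bT T m - (Q : ℤ) * bT T l ≠ 0 := by
  intro l m hlm h0
  have hQ0 : (Q : ℤ) ≠ 0 := by exact_mod_cast (by omega : Q ≠ 0)
  rw [← mul_sub] at h0
  rcases mul_eq_zero.1 h0 with h1 | h1
  · exact hQ0 h1
  · exact bT_inj hlm (by linarith)

theorem all_iff (P : ℤ → Prop) (Q n : ℕ) :
    (∀ l : Fin T.card, P ((Q : ℤ) * n + bT T l)) ↔ ∀ h ∈ T, P ((Q : ℤ) * n + h) := by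
  constructor
  · intro h1 h hh
    have h2 := h1 (T.equivFin ⟨h, hh⟩)
    rwa [bT_at hh] at h2
  · intro h1 l
    exact h1 _ (bT_mem l)

theorem kill_iff (Q C n : ℕ) : (∀ τ ∈ kW Q W, ∃ q : ℕ, q.Prime ∧ q ≤ C ∧ (q : ℤ) ∣ τ.1 * n + τ.2) ↔
    ∀ w ∈ W, ∃ q : ℕ, q.Prime ∧ q ≤ C ∧ (q : ℤ) ∣ (Q : ℤ) * n + w := by
  unfold kW
  constructor
  · intro h w hw
    exact h _ (mem_image_of_mem _ hw)
  · intro h τ hτ
    rw [mem_image] at hτ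
    obtain ⟨w, hw, rfl⟩ := hτ
    exact h w hw

/-- Chen's theorem for patterns of translates -/
theorem chen (Q : ℕ) (hQ : 1 ≤ Q) (hadm : AdmT Q T) (hTW : ∀ w ∈ W, w ∉ T) (i j : ℤ) (hi : i ∈ T) (hj : j ∈ T)
    (hij : i ≠ j) :
    ∃ C t : ℕ, 1 ≤ t ∧ ∃ κ : ℝ, 0 < κ ∧ ∀ (s r : ℕ) (θ δ : ℝ), 1 ≤ s → 0 < θ → 0 < δ → ∃ b X₀ : ℕ, ∀ X : ℕ, X₀ ≤ X →
      ∀ A B : ℕ, B ≤ X → θ * X ≤ (B : ℝ) - A →
        κ * ((B : ℝ) - A) / Real.log X ^ T.card ≤ ((GC Q T W i j C t X A B).card : ℝ) ∧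
        ∀ χ : ℕ → Fin r, ∃ P : Finset (ℕ × ℕ),
          (∀ z ∈ P, 1 ≤ z.2 ∧ (z.2 : ℝ) ≤ Real.log X ^ b ∧
            ∀ l < s, z.1 + l * z.2 ∈ GC Q T W i j C t X A B ∧ χ (z.1 + l * z.2) = χ z.1) ∧
          (P : Set (ℕ × ℕ)).PairwiseDisjoint (apSet s) ∧
          (((GC Q T W i j C t X A B \ P.biUnion (apSet s)).card : ℕ) : ℝ) ≤
            δ * ((B : ℝ) - A) / Real.log X ^ T.card := by
  classical
  have hQ0 : (Q : ℤ) ≠ 0 := by exact_mod_cast (by omega : Q ≠ 0)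
  obtain ⟨C, t, ht, κ, hκ, H, H'⟩ := LG.chenG (fun _ => (Q : ℤ)) (bT T) (admT hadm) (fun _ => hQ0) (detT hQ)
    (T.equivFin ⟨i, hi⟩) (T.equivFin ⟨j, hj⟩) (fun h => hij (congrArg Subtype.val (T.equivFin.injective h)))
    (kW Q W) (kW_ne hQ) (kW_l hQ hTW)
  refine ⟨C, t, ht, κ, hκ, fun s r θ δ hs hθ hδ => ?_⟩
  obtain ⟨X₁, H1⟩ := H θ hθ
  obtain ⟨b, X₂, H2⟩ := H' s r θ δ hs hθ hδ
  refine ⟨b, max X₁ X₂, fun X hX A B hB hAB => ⟨?_, fun χ => ?_⟩⟩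
  · refine (H1 X ((le_max_left _ _).trans hX) A B hB hAB).trans ?_
    have hsub : GE' (fun _ => (Q : ℤ)) (bT T) (kW Q W) (T.equivFin ⟨i, hi⟩) (T.equivFin ⟨j, hj⟩) C t X A B ⊆
        GC Q T W i j C t X A B := by
      intro n hn
      unfold GE' at hn
      unfold GC
      rw [mem_filter] at hn ⊢
      obtain ⟨h1, h2, h3, h4, h5⟩ := hn
      rw [bT_at hi] at h2
      rw [bT_at hj] at h3
      exact ⟨h1, h2, h3, (all_iff (fun v => Almost t ((X : ℝ) ^ (1 / (t : ℝ))) v) Q n).1 h4, (kill_iff Q C n).1 h5⟩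
    exact_mod_cast card_le_card hsub
  · refine H2 X ((le_max_right _ _).trans hX) A B hB hAB _ ?_ χ
    intro n hn
    unfold GC at hn
    unfold LG.GA
    rw [mem_filter] at hn ⊢
    exact ⟨hn.1, (all_iff (fun v => Almost t ((X : ℝ) ^ (1 / (t : ℝ))) v) Q n).2 hn.2.2.2.1⟩

/-- patterns of almost primes in short intervals -/
theorem short (Q : ℕ) (hQ : 1 ≤ Q) (hadm : AdmT Q T) (hT0 : T.Nonempty) (hTW : ∀ w ∈ W, w ∉ T) (ε : ℝ) (hε : 0 < ε) :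
    ∃ C t : ℕ, 1 ≤ t ∧ ∃ κ K : ℝ, 0 < κ ∧ 0 < K ∧ ∀ (s r : ℕ) (δ : ℝ), 1 ≤ s → 0 < δ → ∃ b X₀ : ℕ, ∀ X : ℕ, X₀ ≤ X →
      ∀ A B : ℕ, B ≤ X → (X : ℝ) ^ ε ≤ (B : ℝ) - A →
        κ * ((B : ℝ) - A) / Real.log X ^ T.card ≤ ((GN Q T W C t X A B).card : ℝ) ∧
        ((GN Q T W C t X A B).card : ℝ) ≤ K * ((B : ℝ) - A) / Real.log X ^ T.card ∧
        ∀ χ : ℕ → Fin r, ∃ P : Finset (ℕ × ℕ),
          (∀ z ∈ P, 1 ≤ z.2 ∧ (z.2 : ℝ) ≤ Real.log X ^ b ∧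
            ∀ l < s, z.1 + l * z.2 ∈ GN Q T W C t X A B ∧ χ (z.1 + l * z.2) = χ z.1) ∧
          (P : Set (ℕ × ℕ)).PairwiseDisjoint (apSet s) ∧
          (((GN Q T W C t X A B \ P.biUnion (apSet s)).card : ℕ) : ℝ) ≤
            δ * ((B : ℝ) - A) / Real.log X ^ T.card := by
  classical
  have hQ0 : (Q : ℤ) ≠ 0 := by exact_mod_cast (by omega : Q ≠ 0)
  obtain ⟨C, t, ht, κ, K, hκ, hK, ⟨X₁, H1⟩, H2⟩ := LG.shortG (fun _ => (Q : ℤ)) (bT T) hT0.card_pos (admT hadm)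
    (fun _ => hQ0) (detT hQ) (kW Q W) (kW_ne hQ) (kW_l hQ hTW) ε hε
  have hup : ∀ X A B : ℕ, GN Q T W C t X A B ⊆ LG.GA (fun _ => (Q : ℤ)) (bT T) t X A B := by
    intro X A B n hn
    unfold GN at hn
    unfold LG.GA
    rw [mem_filter] at hn ⊢
    exact ⟨hn.1, (all_iff (fun v => Almost t ((X : ℝ) ^ (1 / (t : ℝ))) v) Q n).2 hn.2.1⟩
  have hlow : ∀ X A B : ℕ, LG.GT (fun _ => (Q : ℤ)) (bT T) (kW Q W) C t X A B ⊆ GN Q T W C t X A B := by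
    intro X A B n hn
    unfold LG.GT at hn
    unfold GN
    rw [mem_filter] at hn ⊢
    exact ⟨hn.1, (all_iff (fun v => Almost t ((X : ℝ) ^ (1 / (t : ℝ))) v) Q n).1 hn.2.1, (kill_iff Q C n).1 hn.2.2⟩
  refine ⟨C, t, ht, κ, K, hκ, hK, fun s r δ hs hδ => ?_⟩
  obtain ⟨b, X₂, H3⟩ := H2 s r δ hs hδ
  refine ⟨b, max X₁ X₂, fun X hX A B hB hAB => ?_⟩
  obtain ⟨h1, h2⟩ := H1 X ((le_max_left _ _).trans hX) A B hB hAB
  refine ⟨h1.trans (by exact_mod_cast card_le_card (hlow X A B)), le_trans (by exact_mod_cast card_le_card (hup X A B)) h2,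
    fun χ => ?_⟩
  exact H3 X ((le_max_right _ _).trans hX) A B hB hAB _ (hup X A B) χ

end Pool.Agent.T2H62.TU
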