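import Pool.Agent.T2H62.Tup

/-!
Sieve windows: `(x, x + k]` with `x = P n + m`, `P` the product of the primes up to `k`.
-/

set_option autoImplicit false

namespace Pool.Agent.T2H62.WI

open Finset Filter
open Pool.Agent.T2H62.TU

/-- the places of the window without prime factors `≤ k` -/
def places (m k : ℕ) : Finset ℕ := (Icc 1 k).filter (fun h => Nat.Coprime (m + h) (primorial k))

/-- the offsets -/
def offs (m k : ℕ) : Finset ℤ := (places m k).image (fun h => ((m + h : ℕ) : ℤ))

theorem offs_card (m k : ℕ) : (offs m k).card = (places m k).card := by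
  unfold offs
  apply card_image_of_injective
  intro a b h
  simp only at h
  have h1 : m + a = m + b := by exact_mod_cast h
  omega

theorem mem_offs {m k h : ℕ} : ((m + h : ℕ) : ℤ) ∈ offs m k ↔ h ∈ places m k := by
  unfold offs
  rw [mem_image]
  constructor
  · rintro ⟨h', h1, h2⟩
    have h3 : m + h' = m + h := by exact_mod_cast h2
    have h4 : h' = h := by omega
    rwa [← h4]
  · intro h1
    exact ⟨h, h1, rfl⟩

theorem adm_offs (m k : ℕ) : AdmT (primorial k) (offs m k) := by
  intro p hp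
  by_cases hpk : p ≤ k
  · refine ⟨0, fun d hd hdv => ?_⟩
    unfold offs places at hd
    rw [mem_image] at hd
    obtain ⟨h, hh, rfl⟩ := hd
    rw [mem_filter] at hh
    rw [mul_zero, zero_add] at hdv
    have h1 : p ∣ m + h := by exact_mod_cast hdv
    have h2 : p ∣ primorial k := (hp.dvd_primorial_iff).2 hpk
    have h3 := Nat.dvd_gcd h1 h2
    rw [Nat.coprime_iff_gcd_eq_one.1 hh.2] at h3
    exact hp.one_lt.ne' (Nat.dvd_one.1 h3)
  · -- solve `P n + m ≡ 0`
    have hcop : Nat.Coprime (primorial k) p := by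
      rw [Nat.coprime_comm, hp.coprime_iff_not_dvd, hp.dvd_primorial_iff]
      exact hpk
    obtain ⟨u, hu⟩ : ∃ u : ℤ, (p : ℤ) ∣ (primorial k : ℤ) * u + m := by
      have h1 := Int.gcd_eq_gcd_ab (primorial k : ℤ) (p : ℤ)
      have h2 : Int.gcd (primorial k : ℤ) (p : ℤ) = 1 := by
        rw [Int.gcd_natCast_natCast]
        exact hcop
      rw [h2] at h1
      refine ⟨-(m : ℤ) * Int.gcdA (primorial k : ℤ) (p : ℤ), (m : ℤ) * Int.gcdB (primorial k : ℤ) (p : ℤ), ?_⟩
      have h3 : (1 : ℤ) = (primorial k : ℤ) * Int.gcdA (primorial k : ℤ) (p : ℤ) + (p : ℤ) * Int.gcdB (primorial k : ℤ) (p : ℤ) := by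
        exact_mod_cast h1
      linear_combination (m : ℤ) * h3
    refine ⟨u, fun d hd hdv => ?_⟩
    unfold offs places at hd
    rw [mem_image] at hd
    obtain ⟨h, hh, rfl⟩ := hd
    rw [mem_filter, mem_Icc] at hh
    have h1 : (p : ℤ) ∣ (h : ℤ) := by
      have h2 := dvd_sub hdv hu
      have h3 : (primorial k : ℤ) * u + ((m + h : ℕ) : ℤ) - ((primorial k : ℤ) * u + m) = (h : ℤ) := by push_cast; ring
      rwa [h3] at h2
    have h2 : p ∣ h := by exact_mod_cast h1
    have h3 := Nat.le_of_dvd (by omega) h2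
    omega

end Pool.Agent.T2H62.WI
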